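import Pool.Agent.MP_2a5a28_nt.H63Y.Defs

set_option autoImplicit false

namespace Pool.Agent.MP_2a5a28_nt.H63Y

open Finset NumberField Module
open H63 (Sx nm wt Lo tr ow)
open H15Z

section
-- BEGIN CNT3
theorem cnt3_mem {e m : ℕ} {t : Fin 3 → Fin e → ℕ} : t ∈ Tr3 e m ↔ ∀ j, ∑ k, t k j = m := by
  simp only [Tr3, mem_filter, Fintype.mem_piFinset, mem_range, Nat.lt_succ_iff]
  refine ⟨fun h => h.2, fun h => ⟨fun k j => ?_, h⟩⟩
  rw [← h j]
  exact single_le_sum (f := fun k => t k j) (fun _ _ => Nat.zero_le _) (mem_univ k)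

theorem cnt3_prod (e m : ℕ) (f : (Fin 3 → ℕ) → ℝ) :
    ∑ t ∈ Tr3 e m, ∏ j, f (fun k => t k j) = (∑ u ∈ piAntidiag univ m, f u) ^ e := by
  have h1 := prod_univ_sum (fun _ : Fin e => piAntidiag (univ : Finset (Fin 3)) m) (fun _ u => f u)
  rw [prod_const, card_univ, Fintype.card_fin] at h1
  rw [h1]
  refine sum_nbij' (fun t j k => t k j) (fun t k j => t j k) (fun t ht => ?_) (fun t ht => ?_)
    (fun _ _ => rfl) (fun _ _ => rfl) (fun _ _ => rfl)
  · exact Fintype.mem_piFinset.2 fun j =>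
      mem_piAntidiag.2 ⟨cnt3_mem.1 ht j, fun _ _ => mem_univ _⟩
  · exact cnt3_mem.2 fun j => (mem_piAntidiag.1 (Fintype.mem_piFinset.1 ht j)).1

theorem cnt3_mean (m : ℕ) :
    3 * ∑ u ∈ piAntidiag (univ : Finset (Fin 3)) m, (u 0 : ℝ) =
      (piAntidiag (univ : Finset (Fin 3)) m).card * m := by
  have h1 : ∀ k : Fin 3, ∑ u ∈ piAntidiag (univ : Finset (Fin 3)) m, (u k : ℝ) =
      ∑ u ∈ piAntidiag (univ : Finset (Fin 3)) m, (u 0 : ℝ) := fun k => by
    have h2 : ∀ u ∈ piAntidiag (univ : Finset (Fin 3)) m,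
        (fun a => u (Equiv.swap 0 k a)) ∈ piAntidiag (univ : Finset (Fin 3)) m := fun u hu =>
      mem_piAntidiag.2 ⟨(Equiv.sum_comp (Equiv.swap 0 k) u).trans (mem_piAntidiag.1 hu).1,
        fun _ _ => mem_univ _⟩
    refine sum_nbij' (fun u a => u (Equiv.swap 0 k a)) (fun u a => u (Equiv.swap 0 k a)) h2 h2
      (fun u _ => ?_) (fun u _ => ?_) (fun u _ => ?_)
    · simp only [Equiv.swap_apply_self]
    · simp only [Equiv.swap_apply_self]
    · simp only [Equiv.swap_apply_left]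
  have h3 : ∑ u ∈ piAntidiag (univ : Finset (Fin 3)) m, ∑ k, (u k : ℝ) =
      (piAntidiag (univ : Finset (Fin 3)) m).card * m := by
    rw [← nsmul_eq_mul, ← sum_const]
    refine sum_congr rfl fun u hu => ?_
    exact_mod_cast (mem_piAntidiag.1 hu).1
  rw [← h3, sum_comm, sum_congr rfl fun k _ => h1 k, sum_const, card_univ, Fintype.card_fin,
    nsmul_eq_mul, Nat.cast_ofNat]

theorem cnt3_one (a : ℝ) (a0 : 0 ≤ a) (a1 : a ≤ 1) (m : ℕ) (hm : 1 ≤ m) :
    ∑ u ∈ piAntidiag (univ : Finset (Fin 3)) m, Real.exp (a * (1 / 3 - (u 0 : ℝ) / m)) ≤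
      (piAntidiag (univ : Finset (Fin 3)) m).card * Real.exp (a ^ 2 / 2) := by
  have m0 : (0 : ℝ) < m := by exact_mod_cast hm
  have h1 : ∑ u ∈ piAntidiag (univ : Finset (Fin 3)) m, Real.exp (a * (1 / 3 - (u 0 : ℝ) / m)) ≤
      ∑ u ∈ piAntidiag (univ : Finset (Fin 3)) m,
        (Real.exp (a ^ 2 / 2) + a * (1 / 3 - (u 0 : ℝ) / m)) := by
    refine sum_le_sum fun u hu => ?_
    have k2 : u 0 ≤ m := by
      rw [← (mem_piAntidiag.1 hu).1]
      exact single_le_sum (f := u) (fun _ _ => Nat.zero_le _) (mem_univ 0)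
    have k1 : (u 0 : ℝ) / m ≤ 1 := (div_le_one m0).2 (by exact_mod_cast k2)
    have k0 : (0 : ℝ) ≤ (u 0 : ℝ) / m := by positivity
    obtain ⟨z, hz⟩ : ∃ z : ℝ, z = 1 / 3 - (u 0 : ℝ) / m := ⟨_, rfl⟩
    rw [← hz]
    have z1 : z ^ 2 ≤ 1 / 2 := by rw [hz]; nlinarith only [k0, k1]
    have z2 : (a * z) ^ 2 ≤ a ^ 2 / 2 := by rw [mul_pow]; nlinarith only [z1, sq_nonneg a]
    have z3 : |a * z| ≤ 1 := by
      rw [← sq_le_one_iff_abs_le_one]
      nlinarith only [z2, a0, a1]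
    have h2 := (abs_le.1 (Real.abs_exp_sub_one_sub_id_le z3)).2
    have h3 := Real.add_one_le_exp (a ^ 2 / 2)
    linarith only [h2, h3, z2]
  refine h1.trans (le_of_eq ?_)
  have h4 := cnt3_mean m
  rw [sum_add_distrib, sum_const, ← mul_sum, sum_sub_distrib, sum_const, ← sum_div, nsmul_eq_mul,
    nsmul_eq_mul, add_eq_left]
  refine mul_eq_zero_of_right _ ?_
  rw [sub_eq_zero, eq_div_iff m0.ne']
  linarith only [h4]

theorem cnt3_box (σ : ℝ) (hσ : 0 < σ) (h1σ : σ ≤ 1) (e m D : ℕ) (hm : 1 ≤ m)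
    (hD : (D : ℝ) ≤ (1 / 3 - σ) * (e * m)) :
    (((Tr3 e m).filter fun t => ∑ j, t 0 j ≤ D).card : ℝ) * Real.exp (σ ^ 2 / 2 * e) ≤
      (Tr3 e m).card := by
  have m0 : (0 : ℝ) < m := by exact_mod_cast hm
  have h1 : (((Tr3 e m).filter fun t => ∑ j, t 0 j ≤ D).card : ℝ) * Real.exp (σ ^ 2 * e) ≤
      ∑ t ∈ Tr3 e m, ∏ j, Real.exp (σ * (1 / 3 - (t 0 j : ℝ) / m)) := by
    refine le_trans ?_ (sum_le_sum_of_subset_of_nonneg
      (filter_subset (fun t => ∑ j, t 0 j ≤ D) _) fun _ _ _ => by positivity)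
    rw [← nsmul_eq_mul]
    refine card_nsmul_le_sum _ _ _ fun i hi => ?_
    rw [← Real.exp_sum, ← mul_sum, sum_sub_distrib, sum_const, ← sum_div, ← Nat.cast_sum,
      card_univ, Fintype.card_fin, nsmul_eq_mul]
    have h2 : ((∑ j, i 0 j : ℕ) : ℝ) / m ≤ (1 / 3 - σ) * e := by
      rw [div_le_iff₀ m0, mul_assoc]
      exact (Nat.cast_le.2 (mem_filter.1 hi).2).trans hD
    exact Real.exp_le_exp.2 (by nlinarith only [h2, hσ])
  have h3 := cnt3_prod e m fun u => Real.exp (σ * (1 / 3 - (u 0 : ℝ) / m))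
  have h5 := cnt3_prod e m fun _ => 1
  rw [prod_const_one, sum_const, sum_const, nsmul_eq_mul, nsmul_eq_mul, mul_one, mul_one] at h5
  have h6 := pow_le_pow_left₀ (by positivity) (cnt3_one σ hσ.le h1σ m hm) e
  have h4 : Real.exp (σ ^ 2 * e) = Real.exp (σ ^ 2 / 2 * e) * Real.exp (σ ^ 2 / 2) ^ e := by
    rw [← Real.exp_nat_mul, ← Real.exp_add]
    exact congrArg Real.exp (by ring)
  rw [h4, ← mul_assoc] at h1
  rw [mul_pow, ← h5, ← h3] at h6
  exact le_of_mul_le_mul_right (h1.trans h6) (by positivity)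

theorem cnt3_row : CNT3_s := by
  intro σ hσ h1σ L e1
  obtain ⟨n, hn⟩ := exists_nat_ge (1152 * L ^ 2 / σ ^ 6)
  refine ⟨n + e1 + 1, by omega, fun m D hm hD => ?_⟩
  have h1 := cnt3_box σ hσ h1σ _ m D hm hD
  obtain ⟨e, he⟩ : ∃ e, e = n + e1 + 1 := ⟨_, rfl⟩
  rw [← he] at h1 ⊢
  have e0 : (1 : ℝ) ≤ e := by exact_mod_cast (by omega : 1 ≤ e)
  have e2 : (n : ℝ) ≤ e := by exact_mod_cast (by omega : n ≤ e)
  have h2 : 1152 * (L : ℝ) ^ 2 ≤ e * σ ^ 6 := (div_le_iff₀ (by positivity)).1 (hn.trans e2)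
  have h3 := Real.pow_div_factorial_le_exp (σ ^ 2 / 2 * e) (by positivity) 3
  have h5 : 6 * ((e : ℝ) + 1) ^ 2 * L ^ 2 ≤ Real.exp (σ ^ 2 / 2 * e) := by
    refine le_trans ?_ h3
    have h6 := mul_le_mul_of_nonneg_left h2 (sq_nonneg (e : ℝ))
    have h7 : ((e : ℝ) + 1) ^ 2 ≤ 4 * e ^ 2 := by nlinarith only [e0]
    have h8 := mul_le_mul_of_nonneg_left h7 (sq_nonneg (L : ℝ))
    rw [show ((Nat.factorial 3 : ℕ) : ℝ) = 6 by norm_num [Nat.factorial]]
    nlinarith only [h6, h8]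
  rw [← Nat.cast_le (α := ℝ)]
  push_cast
  refine le_trans ?_ h1
  rw [mul_comm]
  exact mul_le_mul_of_nonneg_left h5 (Nat.cast_nonneg _)
-- END CNT3
end

section
-- BEGIN SIEG3
theorem sieg3_mem {e m : ℕ} {t : Fin 3 → Fin e → ℕ} :
    t ∈ Tr3 e m ↔ ∀ j, t 0 j + t 1 j + t 2 j = m := by
  simp only [Tr3, mem_filter, Fintype.mem_piFinset, mem_range, Nat.lt_succ_iff,
    Fin.sum_univ_three]
  refine ⟨fun h => h.2, fun h => ⟨fun k j => ?_, h⟩⟩
  have h1 := h j
  fin_cases k <;> simp only [Fin.zero_eta, Fin.mk_one, Fin.reduceFinMk] <;> omega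

theorem sieg3_tot {e m : ℕ} {t : Fin 3 → Fin e → ℕ} (ht : t ∈ Tr3 e m) :
    ∑ j, t 0 j + ∑ j, t 1 j + ∑ j, t 2 j = e * m := by
  rw [← sum_add_distrib, ← sum_add_distrib, sum_congr rfl fun j _ => sieg3_mem.1 ht j, sum_const,
    card_univ, Fintype.card_fin, smul_eq_mul]

theorem sieg3_le {e m : ℕ} {t : Fin 3 → Fin e → ℕ} (ht : t ∈ Tr3 e m) (k : Fin 3) :
    ∑ j, t k j ≤ e * m := by
  have h1 := sieg3_tot ht
  fin_cases k <;> simp only [Fin.zero_eta, Fin.mk_one, Fin.reduceFinMk] <;> omega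

theorem sieg3_two {e m : ℕ} {t : Fin 3 → Fin e → ℕ} (ht : t ∈ Tr3 e m) (c : Fin 3) (j : Fin e) :
    t c j + t (c + 1) j ≤ m := by
  have h1 := sieg3_mem.1 ht j
  fin_cases c <;> simp only [Fin.zero_eta, Fin.mk_one, Fin.reduceFinMk, Fin.reduceAdd] <;> omega

theorem sieg3_card (e m : ℕ) : (Tr3 e m).card ≤ 2 ^ (e * m) * 2 ^ (e * m) := by
  have h2 : (m + 1) ^ e ≤ 2 ^ (e * m) := by
    rw [mul_comm, pow_mul]
    exact Nat.pow_le_pow_left Nat.lt_two_pow_self e
  refine le_trans ?_ (Nat.mul_le_mul h2 h2)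
  rw [← sieg_card, ← card_product]
  refine card_le_card_of_injOn (fun t => (t 0, t 1)) (fun t ht => ?_) fun t ht t' ht' h => ?_
  · have h1 := sieg3_mem.1 ht
    exact mem_coe.2 (mem_product.2 ⟨sieg_mem.2 fun j => by have := h1 j; dsimp only; omega,
      sieg_mem.2 fun j => by have := h1 j; dsimp only; omega⟩)
  · have h0 : t 0 = t' 0 := congrArg Prod.fst h
    have h1 : t 1 = t' 1 := congrArg Prod.snd h
    have h3 : t 2 = t' 2 := funext fun j => by
      have a := sieg3_mem.1 ht j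
      have b := sieg3_mem.1 ht' j
      rw [h0, h1] at a
      omega
    funext k
    fin_cases k
    exacts [h0, h1, h3]

theorem sieg3_lin {e m : ℕ} {t : Fin 3 → Fin e → ℕ} (ht : t ∈ Tr3 e m) (τ : Fin e → ℝ)
    (hτ : ∀ j, 0 ≤ τ j ∧ τ j ≤ 1) :
    (∀ k, 0 ≤ ∑ j, t k j * τ j ∧ ∑ j, t k j * τ j ≤ (e * m : ℕ)) ∧
    ∑ j, t 0 j * τ j + ∑ j, t 1 j * τ j + ∑ j, t 2 j * τ j = m * ∑ j, τ j := by
  refine ⟨fun k => ⟨sum_nonneg fun j _ => mul_nonneg (Nat.cast_nonneg _) (hτ j).1, ?_⟩, ?_⟩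
  · refine le_trans ?_ (Nat.cast_le.2 (sieg3_le ht k))
    rw [Nat.cast_sum]
    exact sum_le_sum fun j _ => mul_le_of_le_one_right (Nat.cast_nonneg _) (hτ j).2
  · rw [← sum_add_distrib, ← sum_add_distrib, mul_sum]
    refine sum_congr rfl fun j _ => ?_
    rw [← sieg3_mem.1 ht j]
    push_cast
    ring

theorem sieg3_fl {a b c S : ℝ} {T : ℕ} (a0 : 0 ≤ a) (b0 : 0 ≤ b) (c0 : 0 ≤ c) (c1 : c ≤ T)
    (h : a + b + c = S) : ⌊a⌋₊ + ⌊b⌋₊ ≤ ⌊S⌋₊ ∧ ⌊S⌋₊ ≤ ⌊a⌋₊ + ⌊b⌋₊ + T + 1 := by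
  have a1 := Nat.floor_le a0
  have b1 := Nat.floor_le b0
  have a2 := Nat.lt_floor_add_one a
  have b2 := Nat.lt_floor_add_one b
  have s1 := Nat.floor_le (show 0 ≤ S by linarith only [a0, b0, c0, h])
  refine ⟨Nat.le_floor (by push_cast; linarith only [a1, b1, c0, h]), ?_⟩
  rw [← Nat.lt_succ_iff, ← Nat.cast_lt (α := ℝ)]
  push_cast
  linarith only [s1, a2, b2, c1, h]

theorem sieg3_sol (e m D : ℕ) (E : Finset (Fin 3 → Fin e → ℕ)) (hsub : E ⊆ Tr3 e m)
    (s : (Fin 3 → Fin e → ℕ) → Fin 3 → ℕ)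
    (hE : 6 * ((Tr3 e m).filter fun t => ∑ j, t 0 j ≤ D).card ≤ E.card) :
    ∃ M : (Fin 3 → Fin e → ℕ) → ℤ, (∃ t ∈ E, M t ≠ 0) ∧
      ∑ t ∈ E, |(M t : ℝ)| ≤ Real.exp (4 * (e * m : ℕ)) ∧ Mom D E M s := by
  classical
  obtain ⟨Z, hZ⟩ : ∃ Z, Z = (Tr3 e m).filter fun t => ∑ j, t 0 j ≤ D := ⟨_, rfl⟩
  rw [← hZ] at hE
  have hcard : (E.card : ℝ) ≤ 2 ^ (e * m) * 2 ^ (e * m) := by
    exact_mod_cast (card_le_card hsub).trans (sieg3_card e m)
  obtain ⟨v, v0, v1, v2⟩ := H63.sieg_int (α := Fin 3 × Z) (β := E)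
    (Matrix.of fun q t => if t.1 q.1 = q.2.1 1 then
      (-1) ^ s t.1 (q.1 + 1) * ∏ j, ((t.1 (q.1 + 1) j).choose (q.2.1 0 j) : ℤ) else 0)
    (2 ^ (e * m)) (one_le_pow₀ (by norm_num))
    (fun q t => by
      have h1 : ∏ j, (t.1 (q.1 + 1) j).choose (q.2.1 0 j) ≤ 2 ^ (e * m) :=
        (prod_le_prod' fun j _ => Nat.choose_le_two_pow _ _).trans (by
          rw [prod_pow_eq_pow_sum]
          exact Nat.pow_le_pow_right (by norm_num) (sieg3_le (hsub t.2) _))
      rw [Matrix.of_apply]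
      split_ifs
      · push_cast
        rw [abs_mul, abs_pow, abs_neg, abs_one, one_pow, one_mul, abs_of_nonneg (by positivity)]
        exact_mod_cast h1
      · rw [Int.cast_zero, abs_zero]
        positivity)
    (by
      rw [Fintype.card_prod, Fintype.card_fin, Fintype.card_coe]
      refine Nat.mul_pos (by norm_num) ?_
      rw [card_pos, hZ]
      exact ⟨![0, fun _ => m, 0], mem_filter.2 ⟨sieg3_mem.2 fun _ => by simp, by simp⟩⟩)
    (by
      rw [Fintype.card_prod, Fintype.card_fin, Fintype.card_coe, Fintype.card_coe]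
      omega)
  rw [Fintype.card_coe] at v2
  obtain ⟨M, hM⟩ : ∃ M : (Fin 3 → Fin e → ℕ) → ℤ, ∀ t : E, M t = v t :=
    ⟨fun t => if h : t ∈ E then v ⟨t, h⟩ else 0, fun t => dif_pos t.2⟩
  refine ⟨M, ?_, ?_, fun c n i hi => ?_⟩
  · obtain ⟨t, ht⟩ := Function.ne_iff.1 v0
    exact ⟨t, t.2, by rw [hM]; exact ht⟩
  · refine (sum_le_card_nsmul E _ (2 ^ (e * m) * 2 ^ (e * m) * 2 ^ (e * m)) fun t ht => ?_).trans ?_
    · rw [hM ⟨t, ht⟩]
      exact (v2 _).trans (mul_le_mul_of_nonneg_right hcard (by positivity))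
    · rw [nsmul_eq_mul]
      refine (mul_le_mul_of_nonneg_right hcard (by positivity)).trans ?_
      rw [mul_comm (4 : ℝ), Real.exp_nat_mul, ← mul_pow, ← mul_pow, ← mul_pow]
      refine pow_le_pow_left₀ (by norm_num) ?_ _
      have h1 := pow_le_pow_left₀ (by norm_num) Real.exp_one_gt_d9.le 4
      rw [Real.exp_one_pow, Nat.cast_ofNat] at h1
      refine le_trans ?_ h1
      norm_num
  · by_cases hb : ∀ j, i j + n j ≤ m
    · have hz : (![i, n, fun j => m - (i j + n j)] : Fin 3 → Fin e → ℕ) ∈ Z := by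
        rw [hZ]
        exact mem_filter.2 ⟨sieg3_mem.2 fun j => Nat.add_sub_of_le (hb j), hi⟩
      have h1 := congrFun v1 (c, ⟨_, hz⟩)
      rw [sum_filter, ← sum_coe_sort E]
      refine (sum_congr rfl fun t _ => ?_).trans h1
      rw [hM]
      change _ = (if t.1 c = n then
        (-1) ^ s t.1 (c + 1) * ∏ j, ((t.1 (c + 1) j).choose (i j) : ℤ) else 0) * v t
      rw [ite_mul, zero_mul, mul_assoc, mul_comm]
    · rw [not_forall] at hb
      obtain ⟨j, hj⟩ := hb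
      refine sum_eq_zero fun t ht => mul_eq_zero_of_right _ (prod_eq_zero (mem_univ j) ?_)
      have h1 := sieg3_two (hsub (mem_filter.1 ht).1) c j
      rw [(mem_filter.1 ht).2] at h1
      rw [Nat.choose_eq_zero_of_lt (by omega), Nat.cast_zero]

theorem sieg3_row : SIEG3_s := by
  intro e m D L he hm hL hc τ hτ
  classical
  obtain ⟨y, hy⟩ : ∃ y : (Fin 3 → Fin e → ℕ) → Fin 3 → ℝ, ∀ t k, y t k = ∑ j, t k j * τ j :=
    ⟨_, fun _ _ => rfl⟩
  obtain ⟨x, hx⟩ : ∃ x : (Fin 3 → Fin e → ℕ) → Fin 3 → ℝ,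
      ∀ t k, x t k = (⌊y t k⌋₊ + 1 : ℕ) - y t k := ⟨_, fun _ _ => rfl⟩
  have hq : ∀ t ∈ Tr3 e m, ∀ k, (∑ j, t k j) / m ∈ range (e + 1) := fun t ht k =>
    mem_range.2 (Nat.lt_succ_of_le
      (Nat.div_le_of_le_mul ((sieg3_le ht k).trans (le_of_eq (mul_comm _ _)))))
  have hr : ∀ a : ℕ, min a (L - 1) ∈ range L := fun a => mem_range.2 (by omega)
  obtain ⟨c, -, hcE⟩ := exists_le_card_fiber_of_mul_le_card_of_maps_to (s := Tr3 e m)
    (t := (range (e + 1) ×ˢ range (e + 1)) ×ˢ (range L ×ˢ range L))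
    (f := fun t => (((∑ j, t 0 j) / m, (∑ j, t 1 j) / m),
      (min ⌊L * x t 0⌋₊ (L - 1), min ⌊L * x t 1⌋₊ (L - 1))))
    (n := 6 * ((Tr3 e m).filter fun t => ∑ j, t 0 j ≤ D).card)
    (fun t ht => mem_product.2 ⟨mem_product.2 ⟨hq t ht 0, hq t ht 1⟩,
      mem_product.2 ⟨hr _, hr _⟩⟩)
    ⟨((0, 0), (0, 0)), mem_product.2 ⟨mem_product.2 ⟨mem_range.2 e.succ_pos,
      mem_range.2 e.succ_pos⟩, mem_product.2 ⟨mem_range.2 hL, mem_range.2 hL⟩⟩⟩
    (by
      rw [card_product, card_product, card_product, card_range, card_range]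
      exact (le_of_eq (by ring)).trans hc)
  obtain ⟨E, hE⟩ : ∃ E, E = (Tr3 e m).filter
      fun t => (((∑ j, t 0 j) / m, (∑ j, t 1 j) / m),
        (min ⌊L * x t 0⌋₊ (L - 1), min ⌊L * x t 1⌋₊ (L - 1))) = c := ⟨_, rfl⟩
  rw [← hE] at hcE
  have hsub : E ⊆ Tr3 e m := hE ▸ filter_subset _ _
  obtain ⟨S, hS⟩ : ∃ S : ℝ, S = m * ∑ j, τ j := ⟨_, rfl⟩
  obtain ⟨M, ⟨t0, ht0, hM0⟩, hM1, hM2⟩ := sieg3_sol e m D E hsub
    (fun t => ![⌊y t 0⌋₊ + 1, ⌊y t 1⌋₊ + 1, ⌊S⌋₊ - (⌊y t 0⌋₊ + ⌊y t 1⌋₊)]) hcE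
  have key : ∀ t ∈ E, (c.1.1 * m ≤ ∑ j, t 0 j ∧ ∑ j, t 0 j ≤ c.1.1 * m + m) ∧
      (c.1.2 * m ≤ ∑ j, t 1 j ∧ ∑ j, t 1 j ≤ c.1.2 * m + m) ∧
      ((c.2.1 : ℝ) / L ≤ x t 0 ∧ x t 0 ≤ (c.2.1 : ℝ) / L + 1 / L) ∧
      ((c.2.2 : ℝ) / L ≤ x t 1 ∧ x t 1 ≤ (c.2.2 : ℝ) / L + 1 / L) := fun t ht => by
    have h0 := (sieg3_lin (hsub ht) τ hτ).1
    have h1 : ∀ k, 0 ≤ x t k ∧ x t k ≤ 1 := fun k => by
      have a1 := Nat.floor_le (hy t k ▸ (h0 k).1 : 0 ≤ y t k)
      have a2 := Nat.lt_floor_add_one (y t k)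
      rw [hx, Nat.cast_add, Nat.cast_one]
      exact ⟨by linarith only [a2], by linarith only [a1]⟩
    have h2 : ∀ a : ℕ, a / m * m ≤ a ∧ a ≤ a / m * m + m := fun a => by
      have b1 := Nat.div_add_mod' a m
      have b2 := Nat.mod_lt a hm
      omega
    rw [hE] at ht
    rw [← (mem_filter.1 ht).2]
    exact ⟨h2 _, h2 _, H63.sieg_cell L hL (h1 0).1 (h1 0).2, H63.sieg_cell L hL (h1 1).1 (h1 1).2⟩
  have fl : ∀ t ∈ E, (⌊y t 0⌋₊ + ⌊y t 1⌋₊ ≤ ⌊S⌋₊ ∧ ⌊S⌋₊ ≤ ⌊y t 0⌋₊ + ⌊y t 1⌋₊ + e * m + 1) ∧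
      ⌊y t 0⌋₊ ≤ e * m ∧ ⌊y t 1⌋₊ ≤ e * m ∧ y t 0 + y t 1 + y t 2 = S := fun t ht => by
    obtain ⟨h0, h1⟩ := sieg3_lin (hsub ht) τ hτ
    rw [hy, hy, hy, hS]
    exact ⟨sieg3_fl (h0 0).1 (h0 1).1 (h0 2).1 (h0 2).2 h1, Nat.floor_le_of_le (h0 0).2,
      Nat.floor_le_of_le (h0 1).2, h1⟩
  refine ⟨E, M, _, ![c.1.1 * m + m, c.1.2 * m + m, e * m - (c.1.1 * m + c.1.2 * m)],
    ![(c.2.1 : ℝ) / L, (c.2.2 : ℝ) / L,
      (⌊S⌋₊ + 2 : ℕ) - S - (c.2.1 : ℝ) / L - (c.2.2 : ℝ) / L - 2 / L], ⌊S⌋₊ + 2,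
    ⟨hsub, fun t ht => ?_, ?_, fun t ht => ?_, fun t ht => ?_, fun t ht => ?_, ?_⟩,
    ⟨t0, ht0, hM0⟩, hM1, hM2⟩
  · obtain ⟨k1, k2, -⟩ := key t ht
    have h1 := sieg3_tot (hsub ht)
    rw [Fin.forall_fin_succ, Fin.forall_fin_two]
    refine ⟨k1.2, k2.2, ?_⟩
    change ∑ j, t 2 j ≤ e * m - (c.1.1 * m + c.1.2 * m)
    omega
  · obtain ⟨k1, k2, -⟩ := key t0 ht0
    have h1 := sieg3_tot (hsub ht0)
    rw [Fin.sum_univ_three]
    change c.1.1 * m + m + (c.1.2 * m + m) + (e * m - (c.1.1 * m + c.1.2 * m)) = _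
    omega
  · obtain ⟨k1, -⟩ := fl t ht
    rw [Fin.sum_univ_three]
    change ⌊y t 0⌋₊ + 1 + (⌊y t 1⌋₊ + 1) + (⌊S⌋₊ - (⌊y t 0⌋₊ + ⌊y t 1⌋₊)) = _
    omega
  · obtain ⟨k1, k2, k3, -⟩ := fl t ht
    rw [Fin.forall_fin_succ, Fin.forall_fin_two]
    refine ⟨Nat.succ_le_succ k2, Nat.succ_le_succ k3, ?_⟩
    change ⌊S⌋₊ - (⌊y t 0⌋₊ + ⌊y t 1⌋₊) ≤ _
    omega
  · obtain ⟨k1, -, -, k4⟩ := fl t ht
    obtain ⟨-, -, k2, k3⟩ := key t ht
    rw [hx] at k2 k3
    simp only [← hy]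
    rw [Fin.forall_fin_succ, Fin.forall_fin_two]
    refine ⟨k2.1, k3.1, ?_⟩
    change ((⌊S⌋₊ + 2 : ℕ) : ℝ) - S - (c.2.1 : ℝ) / L - (c.2.2 : ℝ) / L - 2 / L ≤
      ((⌊S⌋₊ - (⌊y t 0⌋₊ + ⌊y t 1⌋₊) : ℕ) : ℝ) - y t 2
    rw [Nat.cast_sub k1.1]
    have k5 := k2.2
    have k6 := k3.2
    have k7 : (2 : ℝ) / L = 1 / L + 1 / L := by ring
    push_cast at k5 k6 ⊢
    linarith only [k4, k5, k6, k7]
  · rw [Fin.sum_univ_three, ← hS]
    change (c.2.1 : ℝ) / L + (c.2.2 : ℝ) / L +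
      (((⌊S⌋₊ + 2 : ℕ) : ℝ) - S - (c.2.1 : ℝ) / L - (c.2.2 : ℝ) / L - 2 / L) + 2 / L = _
    ring
-- END SIEG3
end

section
-- BEGIN POLY
theorem poly_newton (P : Polynomial ℚ) (n : ℕ) (hP : P.natDegree ≤ n) :
    ∃ β : ℕ → ℚ, ∀ x : ℕ, P.eval (x : ℚ) = ∑ l ∈ range (n + 1), β l * (x.choose l : ℚ) := by
  refine ⟨fun l => (fwdDiff (1 : ℚ))^[l] P.eval 0, fun x => ?_⟩
  have h1 := shift_eq_sum_fwdDiff_iter (1 : ℚ) P.eval x 0
  rw [zero_add, nsmul_eq_mul, mul_one] at h1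
  rw [h1]
  have h2 : ∑ k ∈ range (x + 1), x.choose k • (fwdDiff (1 : ℚ))^[k] P.eval 0 =
      ∑ k ∈ range (x + n + 1), (fwdDiff (1 : ℚ))^[k] P.eval 0 * (x.choose k : ℚ) := by
    rw [← Finset.sum_subset (s₁ := range (x + 1)) (s₂ := range (x + n + 1))]
    · refine Finset.sum_congr rfl fun k _ => ?_
      rw [nsmul_eq_mul, mul_comm]
    · intro k hk
      rw [mem_range] at hk ⊢
      omega
    · intro k _ hk
      rw [mem_range] at hk
      rw [Nat.choose_eq_zero_of_lt (by omega)]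
      simp
  rw [h2]
  symm
  apply Finset.sum_subset
  · intro k hk
    rw [mem_range] at hk ⊢
    omega
  · intro k _ hk
    rw [mem_range] at hk
    have h3 := Polynomial.fwdDiff_iter_eq_zero_of_degree_lt (P := P) (n := k) (by omega)
    show (fwdDiff (1 : ℚ))^[k] P.eval 0 * (x.choose k : ℚ) = 0
    rw [h3]
    simp

theorem poly_one (c i i' : ℕ) : ∃ β : ℕ → ℚ, ∀ x : ℕ, x ≤ c →
    (((c - x).choose i' : ℕ) : ℚ) * (x.choose i : ℚ) =
      ∑ l ∈ range (i + i' + 1), β l * (x.choose l : ℚ) := by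
  have hd : (Polynomial.C ((i.factorial : ℚ)⁻¹ * (i'.factorial : ℚ)⁻¹) *
      (descPochhammer ℚ i * (descPochhammer ℚ i').comp (Polynomial.C (c : ℚ) - Polynomial.X))).natDegree
      ≤ i + i' := by
    refine (Polynomial.natDegree_C_mul_le _ _).trans (Polynomial.natDegree_mul_le.trans ?_)
    have h1 : (Polynomial.C (c : ℚ) - Polynomial.X).natDegree ≤ 1 :=
      (Polynomial.natDegree_sub_le _ _).trans (by simp)
    have h2 := Polynomial.natDegree_comp_le (p := descPochhammer ℚ i')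
      (q := Polynomial.C (c : ℚ) - Polynomial.X)
    rw [descPochhammer_natDegree] at h2 ⊢
    have h3 : i' * (Polynomial.C (c : ℚ) - Polynomial.X).natDegree ≤ i' * 1 :=
      Nat.mul_le_mul_left _ h1
    omega
  obtain ⟨β, hβ⟩ := poly_newton _ _ hd
  refine ⟨β, fun x hx => ?_⟩
  rw [← hβ x]
  have h1 : ((c : ℚ) - x) = ((c - x : ℕ) : ℚ) := by rw [Nat.cast_sub hx]
  have h2 : (i.factorial : ℚ) ≠ 0 := by exact_mod_cast i.factorial_ne_zero
  have h3 : (i'.factorial : ℚ) ≠ 0 := by exact_mod_cast i'.factorial_ne_zero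
  rw [Polynomial.eval_mul, Polynomial.eval_mul, Polynomial.eval_C, Polynomial.eval_comp,
    Polynomial.eval_sub, Polynomial.eval_C, Polynomial.eval_X, h1,
    descPochhammer_eval_eq_descFactorial, descPochhammer_eval_eq_descFactorial,
    Nat.descFactorial_eq_factorial_mul_choose, Nat.descFactorial_eq_factorial_mul_choose]
  push_cast
  field_simp

theorem poly_row : POLY_s := by
  intro e D ι E M t c i' hc h i hi
  choose β hβ using fun j : Fin e => poly_one (c j) (i j) (i' j)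
  have key : ∑ a ∈ E, ((M a : ℚ) * ∏ j, (((c j - t a j).choose (i' j) : ℕ) : ℚ)) *
      ∏ j, ((t a j).choose (i j) : ℚ) = 0 := by
    have h1 : ∀ a ∈ E, ((M a : ℚ) * ∏ j, (((c j - t a j).choose (i' j) : ℕ) : ℚ)) *
        ∏ j, ((t a j).choose (i j) : ℚ) =
        ∑ l ∈ Fintype.piFinset (fun j => range (i j + i' j + 1)),
          (∏ j, β j (l j)) * ((M a : ℚ) * ∏ j, ((t a j).choose (l j) : ℚ)) := by
      intro a ha
      rw [mul_assoc, ← Finset.prod_mul_distrib,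
        Finset.prod_congr rfl fun j _ => hβ j (t a j) (hc a ha j), Finset.prod_univ_sum,
        Finset.mul_sum]
      refine Finset.sum_congr rfl fun l _ => ?_
      rw [Finset.prod_mul_distrib]
      ring
    rw [Finset.sum_congr rfl h1, Finset.sum_comm]
    refine Finset.sum_eq_zero fun l hl => ?_
    rw [← Finset.mul_sum]
    have h2 : ∑ j, l j ≤ D := by
      refine le_trans ?_ hi
      rw [← Finset.sum_add_distrib]
      refine Finset.sum_le_sum fun j _ => ?_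
      have := Fintype.mem_piFinset.1 hl j
      rw [mem_range] at this
      omega
    have h3 : ((∑ a ∈ E, M a * ∏ j, ((t a j).choose (l j) : ℤ) : ℤ) : ℚ) = 0 := by
      rw [h l h2]
      simp
    push_cast at h3
    rw [h3, mul_zero]
  exact_mod_cast key
-- END POLY
end

section
-- BEGIN LOC3
theorem loc3_gen {L : Type} [Field L] [NumberField L] (w : FinitePlace L) {ι : Type}
    {e T D r d : ℕ} (E : Finset ι) (M : ι → ℤ) (s : ι → ℕ) (t : ι → Fin e → ℕ) {ψ : L}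
    {η : Fin e → L} {g : ℝ} (i : Fin e → ℕ) (hN : ∀ a ∈ E, ∀ j, t a j ≤ T)
    (hM : ∀ m : Fin e → ℕ, ∑ j, m j + d ≤ D → ∑ a ∈ E, M a * ∏ j, ((t a j).choose (m j) : ℤ) = 0)
    (hr : r + ∑ j, i j + d ≤ D + 1) (hg : 0 < g) (hψ1 : w ψ = 1) (hη1 : ∀ j, w (η j) = 1)
    (hψ : w (ψ - 1) ≤ Real.exp (-(r * g))) (hη : ∀ j, w (η j - 1) ≤ Real.exp (-g)) :
    w (∑ a ∈ E, ((M a * ∏ j, ((t a j).choose (i j) : ℤ) : ℤ) : L) * (ψ ^ s a * ∏ j, η j ^ t a j)) ≤
      Real.exp (-(r * g)) := by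
  have hg1 : Real.exp (-g) < 1 := Real.exp_lt_one_iff.2 (by linarith only [hg])
  have hp : ∀ t : Fin e → ℕ, w (∏ j, η j ^ t j) = 1 := fun t => by
    rw [map_prod]
    exact prod_eq_one fun j _ => by rw [map_pow, hη1, one_pow]
  have h0 : ∑ a ∈ E, ((M a * ∏ j, ((t a j).choose (i j) : ℤ) : ℤ) : L) *
        (ψ ^ s a * ∏ j, η j ^ t a j) =
      ∑ a ∈ E, ((M a * ∏ j, ((t a j).choose (i j) : ℤ) : ℤ) : L) * ∏ j, η j ^ t a j +
      ∑ a ∈ E, ((M a * ∏ j, ((t a j).choose (i j) : ℤ) : ℤ) : L) *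
        ((ψ ^ s a - 1) * ∏ j, η j ^ t a j) := by
    rw [← sum_add_distrib]
    exact sum_congr rfl fun t _ => by ring
  rw [h0]
  refine (w.add_le _ _).trans (max_le ?_ (locn_na w E _ (Real.exp_pos _).le fun t _ => ?_))
  · have h1 : ∀ a ∈ E, ((M a * ∏ j, ((t a j).choose (i j) : ℤ) : ℤ) : L) * ∏ j, η j ^ t a j =
        ∑ m ∈ Fintype.piFinset fun _ : Fin e => range (T + 1),
          (((∏ j, ((m j).choose (i j) : ℤ) : ℤ) : L) * ∏ j, η j ^ i j) *
            (∏ j, (η j - 1) ^ (m j - i j)) *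
            ((M a * ∏ j, ((t a j).choose (m j) : ℤ) : ℤ) : L) := by
      intro a ha
      push_cast
      rw [mul_assoc, ← prod_mul_distrib,
        prod_congr rfl fun j _ => H63.van_exp (η j) T _ _ (hN a ha j), prod_univ_sum, mul_sum]
      refine sum_congr rfl fun m _ => ?_
      rw [prod_mul_distrib, prod_mul_distrib, prod_mul_distrib]
      ring
    rw [sum_congr rfl h1, sum_comm]
    refine locn_na w _ _ (Real.exp_pos _).le fun m _ => ?_
    rw [← mul_sum, ← Int.cast_sum]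
    by_cases hm : ∑ j, m j + d ≤ D
    · rw [hM m hm, Int.cast_zero, mul_zero, map_zero]
      exact (Real.exp_pos _).le
    · have h2 : ∑ j, m j ≤ ∑ j, (m j - i j) + ∑ j, i j := by
        rw [← sum_add_distrib]
        exact sum_le_sum fun j _ => by omega
      have h3 : w (∏ j, (η j - 1) ^ (m j - i j)) ≤ Real.exp (-(r * g)) := by
        rw [map_prod]
        calc ∏ j, w ((η j - 1) ^ (m j - i j)) ≤ ∏ j, Real.exp (-g) ^ (m j - i j) :=
              prod_le_prod (fun j _ => apply_nonneg _ _) fun j _ => by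
                rw [map_pow]
                exact pow_le_pow_left₀ (apply_nonneg _ _) (hη j) _
          _ = Real.exp (-g) ^ ∑ j, (m j - i j) := prod_pow_eq_pow_sum _ _ _
          _ ≤ Real.exp (-g) ^ r :=
              pow_le_pow_of_le_one (Real.exp_pos _).le hg1.le (by omega)
          _ = _ := by rw [← Real.exp_nat_mul, mul_neg]
      rw [map_mul, map_mul, map_mul, hp, mul_one]
      refine (mul_le_of_le_one_right (mul_nonneg (apply_nonneg _ _) (apply_nonneg _ _))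
        (locn_int w _)).trans ?_
      exact (mul_le_of_le_one_left (apply_nonneg _ _) (locn_int w _)).trans h3
  · rw [map_mul, map_mul, hp, mul_one]
    refine (mul_le_of_le_one_left (apply_nonneg _ _) (locn_int w _)).trans ?_
    exact (locn_pow w hψ1 _).trans hψ

theorem loc3_prod {R : Type} [CommMonoid R] (f : Fin 3 → R) (c : Fin 3) :
    ∏ k, f k = f c * f (c + 1) * f (c + 2) := by
  rw [Fin.prod_univ_three]
  fin_cases c
  · rfl
  · change _ = f 1 * f 2 * f 0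
    ac_rfl
  · change _ = f 2 * f 0 * f 1
    ac_rfl

theorem loc3_sum {R : Type} [AddCommMonoid R] (f : Fin 3 → R) (c : Fin 3) :
    ∑ k, f k = f c + f (c + 1) + f (c + 2) :=
  loc3_prod (R := Multiplicative R) f c

theorem loc3_row (hPOLY : POLY_s) : LOC3_s := by
  intro L _ _ w e m D r S0 τ len E M s T' lo A η c g X i he hm hlen hS _ hMom hA hη hr hrT hg hX
    hψ hηg hmon
  have hT : (1 : ℝ) ≤ (e * m : ℕ) := by exact_mod_cast Nat.mul_pos he hm
  have hrT' : (r : ℝ) ≤ (e * m : ℕ) := by exact_mod_cast hrT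
  have hg1 : Real.exp (-g) < 1 := Real.exp_lt_one_iff.2 (by linarith only [hg])
  have hψ' : w (-(A (c + 1) / A (c + 2)) - 1) ≤ Real.exp (-((e * m : ℕ) * g)) := by
    rwa [← neg_add', map_neg_eq_map]
  have hψ1 : w (-(A (c + 1) / A (c + 2))) = 1 :=
    locn_one w (hψ'.trans_lt (Real.exp_lt_one_iff.2 (by nlinarith only [hT, hg])))
  have hη1 : ∀ j, w (η (c + 1) j / η (c + 2) j) = 1 := fun j => locn_one w ((hηg j).trans_lt hg1)
  have htr : ∀ t ∈ E, ∀ j, t c j + t (c + 1) j + t (c + 2) j = m := fun t ht j => by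
    rw [← (mem_filter.1 (hS.sub ht)).2 j, loc3_sum (fun k => t k j) c]
  have hsm : ∀ t ∈ E, s t c + s t (c + 1) + s t (c + 2) = S0 := fun t ht => by
    rw [← hS.sum t ht, loc3_sum (s t) c]
  have hup : ∀ t ∈ E, (s t c : ℝ) - ∑ j, t c j * τ j ≤ lo c + len := fun t ht => by
    have h1 := hS.len
    have h2 : (s t c : ℝ) + s t (c + 1) + s t (c + 2) = S0 := by exact_mod_cast hsm t ht
    have h3 : ∑ j, (t c j : ℝ) * τ j + ∑ j, (t (c + 1) j : ℝ) * τ j +
        ∑ j, (t (c + 2) j : ℝ) * τ j = m * ∑ j, τ j := by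
      rw [← sum_add_distrib, ← sum_add_distrib, mul_sum]
      exact sum_congr rfl fun j _ => by rw [← htr t ht j]; push_cast; ring
    rw [loc3_sum lo c] at h1
    linarith only [h1, h2, h3, hS.low t ht (c + 1), hS.low t ht (c + 2)]
  rw [← sum_fiberwise_of_maps_to (g := fun t => t c) (t := E.image fun t => t c)
    fun t ht => mem_image_of_mem _ ht]
  refine locn_na w _ _ (mul_nonneg (Real.exp_pos _).le hX) fun n hn => ?_
  obtain ⟨t0, ht0, hn0⟩ := mem_image.1 hn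
  obtain ⟨C0, hC0⟩ : ∃ C0 : L, C0 = A c ^ s t0 c * (∏ j, η c j ^ n j) *
    (A (c + 2) ^ (S0 - s t0 c) * ∏ j, η (c + 2) j ^ (m - n j)) := ⟨_, rfl⟩
  have hf : ∀ t ∈ E.filter (fun t => t c = n), (∀ j, t (c + 1) j ≤ m - n j) ∧
      (∀ j, t (c + 2) j = m - n j - t (c + 1) j) ∧ mon A η (s t) t = C0 * (-1) ^ s t (c + 1) *
        ((-(A (c + 1) / A (c + 2))) ^ s t (c + 1) *
          ∏ j, (η (c + 1) j / η (c + 2) j) ^ t (c + 1) j) := fun t ht => by
    obtain ⟨ht, hn1⟩ := mem_filter.1 ht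
    have h1 : ∀ j, n j + t (c + 1) j + t (c + 2) j = m := fun j => hn1 ▸ htr t ht j
    have h2 : s t c = s t0 c := by
      have a1 := hup t ht
      have a2 := hup t0 ht0
      have a3 := hS.low t ht c
      have a4 := hS.low t0 ht0 c
      rw [hn1] at a1 a3
      rw [hn0] at a2 a4
      have a5 : (s t c : ℝ) < s t0 c + 1 := by linarith only [a1, a4, hlen]
      have a6 : (s t0 c : ℝ) < s t c + 1 := by linarith only [a2, a3, hlen]
      norm_cast at a5 a6
      omega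
    refine ⟨fun j => by have := h1 j; omega, fun j => by have := h1 j; omega, ?_⟩
    have h3 : S0 - s t0 c = s t (c + 1) + s t (c + 2) := by have := hsm t ht; omega
    have h4 : (∏ j, η (c + 2) j ^ (m - n j)) * ∏ j, (η (c + 1) j / η (c + 2) j) ^ t (c + 1) j =
        (∏ j, η (c + 1) j ^ t (c + 1) j) * ∏ j, η (c + 2) j ^ t (c + 2) j := by
      rw [← prod_mul_distrib, ← prod_mul_distrib]
      refine prod_congr rfl fun j _ => ?_
      rw [show m - n j = t (c + 2) j + t (c + 1) j by have := h1 j; omega, pow_add, mul_assoc,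
        ← mul_pow, mul_div_cancel₀ _ (hη _ _), mul_comm]
    have h5 : A (c + 2) ^ s t (c + 1) * ((-1) ^ s t (c + 1) *
        (-(A (c + 1) / A (c + 2))) ^ s t (c + 1)) = A (c + 1) ^ s t (c + 1) := by
      rw [← mul_pow, ← mul_pow, neg_one_mul, neg_neg, mul_div_cancel₀ _ (hA _)]
    rw [mon, loc3_prod _ c, hC0, h3, h2, hn1, pow_add]
    linear_combination (-(A c ^ s t0 c * (∏ j, η c j ^ n j) * A (c + 2) ^ s t (c + 2))) *
      (A (c + 1) ^ s t (c + 1) * h4 + ((∏ j, η (c + 2) j ^ (m - n j)) *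
        ∏ j, (η (c + 1) j / η (c + 2) j) ^ t (c + 1) j) * h5)
  have hC : w C0 ≤ X := by
    have h1 := hmon t0 ht0
    rw [(hf t0 (mem_filter.2 ⟨ht0, hn0⟩)).2.2, map_mul, map_mul, map_mul, map_pow, map_pow, hψ1,
      map_neg_eq_map, map_one, map_prod,
      prod_eq_one fun j _ => by rw [map_pow, hη1, one_pow]] at h1
    simpa only [one_pow, mul_one] using h1
  have h0 : ∑ t ∈ E.filter (fun t => t c = n), ((M t * wgt t i : ℤ) : L) * mon A η (s t) t =
      ((∏ j, ((n j).choose (i c j) : ℤ) : ℤ) : L) * ((∑ t ∈ E.filter (fun t => t c = n),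
        (((M t * (-1) ^ s t (c + 1) * ∏ j, ((m - n j - t (c + 1) j).choose (i (c + 2) j) : ℤ)) *
          ∏ j, ((t (c + 1) j).choose (i (c + 1) j) : ℤ) : ℤ) : L) *
        ((-(A (c + 1) / A (c + 2))) ^ s t (c + 1) *
          ∏ j, (η (c + 1) j / η (c + 2) j) ^ t (c + 1) j)) * C0) := by
    rw [sum_mul, mul_sum]
    refine sum_congr rfl fun t ht => ?_
    obtain ⟨-, h2, h3⟩ := hf t ht
    rw [h3, wgt, loc3_prod _ c, (mem_filter.1 ht).2]
    simp only [h2]
    push_cast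
    ring
  rw [h0, map_mul, map_mul]
  refine (mul_le_of_le_one_left (mul_nonneg (apply_nonneg _ _) (apply_nonneg _ _))
    (locn_int w _)).trans (mul_le_mul ?_ hC (apply_nonneg _ _) (Real.exp_pos _).le)
  rw [loc3_sum _ c] at hr
  exact loc3_gen w (T := m) (D := D) (d := ∑ j, i (c + 2) j) _ _ (fun t => s t (c + 1))
    (fun t => t (c + 1)) _ (fun t ht j => ((hf t ht).1 j).trans (Nat.sub_le _ _))
    (hPOLY e D _ _ (fun t => M t * (-1) ^ s t (c + 1)) (fun t => t (c + 1)) (fun j => m - n j)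
      (i (c + 2)) (fun t ht => (hf t ht).1) (hMom c n))
    (by omega) hg hψ1 hη1 (hψ'.trans (Real.exp_le_exp.2 (by nlinarith only [hrT', hg]))) hηg
-- END LOC3
end

section
-- BEGIN LIOU3
theorem liou3_w (a x : Fin 3 → ℝ) (c : ℝ) (ha : ∀ k, 0 ≤ a k) (hc : ∑ k, a k = c) :
    ∑ k, a k * x k ≤ c * max (x 0) (max (x 1) (x 2)) := by
  rw [← hc, sum_mul]
  refine sum_le_sum fun k _ => mul_le_mul_of_nonneg_left ?_ (ha k)
  fin_cases k
  · exact le_max_left _ _
  · exact (le_max_left _ _).trans (le_max_right _ _)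
  · exact (le_max_right _ _).trans (le_max_right _ _)

theorem liou3_real {e m S0 : ℕ} {τ : Fin e → ℝ} {len τ0 : ℝ} {E : Finset (Fin 3 → Fin e → ℕ)}
    {s : (Fin 3 → Fin e → ℕ) → Fin 3 → ℕ} {T' : Fin 3 → ℕ} {lo : Fin 3 → ℝ}
    (h : Shp m τ len E s T' lo S0) {t : Fin 3 → Fin e → ℕ} (ht : t ∈ E) (p l0 : Fin 3 → ℝ)
    (l : Fin e → Fin 3 → ℝ) :
    ∑ k, T' k * l0 k + ∑ k, (s t k * p k + ∑ j, t k j * (l j k - l0 k)) ≤
      ∑ k, (lo k - T' k * τ0) * p k + len * max (p 0) (max (p 1) (p 2)) +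
        m * (2 * max (l0 0 + τ0 * p 0) (max (l0 1 + τ0 * p 1) (l0 2 + τ0 * p 2)) +
          ∑ j, max (l j 0 + (τ0 + τ j) * p 0)
            (max (l j 1 + (τ0 + τ j) * p 1) (l j 2 + (τ0 + τ j) * p 2))) := by
  have hm : ∀ j, ∑ k, (t k j : ℝ) = m := fun j => by
    exact_mod_cast (mem_filter.1 (h.sub ht)).2 j
  have e1 : ∑ k, T' k * l0 k + ∑ k, (s t k * p k + ∑ j, t k j * (l j k - l0 k)) =
      ∑ k, (lo k - T' k * τ0) * p k + ∑ k, (s t k - ∑ j, t k j * τ j - lo k) * p k +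
        ∑ k, (T' k - ∑ j, (t k j : ℝ)) * (l0 k + τ0 * p k) +
        ∑ k, ∑ j, t k j * (l j k + (τ0 + τ j) * p k) := by
    rw [← sum_add_distrib, ← sum_add_distrib, ← sum_add_distrib, ← sum_add_distrib]
    refine sum_congr rfl fun k _ => ?_
    have e2 : ∑ j, (t k j : ℝ) * (l j k + (τ0 + τ j) * p k) =
        ∑ j, (t k j : ℝ) * (l j k - l0 k) + (∑ j, (t k j : ℝ)) * (l0 k + τ0 * p k) +
          (∑ j, (t k j : ℝ) * τ j) * p k := by
      rw [sum_mul, sum_mul, ← sum_add_distrib, ← sum_add_distrib]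
      exact sum_congr rfl fun j _ => by ring
    rw [e2]
    ring
  have b1 := liou3_w (fun k => (s t k : ℝ) - ∑ j, t k j * τ j - lo k) p len
    (fun k => sub_nonneg.2 (h.low t ht k)) (by
      have a1 : ∑ k, (s t k : ℝ) = S0 := by exact_mod_cast h.sum t ht
      have a2 : ∑ k, ∑ j, (t k j : ℝ) * τ j = m * ∑ j, τ j := by
        rw [sum_comm, mul_sum]
        exact sum_congr rfl fun j _ => by rw [← sum_mul, hm]
      rw [sum_sub_distrib, sum_sub_distrib, a1, a2]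
      linarith only [h.len])
  have b2 := liou3_w (fun k => (T' k : ℝ) - ∑ j, (t k j : ℝ)) (fun k => l0 k + τ0 * p k) (2 * m)
    (fun k => sub_nonneg.2 (by exact_mod_cast h.win t ht k)) (by
      have a1 : ∑ k, (T' k : ℝ) = e * m + 2 * m := by exact_mod_cast h.tot
      have a2 : ∑ k, ∑ j, (t k j : ℝ) = e * m := by
        rw [sum_comm, sum_congr rfl fun j _ => hm j]
        simp
      rw [sum_sub_distrib, a1, a2]
      ring)
  have b3 : ∑ k, ∑ j, (t k j : ℝ) * (l j k + (τ0 + τ j) * p k) ≤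
      m * ∑ j, max (l j 0 + (τ0 + τ j) * p 0)
        (max (l j 1 + (τ0 + τ j) * p 1) (l j 2 + (τ0 + τ j) * p 2)) := by
    rw [sum_comm, mul_sum]
    exact sum_le_sum fun j _ => liou3_w (fun k => (t k j : ℝ))
      (fun k => l j k + (τ0 + τ j) * p k) m (fun k => Nat.cast_nonneg _) (hm j)
  rw [e1]
  linarith only [b1, b2, b3]

theorem liou3_ne {L : Type} [Field L] {e : ℕ} {A : Fin 3 → L} {η : Fin 3 → Fin e → L}
    (hA : ∀ k, A k ≠ 0) (hη : ∀ k j, η k j ≠ 0) (s : Fin 3 → ℕ) (t : Fin 3 → Fin e → ℕ) :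
    mon A η s t ≠ 0 :=
  prod_ne_zero_iff.2 fun k _ => mul_ne_zero (pow_ne_zero _ (hA k))
    (prod_ne_zero_iff.2 fun j _ => pow_ne_zero _ (hη k j))

theorem liou3_lg {L : Type} [Field L] [NumberField L] (v : Pl L) {e : ℕ} {A Y0 : Fin 3 → L}
    {Y : Fin e → Fin 3 → L} (hA : ∀ k, A k ≠ 0) (h0 : ∀ k, Y0 k ≠ 0) (hY : ∀ j k, Y j k ≠ 0)
    (s : Fin 3 → ℕ) (t : Fin 3 → Fin e → ℕ) :
    lg v (mon A (fun k j => Y j k / Y0 k) s t) =
      ∑ k, (s k * lg v (A k) + ∑ j, t k j * (lg v (Y j k) - lg v (Y0 k))) := by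
  rw [← sum_congr rfl fun k _ => liou_lg v (hA k) (h0 k) (fun j => hY j k) (s k) (t k)]
  unfold lg mon
  rw [map_prod, Real.log_prod fun k _ => ((av v).pos (mul_ne_zero (pow_ne_zero _ (hA k))
    (prod_ne_zero_iff.2 fun j _ => pow_ne_zero _ (div_ne_zero (hY j k) (h0 k))))).ne']

theorem liou3_wgt {e m : ℕ} {t : Fin 3 → Fin e → ℕ} (ht : t ∈ Tr3 e m) (i : Fin 3 → Fin e → ℕ) :
    |((wgt t i : ℤ) : ℝ)| ≤ Real.exp (e * m : ℕ) := by
  have hm : ∀ j, ∑ k, (t k j : ℝ) = m := fun j => by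
    exact_mod_cast (mem_filter.1 ht).2 j
  have a2 : ∑ k, ∑ j, (t k j : ℝ) = (e * m : ℕ) := by
    rw [sum_comm, sum_congr rfl fun j _ => hm j]
    simp
  unfold wgt
  push_cast
  rw [abs_of_nonneg (by positivity), ← Nat.cast_mul, ← a2, Real.exp_sum]
  refine prod_le_prod (fun _ _ => by positivity) fun k _ => ?_
  rw [Real.exp_sum]
  refine prod_le_prod (fun _ _ => by positivity) fun j _ => ?_
  have h2 : ((t k j).choose (i k j) : ℝ) ≤ 2 ^ t k j := by exact_mod_cast Nat.choose_le_two_pow _ _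
  refine h2.trans ?_
  rw [← Real.exp_one_pow]
  exact pow_le_pow_left₀ (by norm_num) (by linarith [Real.add_one_le_exp 1]) _

theorem liou3_fin {L : Type} [Field L] [NumberField L] (V : Finset (Pl L)) (A Y : Fin 3 → L)
    (τ : ℝ) (hA : ∀ k, Un V (A k)) (hY : ∀ k, Un V (Y k)) :
    ∑ v ∈ V, max (lg v (Y 0) + τ * lg v (A 0))
      (max (lg v (Y 1) + τ * lg v (A 1)) (lg v (Y 2) + τ * lg v (A 2))) = cost3 A Y τ := by
  unfold cost3
  refine (finsum_eq_sum_of_support_subset _ ?_).symm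
  intro v hv
  by_contra hn
  apply hv
  have hn' : v ∉ V := fun h => hn (Finset.mem_coe.2 h)
  have a : ∀ k, lg v (A k) = 0 := fun k => by unfold lg; rw [(hA k).2 v hn', Real.log_one]
  have b : ∀ k, lg v (Y k) = 0 := fun k => by unfold lg; rw [(hY k).2 v hn', Real.log_one]
  simp [a, b]

theorem liou3_ht {L : Type} [Field L] [NumberField L] (V : Finset (Pl L)) (A : Fin 3 → L)
    (hA : ∀ k, Un V (A k)) :
    ∑ v ∈ V, max (lg v (A 0)) (max (lg v (A 1)) (lg v (A 2))) = ht3 A := by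
  unfold ht3
  refine (finsum_eq_sum_of_support_subset _ ?_).symm
  intro v hv
  by_contra hn
  apply hv
  have hn' : v ∉ V := fun h => hn (Finset.mem_coe.2 h)
  have a : ∀ k, lg v (A k) = 0 := fun k => by unfold lg; rw [(hA k).2 v hn', Real.log_one]
  simp [a]

theorem liou3_row (hLOC3 : LOC3_s) : LIOU3_s := by
  classical
  intro L _ _ hd e m D r S0 τ len τ0 κ E M s T' lo A Y0 Y H c g i he hm _ hl1 hSh hn hM hA hY0 hY
    hr hrT hc0 hc hH hCg hbig
  by_contra hS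
  obtain ⟨S, hSd⟩ : ∃ S : L, S = ∑ t ∈ E, ((M t * wgt t i : ℤ) : L) *
      mon A (fun k j => Y j k / Y0 k) (s t) t := ⟨_, rfl⟩
  rw [← hSd] at hS
  obtain ⟨-, p2, p3, p4, -, -⟩ := fPF L
  obtain ⟨V, hV, hHV, hU⟩ := p4 (insert S (univ.image A ∪ univ.image Y0 ∪
      univ.image fun q : Fin e × Fin 3 => Y q.1 q.2)) (H.map Function.Embedding.inr) (by
    intro x hx
    simp only [mem_insert, mem_union, mem_image, mem_univ, true_and] at hx
    rcases hx with rfl | (⟨k, rfl⟩ | ⟨k, rfl⟩) | ⟨q, rfl⟩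
    exacts [hS, hA k, hY0 k, hY _ _])
  have uS : Un V S := hU _ (mem_insert_self _ _)
  have uA : ∀ k, Un V (A k) := fun k => hU _ (mem_insert_of_mem (mem_union_left _
    (mem_union_left _ (mem_image_of_mem _ (mem_univ k)))))
  have u0 : ∀ k, Un V (Y0 k) := fun k => hU _ (mem_insert_of_mem (mem_union_left _
    (mem_union_right _ (mem_image_of_mem _ (mem_univ k)))))
  have uj : ∀ j k, Un V (Y j k) := fun j k => hU _ (mem_insert_of_mem (mem_union_right _
    (mem_image.2 ⟨(j, k), mem_univ _, rfl⟩)))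
  obtain ⟨B, hB⟩ : ∃ B : Pl L → ℝ, ∀ v, B v = ∑ k, (lo k - T' k * τ0) * lg v (A k) +
      len * max (lg v (A 0)) (max (lg v (A 1)) (lg v (A 2))) +
      m * (2 * max (lg v (Y0 0) + τ0 * lg v (A 0))
          (max (lg v (Y0 1) + τ0 * lg v (A 1)) (lg v (Y0 2) + τ0 * lg v (A 2))) +
        ∑ j, max (lg v (Y j 0) + (τ0 + τ j) * lg v (A 0))
          (max (lg v (Y j 1) + (τ0 + τ j) * lg v (A 1))
            (lg v (Y j 2) + (τ0 + τ j) * lg v (A 2)))) := ⟨_, fun _ => rfl⟩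
  have hη : ∀ (k : Fin 3) (j : Fin e), Y j k / Y0 k ≠ 0 := fun k j => div_ne_zero (hY j k) (hY0 k)
  have hχ : ∀ v, ∀ t ∈ E, av v (mon A (fun k j => Y j k / Y0 k) (s t) t) ≤
      Real.exp (B v - ∑ k, T' k * lg v (Y0 k)) := by
    intro v t ht
    refine (Real.log_le_iff_le_exp ((av v).pos (liou3_ne hA hη _ _))).1 ?_
    have h1 := liou3_real (τ0 := τ0) hSh ht (fun k => lg v (A k)) (fun k => lg v (Y0 k))
      (fun j k => lg v (Y j k))
    rw [← liou3_lg v hA hY0 hY, ← hB] at h1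
    exact le_sub_iff_add_le'.2 h1
  have hT0 : (0 : ℝ) ≤ (e * m : ℕ) := Nat.cast_nonneg _
  obtain ⟨G, hG1, hG2⟩ : ∃ G : Pl L → ℝ, (∀ w ∈ H, G (Sum.inr w) = r * g w) ∧
      ∀ v, v ∉ H.map Function.Embedding.inr → G v = 0 := by
    refine ⟨fun v => Sum.elim (fun _ => 0) (fun w => if w ∈ H then r * g w else 0) v,
      fun w hw => by simp [hw], fun v hv => ?_⟩
    rcases v with φ | w
    · rfl
    · have : w ∉ H := fun hw => hv (mem_map.2 ⟨w, hw, rfl⟩)
      simp [this]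
  have hloc : ∀ v, ∑ k, T' k * lg v (Y0 k) + lg v S ≤
      B v + 5 * (e * m : ℕ) * ar v - G v := by
    intro v
    by_cases hv : v ∈ H.map Function.Embedding.inr
    · obtain ⟨w, hw, rfl⟩ := mem_map.1 hv
      obtain ⟨g0, g1⟩ := hH w hw
      have k1 := hLOC3 L w e m D r S0 τ len E M s T' lo A (fun k j => Y j k / Y0 k) (c w) (g w)
        _ i he hm hl1 hSh hn hM hA hη hr hrT g0 (Real.exp_pos _).le g1 (fun j => by
          have h1 := hCg j w hw
          have h2 : Y j (c w + 1) / Y0 (c w + 1) / (Y j (c w + 2) / Y0 (c w + 2)) =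
              Y j (c w + 1) / Y j (c w + 2) / (Y0 (c w + 1) / Y0 (c w + 2)) := by
            have := hY j (c w + 2)
            have := hY0 (c w + 1)
            have := hY0 (c w + 2)
            field_simp
          rw [h2]
          exact h1) (hχ (Sum.inr w))
      rw [← hSd, ← Real.exp_add] at k1
      have k3 : lg (Sum.inr w : Pl L) S ≤ _ :=
        (Real.log_le_iff_le_exp ((av (Sum.inr w : Pl L)).pos hS)).2 k1
      have k4 : ar (Sum.inr w : Pl L) = 0 := rfl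
      have k5 := hG1 w hw
      change ∑ k, T' k * lg (Sum.inr w : Pl L) (Y0 k) + lg (Sum.inr w : Pl L) S ≤
        B (Sum.inr w) + 5 * (e * m : ℕ) * ar (Sum.inr w : Pl L) - G (Sum.inr w)
      rw [k4, k5]
      linarith only [k3]
    · have k1 := fSUM L v _ E (fun t => M t * wgt t i)
        (fun t => mon A (fun k j => Y j k / Y0 k) (s t) t) (5 * (e * m : ℕ))
        _ (Real.exp_pos _).le (by
          calc ∑ t ∈ E, |((M t * wgt t i : ℤ) : ℝ)|
              ≤ ∑ t ∈ E, |(M t : ℝ)| * Real.exp (e * m : ℕ) := by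
                refine Finset.sum_le_sum fun t ht => ?_
                rw [Int.cast_mul, abs_mul]
                exact mul_le_mul_of_nonneg_left (liou3_wgt (hSh.sub ht) i) (abs_nonneg _)
            _ ≤ Real.exp (4 * (e * m : ℕ)) * Real.exp (e * m : ℕ) := by
                rw [← Finset.sum_mul]
                exact mul_le_mul_of_nonneg_right hn (Real.exp_pos _).le
            _ = _ := by rw [← Real.exp_add]; congr 1; ring) (hχ v)
      rw [← hSd, ← Real.exp_add] at k1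
      have k3 : lg v S ≤ _ := (Real.log_le_iff_le_exp ((av v).pos hS)).2 k1
      rw [hG2 v hv]
      linarith only [k3]
  have hsum := sum_le_sum fun v (_ : v ∈ V) => hloc v
  have z0 : ∀ (a : Fin 3 → ℝ) (X : Fin 3 → L), (∀ k, Un V (X k)) →
      ∑ v ∈ V, ∑ k, a k * lg v (X k) = 0 := by
    intro a X hX
    rw [sum_comm]
    exact sum_eq_zero fun k _ => by rw [← mul_sum, p2 V hV _ (hX k), mul_zero]
  have zG : ∑ v ∈ V, G v = r * ∑ w ∈ H, g w := by
    rw [← sum_subset hHV fun v _ hv => hG2 v hv, sum_map, mul_sum]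
    exact sum_congr rfl fun w hw => hG1 w hw
  rw [sum_add_distrib, z0 _ Y0 u0, p2 V hV _ uS, sum_sub_distrib, sum_add_distrib,
    ← mul_sum, p3 V hV, zG] at hsum
  have hBs : ∑ v ∈ V, B v = len * ht3 A +
      m * (2 * cost3 A Y0 τ0 + ∑ j, cost3 A (Y j) (τ0 + τ j)) := by
    simp only [hB]
    rw [sum_add_distrib, sum_add_distrib, z0 _ A uA, ← mul_sum, ← mul_sum, liou3_ht V A uA,
      sum_add_distrib, ← mul_sum, liou3_fin V A Y0 τ0 uA u0, sum_comm,
      sum_congr rfl fun j _ => liou3_fin V A (Y j) (τ0 + τ j) uA (uj j), zero_add]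
  have hcs : ∑ j, cost3 A (Y j) (τ0 + τ j) ≤ e * κ := by
    refine (sum_le_card_nsmul _ _ κ fun j _ => hc j).trans (le_of_eq ?_)
    simp
  have hd' : (finrank ℚ L : ℝ) ≤ 6 := by exact_mod_cast hd
  have h6 := mul_le_mul_of_nonneg_left hd' hT0
  have h7 := mul_le_mul_of_nonneg_left
    (add_le_add (mul_le_mul_of_nonneg_left hc0 (by norm_num : (0 : ℝ) ≤ 2)) hcs)
    (Nat.cast_nonneg (α := ℝ) m)
  rw [hBs] at hsum
  push_cast at hsum h6
  nlinarith only [hsum, h6, h7, hbig]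
-- END LIOU3
end

section
-- BEGIN AUX3
theorem aux3_sup {n : ℕ} (d0 : Fin n →₀ ℕ) (c a : ℤ) (z : Fin n) (k : ℕ) (d : Fin n →₀ ℕ)
    (hd : d ∈ (MvPolynomial.monomial d0 c *
      (MvPolynomial.X z + MvPolynomial.C a : MvPolynomial (Fin n) ℤ) ^ k).support) :
    ∃ l, l ≤ k ∧ d = d0 + Finsupp.single z l := by
  classical
  have h1 : MvPolynomial.monomial d0 c *
      (MvPolynomial.X z + MvPolynomial.C a : MvPolynomial (Fin n) ℤ) ^ k =
      ∑ l ∈ range (k + 1), MvPolynomial.monomial (d0 + Finsupp.single z l)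
        (c * (a ^ (k - l) * (k.choose l : ℤ))) := by
    rw [add_pow, mul_sum]
    refine sum_congr rfl fun l _ => ?_
    rw [MvPolynomial.X_pow_eq_monomial, ← map_pow,
      ← map_natCast (MvPolynomial.C : ℤ →+* MvPolynomial (Fin n) ℤ), mul_assoc, ← map_mul,
      MvPolynomial.C_apply, MvPolynomial.monomial_mul, MvPolynomial.monomial_mul, add_zero, one_mul]
  rw [h1] at hd
  obtain ⟨l, hl, h⟩ := mem_biUnion.1 (MvPolynomial.support_sum hd)
  exact ⟨l, Nat.lt_succ_iff.1 (mem_range.1 hl),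
    mem_singleton.1 (MvPolynomial.support_monomial_subset h)⟩

theorem aux3_cf {K : Type*} [CommRing K] {n : ℕ} (F : MvPolynomial (Fin n) K) (b : K) (z : Fin n)
    (d : Fin n →₀ ℕ) (hd : d z = 0) (k : ℕ) :
    MvPolynomial.coeff d (F * (MvPolynomial.X z + MvPolynomial.C b) ^ k) =
      MvPolynomial.coeff d F * b ^ k := by
  classical
  induction k with
  | zero => simp
  | succ k ih =>
    rw [pow_succ, ← mul_assoc, mul_add, MvPolynomial.coeff_add, MvPolynomial.coeff_mul_X',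
      if_neg (by simp [hd]), zero_add, mul_comm _ (MvPolynomial.C b), MvPolynomial.coeff_C_mul, ih]
    ring

theorem aux3_nm {n : ℕ} (z : Fin n) (k : ℕ) :
    nm ((MvPolynomial.X z + MvPolynomial.C 1 : MvPolynomial (Fin n) ℤ) ^ k) ≤ 2 ^ k := by
  have h2 : nm (MvPolynomial.X z + MvPolynomial.C 1 : MvPolynomial (Fin n) ℤ) ≤ 2 := by
    refine (H63.nm_add _ _).trans ?_
    rw [H63.nm_C, MvPolynomial.X, H63.nm_monomial]
    norm_num
  induction k with
  | zero => simp [H63.nm_one]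
  | succ k ih =>
    rw [pow_succ, pow_succ]
    exact (H63.nm_mul _ _).trans (mul_le_mul ih h2 (H63.nm_nonneg _) (by positivity))

theorem aux3_pw {K : Type*} [Field K] (x y w : K) (hw : w ≠ 0) (t0 t1 t2 a b : ℕ) :
    (t0.choose a : K) * (x / w) ^ (t0 - a) * ((t1.choose b : K) * (y / w) ^ (t1 - b)) *
      ((x / w) ^ a * (y / w) ^ b * w ^ (t0 + t1 + t2)) =
    (t0.choose a : K) * (t1.choose b : K) * (x ^ t0 * y ^ t1 * w ^ t2) := by
  rcases le_or_gt a t0 with h | h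
  · rcases le_or_gt b t1 with h' | h'
    · obtain ⟨u, rfl⟩ := Nat.exists_eq_add_of_le h
      obtain ⟨v, rfl⟩ := Nat.exists_eq_add_of_le h'
      simp only [Nat.add_sub_cancel_left, div_pow, pow_add]
      field_simp
    · simp only [Nat.choose_eq_zero_of_lt h', Nat.cast_zero, zero_mul, mul_zero]
  · simp only [Nat.choose_eq_zero_of_lt h, Nat.cast_zero, zero_mul]

theorem aux3_row : AUX3_s := by
  classical
  intro K _ e m μ S0 τ len E M s T' lo A η he hm hlen hS hM hn hA hA0 hη hv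
  obtain ⟨ex, h1, h1', h2⟩ : ∃ ex : (Fin 3 → Fin e → ℕ) → ℕ → Fin (e + e + 1) →₀ ℕ,
      (∀ t l j, ex t l (Fin.castSucc (Fin.castAdd e j)) = t 0 j) ∧
      (∀ t l j, ex t l (Fin.castSucc (Fin.natAdd e j)) = t 1 j) ∧
      ∀ t l, ex t l (Fin.last (e + e)) = l :=
    ⟨fun t l => Finsupp.equivFunOnFinite.symm (Fin.snoc (Fin.append (t 0) (t 1)) l),
      by simp, by intro t l j; simp only [Finsupp.equivFunOnFinite_symm_apply_apply,
        Fin.snoc_castSucc, Fin.append_right], by simp⟩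
  have hext : ∀ d d' : Fin (e + e + 1) →₀ ℕ,
      (∀ j, d (Fin.castSucc (Fin.castAdd e j)) = d' (Fin.castSucc (Fin.castAdd e j))) →
      (∀ j, d (Fin.castSucc (Fin.natAdd e j)) = d' (Fin.castSucc (Fin.natAdd e j))) →
      d (Fin.last _) = d' (Fin.last _) → d = d' := by
    intro d d' a b c
    ext j
    induction j using Fin.lastCases with
    | last => exact c
    | cast j =>
      induction j using Fin.addCases with
      | left j => exact a j
      | right j => exact b j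
  have hadd : ∀ t l l', ex t l + Finsupp.single (Fin.last (e + e)) l' = ex t (l + l') := by
    intro t l l'
    refine hext _ _ (fun j => ?_) (fun j => ?_) ?_
    · rw [Finsupp.add_apply, Finsupp.single_eq_of_ne (Fin.castSucc_ne_last _), add_zero, h1, h1]
    · rw [Finsupp.add_apply, Finsupp.single_eq_of_ne (Fin.castSucc_ne_last _), add_zero, h1', h1']
    · rw [Finsupp.add_apply, Finsupp.single_eq_same, h2, h2]
  have htr : ∀ t ∈ E, ∀ j, t 0 j + t 1 j + t 2 j = m := fun t ht j => by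
    have := (mem_filter.1 (hS.sub ht)).2 j
    rwa [Fin.sum_univ_three] at this
  have hss : ∀ t ∈ E, s t 0 + s t 1 + s t 2 = S0 := fun t ht => by
    have := hS.sum t ht
    rwa [Fin.sum_univ_three] at this
  have hw1 : ∀ t l, wt (Fin.snoc (Fin.append (fun j => -τ j) (fun _ => 0)) 1 :
      Fin (e + e + 1) → ℝ) (ex t l) = l - ∑ j, t 0 j * τ j := by
    intro t l
    simp only [wt, Fin.sum_univ_castSucc, Fin.sum_univ_add, h1, h1', h2, Fin.snoc_castSucc,
      Fin.snoc_last, Fin.append_left, Fin.append_right, mul_neg, sum_neg_distrib, mul_zero,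
      sum_const_zero, add_zero, mul_one]
    ring
  have hw2 : ∀ t l, wt (Fin.snoc (Fin.append (fun _ => 0) (fun j => -τ j)) 1 :
      Fin (e + e + 1) → ℝ) (ex t l) = l - ∑ j, t 1 j * τ j := by
    intro t l
    simp only [wt, Fin.sum_univ_castSucc, Fin.sum_univ_add, h1, h1', h2, Fin.snoc_castSucc,
      Fin.snoc_last, Fin.append_left, Fin.append_right, mul_neg, sum_neg_distrib, mul_zero,
      sum_const_zero, zero_add, mul_one]
    ring
  have hsupg : ∀ (c : (Fin 3 → Fin e → ℕ) → ℤ) (a : ℤ) (u v : (Fin 3 → Fin e → ℕ) → ℕ),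
      ∀ d ∈ (∑ t ∈ E, MvPolynomial.monomial (ex t (u t)) (c t) *
        (MvPolynomial.X (Fin.last (e + e)) + MvPolynomial.C a) ^ v t).support,
      ∃ t ∈ E, ∃ l, l ≤ v t ∧ d = ex t (u t + l) := by
    intro c a u v d hd
    obtain ⟨t, ht, h⟩ := mem_biUnion.1 (MvPolynomial.support_sum hd)
    obtain ⟨l, hl, rfl⟩ := aux3_sup _ _ _ _ _ _ h
    exact ⟨t, ht, l, hl, hadd _ _ _⟩
  have hT : 1 ≤ e * m := Nat.one_le_iff_ne_zero.2 (Nat.mul_ne_zero (by omega) (by omega))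
  refine ⟨∑ t ∈ E, MvPolynomial.monomial (ex t (s t 0)) (M t * (-1) ^ s t 1) *
    (MvPolynomial.X (Fin.last (e + e)) + MvPolynomial.C 1) ^ s t 1, ?_, ?_, ⟨lo 0, lo 1, ?_, ?_, ?_⟩,
    ?_, ?_⟩
  · obtain ⟨t, ht, h0⟩ := hM
    intro h
    have := congrArg (MvPolynomial.coeff (ex t (s t 0))) h
    rw [MvPolynomial.coeff_sum, sum_eq_single t (fun t' ht' hne => by
      by_contra hc
      obtain ⟨l, -, hl⟩ := aux3_sup _ _ _ _ _ _ (MvPolynomial.mem_support_iff.2 hc)
      rw [hadd] at hl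
      have a0 : ∀ j, t' 0 j = t 0 j := fun j => by rw [← h1 t' (s t' 0 + l), ← hl, h1]
      have a1 : ∀ j, t' 1 j = t 1 j := fun j => by rw [← h1' t' (s t' 0 + l), ← hl, h1']
      refine hne (funext fun k => funext fun j => ?_)
      have b0 := htr t ht j
      have b1 := htr t' ht' j
      have := a0 j
      have := a1 j
      fin_cases k
      · exact a0 j
      · exact a1 j
      · change t' 2 j = t 2 j
        omega) (fun h' => absurd ht h')] at this
    have h3 := MvPolynomial.coeff_monomial_mul 0 (ex t (s t 0)) (M t * (-1) ^ s t 1)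
      ((MvPolynomial.X (Fin.last (e + e)) + MvPolynomial.C 1 :
        MvPolynomial (Fin (e + e + 1)) ℤ) ^ s t 1)
    have h4 := aux3_cf (1 : MvPolynomial (Fin (e + e + 1)) ℤ) 1 (Fin.last (e + e)) 0 rfl (s t 1)
    rw [one_mul, one_pow, mul_one, MvPolynomial.coeff_zero_one] at h4
    rw [add_zero, h4, mul_one, this, MvPolynomial.coeff_zero] at h3
    exact mul_ne_zero h0 (pow_ne_zero _ (by norm_num)) h3.symm
  · intro d hd j hj
    obtain ⟨t, ht, l, -, rfl⟩ := hsupg _ _ _ _ d hd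
    obtain ⟨j, rfl⟩ := Fin.exists_castSucc_eq.2 hj
    have hm' : m ≤ e * m := Nat.le_mul_of_pos_left m he
    induction j using Fin.addCases with
    | left j => rw [h1]; have := htr t ht j; omega
    | right j => rw [h1']; have := htr t ht j; omega
  · intro d hd
    obtain ⟨t, ht, l, -, rfl⟩ := hsupg _ _ _ _ d hd
    rw [hw1]
    have := hS.low t ht 0
    have hl : (0 : ℝ) ≤ l := Nat.cast_nonneg l
    push_cast
    linarith
  · have hsh : sh (e + e) (∑ t ∈ E, MvPolynomial.monomial (ex t (s t 0)) (M t * (-1) ^ s t 1) *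
        (MvPolynomial.X (Fin.last (e + e)) + MvPolynomial.C 1) ^ s t 1) =
        ∑ t ∈ E, MvPolynomial.monomial (ex t (s t 1)) (M t * (-1) ^ s t 1) *
        (MvPolynomial.X (Fin.last (e + e)) + MvPolynomial.C (-1)) ^ s t 0 := by
      rw [map_sum]
      refine sum_congr rfl fun t _ => ?_
      have hx : sh (e + e) (MvPolynomial.X (Fin.last (e + e))) =
          MvPolynomial.X (Fin.last (e + e)) + MvPolynomial.C (-1) := by
        rw [sh, tr, MvPolynomial.eval₂Hom_X', Pi.single_eq_same]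
      have hy : ∀ j : Fin (e + e), sh (e + e) (MvPolynomial.X j.castSucc) =
          MvPolynomial.X j.castSucc := fun j => by
        rw [sh, tr, MvPolynomial.eval₂Hom_X', Pi.single_eq_of_ne (Fin.castSucc_ne_last _),
          map_zero, add_zero]
      have hc : ∀ c : ℤ, sh (e + e) (MvPolynomial.C c) = MvPolynomial.C c := fun c => by
        rw [eq_intCast (MvPolynomial.C : ℤ →+* MvPolynomial (Fin (e + e + 1)) ℤ) c, map_intCast]
      rw [MvPolynomial.monomial_eq, MvPolynomial.monomial_eq,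
        Finsupp.prod_fintype _ _ (by simp), Finsupp.prod_fintype _ _ (by simp),
        Fin.prod_univ_castSucc, Fin.prod_univ_castSucc, Fin.prod_univ_add, Fin.prod_univ_add]
      simp only [map_mul (sh (e + e)), map_pow (sh (e + e)), map_prod (sh (e + e)),
        map_add (sh (e + e)), hx, hy, hc, h1, h1', h2]
      rw [add_assoc (MvPolynomial.X _), ← map_add, neg_add_cancel, map_zero,
        add_zero (MvPolynomial.X _)]
      ring
    rw [hsh]
    intro d hd
    obtain ⟨t, ht, l, -, rfl⟩ := hsupg _ _ _ _ d hd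
    rw [hw2]
    have := hS.low t ht 1
    have hl : (0 : ℝ) ≤ l := Nat.cast_nonneg l
    push_cast
    linarith
  · intro d hd
    obtain ⟨t, ht, l, hl, rfl⟩ := hsupg _ _ _ _ d hd
    have h0 : ((e * m : ℕ) : ℝ) ≠ 0 := by positivity
    rw [hw1, hw2, h2, one_div_mul_cancel h0]
    have a2 := hS.low t ht 2
    have a3 := hS.len
    rw [Fin.sum_univ_three] at a3
    have a4 : (s t 0 : ℝ) + s t 1 + s t 2 = S0 := by exact_mod_cast hss t ht
    have a5 : (l : ℝ) ≤ s t 1 := by exact_mod_cast hl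
    have a6 : ∑ j, (t 0 j : ℝ) * τ j + ∑ j, (t 1 j : ℝ) * τ j + ∑ j, (t 2 j : ℝ) * τ j =
        m * ∑ j, τ j := by
      rw [← sum_add_distrib, ← sum_add_distrib, mul_sum]
      refine sum_congr rfl fun j _ => ?_
      have : (t 0 j : ℝ) + t 1 j + t 2 j = m := by exact_mod_cast htr t ht j
      rw [← this]
      ring
    push_cast
    linarith
  · refine (H63.nm_sum _ _).trans ?_
    have hT' : (1 : ℝ) ≤ (e * m : ℕ) := by exact_mod_cast hT
    have h2e : (2 : ℝ) ^ (e * m + 1) ≤ Real.exp (2 * (e * m : ℕ)) := by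
      have a : (2 : ℝ) ≤ Real.exp 1 := by
        have := Real.add_one_le_exp 1
        linarith
      refine (pow_le_pow_left₀ (by norm_num) a _).trans ?_
      rw [← Real.exp_nat_mul, Real.exp_le_exp, Nat.cast_add, Nat.cast_one]
      linarith
    calc _ ≤ ∑ t ∈ E, |(M t : ℝ)| * Real.exp (2 * (e * m : ℕ)) := by
          refine sum_le_sum fun t ht => (H63.nm_mul _ _).trans ?_
          rw [H63.nm_monomial]
          refine mul_le_mul (le_of_eq ?_) ((aux3_nm _ _).trans ((pow_le_pow_right₀ (by norm_num)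
            (hS.sle t ht 1)).trans h2e)) (H63.nm_nonneg _) (abs_nonneg _)
          push_cast
          rw [abs_mul, abs_pow, abs_neg, abs_one, one_pow, mul_one]
      _ ≤ Real.exp (4 * (e * m : ℕ)) * Real.exp (2 * (e * m : ℕ)) := by
          rw [← sum_mul]
          exact mul_le_mul_of_nonneg_right hn (Real.exp_pos _).le
      _ = _ := by
          rw [← Real.exp_add]
          congr 1
          ring
  · intro d hd
    have hw : wt (ow (e + e) μ) d = ((∑ j : Fin e, d (Fin.castAdd e j).castSucc +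
        ∑ j : Fin e, d (Fin.natAdd e j).castSucc + d (Fin.last (e + e)) * μ : ℕ) : ℝ) := by
      simp only [wt, ow, mul_ite, mul_one, Fin.sum_univ_castSucc, Fin.castSucc_ne_last,
        ↓ reduceIte, Nat.cast_add, Nat.cast_sum, Nat.cast_mul, Fin.sum_univ_add]
    rw [hw, Nat.cast_le]
    by_contra! hlt
    have hl : d (Fin.last (e + e)) = 0 := by
      by_contra h
      have := Nat.mul_le_mul_right μ (Nat.one_le_iff_ne_zero.2 h)
      omega
    have hv' := hv ![fun j => d (Fin.castAdd e j).castSucc, fun j => d (Fin.natAdd e j).castSucc,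
      fun _ => 0] (by
        rw [Fin.sum_univ_three]
        change ∑ j : Fin e, d (Fin.castAdd e j).castSucc +
          ∑ j : Fin e, d (Fin.natAdd e j).castSucc + ∑ _j : Fin e, 0 < μ
        rw [sum_const_zero]
        omega)
    have hne : A 2 ^ S0 * ∏ j : Fin e, ((η 0 j / η 2 j) ^ d (Fin.castAdd e j).castSucc *
        (η 1 j / η 2 j) ^ d (Fin.natAdd e j).castSucc * η 2 j ^ m) ≠ 0 :=
      mul_ne_zero (pow_ne_zero _ (hA 2)) (prod_ne_zero_iff.2 fun j _ =>
        mul_ne_zero (mul_ne_zero (pow_ne_zero _ (div_ne_zero (hη 0 j) (hη 2 j)))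
          (pow_ne_zero _ (div_ne_zero (hη 1 j) (hη 2 j)))) (pow_ne_zero _ (hη 2 j)))
    refine MvPolynomial.mem_support_iff.1 hd (mul_right_cancel₀ hne ?_)
    rw [zero_mul, ← hv', map_sum, MvPolynomial.coeff_sum, sum_mul]
    refine sum_congr rfl fun t ht => ?_
    have hz : A 0 / A 2 + 1 = -(A 1 / A 2) := by
      rw [Fin.sum_univ_three] at hA0
      have := hA 2
      field_simp
      linear_combination hA0
    rw [map_mul, map_pow, map_add, map_one (MvPolynomial.C : ℤ →+* _), map_one, tr,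
      MvPolynomial.eval₂Hom_X', Fin.snoc_last, add_assoc (MvPolynomial.X _),
      ← map_one (MvPolynomial.C : K →+* MvPolynomial (Fin (e + e + 1)) K), ← map_add,
      aux3_cf _ _ _ _ hl, hz,
      MvPolynomial.eval₂Hom_monomial, Finsupp.prod_fintype _ _ (by simp), eq_intCast,
      ← map_intCast (MvPolynomial.C : K →+* _), MvPolynomial.coeff_C_mul, H63.aux_coeff,
      Fin.prod_univ_castSucc, Fin.prod_univ_add]
    simp only [h1, h1', h2, hl, Fin.snoc_castSucc, Fin.snoc_last, Nat.choose_zero_right,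
      Nat.cast_one, one_mul, Nat.sub_zero, Fin.append_left, Fin.append_right]
    have key : (∏ j : Fin e, (((t 0 j).choose (d (Fin.castAdd e j).castSucc) : K) *
          (η 0 j / η 2 j) ^ (t 0 j - d (Fin.castAdd e j).castSucc))) *
        (∏ j : Fin e, (((t 1 j).choose (d (Fin.natAdd e j).castSucc) : K) *
          (η 1 j / η 2 j) ^ (t 1 j - d (Fin.natAdd e j).castSucc))) *
        (∏ j : Fin e, ((η 0 j / η 2 j) ^ d (Fin.castAdd e j).castSucc *
          (η 1 j / η 2 j) ^ d (Fin.natAdd e j).castSucc * η 2 j ^ m)) =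
        (∏ j : Fin e, ((t 0 j).choose (d (Fin.castAdd e j).castSucc) : K)) *
        (∏ j : Fin e, ((t 1 j).choose (d (Fin.natAdd e j).castSucc) : K)) *
        ((∏ j, η 0 j ^ t 0 j) * (∏ j, η 1 j ^ t 1 j) * ∏ j, η 2 j ^ t 2 j) := by
      simp only [← prod_mul_distrib]
      refine prod_congr rfl fun j _ => ?_
      rw [← htr t ht j]
      exact aux3_pw _ _ _ (hη 2 j) _ _ _ _ _
    have keyA : (-1 : K) ^ s t 1 * (A 0 / A 2) ^ s t 0 * (-(A 1 / A 2)) ^ s t 1 * A 2 ^ S0 =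
        A 0 ^ s t 0 * A 1 ^ s t 1 * A 2 ^ s t 2 := by
      have := hA 2
      rw [← hss t ht, mul_right_comm ((-1 : K) ^ s t 1), ← mul_pow, neg_mul_neg, one_mul]
      simp only [div_pow, pow_add]
      field_simp
    have hwg : ((wgt t ![fun j => d (Fin.castAdd e j).castSucc,
        fun j => d (Fin.natAdd e j).castSucc, fun _ => 0] : ℤ) : K) =
        (∏ j : Fin e, ((t 0 j).choose (d (Fin.castAdd e j).castSucc) : K)) *
        (∏ j : Fin e, ((t 1 j).choose (d (Fin.natAdd e j).castSucc) : K)) := by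
      rw [wgt, Fin.prod_univ_three]
      change (((∏ j : Fin e, ((t 0 j).choose (d (Fin.castAdd e j).castSucc) : ℤ)) *
        (∏ j : Fin e, ((t 1 j).choose (d (Fin.natAdd e j).castSucc) : ℤ)) *
        ∏ j : Fin e, ((t 2 j).choose 0 : ℤ) : ℤ) : K) = _
      simp only [Nat.choose_zero_right, Nat.cast_one, prod_const_one, mul_one]
      push_cast
      rfl
    rw [Int.cast_mul (M t) (wgt _ _), hwg, mon, Fin.prod_univ_three]
    push_cast
    linear_combination ((M t : K) * ((-1 : K) ^ s t 1 * (A 0 / A 2) ^ s t 0 *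
      (-(A 1 / A 2)) ^ s t 1 * A 2 ^ S0)) * key + ((M t : K) *
        ((∏ j : Fin e, ((t 0 j).choose (d (Fin.castAdd e j).castSucc) : K)) *
        (∏ j : Fin e, ((t 1 j).choose (d (Fin.natAdd e j).castSucc) : K)) *
        ((∏ j, η 0 j ^ t 0 j) * (∏ j, η 1 j ^ t 1 j) * ∏ j, η 2 j ^ t 2 j))) * keyA
-- END AUX3
end

section
-- BEGIN HT3
theorem ht3_sum {L : Type} [Field L] [NumberField L] (A : Fin 3 → L) (V : Finset (Pl L))
    (hU : ∀ k, Un V (A k)) :
    ht3 A = ∑ v ∈ V, max (lg v (A 0)) (max (lg v (A 1)) (lg v (A 2))) := by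
  apply finsum_eq_sum_of_support_subset
  intro v hv
  by_contra hn
  apply hv
  have hn' : v ∉ V := by simpa using hn
  simp [lg, (hU 0).2 v hn', (hU 1).2 v hn', (hU 2).2 v hn']

theorem ht3_le (f : Fin 3 → ℝ) (k : Fin 3) : f k ≤ max (f 0) (max (f 1) (f 2)) := by
  fin_cases k
  · exact le_max_left _ _
  · exact (le_max_left _ _).trans (le_max_right _ _)
  · exact (le_max_right _ _).trans (le_max_right _ _)

theorem ht3_third {L : Type} [Field L] (A : Fin 3 → L) (h : ∑ k, A k = 0) (a b k : Fin 3)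
    (hab : a ≠ b) : k = a ∨ k = b ∨ A k = -(A a + A b) := by
  rw [Fin.sum_univ_three] at h
  fin_cases a <;> fin_cases b <;> fin_cases k <;> simp at hab ⊢ <;> linear_combination h

theorem ht3_div {L : Type} [Field L] [NumberField L] (v : Pl L) {x y : L} (hx : x ≠ 0)
    (hy : y ≠ 0) : lg v (x / y) = lg v x - lg v y := by
  unfold lg
  rw [map_div₀, Real.log_div ((av v).pos hx).ne' ((av v).pos hy).ne']

theorem ht3_neg {L : Type} [Field L] [NumberField L] (v : Pl L) (x : L) : lg v (-x) = lg v x := by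
  unfold lg
  rw [AbsoluteValue.map_neg]

theorem ht3_row : HT3_s := by
  intro L _ _ A hA hs
  classical
  obtain ⟨-, hZ, hAr, hE, -, hH⟩ := fPF L
  have hX : ∀ x ∈ (univ : Finset (Fin 3)).image A, x ≠ 0 := by
    intro x hx
    obtain ⟨k, -, rfl⟩ := mem_image.1 hx
    exact hA k
  constructor
  · intro H c
    obtain ⟨V, hV, hHV, hU⟩ := hE _ (H.image Sum.inr) hX
    have hU' : ∀ k, Un V (A k) := fun k => hU _ (mem_image_of_mem A (mem_univ k))
    have h0 := hZ V hV _ (hU' 0)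
    have h1 := hZ V hV _ (hU' 1)
    have h2 := hZ V hV _ (hU' 2)
    have hF : ∑ v ∈ V, (3 * max (lg v (A 0)) (max (lg v (A 1)) (lg v (A 2))) - lg v (A 0) -
        lg v (A 1) - lg v (A 2)) = 3 * ht3 A := by
      rw [sum_sub_distrib, sum_sub_distrib, sum_sub_distrib, h0, h1, h2, ← mul_sum,
        ← ht3_sum A V hU']
      ring
    rw [← hF]
    refine le_trans ?_ (sum_le_sum_of_subset_of_nonneg hHV ?_)
    · rw [sum_image (fun a _ b _ h => Sum.inr_injective h)]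
      refine sum_le_sum fun w _ => ?_
      have h3 : A (c w + 1) / A (c w + 2) + 1 = -(A (c w) / A (c w + 2)) := by
        have h4 : A (c w) + A (c w + 1) + A (c w + 2) = 0 := by
          rw [Fin.sum_univ_three] at hs
          generalize c w = k
          fin_cases k <;> simp <;> linear_combination hs
        have h5 := hA (c w + 2)
        field_simp
        linear_combination h4
      have h6 : Real.log (w (A (c w + 1) / A (c w + 2) + 1)) =
          lg (Sum.inr w) (A (c w)) - lg (Sum.inr w) (A (c w + 2)) := by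
        rw [← ht3_div _ (hA _) (hA _), ← ht3_neg, ← h3]
        rfl
      rw [h6]
      have h7 := ht3_le (fun k => lg (Sum.inr w : Pl L) (A k))
      have h8 := h7 0
      have h9 := h7 1
      have h10 := h7 2
      have h11 := h7 (c w + 2)
      generalize c w = k at h11 ⊢
      fin_cases k <;> simp only [Fin.zero_eta, Fin.mk_one, Fin.reduceFinMk] at * <;> linarith
    · intro v _ _
      have h7 := ht3_le (fun k => lg v (A k))
      have h8 := h7 0
      have h9 := h7 1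
      have h10 := h7 2
      linarith
  · intro a b hab
    have hq : A a / A b ≠ 0 := div_ne_zero (hA a) (hA b)
    have hn : ht (-(A a / A b)) = ht (A a / A b) := by
      unfold ht
      simp only [ht3_neg]
    rw [hn, and_self]
    obtain ⟨V, hV, -, hU⟩ := hE _ ∅ hX
    have hU' : ∀ k, Un V (A k) := fun k => hU _ (mem_image_of_mem A (mem_univ k))
    have hUq : Un V (A a / A b) := by
      refine ⟨hq, fun v hv => ?_⟩
      rw [map_div₀, (hU' a).2 v hv, (hU' b).2 v hv, div_one]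
    have h0 := hZ V hV _ (hU' b)
    have h00 : ∑ v ∈ V, ar v = ∑ v ∈ V, (ar v + lg v (A b)) := by
      rw [sum_add_distrib, h0, add_zero]
    rw [ht3_sum A V hU', hH V _ hUq, ← hAr V hV, h00, ← sum_add_distrib]
    refine sum_le_sum fun v _ => ?_
    have har : 0 ≤ ar v := by
      rcases v with φ | w <;> simp [ar]
    have hk : ∀ k, lg v (A k) ≤ max (lg v (A a / A b)) 0 + (ar v + lg v (A b)) := by
      intro k
      have h1 := le_max_left (lg v (A a / A b)) 0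
      have h2 := le_max_right (lg v (A a / A b)) 0
      have h3 := ht3_div v (hA a) (hA b)
      rcases ht3_third A hs a b k hab with h | h | h
      · rw [h]; linarith
      · rw [h]; linarith
      · have h4 : A a / A b + 1 = -(A k / A b) := by
          have h5 := hA b
          rw [h]
          field_simp
        have h5 : A a / A b + 1 ≠ 0 := by
          rw [h4]
          exact neg_ne_zero.2 (div_ne_zero (hA k) (hA b))
        have h6 := ht1_loc v (A a / A b) 1 (by simp) h5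
        rw [h4, ht3_neg, ht3_div v (hA k) (hA b)] at h6
        have h7 := le_max_left (lg v (A k) - lg v (A b)) 0
        linarith
    exact max_le (hk 0) (max_le (hk 1) (hk 2))
-- END HT3
end

section
-- BEGIN COST3
theorem cost3_fin {L : Type} [Field L] [NumberField L] (V : Finset (Pl L)) (A Y : Fin 3 → L)
    (τ : ℝ) (hA : ∀ k, Un V (A k)) (hY : ∀ k, Un V (Y k)) :
    cost3 A Y τ = ∑ v ∈ V, max (lg v (Y 0) + τ * lg v (A 0))
      (max (lg v (Y 1) + τ * lg v (A 1)) (lg v (Y 2) + τ * lg v (A 2))) := by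
  unfold cost3
  refine finsum_eq_sum_of_support_subset _ ?_
  intro v hv
  by_contra hn
  apply hv
  have hn' : v ∉ V := fun h => hn (Finset.mem_coe.2 h)
  have a : ∀ k, lg v (A k) = 0 := fun k => by unfold lg; rw [(hA k).2 v hn', Real.log_one]
  have b : ∀ k, lg v (Y k) = 0 := fun k => by unfold lg; rw [(hY k).2 v hn', Real.log_one]
  simp [a, b]

theorem cost3_row : COST3_s := by
  intro L _ _ A Y δ W N i ρ r hW hδ hN hρ hr hAp
  classical
  obtain ⟨-, hZ, hA, hE, -, -⟩ := fPF L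
  have hρ0 : (ρ : L) ≠ 0 := by
    have : ρ ≠ 0 := by omega
    exact_mod_cast this
  have hA0 : ∀ k, A k ≠ 0 := fun k h => hW (by rw [← hδ k, h, mul_zero])
  have hδ0 : ∀ k, δ k ≠ 0 := fun k h => hW (by rw [← hδ k, h, zero_mul])
  have hX : ∀ x ∈ (({W, (ρ : L)} : Finset L) ∪ univ.image A ∪ univ.image Y), x ≠ 0 := by
    intro x hx
    simp only [Finset.mem_union, Finset.mem_insert, Finset.mem_singleton, Finset.mem_image,
      Finset.mem_univ, true_and] at hx
    rcases hx with ((rfl | rfl) | ⟨k, rfl⟩) | ⟨k, rfl⟩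
    · exact hW
    · exact hρ0
    · exact hA0 k
    · exact (hAp k).1
  obtain ⟨V, hV, -, hU⟩ := hE _ ∅ hX
  rw [cost3_fin V A Y _ (fun k => hU _ (by simp)) (fun k => hU _ (by simp))]
  have z1 := hZ V hV W (hU _ (by simp))
  have z3 := hZ V hV (ρ : L) (hU _ (by simp))
  have hb : ∀ v : Pl L, ∀ k, lg v (Y k) + (i : ℝ) / N * lg v (A k) ≤
      (Real.log r + Real.log ρ / N) * ar v - (1 / (N : ℝ)) * lg v (ρ : L) +
        (i : ℝ) / N * lg v W := by
    intro v k
    have b1 := cost_loc fVAL (δ k) (Y k) N i ρ r (hδ0 k) hN hρ hr (hAp k) v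
    have e1 : lg v W = lg v (δ k) + lg v (A k) := by
      unfold lg
      rw [← hδ k, map_mul, Real.log_mul ((av v).pos (hδ0 k)).ne' ((av v).pos (hA0 k)).ne']
    have e3 : (1 / (N : ℝ)) * lg v (ρ : L) = lg v (ρ : L) / N := by ring
    rw [e1, e3, mul_add]
    linarith
  refine (Finset.sum_le_sum fun v _ => max_le (hb v 0) (max_le (hb v 1) (hb v 2))).trans
    (le_of_eq ?_)
  rw [Finset.sum_add_distrib, Finset.sum_sub_distrib, ← Finset.mul_sum,
    ← Finset.mul_sum, ← Finset.mul_sum, z1, z3, hA V hV]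
  ring
-- END COST3
end

end Pool.Agent.MP_2a5a28_nt.H63Y
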