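import Pool.Agent.MP_2a5a28_nt.H63Y.Defs

set_option autoImplicit false

namespace Pool.Agent.MP_2a5a28_nt.H63Y

open Finset NumberField Module
open H63 (Sx nm wt Lo tr ow)
open H15Z

section
-- BEGIN KEY
/-- The last variable moved into the coefficients. -/
noncomputable def key_cf (k : ℕ) :
    MvPolynomial (Fin (k + 1)) ℤ →+* MvPolynomial (Fin (k + 1)) (Polynomial ℤ) :=
  MvPolynomial.eval₂Hom (MvPolynomial.C.comp Polynomial.C) fun j =>
    if j = Fin.last k then MvPolynomial.C Polynomial.X else MvPolynomial.X j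

theorem key_shX (k : ℕ) (j : Fin (k + 1)) : sh k (MvPolynomial.X j) =
    if j = Fin.last k then MvPolynomial.X j - 1 else MvPolynomial.X j := by
  rw [sh, H63.gg_trX]
  split_ifs with h
  · rw [h, Pi.single_eq_same, map_neg, map_one, sub_eq_add_neg]
  · rw [Pi.single_eq_of_ne h, map_zero, add_zero]

theorem key_cf_X (k : ℕ) (j : Fin (k + 1)) : key_cf k (MvPolynomial.X j) =
    if j = Fin.last k then MvPolynomial.C Polynomial.X else MvPolynomial.X j :=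
  MvPolynomial.eval₂Hom_X' _ _ _

theorem key_cf_sh (k : ℕ) (Q : MvPolynomial (Fin (k + 1)) ℤ) : key_cf k (sh k Q) =
    MvPolynomial.map (Polynomial.compRingHom (Polynomial.X - 1)) (key_cf k Q) := by
  have : (key_cf k).comp (sh k) =
      (MvPolynomial.map (Polynomial.compRingHom (Polynomial.X - 1))).comp (key_cf k) := by
    refine MvPolynomial.ringHom_ext (fun r => ?_) (fun j => ?_)
    · simp only [eq_intCast, map_intCast]
    · rw [RingHom.comp_apply, RingHom.comp_apply, key_shX, key_cf_X]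
      split_ifs with h
      · rw [map_sub, map_one, key_cf_X, if_pos h, MvPolynomial.map_C]
        simp
      · rw [key_cf_X, if_neg h, MvPolynomial.map_X]
  exact RingHom.congr_fun this Q

theorem key_cf_mon0 (k : ℕ) (u : Fin (k + 1) →₀ ℕ) (hu : u (Fin.last k) = 0) (a : ℤ) :
    key_cf k (MvPolynomial.monomial u a) = MvPolynomial.monomial u (Polynomial.C a) := by
  rw [MvPolynomial.monomial_eq, MvPolynomial.monomial_eq, map_mul, Finsupp.prod, Finsupp.prod,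
    map_prod]
  congr 1
  · simp only [eq_intCast, map_intCast]
  · refine prod_congr rfl fun j hj => ?_
    rw [map_pow, key_cf_X, if_neg]
    rintro rfl
    exact Finsupp.mem_support_iff.1 hj hu

theorem key_cf_mon (k : ℕ) (d : Fin (k + 1) →₀ ℕ) (a : ℤ) :
    key_cf k (MvPolynomial.monomial d a) =
      MvPolynomial.monomial (d.erase (Fin.last k)) (Polynomial.monomial (d (Fin.last k)) a) := by
  have h : (MvPolynomial.monomial d a : MvPolynomial (Fin (k + 1)) ℤ) =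
      MvPolynomial.monomial (d.erase (Fin.last k)) a *
        MvPolynomial.X (Fin.last k) ^ d (Fin.last k) := by
    rw [MvPolynomial.X_pow_eq_monomial, MvPolynomial.monomial_mul, mul_one,
      Finsupp.erase_add_single]
  rw [h, map_mul, map_pow, key_cf_X, if_pos rfl, key_cf_mon0 k _ Finsupp.erase_same, ← map_pow,
    mul_comm, MvPolynomial.C_mul_monomial, mul_comm, Polynomial.C_mul_X_pow_eq_monomial]

theorem key_cf_coeff (k : ℕ) (Q : MvPolynomial (Fin (k + 1)) ℤ) (u : Fin (k + 1) →₀ ℕ)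
    (hu : u (Fin.last k) = 0) (i : ℕ) :
    ((key_cf k Q).coeff u).coeff i = Q.coeff (u + Finsupp.single (Fin.last k) i) := by
  classical
  induction Q using MvPolynomial.induction_on' with
  | add p q hp hq => simp only [map_add, MvPolynomial.coeff_add, Polynomial.coeff_add, hp, hq]
  | monomial d a =>
    rw [key_cf_mon, MvPolynomial.coeff_monomial, MvPolynomial.coeff_monomial]
    by_cases h : d = u + Finsupp.single (Fin.last k) i
    · subst h
      have h1 : (u + Finsupp.single (Fin.last k) i).erase (Fin.last k) = u := by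
        ext j
        by_cases hj : j = Fin.last k
        · subst hj; simp [hu]
        · simp [Finsupp.erase_ne hj]
      rw [if_pos h1, if_pos rfl, Polynomial.coeff_monomial, if_pos (by simp [hu])]
    · rw [if_neg h]
      split_ifs with h1
      · rw [Polynomial.coeff_monomial, if_neg]
        intro h2
        exact h (by rw [← h1, ← h2, Finsupp.erase_add_single])
      · exact Polynomial.coeff_zero _

theorem key_one {c : Polynomial ℤ} (hc : c ≠ 0) : c.comp (Polynomial.X - 1) ≠ 0 ∧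
    c.natTrailingDegree + (c.comp (Polynomial.X - 1)).natTrailingDegree ≤ c.natDegree := by
  have hi : (c.comp (Polynomial.X - 1)).comp (Polynomial.X + 1) = c := by
    rw [Polynomial.comp_assoc]
    simp
  refine ⟨fun h => hc (by rw [← hi, h, Polynomial.zero_comp]), ?_⟩
  have hd : ∀ f : Polynomial ℤ, Polynomial.X ^ f.natTrailingDegree ∣ f := fun f =>
    Polynomial.X_pow_dvd_iff.2 fun d hd => Polynomial.coeff_eq_zero_of_lt_natTrailingDegree hd
  obtain ⟨b, hb⟩ : ∃ b, b = (c.comp (Polynomial.X - 1)).natTrailingDegree := ⟨_, rfl⟩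
  have h3 : (Polynomial.X + Polynomial.C 1 : Polynomial ℤ) ^ b ∣ c := by
    obtain ⟨g, hg⟩ := hd (c.comp (Polynomial.X - 1))
    rw [← hb] at hg
    refine ⟨g.comp (Polynomial.X + 1), ?_⟩
    rw [← hi, hg]
    simp
  have hco : IsCoprime (Polynomial.X : Polynomial ℤ) (Polynomial.X + Polynomial.C 1) :=
    ⟨-1, 1, by rw [Polynomial.C_1]; ring⟩
  have h4 := Polynomial.natDegree_le_of_dvd ((hco.pow).mul_dvd (hd c) h3) hc
  rw [(Polynomial.monic_X_pow _).natDegree_mul ((Polynomial.monic_X_add_C 1).pow _),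
    Polynomial.natDegree_X_pow, Polynomial.natDegree_pow, Polynomial.natDegree_X_add_C,
    mul_one] at h4
  rwa [← hb]

theorem key_row : KEY_s := by
  intro k Q d h
  obtain ⟨u, hu⟩ : ∃ u, u = d.erase (Fin.last k) := ⟨_, rfl⟩
  have hu0 : u (Fin.last k) = 0 := by rw [hu]; exact Finsupp.erase_same
  have hc : (key_cf k Q).coeff u ≠ 0 := fun e => by
    have := key_cf_coeff k Q u hu0 (d (Fin.last k))
    rw [e, hu, Finsupp.erase_add_single] at this
    exact MvPolynomial.mem_support_iff.1 h this.symm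
  obtain ⟨hc', hle⟩ := key_one hc
  have e : (key_cf k (sh k Q)).coeff u = ((key_cf k Q).coeff u).comp (Polynomial.X - 1) := by
    rw [key_cf_sh, MvPolynomial.coeff_map]
    rfl
  rw [← e] at hc' hle
  have hj : ∀ (i : ℕ) (j : Fin (k + 1)), j ≠ Fin.last k →
      (u + Finsupp.single (Fin.last k) i : Fin (k + 1) →₀ ℕ) j = d j := fun i j hj => by
    simp [hu, Finsupp.erase_ne hj, Finsupp.single_eq_of_ne hj]
  refine ⟨u + Finsupp.single (Fin.last k) ((key_cf k Q).coeff u).natTrailingDegree, ?_,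
    u + Finsupp.single (Fin.last k) ((key_cf k (sh k Q)).coeff u).natTrailingDegree, ?_,
    u + Finsupp.single (Fin.last k) ((key_cf k Q).coeff u).natDegree, ?_,
    fun j h' => ⟨hj _ j h', hj _ j h', hj _ j h'⟩, ?_⟩
  · rw [MvPolynomial.mem_support_iff, ← key_cf_coeff k _ u hu0]
    exact Polynomial.coeff_natTrailingDegree_ne_zero.2 hc
  · rw [MvPolynomial.mem_support_iff, ← key_cf_coeff k _ u hu0]
    exact Polynomial.coeff_natTrailingDegree_ne_zero.2 hc'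
  · rw [MvPolynomial.mem_support_iff, ← key_cf_coeff k _ u hu0]
    exact Polynomial.leadingCoeff_ne_zero.2 hc
  · simpa only [Finsupp.add_apply, hu0, Finsupp.single_eq_same, zero_add] using hle
-- END KEY
end

section
-- BEGIN ZED3
/-- The upper weight. -/
def z3w (k : ℕ) (ω1 ω2 : Fin (k + 1) → ℝ) : Fin (k + 1) → ℝ :=
  fun j => if j = Fin.last k then -1 else -(ω1 j + ω2 j)

/-- The three weight bounds. -/
def Z3Sl (k : ℕ) (ω1 ω2 : Fin (k + 1) → ℝ) (w : ℝ) (P : MvPolynomial (Fin (k + 1)) ℤ) : Prop :=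
  ω1 (Fin.last k) = 1 ∧ ω2 (Fin.last k) = 1 ∧ ∃ lo1 lo2 : ℝ, Lo ω1 lo1 P ∧
    Lo ω2 lo2 (sh k P) ∧ Lo (z3w k ω1 ω2) (-(lo1 + lo2 + w)) P

theorem z3sh_X (k : ℕ) (j : Fin (k + 1)) : sh k (MvPolynomial.X j) =
    if j = Fin.last k then MvPolynomial.X j - 1 else MvPolynomial.X j := by
  rw [sh, H63.gg_trX]
  split_ifs with h
  · rw [h, Pi.single_eq_same, map_neg, map_one, sub_eq_add_neg]
  · rw [Pi.single_eq_of_ne h, map_zero, add_zero]

theorem z3_tri (hKEY : KEY_s) (k : ℕ) {ω1 ω2 : Fin (k + 1) → ℝ} (h1 : ω1 (Fin.last k) = 1)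
    (h2 : ω2 (Fin.last k) = 1) {Q : MvPolynomial (Fin (k + 1)) ℤ} {d : Fin (k + 1) →₀ ℕ}
    (h : d ∈ Q.support) : ∃ a ∈ Q.support, ∃ b ∈ (sh k Q).support, ∃ c ∈ Q.support,
      (∀ j, j ≠ Fin.last k → a j = d j ∧ b j = d j) ∧
      wt ω1 a + wt ω2 b + wt (z3w k ω1 ω2) c ≤ 0 := by
  obtain ⟨a, ha, b, hb, c, hc, hj, hle⟩ := hKEY k Q d h
  refine ⟨a, ha, b, hb, c, hc, fun j h' => ⟨(hj j h').1, (hj j h').2.1⟩, ?_⟩
  have h5 : (a (Fin.last k) : ℝ) + b (Fin.last k) ≤ c (Fin.last k) := by exact_mod_cast hle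
  simp only [wt, Fin.sum_univ_castSucc, (hj _ (Fin.castSucc_ne_last _)).1,
    (hj _ (Fin.castSucc_ne_last _)).2.1, (hj _ (Fin.castSucc_ne_last _)).2.2, z3w,
    Fin.castSucc_ne_last, if_false, if_true, h1, h2, mul_neg, mul_add, sum_neg_distrib,
    sum_add_distrib, mul_one]
  linarith only [h5]

theorem z3_mult (hKEY : KEY_s) {k : ℕ} {ω1 ω2 : Fin (k + 2) → ℝ} {A wd : ℝ} {lam ν : ℕ}
    {P : MvPolynomial (Fin (k + 2)) ℤ}
    (h0 : (MvPolynomial.finSuccEquiv ℤ (k + 1) P).coeff 0 ≠ 0)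
    (hdeg : ∀ d ∈ P.support, ∀ j, j ≠ Fin.last (k + 1) → d j ≤ lam)
    (hsl : Z3Sl (k + 1) ω1 ω2 (wd * lam) P) (hwd : 0 ≤ wd)
    (hD : Dis3 (k + 1) ω1 ω2 A wd) (hA : (lam : ℝ) ≤ A * (ν + 1))
    (φ : Polynomial (FractionRing (MvPolynomial (Fin (k + 1)) ℤ))) (hφ : Irreducible φ) :
    ¬φ ^ (ν + 1) ∣ (MvPolynomial.finSuccEquiv ℤ (k + 1) P).map (algebraMap _ _) := by
  intro h
  obtain ⟨ψ, hψ, g, e⟩ := H63.mult_gauss hφ h
  obtain ⟨Φ, rfl⟩ := (MvPolynomial.finSuccEquiv ℤ (k + 1)).surjective ψ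
  obtain ⟨G, rfl⟩ := (MvPolynomial.finSuccEquiv ℤ (k + 1)).surjective g
  have e0 := h0
  rw [e, Polynomial.mul_coeff_zero, Polynomial.coeff_zero_eq_eval_zero, Polynomial.eval_pow,
    ← Polynomial.coeff_zero_eq_eval_zero] at e0
  have hΦ0 := ne_zero_pow (Nat.succ_ne_zero ν) (left_ne_zero_of_mul e0)
  have hG : G ≠ 0 := fun hG => right_ne_zero_of_mul e0 (by simp [hG])
  have hΦ : Φ ≠ 0 := fun hG => hΦ0 (by simp [hG])
  rw [← map_pow, ← map_mul, (MvPolynomial.finSuccEquiv ℤ (k + 1)).injective.eq_iff] at e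
  subst e
  obtain ⟨a, ha⟩ := MvPolynomial.support_nonempty.2 hΦ0
  obtain ⟨a', ha'⟩ := MvPolynomial.support_nonempty.2 (Polynomial.leadingCoeff_ne_zero.2
    (Polynomial.ne_zero_of_natDegree_gt hψ))
  rw [Polynomial.leadingCoeff] at ha'
  rw [MvPolynomial.mem_support_coeff_finSuccEquiv] at ha ha'
  have hν : (0 : ℝ) < ν + 1 := by positivity
  obtain ⟨o1, o2, lo1, lo2, l1, l2, l3⟩ := hsl
  obtain ⟨b, hb⟩ := MvPolynomial.support_nonempty.2 hG
  obtain ⟨b1, hb1, b2, hb2, b3, hb3, -, hb4⟩ := z3_tri hKEY (k + 1) o1 o2 hb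
  obtain ⟨x1, hx1, x2, hx2, x3, hx3, hx, hx4⟩ := z3_tri hKEY (k + 1) o1 o2 ha
  obtain ⟨y1, hy1, y2, hy2, y3, hy3, hy, hy4⟩ := z3_tri hKEY (k + 1) o1 o2 ha'
  rw [map_mul, map_pow] at l2
  obtain ⟨d1, hd1, p1⟩ := H63.ost ω1 hΦ hG (ν + 1)
  obtain ⟨d2, hd2, p2⟩ := H63.ost ω2 (MvPolynomial.support_nonempty.1 ⟨_, hx2⟩)
    (MvPolynomial.support_nonempty.1 ⟨_, hb2⟩) (ν + 1)
  obtain ⟨d3, hd3, p3⟩ := H63.ost (z3w (k + 1) ω1 ω2) hΦ hG (ν + 1)
  have key : ∀ u ∈ Φ.support, ∀ v ∈ (sh (k + 1) Φ).support, ∀ w ∈ Φ.support,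
      -(wd * lam) ≤ (ν + 1) * (wt ω1 u + wt ω2 v + wt (z3w (k + 1) ω1 ω2) w) := by
    intro u hu v hv w hw
    have q1 := (l1 d1 hd1).trans (p1 u hu b1 hb1)
    have q2 := (l2 d2 hd2).trans (p2 v hv b2 hb2)
    have q3 := (l3 d3 hd3).trans (p3 w hw b3 hb3)
    push_cast at q1 q2 q3
    linarith only [q1, q2, q3, hb4]
  have hz : (0 : Fin (k + 2)) ≠ Fin.last (k + 1) := Fin.last_pos.ne
  have h2 := hD (fun j => (y1 j : ℤ) - (x1 j : ℤ)) (fun j => (y2 j : ℤ) - (x2 j : ℤ))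
    (fun j hj => by simp only [(hx j hj).1, (hx j hj).2, (hy j hj).1, (hy j hj).2])
    ⟨0, hz, by
      simp only [(hx 0 hz).1, (hy 0 hz).1, Finsupp.cons_zero]
      omega⟩ fun j hj => by
    have e1 : ∀ d : Fin (k + 2) →₀ ℕ, wt (Pi.single j 1) d = d j := fun d => by
      simp [wt, Pi.single_apply]
    have h3 := H63.ost_width (Pi.single j 1) hΦ hG (ν + 1) (lo := 0) (w := lam) (fun d hd => by
      rw [e1, zero_add]
      exact ⟨Nat.cast_nonneg _, by exact_mod_cast hdeg d hd j hj⟩) _ hy1 _ hx1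
    rw [e1, e1] at h3
    push_cast at h3 ⊢
    exact le_of_mul_le_mul_left (by linarith only [hA, h3]) hν
  simp only [Int.cast_sub, Int.cast_natCast, sub_mul, Finset.sum_sub_distrib] at h2
  have h4 := mul_le_mul_of_nonneg_left hA hwd
  have m1 := mul_le_mul_of_nonneg_left hx4 hν.le
  have m2 := mul_le_mul_of_nonneg_left hy4 hν.le
  have k1 := key x1 hx1 y2 hy2 y3 hy3
  have k2 := key y1 hy1 x2 hx2 x3 hx3
  have k3 := key y1 hy1 x2 hx2 y3 hy3
  have k4 := key x1 hx1 y2 hy2 x3 hx3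
  rcases h2 with h2 | h2
  · have h5 : |wt ω1 y1 - wt ω1 x1| ≤ A * wd := by
      refine le_of_mul_le_mul_left ?_ hν
      rw [← abs_of_pos hν, ← abs_mul, abs_of_pos hν, abs_le]
      constructor <;> linarith only [h4, m1, m2, k1, k2]
    exact absurd h2 (not_lt.2 h5)
  · have h5 : |wt ω2 y2 - wt ω2 x2| ≤ A * wd := by
      refine le_of_mul_le_mul_left ?_ hν
      rw [← abs_of_pos hν, ← abs_mul, abs_of_pos hν, abs_le]
      constructor <;> linarith only [h4, m1, m2, k3, k4]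
    exact absurd h2 (not_lt.2 h5)

theorem z3_core {K : Type} [Field K] [CharZero K] {k : ℕ} {pt : Fin (k + 2) → K}
    {ω : Fin (k + 2) → ℝ} {m lam μ : ℕ} {γ wd : ℝ}
    {Q : MvPolynomial (Fin (k + 2)) ℤ} (hQ : H63.St (k + 1) pt ω m lam μ γ wd Q)
    (h0 : (MvPolynomial.finSuccEquiv ℤ (k + 1) Q).coeff 0 ≠ 0)
    (hm : ∀ φ : Polynomial (FractionRing (MvPolynomial (Fin (k + 1)) ℤ)), Irreducible φ →
      ¬φ ^ (μ / 2 + 1) ∣ (MvPolynomial.finSuccEquiv ℤ (k + 1) Q).map (algebraMap _ _))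
    (hwd : 0 ≤ wd) (hγ : 0 ≤ γ) (h1 : 1 ≤ lam) (hμ : μ ≤ lam) :
    ∃ c : ℕ → ℕ, H63.St k (Fin.tail pt) (Fin.tail ω) m (2 * lam ^ 2) ((μ / 2) ^ 2) (γ + 4) wd
      (Polynomial.resultant (MvPolynomial.finSuccEquiv ℤ (k + 1) Q)
        (H63.gg c (μ / 2) (MvPolynomial.finSuccEquiv ℤ (k + 1) Q))
        (MvPolynomial.finSuccEquiv ℤ (k + 1) Q).natDegree lam) := by
  obtain ⟨lo, hlo⟩ := hQ.slab
  have hz : (0 : Fin (k + 2)) ≠ Fin.last (k + 1) := by simp [Fin.ext_iff]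
  have hco := H63.nm_coeff Q
  have hiso := fun (w : Fin (k + 2) → ℝ) (a : ℝ) (hw : Lo w a Q) => H63.step_iso hw
  have hor := (H63.Lo_fin _ _ _).1 hQ.ord
  rw [H63.tr_fin] at hor
  have ha : (MvPolynomial.finSuccEquiv ℤ (k + 1) Q).natDegree ≤ lam := by
    rw [MvPolynomial.natDegree_finSuccEquiv, MvPolynomial.degreeOf_le_iff]
    exact fun d hd => hQ.deg d hd 0 hz
  generalize MvPolynomial.finSuccEquiv ℤ (k + 1) Q = f at h0 hm hco hiso hor ha ⊢
  have hν : 2 * (μ / 2) ≤ μ := Nat.mul_div_le μ 2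
  generalize μ / 2 = ν at hm hν ⊢
  have hinj : Function.Injective (algebraMap (MvPolynomial (Fin (k + 1)) ℤ)
      (FractionRing (MvPolynomial (Fin (k + 1)) ℤ))) := IsFractionRing.injective _ _
  have : CharZero (FractionRing (MvPolynomial (Fin (k + 1)) ℤ)) :=
    charZero_of_injective_algebraMap hinj
  obtain ⟨c, hc, hres⟩ := H63.cop (f.map (algebraMap _ (FractionRing (MvPolynomial (Fin (k + 1)) ℤ))))
    (by rw [Polynomial.coeff_map]; exact fun e => h0 (hinj (by rw [e, map_zero]))) lam ν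
    (Polynomial.natDegree_map_le.trans ha) hm
  rw [← H63.gg_map, Polynomial.natDegree_map_eq_of_injective hinj, Polynomial.resultant_map_map] at hres
  have hal : (f.natDegree : ℝ) ≤ lam := by exact_mod_cast ha
  have hl0 : (0 : ℝ) ≤ lam := Nat.cast_nonneg _
  refine ⟨c, fun e => hres (by rw [e, map_zero]),
    fun d hd j hj => ?_, ?_, ?_, ?_⟩
  · have hw : ∀ (r : ℕ) (i : Fin r) (d : Fin r →₀ ℕ),
        wt (fun i' => if i' = i then (-1 : ℝ) else 0) d = -(d i : ℝ) := by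
      intro r i d
      simp only [wt, mul_ite, mul_neg, mul_one, mul_zero, sum_ite_eq', mem_univ, ↓ reduceIte]
    have h2 := hiso (fun i' => if i' = j.succ then (-1 : ℝ) else 0) (-lam) (fun d hd => by
      rw [hw]
      have := hQ.deg d hd j.succ (by rw [← Fin.succ_last]; exact fun e => hj (Fin.succ_injective _ e))
      exact neg_le_neg (by exact_mod_cast this)) c ν f.natDegree lam d hd
    have h3 : (Fin.tail fun i' : Fin (k + 2) => if i' = j.succ then (-1 : ℝ) else 0) =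
        fun i' => if i' = j then (-1 : ℝ) else 0 := by
      funext i'
      simp [Fin.tail]
    rw [h3, hw, if_neg (Fin.succ_ne_zero j).symm] at h2
    have : (d j : ℝ) ≤ 2 * (lam : ℝ) ^ 2 := by nlinarith only [hal, h2]
    exact_mod_cast this
  · refine ⟨lam * lo + f.natDegree * lo - f.natDegree * lam * ω 0, fun d hd =>
      ⟨hiso ω lo (fun d hd => (hlo d hd).1) c ν f.natDegree lam d hd, ?_⟩⟩
    have hw : ∀ (r : ℕ) (w : Fin r → ℝ) (d : Fin r →₀ ℕ), wt (fun i => -w i) d = -wt w d := by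
      intro r w d
      simp only [wt, mul_neg, sum_neg_distrib]
    have h2 := hiso (fun i => -ω i) (-(lo + wd * lam)) (fun d hd => by
      rw [hw]; exact neg_le_neg (hlo d hd).2) c ν f.natDegree lam d hd
    have h3 : (Fin.tail fun i => -ω i) = fun i => -Fin.tail ω i := rfl
    rw [h3, hw] at h2
    have h4 : f.natDegree * (wd * lam) ≤ lam * (wd * lam) :=
      mul_le_mul_of_nonneg_right hal (mul_nonneg hwd hl0)
    push_cast
    linarith only [h2, h4]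
  · have hB : (1 : ℝ) ≤ (lam * 2 ^ lam : ℕ) := by
      exact_mod_cast Nat.mul_pos h1 (Nat.two_pow_pos lam)
    refine (H63.nm_res (B := (lam * 2 ^ lam : ℕ) * Real.exp (γ * lam)) (fun i => ?_) (fun i => ?_)
      _ _).trans (H63.step_num hγ h1 (by omega))
    · exact ((hco i).trans hQ.nrm).trans (le_mul_of_one_le_left (Real.exp_pos _).le hB)
    · rw [H63.gg_coeff]
      refine (H63.nm_natCast_mul _ _).trans ?_
      rcases le_or_gt i lam with hi | hi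
      · exact mul_le_mul (by exact_mod_cast H63.step_sum hc ν i hi) ((hco i).trans hQ.nrm)
          (H63.nm_nonneg _) (Nat.cast_nonneg _)
      · rw [Polynomial.coeff_eq_zero_of_natDegree_lt (ha.trans_lt hi)]
        simp only [nm, MvPolynomial.support_zero, sum_empty, mul_zero]
        positivity
  · have h2 : Fin.tail (ow (k + 1) m) = ow k m := by
      funext i
      simp only [Fin.tail, ow, ← Fin.succ_last, Fin.succ_inj]
    have h3 : ow (k + 1) m 0 = 1 := if_neg hz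
    rw [h2, h3] at hor
    have hν' : 2 * (ν : ℝ) ≤ μ := by exact_mod_cast hν
    have hν0 : (0 : ℝ) ≤ ν := Nat.cast_nonneg _
    have h4 := H63.res_ord (ω := ow k m) (ν := ν) (fun j => by unfold ow; split_ifs <;> positivity)
      (fun i => (hor i).mono (by linarith only [hν']))
      (fun i => (H63.gg_ord c ν (pt 0) hor i).mono (by linarith only [hν'])) f.natDegree lam (by omega)
    rw [H63.res_taylor _ _ _ _ _ Polynomial.natDegree_map_le
      ((H63.gg_natDegree _ _ _).trans (Polynomial.natDegree_map_le.trans ha)), ← H63.gg_map,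
      Polynomial.resultant_map_map] at h4
    exact h4.mono (by push_cast; exact le_rfl)

theorem z3_lo_strip {n : ℕ} {ω : Fin n → ℝ} {a : ℝ} {j : Fin n} {P : MvPolynomial (Fin n) ℤ}
    (h : Lo ω a (MvPolynomial.X j * P)) : Lo ω (a - ω j) P := by
  intro d hd
  have h2 := h (Finsupp.single j 1 + d) (by
    rwa [MvPolynomial.mem_support_iff, MvPolynomial.coeff_X_mul, ← MvPolynomial.mem_support_iff])
  have h3 : wt ω (Finsupp.single j 1) = ω j := by
    simp [wt, Finsupp.single_apply]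
  rw [H63.wt_add, h3] at h2
  linarith only [h2]

theorem z3_strip {K : Type} [Field K] [CharZero K] {k : ℕ} {pt : Fin (k + 2) → K}
    {ω ω1 ω2 : Fin (k + 2) → ℝ} {m lam μ : ℕ} {γ wd w : ℝ}
    {P : MvPolynomial (Fin (k + 2)) ℤ} (h : H63.St (k + 1) pt ω m lam μ γ wd P)
    (h' : Z3Sl (k + 1) ω1 ω2 w P) (hp : pt 0 ≠ 0) :
    ∃ P', H63.St (k + 1) pt ω m lam μ γ wd P' ∧ Z3Sl (k + 1) ω1 ω2 w P' ∧
      (MvPolynomial.finSuccEquiv ℤ (k + 1) P').coeff 0 ≠ 0 := by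
  induction hn : (MvPolynomial.finSuccEquiv ℤ (k + 1) P).natDegree
    using Nat.strong_induction_on generalizing P with
  | _ n ih =>
    by_cases h0 : (MvPolynomial.finSuccEquiv ℤ (k + 1) P).coeff 0 = 0
    · obtain ⟨q, hq⟩ := Polynomial.X_dvd_iff.mpr h0
      obtain ⟨Q, rfl⟩ := (MvPolynomial.finSuccEquiv ℤ (k + 1)).surjective q
      have h1 : P = MvPolynomial.X 0 * Q := (MvPolynomial.finSuccEquiv ℤ (k + 1)).injective (by
        rw [hq, map_mul, MvPolynomial.finSuccEquiv_X_zero])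
      have h2 := H63.strip_one (h1 ▸ h) hp
      have hz : (0 : Fin (k + 2)) ≠ Fin.last (k + 1) := Fin.last_pos.ne
      have h3 : Z3Sl (k + 1) ω1 ω2 w Q := by
        obtain ⟨o1, o2, lo1, lo2, l1, l2, l3⟩ := h'
        rw [h1] at l1 l2 l3
        rw [map_mul, z3sh_X, if_neg hz] at l2
        refine ⟨o1, o2, _, _, z3_lo_strip l1, z3_lo_strip l2, (z3_lo_strip l3).mono ?_⟩
        rw [z3w, if_neg hz]
        linarith
      refine ih _ ?_ h2 h3 rfl
      rw [← hn, hq, Polynomial.natDegree_X_mul (by simpa using h2.ne)]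
      exact Nat.lt_succ_self _
    · exact ⟨P, h, h', h0⟩

theorem z3sh_fin (k : ℕ) (P : MvPolynomial (Fin (k + 2)) ℤ) :
    MvPolynomial.finSuccEquiv ℤ (k + 1) (sh (k + 1) P) =
      (MvPolynomial.finSuccEquiv ℤ (k + 1) P).map (sh k) := by
  induction P using MvPolynomial.induction_on with
  | C a => simp only [eq_intCast, map_intCast, Polynomial.map_intCast]
  | add p q hp hq => simp only [map_add, Polynomial.map_add, hp, hq]
  | mul_X p j hp =>
    rw [map_mul, map_mul, map_mul, Polynomial.map_mul, hp]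
    refine congrArg _ ?_
    refine Fin.cases ?_ (fun j => ?_) j
    · rw [z3sh_X, if_neg Fin.last_pos.ne, MvPolynomial.finSuccEquiv_X_zero, Polynomial.map_X]
    · rw [z3sh_X, MvPolynomial.finSuccEquiv_X_succ, Polynomial.map_C, z3sh_X]
      by_cases hj : j = Fin.last k
      · rw [if_pos hj, if_pos (by rw [hj, Fin.succ_last]), map_sub, map_one,
          MvPolynomial.finSuccEquiv_X_succ, map_sub, map_one]
      · rw [if_neg hj, if_neg (by
          rw [← Fin.succ_last]; exact fun e => hj (Fin.succ_injective _ e)),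
          MvPolynomial.finSuccEquiv_X_succ]

theorem z3_step (hKEY : KEY_s) {K : Type} [Field K] [CharZero K] {k : ℕ} {pt : Fin (k + 2) → K}
    {ω ω1 ω2 : Fin (k + 2) → ℝ} {m lam μ : ℕ} {γ wd A : ℝ}
    {P : MvPolynomial (Fin (k + 2)) ℤ} (h : H63.St (k + 1) pt ω m lam μ γ 0 P)
    (h' : Z3Sl (k + 1) ω1 ω2 (wd * lam) P) (hp : pt 0 ≠ 0)
    (hwd : 0 ≤ wd) (hγ : 0 ≤ γ) (hD : Dis3 (k + 1) ω1 ω2 A wd) (h1 : 1 ≤ lam) (hμ : μ ≤ lam)
    (hA : (lam : ℝ) ≤ A * ((μ / 2 : ℕ) + 1)) :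
    ∃ P', H63.St k (Fin.tail pt) (Fin.tail ω) m (2 * lam ^ 2) ((μ / 2) ^ 2) (γ + 4) 0 P' ∧
      Z3Sl k (Fin.tail ω1) (Fin.tail ω2) (wd * (2 * lam ^ 2 : ℕ)) P' := by
  obtain ⟨Q, hQ, hQ', h0⟩ := z3_strip h h' hp
  obtain ⟨c, hc⟩ := z3_core hQ h0 (z3_mult hKEY h0 hQ.deg hQ' hwd hD hA) le_rfl hγ h1 hμ
  refine ⟨_, hc, ?_⟩
  have hz : (0 : Fin (k + 2)) ≠ Fin.last (k + 1) := Fin.last_pos.ne
  have ha : (MvPolynomial.finSuccEquiv ℤ (k + 1) Q).natDegree ≤ lam := by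
    rw [MvPolynomial.natDegree_finSuccEquiv, MvPolynomial.degreeOf_le_iff]
    exact fun d hd => hQ.deg d hd 0 hz
  obtain ⟨o1, o2, lo1, lo2, l1, l2, l3⟩ := hQ'
  obtain ⟨p, hp'⟩ : ∃ p, p = (MvPolynomial.finSuccEquiv ℤ (k + 1) Q).natDegree := ⟨_, rfl⟩
  rw [← hp'] at ha ⊢
  have a1 := H63.step_iso l1 c (μ / 2) p lam
  have a2 := H63.step_iso l2 c (μ / 2) p lam
  have a3 := H63.step_iso l3 c (μ / 2) p lam
  rw [z3sh_fin, ← H63.gg_map, Polynomial.resultant_map_map] at a2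
  have e3 : Fin.tail (z3w (k + 1) ω1 ω2) = z3w k (Fin.tail ω1) (Fin.tail ω2) := by
    funext i
    simp only [Fin.tail, z3w, ← Fin.succ_last, Fin.succ_inj]
  rw [e3] at a3
  refine ⟨by rw [Fin.tail, Fin.succ_last, o1], by rw [Fin.tail, Fin.succ_last, o2], _, _, a1, a2,
    a3.mono ?_⟩
  rw [z3w, if_neg hz]
  have hal : (p : ℝ) ≤ lam := by exact_mod_cast ha
  have h4 : p * (wd * lam) ≤ lam * (wd * lam) :=
    mul_le_mul_of_nonneg_right hal (mul_nonneg hwd (Nat.cast_nonneg _))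
  push_cast
  linarith only [h4]

theorem z3_dis {k : ℕ} {ω1 ω2 : Fin (k + 2) → ℝ} {A A' wd : ℝ} (h : Dis3 (k + 1) ω1 ω2 A wd)
    (hA : A' ≤ A) (hA0 : 0 ≤ A) (hwd : 0 ≤ wd) :
    Dis3 k (Fin.tail ω1) (Fin.tail ω2) A' wd := by
  intro t t' he ht hb
  obtain ⟨j, hj, htj⟩ := ht
  have hne : ∀ i : Fin (k + 1), i.succ ≠ Fin.last (k + 1) → i ≠ Fin.last k :=
    fun i hi e => hi (by rw [e, Fin.succ_last])
  have key := h (Fin.cons 0 t) (Fin.cons 0 t') (fun i => Fin.cases (fun _ => rfl)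
    (fun i hi => by simpa using he i (hne i hi)) i) ⟨j.succ, ?_, by simpa using htj⟩ ?_
  · simp only [Fin.sum_univ_succ (n := k + 1), Fin.cons_zero, Fin.cons_succ, Int.cast_zero,
      zero_mul, zero_add] at key
    exact key.imp (lt_of_le_of_lt (mul_le_mul_of_nonneg_right hA hwd))
      (lt_of_le_of_lt (mul_le_mul_of_nonneg_right hA hwd))
  · rw [← Fin.succ_last]
    exact fun e => hj (Fin.succ_injective _ e)
  · intro i
    refine Fin.cases (fun _ => by simpa only [Fin.cons_zero, Int.cast_zero, abs_zero] using hA0)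
      (fun i hi => ?_) i
    simpa using (hb i (hne i hi)).trans hA

theorem z3_zed (hKEY : KEY_s) (k : ℕ) (ε γ : ℝ) (hε : 0 < ε) (hγ : 0 ≤ γ) : ∃ A : ℕ, ∃ C : ℝ, 1 ≤ A ∧ 0 ≤ C ∧
    ∀ (K : Type) [Field K] [CharZero K] (pt : Fin (k + 1) → K) (ω ω1 ω2 : Fin (k + 1) → ℝ)
      (m lam μ : ℕ) (wd : ℝ) (P : MvPolynomial (Fin (k + 1)) ℤ), H63.St k pt ω m lam μ γ 0 P →
      Z3Sl k ω1 ω2 (wd * lam) P → (∀ j, j ≠ Fin.last k → pt j ≠ 0) → 0 ≤ wd →
      Dis3 k ω1 ω2 A wd → 1 ≤ m → 6 ≤ μ → μ ≤ lam → ε * lam ≤ μ →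
      OutN (pt (Fin.last k)) (C * m) := by
  induction k generalizing ε γ with
  | zero =>
    refine ⟨1, γ / ε, le_rfl, by positivity, ?_⟩
    intro K _ _ pt ω ω1 ω2 m lam μ wd P h _ _ _ _ hm h6 _ hl
    exact H15Z.zedn_last h hm (by omega) hγ hε hl
  | succ k ih =>
    obtain ⟨A', C, hA', hC, ih⟩ := ih (ε ^ 2 / 18) (γ + 4) (by positivity) (by positivity)
    refine ⟨max A' ⌈2 / ε⌉₊, C, le_max_of_le_left hA', hC, ?_⟩
    intro K _ _ pt ω ω1 ω2 m lam μ wd P h h' hp hwd hD hm h6 hμ hl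
    have hν : (μ : ℝ) ≤ 2 * (((μ / 2 : ℕ) : ℝ) + 1) := by
      have : μ ≤ 2 * (μ / 2 + 1) := by omega
      exact_mod_cast this
    have hν3 : (μ : ℝ) ≤ 3 * ((μ / 2 : ℕ) : ℝ) := by
      have : μ ≤ 3 * (μ / 2) := by omega
      exact_mod_cast this
    have hA2 : 2 / ε ≤ ((max A' ⌈2 / ε⌉₊ : ℕ) : ℝ) :=
      (Nat.le_ceil _).trans (by exact_mod_cast le_max_right _ _)
    have hA : (lam : ℝ) ≤ ((max A' ⌈2 / ε⌉₊ : ℕ) : ℝ) * (((μ / 2 : ℕ) : ℝ) + 1) := by
      have h1 : (lam : ℝ) ≤ 2 / ε * (((μ / 2 : ℕ) : ℝ) + 1) := by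
        rw [div_mul_eq_mul_div, le_div_iff₀ hε]
        linarith only [hl, hν]
      exact h1.trans (mul_le_mul_of_nonneg_right hA2 (by positivity))
    obtain ⟨P', hP', hP''⟩ := z3_step hKEY h h' (hp 0 Fin.last_pos.ne) hwd hγ hD (by omega) hμ hA
    have h3 : 3 ≤ μ / 2 := by omega
    have hle : μ / 2 ≤ lam := by omega
    have res := ih K (Fin.tail pt) (Fin.tail ω) (Fin.tail ω1) (Fin.tail ω2) m (2 * lam ^ 2)
      ((μ / 2) ^ 2) wd P' hP' hP''
      (fun j hj => hp j.succ (by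
        rw [← Fin.succ_last]
        exact fun e => hj (Fin.succ_injective _ e)))
      hwd (z3_dis hD (by exact_mod_cast le_max_left _ _) (by positivity) hwd) hm
      (by nlinarith only [h3]) (by nlinarith only [h3, hle]) (by
        push_cast
        have h1 : ε * lam ≤ 3 * ((μ / 2 : ℕ) : ℝ) := hl.trans hν3
        have h2 : 0 ≤ ε * lam := by positivity
        have h4 := mul_self_le_mul_self h2 h1
        linarith only [h4])
    simpa [Fin.tail, Fin.succ_last] using res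

theorem zed3_row (hKEY : KEY_s) : ZED3_s := by
  intro k ε γ hε hγ
  obtain ⟨A, C, hA, hC, hz⟩ := z3_zed hKEY k ε γ hε hγ
  refine ⟨A, C, hA, hC, fun K _ _ pt ω1 ω2 m lam μ wd P h o1 o2 => ?_⟩
  obtain ⟨lo1, lo2, l1, l2, l3⟩ := h.slab
  refine hz K pt 0 ω1 ω2 m lam μ wd P ⟨h.ne, h.deg, ⟨0, fun d _ => by simp [wt]⟩, h.nrm, h.ord⟩
    ⟨o1, o2, lo1, lo2, l1, l2, fun d hd => ?_⟩
  have h3 := l3 d hd
  simp only [wt, Fin.sum_univ_castSucc, z3w, Fin.castSucc_ne_last, if_false, if_true, o1, o2,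
    mul_neg, mul_add, sum_neg_distrib, sum_add_distrib, mul_one] at h3 ⊢
  linarith only [h3]
-- END ZED3
end

section
-- BEGIN CORE3
theorem core3_num {σ δ G h κ e m Lc r : ℝ} (hσ : 0 < σ) (hδ : 0 < δ)
    (hG : 0 < G) (hm : 0 < m) (he : 1 ≤ σ * e) (hL : 2 ≤ Lc * (σ * δ))
    (hh : δ * h ≤ e * m * G) (hκ : κ ≤ (1 / 3 - 6 * σ) * G) (h90 : 30 ≤ σ * G)
    (hr : (1 / 3 - 2 * σ) * (e * m) ≤ r) :
    2 / Lc * h + (e + 2) * m * κ + 30 * (e * m) < r * G := by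
  have he0 : 0 < e := by
    by_contra h0
    have := mul_nonpos_of_nonneg_of_nonpos hσ.le (not_lt.1 h0)
    linarith only [this, he]
  have hL0 : 0 < Lc := by
    by_contra h0
    have := mul_nonpos_of_nonpos_of_nonneg (not_lt.1 h0) (mul_pos hσ hδ).le
    linarith only [this, hL]
  have hT : 0 < e * m * G := by positivity
  have h1 : 2 / Lc * h ≤ σ * (e * m * G) := by
    rw [div_mul_eq_mul_div, div_le_iff₀ hL0]
    refine le_of_mul_le_mul_left ?_ hδ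
    nlinarith only [hL, hT, hh]
  have h2 : (e + 2) * m * κ ≤ (e + 2) * m * ((1 / 3 - 6 * σ) * G) :=
    mul_le_mul_of_nonneg_left hκ (by positivity)
  have h3 : m * G ≤ σ * e * (m * G) := le_mul_of_one_le_left (by positivity) he
  have h4 : 0 ≤ σ * (m * G) := by positivity
  have h4' : 0 ≤ m * G := by positivity
  have h5 : 30 * (e * m) ≤ σ * G * (e * m) := mul_le_mul_of_nonneg_right h90 (by positivity)
  have h6 := mul_le_mul_of_nonneg_right hr hG.le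
  have h7 : 0 < σ * (e * m * G) := by positivity
  nlinarith only [h1, h2, h3, h4, h4', h5, h6, h7]

theorem core3_dis {e : ℕ} {τ : Fin e → ℝ} {A0 T : ℕ}
    (hdis : ∀ (s : ℤ) (t : Fin e → ℤ), t ≠ 0 → (∀ j, |t j| ≤ A0) →
      (A0 : ℝ) / T < |s - ∑ j, t j * τ j|) :
    Dis3 (e + e) (Fin.snoc (Fin.append (fun j => -τ j) (fun _ => 0)) 1 : Fin (e + e + 1) → ℝ)
      (Fin.snoc (Fin.append (fun _ => 0) (fun j => -τ j)) 1 : Fin (e + e + 1) → ℝ) A0 (1 / T) := by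
  intro t t' htt ht hA
  have hb : ∀ j : Fin (e + e), |t j.castSucc| ≤ A0 := fun j => by
    exact_mod_cast hA j.castSucc (Fin.castSucc_ne_last j)
  rw [mul_one_div, Fin.sum_univ_castSucc, Fin.sum_univ_castSucc (fun j => (t' j : ℝ) * _)]
  simp only [Fin.snoc_castSucc, Fin.snoc_last, mul_one, Fin.sum_univ_add, Fin.append_left,
    Fin.append_right, mul_zero, sum_const_zero, add_zero, zero_add, mul_neg, sum_neg_distrib,
    neg_add_eq_sub]
  by_cases h1 : (fun j : Fin e => t (Fin.castAdd e j).castSucc) = 0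
  · right
    have h2 : (fun j : Fin e => t (Fin.natAdd e j).castSucc) ≠ 0 := fun h2 => by
      obtain ⟨j, hj, h0⟩ := ht
      obtain ⟨j, rfl⟩ := Fin.exists_castSucc_eq.2 hj
      refine h0 ?_
      refine Fin.addCases (fun i => ?_) (fun i => ?_) j
      · exact congrFun h1 i
      · exact congrFun h2 i
    have h3 := hdis (t' (Fin.last _)) _ h2 fun j => hb _
    simpa only [htt _ (Fin.castSucc_ne_last _)] using h3
  · exact Or.inl (hdis (t (Fin.last _)) _ h1 fun j => hb _)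

theorem core3_row (hCNT3 : CNT3_s) (hSIEG3 : SIEG3_s) (hLIOU3 : LIOU3_s) (hAUX3 : AUX3_s) (hZED3 : ZED3_s) (hHT3 : HT3_s) : CORE3_s := by
  intro σ δ hσ hσ1 hδ
  obtain ⟨Lc, hL3, hLc⟩ : ∃ Lc : ℕ, 3 ≤ Lc ∧ 2 / (σ * δ) ≤ Lc :=
    ⟨⌈2 / (σ * δ)⌉₊ + 3, by omega, (Nat.le_ceil _).trans (by exact_mod_cast (by omega))⟩
  have hLc' : 2 ≤ (Lc : ℝ) * (σ * δ) := (div_le_iff₀ (by positivity)).1 hLc
  have hL3' : (3 : ℝ) ≤ Lc := by exact_mod_cast hL3
  have hlen : 2 / (Lc : ℝ) < 1 := by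
    rw [div_lt_one (by linarith only [hL3'])]
    linarith only [hL3']
  obtain ⟨e, he, hcnt⟩ := hCNT3 σ hσ (by linarith only [hσ1]) Lc (⌈1 / σ⌉₊ + 1)
  have he1 : 1 ≤ e := by omega
  have he2 : 1 ≤ σ * e := by
    have h1 : 1 / σ ≤ e := (Nat.le_ceil _).trans (by exact_mod_cast (by omega))
    rwa [div_le_iff₀' hσ] at h1
  obtain ⟨A0, C, hA, hC, hz⟩ := hZED3 (e + e) (σ / 2) 6 (by positivity) (by norm_num)
  have h90 : 0 ≤ 30 / σ := by positivity
  refine ⟨e, A0, 18 * C + 30 / σ + 19, he1, hA, by linarith only [hC, h90], ?_⟩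
  intro L _ _ hd A Y0 Y τ0 κ τ m H c g hY0 hY hτ hm hdis hc0 hc hH hη hG hκ
  obtain ⟨G, hGe⟩ : ∃ G, G = ∑ w ∈ H, g w := ⟨_, rfl⟩
  have hbig := hH.big
  rw [← hGe] at hG hκ hbig
  have hm1 : (1 : ℝ) ≤ m := by linarith only [hC, h90, hm]
  have hm1' : 1 ≤ m := by exact_mod_cast hm1
  have he1' : (1 : ℝ) ≤ e := by exact_mod_cast he1
  obtain ⟨T, hT⟩ : ∃ T : ℕ, T = e * m := ⟨_, rfl⟩
  have hTr : (T : ℝ) = e * m := by rw [hT, Nat.cast_mul]
  have hmT : (m : ℝ) ≤ T := by rw [hTr]; exact le_mul_of_one_le_left (by positivity) he1'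
  have hT1 : 1 ≤ T := by exact_mod_cast hm1.trans hmT
  have hT0 : (0 : ℝ) < T := by exact_mod_cast hT1
  have hσT : 30 ≤ σ * T := by
    have : 30 / σ ≤ T := by linarith only [hC, hm, hmT]
    rwa [div_le_iff₀' hσ] at this
  have hσG : 30 ≤ σ * G := by
    have : 30 / σ ≤ G := by linarith only [hC, hG]
    rwa [div_le_iff₀' hσ] at this
  have hG0 : 0 < G := by linarith only [hC, hG, h90]
  obtain ⟨μ, hμ⟩ : ∃ μ : ℕ, μ = ⌊σ * T⌋₊ := ⟨_, rfl⟩
  have hμ1 : (μ : ℝ) ≤ σ * T := hμ ▸ Nat.floor_le (by positivity)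
  have hμ2 : σ * T < μ + 1 := hμ ▸ Nat.lt_floor_add_one _
  have hμ6 : 6 ≤ μ := hμ ▸ Nat.le_floor (by push_cast; linarith only [hσT])
  obtain ⟨D, hD⟩ : ∃ D : ℕ, D = ⌊(1 / 3 - σ) * T⌋₊ := ⟨_, rfl⟩
  have hσ2 : 0 ≤ 1 / 3 - σ := by linarith only [hσ1]
  have hD1 : (D : ℝ) ≤ (1 / 3 - σ) * T := hD ▸ Nat.floor_le (by positivity)
  have hD2 : (1 / 3 - σ) * T < D + 1 := hD ▸ Nat.lt_floor_add_one _
  have hσT2 : σ * T ≤ 1 / 100 * T := mul_le_mul_of_nonneg_right hσ1 hT0.le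
  have hμD : μ ≤ D + 1 := by
    have : (μ : ℝ) ≤ D + 1 := by linarith only [hμ1, hD2, hσT2, hT0]
    exact_mod_cast this
  have hDT : D + 1 ≤ T := by
    have : (D : ℝ) + 1 ≤ T := by linarith only [hD1, hσT, hT0]
    exact_mod_cast this
  obtain ⟨E, M, s, T', lo, S0, hS, hM0, hn, hM⟩ := hSIEG3 e m D Lc he1 hm1' (by omega)
    (hcnt m D hm1' (by rw [← hTr]; exact hD1)) τ hτ
  have hη0 : ∀ k j, Y j k / Y0 k ≠ 0 := fun k j => div_ne_zero (hY j k) (hY0 k)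
  have hv : ∀ i : Fin 3 → Fin e → ℕ, ∑ k, ∑ j, i k j < μ →
      ∑ t ∈ E, ((M t * wgt t i : ℤ) : L) * mon A (fun k j => Y j k / Y0 k) (s t) t = 0 :=
    fun i hi => by
    refine hLIOU3 L hd e m D (D + 1 - μ) S0 τ (2 / Lc) τ0 κ E M s T' lo A Y0 Y H c g i he1 hm1'
      (by positivity) hlen hS hn hM hH.ne hY0 hY (by omega) (by omega) hc0 hc
      (fun w hw => ⟨hH.pos w hw, hH.near w hw⟩) hη ?_
    rw [← hGe]
    refine core3_num hσ hδ hG0 (by linarith only [hm1]) he2 hLc' (by exact_mod_cast hbig) hκ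
      hσG ?_
    rw [Nat.cast_sub hμD, ← hTr]
    push_cast
    linarith only [hD2, hμ1]
  obtain ⟨P, hP⟩ := hAUX3 L e m μ S0 τ (2 / Lc) E M s T' lo A (fun k j => Y j k / Y0 k) he1 hm1'
    hlen.le hS hM0 hn hH.ne hH.sum hη0 hv
  rw [← hT] at hP hdis
  have hout := hz L _ _ _ μ T μ (1 / T) P hP (Fin.snoc_last _ _) (Fin.snoc_last _ _)
    (fun j hj => by
      obtain ⟨j, rfl⟩ := Fin.exists_castSucc_eq.2 hj
      rw [Fin.snoc_castSucc]
      refine Fin.addCases (fun i => ?_) (fun i => ?_) j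
      · rw [Fin.append_left]
        exact div_ne_zero (hη0 _ _) (hη0 _ _)
      · rw [Fin.append_right]
        exact div_ne_zero (hη0 _ _) (hη0 _ _)) (by positivity) (core3_dis hdis) (by omega) hμ6
      (by omega) (by linarith only [hσT, hμ2])
  rw [Fin.snoc_last] at hout
  have h1 := fHT L _ _ (div_ne_zero (hH.ne 0) (hH.ne 2)) hout
  obtain ⟨h2, h2'⟩ := hHT3 L A hH.ne hH.sum
  have h2a := h2 H c
  have h2b := (h2' 0 2 (by decide)).1
  have h3 : (T : ℝ) * G ≤ ∑ w ∈ H, -Real.log (w (A (c w + 1) / A (c w + 2) + 1)) := by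
    rw [hGe, mul_sum]
    refine sum_le_sum fun w hw => ?_
    have h4 := hH.near w hw
    rw [← hT] at h4
    have h0 : A (c w + 1) / A (c w + 2) + 1 ≠ 0 := by
      have hs := hH.sum
      rw [Fin.sum_univ_three] at hs
      have h6 : ∀ k : Fin 3, A (k + 1) + A (k + 2) = -A k := fun k => by
        fin_cases k
        · simp only [Fin.zero_eta, zero_add]
          linear_combination hs
        · show A 2 + A 0 = -A 1
          linear_combination hs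
        · show A 0 + A 1 = -A 2
          linear_combination hs
      rw [div_add_one (hH.ne _), h6]
      exact div_ne_zero (neg_ne_zero.2 (hH.ne _)) (hH.ne _)
    have h5 := (Real.log_le_iff_le_exp (FinitePlace.pos_iff.2 h0)).2 h4
    linarith only [h5]
  have hd' : (finrank ℚ L : ℝ) ≤ 6 := by exact_mod_cast hd
  have hμT : (μ : ℝ) ≤ T := by exact_mod_cast (show μ ≤ T by omega)
  have h6 : (finrank ℚ L : ℝ) * (C * μ) ≤ 6 * (C * T) := by gcongr
  have h7 : (T : ℝ) * (18 * C + 19) ≤ T * G :=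
    mul_le_mul_of_nonneg_left (by linarith only [hG, h90]) hT0.le
  have h8 : (1 : ℝ) ≤ T := by exact_mod_cast hT1
  linarith only [h1, h2a, h2b, h3, hd', h6, h7, h8]
-- END CORE3
end

section
-- BEGIN KILL3
theorem kill3_row (hCORE3 : CORE3_s) : KILL3_s := by
  classical
  intro σ δ hσ hσ1 hδ
  obtain ⟨e, A, C0, he, hA, hC0, H0⟩ := hCORE3 σ (δ / 2) hσ hσ1 (by positivity)
  obtain ⟨cc, hcc⟩ : ∃ cc : ℕ, cc = 4 * e * A ^ 2 := ⟨_, rfl⟩
  obtain ⟨J, hJ⟩ : ∃ J : ℕ, J = (2 * A + 1) ^ e := ⟨_, rfl⟩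
  have hcA : 4 * A ≤ cc := by
    rw [hcc]; linarith only [Nat.mul_le_mul he (Nat.mul_le_mul_left A hA)]
  have hc0 : 0 < cc := by omega
  have he1 : (1 : ℝ) ≤ e := by exact_mod_cast he
  have hJ0 : (0 : ℝ) ≤ J := Nat.cast_nonneg _
  have hcc0 : (0 : ℝ) ≤ cc := Nat.cast_nonneg _
  have heC : C0 ≤ e * C0 := le_mul_of_one_le_left (by linarith only [hC0]) he1
  refine ⟨e * (C0 + 2) + 4 * cc + J, by linarith only [heC, hC0, he1, hJ0, hcc0], ?_⟩
  intro T hT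
  obtain ⟨m, hm⟩ : ∃ m : ℕ, m = T / e := ⟨_, rfl⟩
  have hm1 : e * m ≤ T := hm ▸ Nat.mul_div_le T e
  have hm2 : T < e * (m + 1) := hm ▸ Nat.lt_mul_div_succ T he
  have hm2' : (T : ℝ) < e * (m + 1) := by exact_mod_cast hm2
  have hCm : C0 ≤ m := by
    have : (e : ℝ) * C0 ≤ e * m := by linarith only [hm2', hT, he1, hJ0, hcc0]
    exact le_of_mul_le_mul_left this (by linarith only [he1])
  have hT1 : 2 * e + 4 * cc ≤ T := by
    have : (2 : ℝ) * e + 4 * cc ≤ T := by linarith only [hT, heC, hC0, hJ0]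
    exact_mod_cast this
  obtain ⟨N, hN⟩ : ∃ N : ℕ, N = e * m := ⟨_, rfl⟩
  have hN1 : N ≤ T := hN ▸ hm1
  have hN2 : T < N + e := by rw [hN]; linarith only [hm2]
  obtain ⟨I, hI⟩ : ∃ I : ℕ, I = N / cc := ⟨_, rfl⟩
  have hI1 : cc * I ≤ N := hI ▸ Nat.mul_div_le N cc
  have hI0 : 0 < I := hI ▸ Nat.div_pos (by omega) hc0
  have hI2 : N ≤ 2 * cc * I := by
    have h1 : N < cc * (I + 1) := hI ▸ Nat.lt_mul_div_succ N hc0
    nlinarith only [h1, hI0]
  have hI3 : 2 * A * I ≤ N := (Nat.mul_le_mul_right I (by omega)).trans hI1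
  have hI0' : (0 : ℝ) ≤ I := Nat.cast_nonneg _
  refine ⟨N, 2 * A, I, by omega, by omega, hI0, hI3, ?_, ?_⟩
  · have h1 : T ≤ 4 * cc * I := by nlinarith only [hI2, hN2, hT1]
    have h2 : (T : ℝ) ≤ 4 * cc * I := by exact_mod_cast h1
    exact h2.trans (mul_le_mul_of_nonneg_right (by linarith only [heC, hC0, he1, hJ0]) hI0')
  intro L _ _ hd B H c g hv hG P hP hinj hcol
  by_contra hlt
  have hJP : J < P.card := by
    have : (J : ℝ) < P.card := by linarith only [not_le.1 hlt, heC, hC0, he1, hcc0]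
    exact_mod_cast this
  obtain ⟨p0, hp0, hmax⟩ := exists_min_image P Prod.fst (card_pos.1 (by omega))
  have hA0 : 0 < 2 * A := by omega
  have hk : ∀ p ∈ P, ∃ k : ℤ, 0 ≤ k ∧ k ≤ I ∧ (p.1 : ℤ) - p0.1 = k * (2 * A : ℕ) := fun p hp => by
    obtain ⟨⟨i, hi⟩, hi2, -⟩ := hP p hp
    obtain ⟨⟨i0, hi0⟩, -⟩ := hP p0 hp0
    have h1 := hmax p hp
    rw [hi, hi0] at h1
    rw [hi] at hi2
    have h2 : i0 ≤ i := Nat.le_of_mul_le_mul_left h1 hA0
    have h3 : i < I := Nat.lt_of_mul_lt_mul_left hi2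
    exact ⟨i - i0, by omega, by omega, by rw [hi, hi0]; push_cast; ring⟩
  choose! k hk0 hkI hk using hk
  have hinj' : Set.InjOn k P := fun p hp q hq h => hinj p hp q hq (by
    have h1 := hk p hp
    have h2 := hk q hq
    rw [h] at h1
    omega)
  obtain ⟨κ, hκ, hdis⟩ := H63.dss e A (P.image k)
    (by rw [card_image_of_injOn hinj', ← hJ]; exact hJP)
  choose p hp hpk using fun j => mem_image.1 (hκ j)
  have hA1 : (1 : ℝ) ≤ A := by exact_mod_cast hA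
  have hAN : (4 : ℝ) * A ≤ N := by exact_mod_cast (show 4 * A ≤ N by omega)
  have hN0 : (0 : ℝ) < N := by linarith only [hA1, hAN]
  have hτ : ∀ j, (p0.1 : ℝ) / N + κ j * (2 * A / N) = (p j).1 / N := fun j => by
    have h1 : (((p j).1 : ℝ) - p0.1) = κ j * (2 * A) := by
      rw [← hpk j]
      exact_mod_cast hk _ (hp j)
    field_simp
    linarith only [h1]
  have hG0 : 0 ≤ ∑ v ∈ H, g v := sum_nonneg fun v h => (hv.pos v h).le
  have hNT : (N : ℝ) ≤ T := by exact_mod_cast hN1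
  have hTN : (T : ℝ) ≤ 2 * N := by exact_mod_cast (show T ≤ 2 * N by omega)
  refine H0 L hd B p0.2 (fun j => (p j).2) (p0.1 / N) ((1 / 3 - 6 * σ) * ∑ v ∈ H, g v)
    (fun j => κ j * (2 * A / N)) m H c g (hP _ hp0).2.2.1 (fun j => (hP _ (hp j)).2.2.1)
    (fun j => ?_) hCm (fun s t ht hb => ?_) (hP _ hp0).2.2.2
    (fun j => by rw [hτ j]; exact (hP _ (hp j)).2.2.2)
    (hN ▸ ⟨hv.ne, hv.sum, hv.pos, fun v h => ?_, ?_⟩)
    (fun j => hcol _ (hp j) _ hp0) (by linarith only [hG, heC, he1, hJ0, hcc0]) le_rfl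
  · have h1 : (0 : ℝ) ≤ κ j := by exact_mod_cast hpk j ▸ hk0 _ (hp j)
    have h2 : (κ j : ℝ) ≤ I := by exact_mod_cast hpk j ▸ hkI _ (hp j)
    have h3 : (2 : ℝ) * A * I ≤ N := by exact_mod_cast hI3
    refine ⟨by positivity, ?_⟩
    rw [← mul_div_assoc, div_le_one hN0]
    nlinarith only [h2, h3, hA1]
  · have e1 : ∑ j, (t j : ℝ) * (κ j * (2 * A / N)) = ((∑ j, κ j * t j : ℤ) : ℝ) * (2 * A / N) := by
      rw [Int.cast_sum, sum_mul]
      exact sum_congr rfl fun j _ => by push_cast; ring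
    have e2 : |∑ j, κ j * t j| ≤ e * (I * A) := (abs_sum_le_sum_abs _ _).trans (by
      refine (sum_le_card_nsmul _ _ ((I : ℤ) * A) fun j _ => ?_).trans (by simp)
      rw [abs_mul, ← hpk j, abs_of_nonneg (hk0 _ (hp j))]
      exact mul_le_mul (hkI _ (hp j)) (hb j) (abs_nonneg _) (Nat.cast_nonneg _))
    rw [e1, ← hN]
    refine H63.kill_num (c := e * (I * A)) hA1 (by linarith only [hA1, hAN])
      (by exact_mod_cast Int.one_le_abs (hdis t ht hb)) (by exact_mod_cast e2) ?_ ?_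
    · have : ((4 * e * A ^ 2 * I : ℕ) : ℝ) ≤ N := by exact_mod_cast hcc ▸ hI1
      push_cast at this
      linarith only [this]
    · exact (eq_or_ne s 0).imp (fun e => by simp [e]) fun e => by
        exact_mod_cast Int.one_le_abs e
  · exact (hv.near v h).trans (Real.exp_le_exp.2 (by nlinarith only [hNT, hv.pos v h]))
  · nlinarith only [hv.big, hTN, hG0]
-- END KILL3
end

section
-- BEGIN KILL2
theorem kill2_row : KILL2_s := by
  classical
  intro σ δ hσ hσ1 hδ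
  obtain ⟨e, A, C0, he, hA, hC0, H0⟩ := fCORE σ (δ / 2) hσ hσ1 (by positivity)
  obtain ⟨cc, hcc⟩ : ∃ cc : ℕ, cc = 4 * e * A ^ 2 := ⟨_, rfl⟩
  obtain ⟨J, hJ⟩ : ∃ J : ℕ, J = (2 * A + 1) ^ e := ⟨_, rfl⟩
  have hcA : 4 * A ≤ cc := by
    rw [hcc]; linarith only [Nat.mul_le_mul he (Nat.mul_le_mul_left A hA)]
  have hc0 : 0 < cc := by omega
  have he1 : (1 : ℝ) ≤ e := by exact_mod_cast he
  have hJ0 : (0 : ℝ) ≤ J := Nat.cast_nonneg _
  have hcc0 : (0 : ℝ) ≤ cc := Nat.cast_nonneg _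
  have heC : C0 ≤ e * C0 := le_mul_of_one_le_left (by linarith only [hC0]) he1
  refine ⟨e * (C0 + 2) + 4 * cc + J, by linarith only [heC, hC0, he1, hJ0, hcc0], ?_⟩
  intro T hT
  obtain ⟨m, hm⟩ : ∃ m : ℕ, m = T / e := ⟨_, rfl⟩
  have hm1 : e * m ≤ T := hm ▸ Nat.mul_div_le T e
  have hm2 : T < e * (m + 1) := hm ▸ Nat.lt_mul_div_succ T he
  have hm2' : (T : ℝ) < e * (m + 1) := by exact_mod_cast hm2
  have hCm : C0 ≤ m := by
    have : (e : ℝ) * C0 ≤ e * m := by linarith only [hm2', hT, he1, hJ0, hcc0]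
    exact le_of_mul_le_mul_left this (by linarith only [he1])
  have hT1 : 2 * e + 4 * cc ≤ T := by
    have : (2 : ℝ) * e + 4 * cc ≤ T := by linarith only [hT, heC, hC0, hJ0]
    exact_mod_cast this
  obtain ⟨N, hN⟩ : ∃ N : ℕ, N = e * m := ⟨_, rfl⟩
  have hN1 : N ≤ T := hN ▸ hm1
  have hN2 : T < N + e := by rw [hN]; linarith only [hm2]
  obtain ⟨I, hI⟩ : ∃ I : ℕ, I = N / cc := ⟨_, rfl⟩
  have hI1 : cc * I ≤ N := hI ▸ Nat.mul_div_le N cc
  have hI0 : 0 < I := hI ▸ Nat.div_pos (by omega) hc0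
  have hI2 : N ≤ 2 * cc * I := by
    have h1 : N < cc * (I + 1) := hI ▸ Nat.lt_mul_div_succ N hc0
    nlinarith only [h1, hI0]
  have hI3 : 2 * A * I ≤ N := (Nat.mul_le_mul_right I (by omega)).trans hI1
  have hI0' : (0 : ℝ) ≤ I := Nat.cast_nonneg _
  refine ⟨N, 2 * A, I, by omega, by omega, hI0, hI3, ?_, ?_⟩
  · have h1 : T ≤ 4 * cc * I := by nlinarith only [hI2, hN2, hT1]
    have h2 : (T : ℝ) ≤ 4 * cc * I := by exact_mod_cast h1
    exact h2.trans (mul_le_mul_of_nonneg_right (by linarith only [heC, hC0, he1, hJ0]) hI0')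
  intro L _ _ hd ψ H g hψ hψ1 hv hG P hP hinj hcol
  by_contra hlt
  have hJP : J < P.card := by
    have : (J : ℝ) < P.card := by linarith only [not_le.1 hlt, heC, hC0, he1, hcc0]
    exact_mod_cast this
  obtain ⟨p0, hp0, hmax⟩ := exists_max_image P Prod.fst (card_pos.1 (by omega))
  have hA0 : 0 < 2 * A := by omega
  have hk : ∀ p ∈ P, ∃ k : ℤ, 0 ≤ k ∧ k ≤ I ∧ (p0.1 : ℤ) - p.1 = k * (2 * A : ℕ) := fun p hp => by
    obtain ⟨⟨i, hi⟩, hi2, -⟩ := hP p hp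
    obtain ⟨⟨i0, hi0⟩, hi3, -⟩ := hP p0 hp0
    have h1 := hmax p hp
    rw [hi, hi0] at h1
    rw [hi0] at hi3
    have h2 : i ≤ i0 := Nat.le_of_mul_le_mul_left h1 hA0
    have h3 : i0 < I := Nat.lt_of_mul_lt_mul_left hi3
    exact ⟨i0 - i, by omega, by omega, by rw [hi, hi0]; push_cast; ring⟩
  choose! k hk0 hkI hk using hk
  have hinj' : Set.InjOn k P := fun p hp q hq h => hinj p hp q hq (by
    have h1 := hk p hp
    have h2 := hk q hq
    rw [h] at h1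
    omega)
  obtain ⟨κ, hκ, hdis⟩ := H63.dss e A (P.image k)
    (by rw [card_image_of_injOn hinj', ← hJ]; exact hJP)
  choose p hp hpk using fun j => mem_image.1 (hκ j)
  have hA1 : (1 : ℝ) ≤ A := by exact_mod_cast hA
  have hAN : (4 : ℝ) * A ≤ N := by exact_mod_cast (show 4 * A ≤ N by omega)
  have hN0 : (0 : ℝ) < N := by linarith only [hA1, hAN]
  have hτ : ∀ j, (p0.1 : ℝ) / N - κ j * (2 * A / N) = (p j).1 / N := fun j => by
    have h1 : ((p0.1 : ℝ) - (p j).1) = κ j * (2 * A) := by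
      rw [← hpk j]
      exact_mod_cast hk _ (hp j)
    field_simp
    linarith only [h1]
  have hG0 : 0 ≤ ∑ v ∈ H, g v := sum_nonneg fun v h => (hv.pos v h).1.le
  have hNT : (N : ℝ) ≤ T := by exact_mod_cast hN1
  have hTN : (T : ℝ) ≤ 2 * N := by exact_mod_cast (show T ≤ 2 * N by omega)
  refine H0 L hd ψ p0.2 (fun j => (p j).2) (p0.1 / N) ((1 / 2 - 6 * σ) * ∑ v ∈ H, g v)
    (fun j => κ j * (2 * A / N)) m H g hψ hψ1 (hP _ hp0).2.2.1 (fun j => (hP _ (hp j)).2.2.1)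
    (fun j => ?_) hCm (fun s t ht hb => ?_) (hP _ hp0).2.2.2
    (fun j => by rw [hτ j]; exact (hP _ (hp j)).2.2.2) (hN ▸ ⟨hv.pos, fun v h => ?_, ?_⟩)
    (fun v h j => hcol _ (hp j) _ hp0 v h) (by linarith only [hG, heC, he1, hJ0, hcc0]) le_rfl
  · have h1 : (0 : ℝ) ≤ κ j := by exact_mod_cast hpk j ▸ hk0 _ (hp j)
    have h2 : (κ j : ℝ) ≤ I := by exact_mod_cast hpk j ▸ hkI _ (hp j)
    have h3 : (2 : ℝ) * A * I ≤ N := by exact_mod_cast hI3
    refine ⟨by positivity, ?_⟩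
    rw [← mul_div_assoc, div_le_one hN0]
    nlinarith only [h2, h3, hA1]
  · have e1 : ∑ j, (t j : ℝ) * (κ j * (2 * A / N)) = ((∑ j, κ j * t j : ℤ) : ℝ) * (2 * A / N) := by
      rw [Int.cast_sum, sum_mul]
      exact sum_congr rfl fun j _ => by push_cast; ring
    have e2 : |∑ j, κ j * t j| ≤ e * (I * A) := (abs_sum_le_sum_abs _ _).trans (by
      refine (sum_le_card_nsmul _ _ ((I : ℤ) * A) fun j _ => ?_).trans (by simp)
      rw [abs_mul, ← hpk j, abs_of_nonneg (hk0 _ (hp j))]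
      exact mul_le_mul (hkI _ (hp j)) (hb j) (abs_nonneg _) (Nat.cast_nonneg _))
    rw [e1, ← hN]
    refine H63.kill_num (c := e * (I * A)) hA1 (by linarith only [hA1, hAN])
      (by exact_mod_cast Int.one_le_abs (hdis t ht hb)) (by exact_mod_cast e2) ?_ ?_
    · have : ((4 * e * A ^ 2 * I : ℕ) : ℝ) ≤ N := by exact_mod_cast hcc ▸ hI1
      push_cast at this
      linarith only [this]
    · exact (eq_or_ne s 0).imp (fun e => by simp [e]) fun e => by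
        exact_mod_cast Int.one_le_abs e
  · exact (hv.near v h).trans (Real.exp_le_exp.2 (by nlinarith only [hNT, (hv.pos v h).1]))
  · nlinarith only [hv.big, hTN, hG0]
-- END KILL2
end

section
-- BEGIN KF2
theorem kf2_inv {L : Type} [Field L] [NumberField L] (w : FinitePlace L) (u : L) (b : ℝ)
    (hb : b < 1) (h : w (u - 1) ≤ b) : w (u⁻¹ - 1) ≤ b := by
  have h1 : 1 ≤ w u := by
    have e : (1 : L) = u + -(u - 1) := by ring
    have h2 := FinitePlace.add_le w u (-(u - 1))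
    rw [← e, map_one] at h2
    have h3 : w (-(u - 1)) = w (u - 1) := w.1.map_neg _
    rw [h3] at h2
    rcases le_max_iff.mp h2 with h4 | h4
    · exact h4
    · linarith
  have hu : u ≠ 0 := by
    rintro rfl
    rw [map_zero] at h1
    linarith
  have e : u⁻¹ - 1 = -(u - 1) / u := by field_simp; ring
  have h3 : w (-(u - 1)) = w (u - 1) := w.1.map_neg _
  have h0 : 0 ≤ w (u - 1) := w.1.nonneg _
  rw [e, map_div₀, h3]
  exact (div_le_self h0 h1).trans h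

theorem kf2_exp (a : ℝ) (ha : 0 < a) (k : ℕ) : (a ^ k)⁻¹ = Real.exp (-(k * Real.log a)) := by
  rw [Real.exp_neg, ← Real.log_pow, Real.exp_log (pow_pos ha k)]

theorem kf2_div (k0 T : ℕ) (C0 : ℝ) (hk0 : 1 ≤ k0) (hC0 : 1 ≤ C0) (hT : 2 * k0 * C0 ≤ T) :
    C0 ≤ ((T / k0 : ℕ) : ℝ) ∧ (T : ℝ) ≤ 2 * k0 * ((T / k0 : ℕ) : ℝ) ∧
      ((T / k0 : ℕ) : ℝ) * k0 ≤ T := by
  have hk : (1 : ℝ) ≤ k0 := by exact_mod_cast hk0
  have h1 : T < k0 * (T / k0 + 1) := Nat.lt_mul_div_succ T (by omega)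
  have h2 : (T : ℝ) < k0 * (((T / k0 : ℕ) : ℝ) + 1) := by exact_mod_cast h1
  have h3 : ((T / k0 : ℕ) : ℝ) * k0 ≤ T := by exact_mod_cast Nat.div_mul_le_self T k0
  have h4 : 2 * C0 < ((T / k0 : ℕ) : ℝ) + 1 := by
    have h5 : (k0 : ℝ) * (2 * C0) < k0 * (((T / k0 : ℕ) : ℝ) + 1) := by linarith
    exact lt_of_mul_lt_mul_left h5 (by linarith)
  refine ⟨by linarith, ?_, h3⟩
  have h6 : (k0 : ℝ) * (((T / k0 : ℕ) : ℝ) + 1) ≤ k0 * (2 * ((T / k0 : ℕ) : ℝ)) :=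
    mul_le_mul_of_nonneg_left (by linarith) (by linarith)
  linarith

theorem kf2_row (hKILL2 : KILL2_s) (hORB : ORB_s) (hEMB : EMB_s) : KF2_s := by
  intro σ δ k0 hσ hσ1 hδ hk0
  have hk0r : (1 : ℝ) ≤ k0 := by exact_mod_cast hk0
  obtain ⟨C0, hC0, hK⟩ := hKILL2 σ (δ / (2 * k0)) hσ (by linarith) (by positivity)
  have hCC : C0 ≤ 2 * k0 * C0 := by nlinarith
  refine ⟨2 * k0 * C0, by linarith, ?_⟩
  intro T hT
  obtain ⟨hT1, hT2, hT3⟩ := kf2_div k0 T C0 hk0 hC0 hT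
  obtain ⟨N, c, I, hN, hc, hI, hcI, hTI, hmain⟩ := hK (T / k0) hT1
  refine ⟨N, c, I, hN, hc, hI, hcI, ?_, ?_⟩
  · have h1 : 2 * (k0 : ℝ) * ((T / k0 : ℕ) : ℝ) ≤ 2 * k0 * (C0 * I) :=
      mul_le_mul_of_nonneg_left hTI (by linarith)
    linarith
  intro L _ _ x y t1 t2 t3 hcub hdg p w hbig hlp k r hk hkk hr hcost P hP hinj hcong
  classical
  obtain ⟨-, -, -, ⟨hd1, hd2⟩, hps, -, ⟨hψ0, hψ1⟩, -, hfix, -, -, -, -, ⟨-, hQ, -, -⟩⟩ :=
    fALG L x y t1 t2 t3 hcub.toCub0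
  obtain ⟨hq2, -, -, -, hvp⟩ := fVAL L w
  obtain ⟨-, hqp, -, -⟩ := hvp p hbig.pr hbig.ab
  have hwp := fINER L hcub.gal w p hbig.pr hbig.ab hbig.tri
  obtain ⟨H0, hsum, hH0⟩ := hORB L hcub.gal w p hbig.pr hwp
  have hfx := (hEMB L x y t1 t2 t3 hcub).1 hdg
  have hq0 : 0 < nq w := by linarith
  have hlq : 0 < Real.log (nq w) := Real.log_pos (by linarith)
  have hkr : (1 : ℝ) ≤ k := by exact_mod_cast hk
  have hkkr : (k : ℝ) ≤ k0 := by exact_mod_cast hkk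
  have hd : (1 : ℝ) ≤ finrank ℚ L := by exact_mod_cast (finrank_pos : 0 < finrank ℚ L)
  have hlp0 : 0 < Real.log p := by linarith
  have hlq2 : Real.log (nq w) ≤ finrank ℚ L * Real.log p := by
    rw [← Real.log_pow]
    exact Real.log_le_log hq0 hqp
  have hG : ∑ _v ∈ H0.map (Function.Embedding.inr : FinitePlace L ↪ Pl L),
      (k : ℝ) * Real.log (nq w) = k * (finrank ℚ L * Real.log p) := by
    rw [Finset.sum_map, ← hsum, Finset.mul_sum]
    exact Finset.sum_congr rfl fun w' hw' => by rw [(hH0 w' hw').1]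
  have hkey : ∀ v ∈ H0.map (Function.Embedding.inr : FinitePlace L ↪ Pl L), ar v = 0 ∧
      ∀ (u : L) (b : ℝ), b < 1 → (∀ τ, Sw t1 t2 τ → τ u = u⁻¹) → w (u - 1) ≤ b →
        av v (u - 1) ≤ b := by
    intro v hv
    obtain ⟨w', hw', rfl⟩ := Finset.mem_map.mp hv
    refine ⟨rfl, ?_⟩
    intro u b hb hu hle
    obtain ⟨-, g, hg⟩ := hH0 w' hw'
    have e1 : w' (u - 1) = w (g.symm (u - 1)) := by
      rw [← hg (g.symm (u - 1)), AlgEquiv.apply_symm_apply]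
    change w' (u - 1) ≤ b
    rw [e1]
    rcases hfix g.symm (hfx _) with h1 | h1
    · rw [h1]
      exact hle
    · rw [map_sub, map_one, hu _ h1]
      exact kf2_inv w u b hb hle
  have hdl : Real.log p ≤ finrank ℚ L * Real.log p := le_mul_of_one_le_left hlp0.le hd
  have hGk : finrank ℚ L * Real.log p ≤ k * (finrank ℚ L * Real.log p) :=
    le_mul_of_one_le_left (by linarith) hkr
  have hT0 : (1 : ℝ) ≤ ((T / k0 : ℕ) : ℝ) := by linarith
  have hHv : Hv (δ / (2 * k0)) (ps x t1 t2)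
      (H0.map (Function.Embedding.inr : FinitePlace L ↪ Pl L))
      (fun _ => (k : ℝ) * Real.log (nq w)) (T / k0) := by
    refine ⟨?_, ?_, ?_⟩
    · intro v hv
      rw [(hkey v hv).1]
      exact ⟨by positivity, by positivity⟩
    · intro v hv
      refine (hkey v hv).2 _ _ ?_ ?_ ?_
      · rw [Real.exp_lt_one_iff, neg_lt_zero]
        positivity
      · intro τ hτ
        rw [hps, map_div₀, map_sub, map_sub, hτ.1, hτ.2, hfx τ, inv_div]
      · rw [hbig.val, kf2_exp _ hq0, Real.exp_le_exp, neg_le_neg_iff, ← mul_assoc]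
        refine mul_le_mul_of_nonneg_right ?_ hlq.le
        exact (mul_le_mul_of_nonneg_left hkkr (by linarith)).trans hT3
    · rw [hG, div_mul_eq_mul_div, div_le_iff₀ (by positivity)]
      have h1 := hbig.big
      have h2 : (T : ℝ) * Real.log (nq w) ≤
          2 * k0 * ((T / k0 : ℕ) : ℝ) * (k * (finrank ℚ L * Real.log p)) :=
        mul_le_mul hT2 (by linarith) hlq.le (by positivity)
      linarith
  have hcard : (P.image fun q => (q.1, q.2 0 / q.2 1)).card = P.card := by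
    refine Finset.card_image_of_injOn ?_
    intro q hq q' hq' h
    exact hinj q hq q' hq' (Prod.mk.inj h).1
  have hfin := hmain L hcub.d6 (ps x t1 t2) _ _ hψ0 hψ1 hHv (by rw [hG]; linarith)
    (P.image fun q => (q.1, q.2 0 / q.2 1)) ?_ ?_ ?_
  · rw [hcard] at hfin
    linarith
  · intro q hq
    obtain ⟨q0, hq0', rfl⟩ := Finset.mem_image.mp hq
    obtain ⟨h1, h2, h3, h4, -, -⟩ := hP q0 hq0'
    refine ⟨h1, h2, div_ne_zero h3.1 h4.1, ?_⟩
    obtain ⟨hρ1, hρ2, -⟩ := fRHO (Qs x y) N hQ hN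
    have h5 := fCOST L (de x t1) (de x t2) (q0.2 0) (q0.2 1) N q0.1 _ r hd1 hd2 hN hρ1 hr h3 h4
    rw [hG]
    refine h5.trans ?_
    have h6 : (0 : ℝ) ≤ (Qs x y).card := Nat.cast_nonneg _
    have h7 : 0 ≤ σ * (k * Real.log p) := by positivity
    have h8 : Real.log r + Real.log (rho (Qs x y) N) / N ≤ (1 / 2 - 6 * σ) * (k * Real.log p) := by
      push_cast at hcost
      linarith
    calc (finrank ℚ L : ℝ) * (Real.log r + Real.log (rho (Qs x y) N) / N)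
        ≤ finrank ℚ L * ((1 / 2 - 6 * σ) * (k * Real.log p)) :=
          mul_le_mul_of_nonneg_left h8 (by linarith)
      _ = (1 / 2 - 6 * σ) * (k * (finrank ℚ L * Real.log p)) := by ring
  · intro q hq q' hq' h
    obtain ⟨q0, hq0', rfl⟩ := Finset.mem_image.mp hq
    obtain ⟨q1, hq1', rfl⟩ := Finset.mem_image.mp hq'
    rw [hinj q0 hq0' q1 hq1' h]
  · intro q hq q' hq' v hv
    obtain ⟨q0, hq0', rfl⟩ := Finset.mem_image.mp hq
    obtain ⟨q1, hq1', rfl⟩ := Finset.mem_image.mp hq'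
    obtain ⟨-, -, -, -, h3, -⟩ := hP q0 hq0'
    obtain ⟨-, -, -, -, h4, -⟩ := hP q1 hq1'
    refine (hkey v hv).2 _ _ ?_ ?_ ?_
    · rw [Real.exp_lt_one_iff, neg_lt_zero]
      positivity
    · intro τ hτ
      change τ (q0.2 0 / q0.2 1 / (q1.2 0 / q1.2 1)) = (q0.2 0 / q0.2 1 / (q1.2 0 / q1.2 1))⁻¹
      rw [map_div₀, map_div₀, map_div₀, (h3 τ hτ).1, (h3 τ hτ).2, (h4 τ hτ).1, (h4 τ hτ).2,
        ← inv_div (q0.2 0), ← inv_div (q1.2 0), inv_div_inv, inv_div]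
    · have h5 := hcong q0 hq0' q1 hq1'
      rw [← kf2_exp _ hq0]
      exact h5
-- END KF2
end

section
-- BEGIN KF3
theorem kf3_inv {L : Type} [Field L] [NumberField L] (w : FinitePlace L) (u : L) (b : ℝ)
    (hb : b < 1) (h : w (u - 1) ≤ b) : w (u⁻¹ - 1) ≤ b := by
  have h1 : 1 ≤ w u := by
    have e : (1 : L) = u + -(u - 1) := by ring
    have h2 := FinitePlace.add_le w u (-(u - 1))
    rw [← e, map_one] at h2
    have h3 : w (-(u - 1)) = w (u - 1) := w.1.map_neg _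
    rw [h3] at h2
    rcases le_max_iff.mp h2 with h4 | h4
    · exact h4
    · linarith
  have hu : u ≠ 0 := by
    rintro rfl
    rw [map_zero] at h1
    linarith
  have e : u⁻¹ - 1 = -(u - 1) / u := by field_simp; ring
  have h3 : w (-(u - 1)) = w (u - 1) := w.1.map_neg _
  have h0 : 0 ≤ w (u - 1) := w.1.nonneg _
  rw [e, map_div₀, h3]
  exact (div_le_self h0 h1).trans h

theorem kf3_exp (a : ℝ) (ha : 0 < a) (k : ℕ) : (a ^ k)⁻¹ = Real.exp (-(k * Real.log a)) := by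
  rw [Real.exp_neg, ← Real.log_pow, Real.exp_log (pow_pos ha k)]

theorem kf3_div (k0 T : ℕ) (C0 : ℝ) (hk0 : 1 ≤ k0) (hC0 : 1 ≤ C0) (hT : 2 * k0 * C0 ≤ T) :
    C0 ≤ ((T / k0 : ℕ) : ℝ) ∧ (T : ℝ) ≤ 2 * k0 * ((T / k0 : ℕ) : ℝ) ∧
      ((T / k0 : ℕ) : ℝ) * k0 ≤ T := by
  have hk : (1 : ℝ) ≤ k0 := by exact_mod_cast hk0
  have h1 : T < k0 * (T / k0 + 1) := Nat.lt_mul_div_succ T (by omega)
  have h2 : (T : ℝ) < k0 * (((T / k0 : ℕ) : ℝ) + 1) := by exact_mod_cast h1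
  have h3 : ((T / k0 : ℕ) : ℝ) * k0 ≤ T := by exact_mod_cast Nat.div_mul_le_self T k0
  have h4 : 2 * C0 < ((T / k0 : ℕ) : ℝ) + 1 := by
    have h5 : (k0 : ℝ) * (2 * C0) < k0 * (((T / k0 : ℕ) : ℝ) + 1) := by linarith
    exact lt_of_mul_lt_mul_left h5 (by linarith)
  refine ⟨by linarith, ?_, h3⟩
  have h6 : (k0 : ℝ) * (((T / k0 : ℕ) : ℝ) + 1) ≤ k0 * (2 * ((T / k0 : ℕ) : ℝ)) :=
    mul_le_mul_of_nonneg_left (by linarith) (by linarith)
  linarith

theorem kf3_perm {L : Type} [Field L] [NumberField L] (t1 t2 t3 : L) (g : L ≃ₐ[ℚ] L)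
    (n12 : t1 ≠ t2) (n13 : t1 ≠ t3) (n23 : t2 ≠ t3)
    (p1 : g t1 = t1 ∨ g t1 = t2 ∨ g t1 = t3) (p2 : g t2 = t1 ∨ g t2 = t2 ∨ g t2 = t3)
    (p3 : g t3 = t1 ∨ g t3 = t2 ∨ g t3 = t3) : ∃ c : Fin 3, g t3 = ![t1, t2, t3] c ∧
      ((g t1 = ![t1, t2, t3] (c + 1) ∧ g t2 = ![t1, t2, t3] (c + 2)) ∨
        (g t1 = ![t1, t2, t3] (c + 2) ∧ g t2 = ![t1, t2, t3] (c + 1))) := by
  have i12 : g t1 ≠ g t2 := fun h => n12 (g.injective h)
  have i13 : g t1 ≠ g t3 := fun h => n13 (g.injective h)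
  have i23 : g t2 ≠ g t3 := fun h => n23 (g.injective h)
  rcases p1 with h1 | h1 | h1 <;> rcases p2 with h2 | h2 | h2 <;> rcases p3 with h3 | h3 | h3 <;>
    first
    | exact absurd (h1.trans h2.symm) i12
    | exact absurd (h1.trans h3.symm) i13
    | exact absurd (h2.trans h3.symm) i23
    | exact ⟨0, h3, Or.inl ⟨h1, h2⟩⟩
    | exact ⟨0, h3, Or.inr ⟨h1, h2⟩⟩
    | exact ⟨1, h3, Or.inl ⟨h1, h2⟩⟩
    | exact ⟨1, h3, Or.inr ⟨h1, h2⟩⟩
    | exact ⟨2, h3, Or.inl ⟨h1, h2⟩⟩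
    | exact ⟨2, h3, Or.inr ⟨h1, h2⟩⟩

theorem kf3_idx (c : Fin 3) : c + 1 + 1 = c + 2 ∧ c + 1 + 2 = c ∧ c + 2 + 1 = c ∧
    c + 2 + 2 = c + 1 := by
  revert c
  decide

theorem kf3_row (hKILL3 : KILL3_s) (hCOST3 : COST3_s) (hORB : ORB_s) (hHT3 : HT3_s) : KF3_s := by
  intro σ δ k0 hσ hσ1 hδ hk0
  have hk0r : (1 : ℝ) ≤ k0 := by exact_mod_cast hk0
  have hm0 : 0 < min δ 1 := lt_min hδ one_pos
  obtain ⟨C0, hC0, hK⟩ := hKILL3 σ (min δ 1 / (4 * k0)) hσ hσ1 (by positivity)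
  have hCC : C0 ≤ 2 * k0 * C0 := by nlinarith
  refine ⟨2 * k0 * C0, by linarith, ?_⟩
  intro T hT
  obtain ⟨hT1, hT2, hT3⟩ := kf3_div k0 T C0 hk0 hC0 hT
  obtain ⟨N, c, I, hN, hc, hI, hcI, hTI, hmain⟩ := hK (T / k0) hT1
  refine ⟨N, c, I, hN, hc, hI, hcI, ?_, ?_⟩
  · have h1 : 2 * (k0 : ℝ) * ((T / k0 : ℕ) : ℝ) ≤ 2 * k0 * (C0 * I) :=
      mul_le_mul_of_nonneg_left hTI (by linarith)
    linarith
  intro L _ _ x y t1 t2 t3 hcub hdg p w hbig hlp k r hk hkk hr hcost P hP hinj hcong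
  classical
  obtain ⟨-, ⟨n12, n13, n23⟩, -, -, hps, hps1, -, -, -, -, hperm, hloc, hnear, ⟨-, hQ, -, -⟩⟩ :=
    fALG L x y t1 t2 t3 hcub.toCub0
  obtain ⟨hq2, -, -, -, hvp⟩ := fVAL L w
  obtain ⟨-, hqp, -, -⟩ := hvp p hbig.pr hbig.ab
  have hwp := fINER L hcub.gal w p hbig.pr hbig.ab hbig.tri
  obtain ⟨H, hsum, hH⟩ := hORB L hcub.gal w p hbig.pr hwp
  have hq0 : 0 < nq w := by linarith
  have hq1 : 1 < nq w := by linarith
  have hlq : 0 < Real.log (nq w) := Real.log_pos hq1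
  have hkr : (1 : ℝ) ≤ k := by exact_mod_cast hk
  have hkkr : (k : ℝ) ≤ k0 := by exact_mod_cast hkk
  have hd : (1 : ℝ) ≤ finrank ℚ L := by exact_mod_cast (finrank_pos : 0 < finrank ℚ L)
  have hlp1 : 1 ≤ Real.log p := by linarith
  have hlq2 : Real.log (nq w) ≤ finrank ℚ L * Real.log p := by
    rw [← Real.log_pow]
    exact Real.log_le_log hq0 hqp
  have hψ : w (ps x t1 t2 - 1) < 1 := by
    rw [hbig.val]
    exact inv_lt_one_of_one_lt₀ (one_lt_pow₀ hq1 (by have := hbig.one; omega))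
  obtain ⟨-, h12, -⟩ := hnear w hψ
  obtain ⟨h13, h23⟩ := hloc w p hbig.pr hbig.five hbig.ab hbig.cop h12
  have h12' : w (t1 - t2) = (nq w ^ T)⁻¹ := by
    have h := hbig.val
    rw [hps1, map_div₀, h23, div_one] at h
    exact h
  obtain ⟨t, htv⟩ : ∃ t : Fin 3 → L, t = ![t1, t2, t3] := ⟨_, rfl⟩
  have e0 : t 0 = t1 := by rw [htv]; rfl
  have e1 : t 1 = t2 := by rw [htv]; rfl
  have e2 : t 2 = t3 := by rw [htv]; rfl
  obtain ⟨A, hA⟩ : ∃ A : Fin 3 → L, ∀ j, A j = t (j + 1) - t (j + 2) := ⟨_, fun _ => rfl⟩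
  have a0 : A 0 = t2 - t3 := by rw [hA, ← e1, ← e2]; rfl
  have a1 : A 1 = t3 - t1 := by rw [hA, ← e0, ← e2]; rfl
  have a2 : A 2 = t1 - t2 := by rw [hA, ← e0, ← e1]; rfl
  have hA0 : ∀ j, A j ≠ 0 := by
    intro j
    fin_cases j
    · exact a0 ▸ sub_ne_zero.2 n23
    · exact a1 ▸ sub_ne_zero.2 n13.symm
    · exact a2 ▸ sub_ne_zero.2 n12
  have hAs : ∑ j, A j = 0 := by rw [Fin.sum_univ_three, a0, a1, a2]; ring
  have hex : ∀ w' ∈ H, ∃ j : Fin 3, ∃ g : L ≃ₐ[ℚ] L, (∀ u : L, w' (g u) = w u) ∧ g t3 = t j ∧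
      ((g t1 = t (j + 1) ∧ g t2 = t (j + 2)) ∨ (g t1 = t (j + 2) ∧ g t2 = t (j + 1))) := by
    intro w' hw'
    obtain ⟨-, g, hg⟩ := hH w' hw'
    obtain ⟨j, hj⟩ := kf3_perm t1 t2 t3 g n12 n13 n23 (hperm g).1 (hperm g).2.1 (hperm g).2.2
    rw [← htv] at hj
    exact ⟨j, g, hg, hj⟩
  choose! ty hty using hex
  have hG : ∑ _w' ∈ H, (k : ℝ) * Real.log (nq w) = k * (finrank ℚ L * Real.log p) := by
    rw [← hsum, Finset.mul_sum]
    exact Finset.sum_congr rfl fun w' hw' => by rw [(hH w' hw').1]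
  have hdl : Real.log p ≤ finrank ℚ L * Real.log p := le_mul_of_one_le_left (by linarith) hd
  have hGk : finrank ℚ L * Real.log p ≤ k * (finrank ℚ L * Real.log p) :=
    le_mul_of_one_le_left (by linarith) hkr
  have hT0 : (1 : ℝ) ≤ ((T / k0 : ℕ) : ℝ) := by linarith
  have hHv : Hv3 (min δ 1 / (4 * k0)) A H ty (fun _ => (k : ℝ) * Real.log (nq w)) (T / k0) := by
    refine ⟨hA0, hAs, fun _ _ => by positivity, ?_, ?_⟩
    · intro w' hw'
      obtain ⟨g, hg, g3, g12⟩ := hty w' hw'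
      obtain ⟨i1, i2, i3, i4⟩ := kf3_idx (ty w')
      have hb := hA0 (ty w' + 2)
      have e : A (ty w' + 1) / A (ty w' + 2) + 1 =
          (t (ty w' + 2) - t (ty w' + 1)) / A (ty w' + 2) := by
        rw [div_add_one hb, hA, hA, i1, i2, i3, i4]
        congr 1
        ring
      have hval : w' (A (ty w' + 1) / A (ty w' + 2) + 1) = (nq w ^ T)⁻¹ := by
        rw [e, map_div₀, hA, i3, i4, ← g3]
        rcases g12 with ⟨u1, u2⟩ | ⟨u1, u2⟩
        · rw [← u1, ← u2, ← map_sub, ← map_sub, hg, hg, ← neg_sub t1 t2, ← neg_sub t1 t3,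
            map_neg_eq_map, map_neg_eq_map, h12', h13, div_one]
        · rw [← u1, ← u2, ← map_sub, ← map_sub, hg, hg, ← neg_sub t2 t3,
            map_neg_eq_map, h12', h23, div_one]
      rw [hval, kf3_exp _ hq0, Real.exp_le_exp, neg_le_neg_iff, ← mul_assoc]
      refine mul_le_mul_of_nonneg_right ?_ hlq.le
      exact (mul_le_mul_of_nonneg_left hkkr (by linarith)).trans hT3
    · rw [hG, div_mul_eq_mul_div, div_le_iff₀ (by positivity)]
      have h1 := hbig.big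
      have h2 := ((hHT3 L A hA0 hAs).2 1 0 (by decide)).2
      have h3 : -(A 1 / A 0) = ps x t1 t2 := by rw [hps, a0, a1, ← neg_div, neg_sub]
      rw [h3] at h2
      have h4 : 0 ≤ ht (ps x t1 t2) := finsum_nonneg fun _ => le_max_right _ _
      have h5 : min δ 1 * ht3 A ≤ δ * ht (ps x t1 t2) + finrank ℚ L := by
        have u1 := mul_le_mul_of_nonneg_left h2 hm0.le
        have u2 := mul_le_mul_of_nonneg_right (min_le_left δ 1) h4
        have u3 := mul_le_mul_of_nonneg_right (min_le_right δ 1) (by linarith : (0 : ℝ) ≤ finrank ℚ L)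
        linarith
      have h6 : (T : ℝ) * Real.log (nq w) ≤
          2 * k0 * ((T / k0 : ℕ) : ℝ) * (k * (finrank ℚ L * Real.log p)) :=
        mul_le_mul hT2 (by linarith) hlq.le (by positivity)
      have h7 : (finrank ℚ L : ℝ) ≤ finrank ℚ L * Real.log p := le_mul_of_one_le_right (by linarith) hlp1
      have h8 : (1 : ℝ) ≤ 2 * k0 * ((T / k0 : ℕ) : ℝ) := by nlinarith
      have h9 : k * (finrank ℚ L * Real.log p) ≤
          2 * k0 * ((T / k0 : ℕ) : ℝ) * (k * (finrank ℚ L * Real.log p)) :=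
        le_mul_of_one_le_left (by linarith) h8
      linarith
  have s1 := hcub.s1
  have s2 := hcub.s2
  have hW : ∀ j, de x (t j) * A j = (t1 - t2) * (t1 - t3) * (t2 - t3) / 3 := by
    have d1 : de x t1 = (t1 - t2) * (t1 - t3) / 3 := by
      unfold de
      linear_combination (-1 / 3) * s2 + (2 / 3 * t1) * s1
    have d2 : de x t2 = (t2 - t1) * (t2 - t3) / 3 := by
      unfold de
      linear_combination (-1 / 3) * s2 + (2 / 3 * t2) * s1
    have d3 : de x t3 = (t3 - t1) * (t3 - t2) / 3 := by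
      unfold de
      linear_combination (-1 / 3) * s2 + (2 / 3 * t3) * s1
    intro j
    fin_cases j
    · change de x (t 0) * A 0 = _
      rw [e0, a0, d1]; ring
    · change de x (t 1) * A 1 = _
      rw [e1, a1, d2]; ring
    · change de x (t 2) * A 2 = _
      rw [e2, a2, d3]; ring
  have hW0 : (t1 - t2) * (t1 - t3) * (t2 - t3) / 3 ≠ 0 :=
    div_ne_zero (mul_ne_zero (mul_ne_zero (sub_ne_zero.2 n12) (sub_ne_zero.2 n13))
      (sub_ne_zero.2 n23)) three_ne_zero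
  refine (hmain L hcub.d6 A H ty _ hHv (by rw [hG]; linarith) P ?_ hinj ?_).trans hCC
  · intro q hq
    obtain ⟨h1, h2, h3, h4, -, h5⟩ := hP q hq
    obtain ⟨h6, -⟩ := h5 hdg
    have hAp : ∀ j, Ap (de x (t j)) N q.1 (rho (Qs x y) N) r (q.2 j) := by
      intro j
      fin_cases j
      · change Ap (de x (t 0)) N q.1 (rho (Qs x y) N) r (q.2 0)
        rw [e0]; exact h3
      · change Ap (de x (t 1)) N q.1 (rho (Qs x y) N) r (q.2 1)
        rw [e1]; exact h4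
      · change Ap (de x (t 2)) N q.1 (rho (Qs x y) N) r (q.2 2)
        rw [e2]; exact h6
    refine ⟨h1, h2, fun j => (hAp j).1, ?_⟩
    obtain ⟨hρ1, hρ2, -⟩ := fRHO (Qs x y) N hQ hN
    have h7 := hCOST3 L A q.2 (fun j => de x (t j)) _ N q.1 _ r hW0 hW hN hρ1 hr hAp
    rw [hG]
    refine h7.trans ?_
    have h8 : (0 : ℝ) ≤ (Qs x y).card := Nat.cast_nonneg _
    have h9 : Real.log r + Real.log (rho (Qs x y) N) / N ≤ (1 / 3 - 6 * σ) * (k * Real.log p) := by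
      push_cast at hcost
      linarith
    calc (finrank ℚ L : ℝ) * (Real.log r + Real.log (rho (Qs x y) N) / N)
        ≤ finrank ℚ L * ((1 / 3 - 6 * σ) * (k * Real.log p)) :=
          mul_le_mul_of_nonneg_left h9 (by linarith)
      _ = (1 / 3 - 6 * σ) * (k * (finrank ℚ L * Real.log p)) := by ring
  · intro q hq q' hq' w' hw'
    obtain ⟨-, -, -, -, -, h3⟩ := hP q hq
    obtain ⟨-, -, -, -, -, h4⟩ := hP q' hq'
    have b3 := (h3 hdg).2
    have b4 := (h4 hdg).2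
    rw [← htv] at b3 b4
    obtain ⟨g, hg, -, g12⟩ := hty w' hw'
    have h5 : w (q.2 0 / q.2 1 / (q'.2 0 / q'.2 1) - 1) ≤ (nq w ^ k)⁻¹ := hcong q hq q' hq'
    rw [← kf3_exp _ hq0]
    rw [← e0, ← e1] at g12
    rcases g12 with ⟨u1, u2⟩ | ⟨u1, u2⟩
    · rw [← b3 g _ _ u1, ← b3 g _ _ u2, ← b4 g _ _ u1, ← b4 g _ _ u2, ← map_div₀, ← map_div₀,
        ← map_div₀, ← map_one g, ← map_sub, hg]
      exact h5
    · rw [← b3 g _ _ u1, ← b3 g _ _ u2, ← b4 g _ _ u1, ← b4 g _ _ u2, ← map_div₀, ← map_div₀,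
        ← map_div₀, ← map_one g, ← map_sub, hg, ← inv_div (q.2 0), ← inv_div (q'.2 0),
        inv_div_inv, ← inv_div (q.2 0 / q.2 1)]
      exact kf3_inv w _ _ (inv_lt_one_of_one_lt₀ (one_lt_pow₀ hq1 (by omega))) h5
-- END KF3
end

section
-- BEGIN KC
theorem kc_fib {α : Type} (P : Finset α) (col : α → ℕ) (K : ℕ) (C : ℝ) (hK : ∀ a, col a < K)
    (h : ∀ P' ⊆ P, (∀ a ∈ P', ∀ a' ∈ P', col a = col a') → (P'.card : ℝ) ≤ C) :
    (P.card : ℝ) ≤ K * C := by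
  classical
  have h1 : P.card = ∑ k ∈ range K, (P.filter fun s => col s = k).card :=
    card_eq_sum_card_fiberwise fun s _ => mem_coe.2 (mem_range.2 (hK s))
  rw [h1, Nat.cast_sum]
  refine (sum_le_sum (g := fun _ => C) fun k _ => h _ (filter_subset _ _) ?_).trans ?_
  · intro a ha a' ha'
    exact (mem_filter.1 ha).2.trans (mem_filter.1 ha').2.symm
  · rw [sum_const, card_range, nsmul_eq_mul]

theorem kc_adm (hUNITB : UNITB_s) {L : Type} [Field L] [NumberField L] {x y : ℤ} {t1 t2 t3 : L}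
    (hc : Cub x y t1 t2 t3) {δ σ r : ℝ} {p T N i k : ℕ} {w : FinitePlace L}
    (hB : Big δ x y t1 t2 p w T) (hσ : 0 < σ) (hN : 1 ≤ N) (hr : 1 ≤ r)
    (hb : dg t1 * Real.log r + (Qs x y).card ≤ (1 - 18 * σ) * (k * Real.log p))
    {Y : Fin 3 → L} (hY : Apx x y t1 t2 t3 N i r Y) :
    Y 0 / Y 1 ≠ 0 ∧ (∀ τ, Sw t1 t2 τ → τ (Y 0 / Y 1) = (Y 0 / Y 1)⁻¹) ∧
      |Real.log (w (Y 0 / Y 1))| ≤ ((3 * k : ℕ) : ℝ) * Real.log p := by
  obtain ⟨-, -, -, ⟨hd1, hd2⟩, -, -, ⟨hψ0, -⟩, -, -, -, -, -, hun, -, hQ, -⟩ :=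
    fALG L x y t1 t2 t3 hc.toCub0
  obtain ⟨h0, h1, he, -⟩ := hY
  have hne : Y 0 / Y 1 ≠ 0 := div_ne_zero h0.1 h1.1
  refine ⟨hne, fun τ hτ => ?_, ?_⟩
  · rw [map_div₀, (he τ hτ).1, (he τ hτ).2, inv_div]
  have hq : 2 ≤ nq w := (fVAL L w).1
  have hψ : w (ps x t1 t2) = 1 := by
    refine (hun w ?_).1
    rw [hB.val]
    exact inv_lt_one_of_one_lt₀ (one_lt_pow₀ (by linarith) (by have := hB.one; omega))
  obtain ⟨hρ1, hρ2, -⟩ := fRHO (Qs x y) N hQ hN
  refine (hUNITB L w _ _ ((i : ℝ) / N) hψ0 hne hψ).trans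
    ((fCOST L _ _ _ _ N i _ r hd1 hd2 hN hρ1 hr h0 h1).trans ?_)
  have g1 : 0 ≤ Real.log r := Real.log_nonneg hr
  have g2 : 0 ≤ Real.log (rho (Qs x y) N) / N :=
    div_nonneg (Real.log_nonneg (by exact_mod_cast hρ1)) (Nat.cast_nonneg _)
  have g3 : (finrank ℚ L : ℝ) ≤ 6 := by exact_mod_cast hc.d6
  have g4 : (2 : ℝ) ≤ dg t1 := by exact_mod_cast hc.n2
  have g5 : 0 ≤ (k : ℝ) * Real.log p :=
    mul_nonneg (Nat.cast_nonneg _) (Real.log_natCast_nonneg p)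
  have g6 : (0 : ℝ) ≤ (Qs x y).card := Nat.cast_nonneg _
  have g7 : 2 * Real.log r ≤ dg t1 * Real.log r := mul_le_mul_of_nonneg_right g4 g1
  have g8 := mul_nonneg hσ.le g5
  refine (mul_le_mul_of_nonneg_right g3 (add_nonneg g1 g2)).trans ?_
  push_cast
  linarith

theorem kc_row (hKF2 : KF2_s) (hKF3 : KF3_s) (hCOLK : COLK_s) (hUNITB : UNITB_s) : KC_s := by
  intro σ δ k0 hσ hσ1 hδ hk0
  obtain ⟨C2, hC2, H2⟩ := hKF2 σ δ k0 hσ hσ1 hδ hk0
  obtain ⟨C3, hC3, H3⟩ := hKF3 σ δ k0 hσ hσ1 hδ hk0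
  have hk1 : (1 : ℝ) ≤ k0 := by exact_mod_cast hk0
  have hM : C2 + C3 ≤ (6 * k0 + 2) * (C2 + C3) :=
    le_mul_of_one_le_left (by linarith) (by linarith)
  refine ⟨(6 * k0 + 2) * (C2 + C3), by linarith, ?_⟩
  intro L _ _ x y t1 t2 t3 hc p w T hB hp hT
  have key : ∃ N c I : ℕ, 1 ≤ N ∧ 1 ≤ c ∧ 1 ≤ I ∧ c * I ≤ N ∧ T ≤ (C2 + C3) * I ∧
      ∀ (k : ℕ) (r : ℝ), 1 ≤ k → k ≤ k0 → 1 ≤ r →
      dg t1 * Real.log r + (Qs x y).card ≤ (1 - 18 * σ) * (k * Real.log p) →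
      ∀ P : Finset (ℕ × (Fin 3 → L)),
        (∀ q ∈ P, c ∣ q.1 ∧ q.1 < c * I ∧ Apx x y t1 t2 t3 N q.1 r q.2) →
        (∀ q ∈ P, ∀ q' ∈ P, q.1 = q'.1 → q = q') → (∀ q ∈ P, ∀ q' ∈ P, Cw w k q.2 q'.2) →
        (P.card : ℝ) ≤ C2 + C3 := by
    have hn : dg t1 = 2 ∨ dg t1 = 3 := by
      have := hc.n2
      have := hc.n3
      omega
    rcases hn with hn | hn
    · obtain ⟨N, c, I, a1, a2, a3, a4, a5, a6⟩ := H2 T (by linarith)
      refine ⟨N, c, I, a1, a2, a3, a4,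
        a5.trans (mul_le_mul_of_nonneg_right (by linarith) (Nat.cast_nonneg _)), ?_⟩
      intro k r b1 b2 b3 b4 P b5 b6 b7
      rw [hn] at b4
      exact (a6 L x y t1 t2 t3 hc hn p w hB (by linarith) k r b1 b2 b3 b4 P b5 b6 b7).trans
        (by linarith)
    · obtain ⟨N, c, I, a1, a2, a3, a4, a5, a6⟩ := H3 T (by linarith)
      refine ⟨N, c, I, a1, a2, a3, a4,
        a5.trans (mul_le_mul_of_nonneg_right (by linarith) (Nat.cast_nonneg _)), ?_⟩
      intro k r b1 b2 b3 b4 P b5 b6 b7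
      rw [hn] at b4
      exact (a6 L x y t1 t2 t3 hc hn p w hB (by linarith) k r b1 b2 b3 b4 P b5 b6 b7).trans
        (by linarith)
  obtain ⟨N, c, I, a1, a2, a3, a4, a5, a6⟩ := key
  refine ⟨N, c, I, a1, a2, a3, a4,
    a5.trans (mul_le_mul_of_nonneg_right hM (Nat.cast_nonneg _)), ?_⟩
  intro k r b1 b2 b3 b4 P b5 b6
  obtain ⟨col, hcol1, hcol2⟩ := hCOLK L x y t1 t2 t3 hc δ p w T k (3 * k) hB b1
  have hcw : ∀ q ∈ P, ∀ q' ∈ P, col (q.2 0 / q.2 1) = col (q'.2 0 / q'.2 1) → Cw w k q.2 q'.2 :=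
    fun q hq q' hq' h => hcol2 _ _ (kc_adm hUNITB hc hB hσ a1 b3 b4 (b5 q hq).2.2)
      (kc_adm hUNITB hc hB hσ a1 b3 b4 (b5 q' hq').2.2) h
  refine (kc_fib P (fun q => col (q.2 0 / q.2 1)) _ (C2 + C3) (fun q => hcol1 _) ?_).trans ?_
  · intro P' hP' h
    refine a6 k r b1 b2 b3 b4 P' (fun q hq => b5 q (hP' hq)) ?_
      (fun q hq q' hq' => hcw q (hP' hq) q' (hP' hq') (h q hq q' hq'))
    intro q hq q' hq' e
    exact b6 q (hP' hq) q' (hP' hq') e (hcw q (hP' hq) q' (hP' hq') (h q hq q' hq'))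
  · have g1 : (k : ℝ) ≤ k0 := by exact_mod_cast b2
    have g2 : (0 : ℝ) ≤ (p : ℝ) ^ k := by positivity
    push_cast
    calc (2 * (3 * (k : ℝ)) + 2) * (p : ℝ) ^ k * (C2 + C3)
        ≤ (6 * k0 + 2) * (p : ℝ) ^ k * (C2 + C3) :=
          mul_le_mul_of_nonneg_right (mul_le_mul_of_nonneg_right (by linarith) g2) (by linarith)
      _ = _ := by ring
-- END KC
end

end Pool.Agent.MP_2a5a28_nt.H63Y
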