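import Pool.Agent.MP_2a5a28_nt.H63Y.Defs

set_option autoImplicit false

namespace Pool.Agent.MP_2a5a28_nt.H63Y

open Finset NumberField Module
open H63 (Sx nm wt Lo tr ow)
open H15Z

section
-- BEGIN ORB
theorem orb_under {L : Type} [Field L] [NumberField L] (w : FinitePlace L) (p : ℕ) (hp : p.Prime)
    (hw : w (p : L) < 1) : w.maximalIdeal.asIdeal.under ℤ = Ideal.span {(p : ℤ)} := by
  have hpr := w.maximalIdeal.isPrime
  have hmem : (p : 𝓞 L) ∈ w.maximalIdeal.asIdeal := (frob_mem w _).1 (by simpa using hw)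
  have hm : (Ideal.span {(p : ℤ)}).IsMaximal :=
    PrincipalIdealRing.isMaximal_of_irreducible (Nat.prime_iff_prime_int.1 hp).irreducible
  refine (hm.eq_of_le (Ideal.IsPrime.under ℤ _).ne_top ?_).symm
  rw [Ideal.span_singleton_le_iff_mem, Ideal.mem_comap]
  simpa using hmem

theorem orb_row : ORB_s := by
  intro L _ _ hG w p hp hw
  classical
  have p0 : (p : L) ≠ 0 := Nat.cast_ne_zero.2 hp.ne_zero
  have hf : (Function.mulSupport fun w' : FinitePlace L => w' (p : L)).Finite :=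
    FinitePlace.hasFiniteMulSupport p0
  have hw1 : w (p : L) < 1 := by
    rw [hw]
    exact inv_lt_one_of_one_lt₀ (by linarith [val_two w])
  have key : ∀ w' ∈ hf.toFinset, nq w' = nq w ∧ ∃ g : L ≃ₐ[ℚ] L, ∀ u : L, w' (g u) = w u := by
    intro w' h
    rw [Set.Finite.mem_toFinset] at h
    have h1 : w' (p : L) < 1 :=
      lt_of_le_of_ne ((fVAL L w').2.2.1 _ (by exact_mod_cast isIntegral_algebraMap (R := ℤ) (A := L) (x := (p : ℤ)))) h
    have hpr := w.maximalIdeal.isPrime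
    have hpr' := w'.maximalIdeal.isPrime
    obtain ⟨g, hg⟩ := Algebra.IsInvariant.exists_smul_of_under_eq ℤ (𝓞 L) (L ≃ₐ[ℚ] L)
      w.maximalIdeal.asIdeal w'.maximalIdeal.asIdeal
      ((orb_under w p hp hw1).trans (orb_under w' p hp h1).symm)
    obtain ⟨w'', e1, e2, e3⟩ := gal_ex g w
    have hle : w''.maximalIdeal.asIdeal ≤ w'.maximalIdeal.asIdeal := by
      rw [e1, Ideal.map_le_iff_le_comap]
      intro a ha
      rw [Ideal.mem_comap, hg]
      exact Ideal.smul_mem_pointwise_smul g a _ ha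
    have e : w'' = w' := FinitePlace.maximalIdeal_injective
      (IsDedekindDomain.HeightOneSpectrum.ext
        (w''.maximalIdeal.isMaximal.eq_of_le w'.maximalIdeal.isPrime.ne_top hle))
    rw [e] at e2 e3
    exact ⟨e2, g, e3⟩
  refine ⟨hf.toFinset, ?_, key⟩
  have h2 : ∏ᶠ w' : FinitePlace L, w' (p : L) = ∏ w' ∈ hf.toFinset, w' (p : L) :=
    finprod_eq_prod_of_mulSupport_subset _ (by simp)
  have h3 : ∏ w' ∈ hf.toFinset, w' (p : L) = (∏ w' ∈ hf.toFinset, nq w')⁻¹ := by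
    rw [← Finset.prod_inv_distrib]
    refine Finset.prod_congr rfl fun w' h => ?_
    obtain ⟨e, g, hg⟩ := key w' h
    rw [e, ← hw, ← hg, map_natCast g]
  have h4 : Algebra.norm ℚ (p : L) = (p : ℚ) ^ finrank ℚ L := by
    rw [← Algebra.norm_algebraMap, map_natCast (algebraMap ℚ L)]
  rw [FinitePlace.prod_eq_inv_abs_norm p0, h3, h4, Rat.cast_inv, inv_inj] at h2
  rw [← Real.log_prod fun w' _ => by linarith [val_two w'], ← h2, ← Real.log_pow]
  congr 1
  rw [abs_of_nonneg (by positivity)]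
  push_cast
  rfl
-- END ORB
end

section
-- BEGIN RESK
open Polynomial in
theorem resk_poly (p : ℕ) [Fact p.Prime] : ∃ Q : ℤ[X],
    ∏ a : ZMod p, (X - C ((a.val : ℕ) : ℤ)) = X ^ p - X + C (p : ℤ) * Q := by
  have h1 : (1 : ℕ) < p := (Fact.out : p.Prime).one_lt
  have hm : (X ^ p - X : (ZMod p)[X]).Monic :=
    monic_X_pow_sub (by rw [degree_X]; exact_mod_cast h1)
  have hr : (X ^ p - X : (ZMod p)[X]).roots = Finset.univ.val := by
    have := FiniteField.roots_X_pow_card_sub_X (ZMod p)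
    rwa [ZMod.card] at this
  have h2 := prod_multiset_X_sub_C_of_monic_of_roots_card_eq hm (by
    rw [hr, FiniteField.X_pow_card_sub_X_natDegree_eq _ h1]
    simp [ZMod.card])
  rw [hr] at h2
  have h3 : (∏ a : ZMod p, (X - C ((a.val : ℕ) : ℤ)) - (X ^ p - X) : ℤ[X]).map
      (Int.castRingHom (ZMod p)) = 0 := by
    rw [Polynomial.map_sub, Polynomial.map_prod, Polynomial.map_sub, Polynomial.map_pow, map_X,
      ← h2, sub_eq_zero]
    refine Finset.prod_congr rfl fun a _ => ?_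
    rw [Polynomial.map_sub, map_X, map_C, map_natCast, ZMod.natCast_zmod_val]
  have h4 : C (p : ℤ) ∣ (∏ a : ZMod p, (X - C ((a.val : ℕ) : ℤ)) - (X ^ p - X) : ℤ[X]) := by
    rw [C_dvd_iff_dvd_coeff]
    intro i
    rw [← ZMod.intCast_zmod_eq_zero_iff_dvd]
    have := congrArg (fun f => Polynomial.coeff f i) h3
    simpa only [coeff_map, eq_intCast, coeff_zero] using this
  obtain ⟨Q, hQ⟩ := h4
  exact ⟨Q, by rw [← hQ]; ring⟩

open Polynomial in
theorem resk_le {L : Type} [Field L] [NumberField L] (w : FinitePlace L) {u : L} (hu : w u ≤ 1)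
    (Q : ℤ[X]) : w (aeval u Q) ≤ 1 := by
  induction Q using Polynomial.induction_on' with
  | add a b ha hb =>
    rw [map_add]
    exact (w.add_le _ _).trans (max_le ha hb)
  | monomial n c =>
    rw [aeval_monomial, map_mul, map_pow]
    exact mul_le_one₀ ((fVAL L w).2.2.1 _ isIntegral_algebraMap) (by positivity)
      (pow_le_one₀ (apply_nonneg w _) hu)

theorem resk_one {L : Type} [Field L] [NumberField L] (w : FinitePlace L) {p : ℕ} (hp : p.Prime)
    (hw : w (p : L) < 1) {u : L} (hu : w u ≤ 1) (h : w (u - u ^ p) < 1) :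
    ∃ n : ℕ, n < p ∧ w (u - n) < 1 := by
  have : Fact p.Prime := ⟨hp⟩
  obtain ⟨Q, hQ⟩ := resk_poly p
  have e := congrArg (Polynomial.aeval u) hQ
  simp only [map_prod, map_sub, map_add, map_mul, map_pow, Polynomial.aeval_X, map_natCast] at e
  have h1 : w (∏ a : ZMod p, (u - (a.val : L))) < 1 := by
    rw [e]
    refine frob_add w (by rwa [frob_neg]) ?_
    rw [map_mul]
    exact (mul_le_of_le_one_right (apply_nonneg w _) (resk_le w hu Q)).trans_lt hw
  by_contra hn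
  push Not at hn
  rw [map_prod] at h1
  exact absurd (Finset.one_le_prod fun a _ => hn _ (ZMod.val_lt a)) (not_le.2 h1)

theorem resk_row : RESK_s := by
  intro L _ _ w p g hp hw hg k
  have h2 := val_two w
  have hw1 : w (p : L) < 1 := by
    rw [hw]
    exact inv_lt_one_of_one_lt₀ (by linarith)
  have p0 : (p : L) ≠ 0 := Nat.cast_ne_zero.2 hp.ne_zero
  induction k with
  | zero =>
    intro u _ hu
    exact ⟨0, by simp, by simpa using hu⟩
  | succ k ih =>
    intro u e hu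
    obtain ⟨n0, h0, h1⟩ := resk_one w hp hw1 hu (by simpa only [e] using hg u hu)
    obtain ⟨n, h3, h4⟩ := ih ((u - n0) / p) (by rw [map_div₀, map_sub, e, map_natCast, map_natCast])
      (by
        rw [map_div₀, hw]
        exact div_le_one_of_le₀ (root_disc fVAL w h1) (by positivity))
    refine ⟨n0 + p * n, ?_, ?_⟩
    · rw [pow_succ']
      nlinarith only [h0, h3]
    · have e2 : u - ((n0 + p * n : ℕ) : L) = p * ((u - n0) / p - n) := by
        push_cast
        field_simp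
        ring
      rw [e2, map_mul, hw, pow_succ', mul_inv]
      exact mul_le_mul_of_nonneg_left h4 (by positivity)
-- END RESK
end

section
-- BEGIN COLK
theorem colk_pick {α : Type} (J P : ℕ) (hJ : 0 < J) (hP : 0 < P) (Ad : α → Prop)
    (R : α → ℕ → ℕ → Prop) (C : α → α → Prop)
    (hex : ∀ a, Ad a → ∃ j n, j < J ∧ n < P ∧ R a j n)
    (hC : ∀ a a' j n, R a j n → R a' j n → C a a') :
    ∃ col : α → ℕ, (∀ a, col a < J * P) ∧ ∀ a a', Ad a → Ad a' → col a = col a' → C a a' := by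
  classical
  choose! j n h using hex
  have hdiv : ∀ a b : ℕ, b < P → (a * P + b) / P = a := by
    intro a b hb
    rw [add_comm, Nat.add_mul_div_right _ _ hP, Nat.div_eq_of_lt hb, zero_add]
  refine ⟨fun a => if Ad a then j a * P + n a else 0, fun a => ?_, fun a a' ha ha' hc => ?_⟩
  · by_cases ha : Ad a
    · simp only [if_pos ha]
      obtain ⟨h1, h2, -⟩ := h a ha
      have h3 : (j a + 1) * P ≤ J * P := Nat.mul_le_mul_right P h1
      rw [add_mul, one_mul] at h3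
      omega
    · simp only [if_neg ha]
      exact Nat.mul_pos hJ hP
  · simp only [if_pos ha, if_pos ha'] at hc
    obtain ⟨-, h2, h3⟩ := h a ha
    obtain ⟨-, h2', h3'⟩ := h a' ha'
    have hj : j a = j a' := by rw [← hdiv (j a) (n a) h2, hc, hdiv _ _ h2']
    have hn : n a = n a' := by rw [hj] at hc; omega
    rw [← hj, ← hn] at h3'
    exact hC a a' _ _ h3 h3'

theorem colk_sub {L : Type} [Field L] [NumberField L] (w : FinitePlace L) {u u' z : L} {ε : ℝ}
    (h : w (u - z) ≤ ε) (h' : w (u' - z) ≤ ε) : w (u - u') ≤ ε := by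
  have e : u - u' = (u - z) + -(u' - z) := by ring
  rw [e]
  refine (w.add_le _ _).trans (max_le h ?_)
  rw [map_neg_eq_map]
  exact h'

theorem colk_row (hRESK : RESK_s) : COLK_s := by
  intro L _ _ x y t1 t2 t3 hC δ p w T k B hB hk
  obtain ⟨-, ⟨n12, -, -⟩, -, -, -, hps, -, -, hfix, -, hperm, hloc, hnear, -⟩ :=
    fALG L x y t1 t2 t3 hC.toCub0
  obtain ⟨hq2, hdisc, hint, -, hpr⟩ := fVAL L w
  have hp := hB.pr
  have h5 := hB.five
  have hwp := hB.ab
  have hq0 : 0 < nq w := by linarith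
  have hq1 : 1 < nq w := by linarith
  have hψ : w (ps x t1 t2 - 1) < 1 := by
    rw [hB.val]
    exact inv_lt_one_of_one_lt₀ (one_lt_pow₀ hq1 (by have := hB.one; omega))
  obtain ⟨-, h12, -⟩ := hnear w hψ
  obtain ⟨h13, h23⟩ := hloc w p hp h5 hwp hB.cop h12
  obtain ⟨g, hg, hgp⟩ := fFROB L hC.gal w p hp hwp
  have h3 : g t3 = t3 :=
    bu_fix w t1 t2 t3 g hg h12 h13 h23 n12 (hperm g).1 (hperm g).2.1 (hperm g).2.2
  have hwp' : w (p : L) = (nq w)⁻¹ := fINER L hC.gal w p hp hwp hB.tri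
  have hres := hRESK L w p g hp hwp' hgp k
  have hp0 : (0 : ℝ) < p := by exact_mod_cast hp.pos
  have hpL : (p : L) ≠ 0 := by exact_mod_cast hp.ne_zero
  have hle : Real.log p ≤ Real.log (nq w) := Real.log_le_log hp0 (hpr p hp hwp).1
  have hlq : 0 < Real.log (nq w) := Real.log_pos hq1
  have hP : 0 < p ^ k := pow_pos hp.pos k
  rcases hfix g h3 with hg1 | hsw
  · refine colk_pick (2 * B + 2) (p ^ k) (by omega) hP _
      (fun a j n => w (a * (p : L) ^ ((j : ℤ) - B)) = 1 ∧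
        w (a * (p : L) ^ ((j : ℤ) - B) - n) ≤ (nq w ^ k)⁻¹) _ ?_ ?_
    · rintro a ⟨ha0, -, hb⟩
      obtain ⟨i, hi⟩ := hdisc a ha0
      rw [hi, Real.log_zpow, abs_mul, abs_of_pos hlq] at hb
      have hb' : |(i : ℝ)| ≤ B :=
        le_of_mul_le_mul_right (hb.trans (mul_le_mul_of_nonneg_left hle (Nat.cast_nonneg B))) hlq
      have hb2 : |i| ≤ (B : ℤ) := by exact_mod_cast hb'
      obtain ⟨h1, h2⟩ := abs_le.1 hb2
      obtain ⟨j, hj⟩ : ∃ j : ℕ, (j : ℤ) = i + B := ⟨(i + B).toNat, by omega⟩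
      have hji : (j : ℤ) - B = i := by omega
      have hu : w (a * (p : L) ^ i) = 1 := by
        rw [map_mul, map_zpow₀, hi, hwp', inv_zpow, mul_inv_cancel₀ (zpow_ne_zero _ hq0.ne')]
      obtain ⟨n, hn, hn'⟩ := hres (a * (p : L) ^ i) (by rw [hg1]; rfl) hu.le
      refine ⟨j, n, by omega, hn, ?_⟩
      rw [hji]
      exact ⟨hu, hn'⟩
    · rintro a a' j n ⟨-, h2⟩ ⟨h1', h2'⟩
      have hz : (p : L) ^ ((j : ℤ) - B) ≠ 0 := zpow_ne_zero _ hpL
      have h0 := bu_ne w _ h1'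
      have ha' : a' ≠ 0 := left_ne_zero_of_mul h0
      have e : a / a' - 1 = (a * (p : L) ^ ((j : ℤ) - B) - a' * (p : L) ^ ((j : ℤ) - B)) /
          (a' * (p : L) ^ ((j : ℤ) - B)) := by
        field_simp
      rw [e, map_div₀, h1', div_one]
      exact colk_sub w h2 h2'
  · have h2u : w (2 : L) = 1 := by
      have h1 : w ((2 : ℤ) : L) ≤ 1 := hint _ (by
        have h := isIntegral_algebraMap (R := ℤ) (A := L) (x := 2)
        rwa [eq_intCast] at h)
      rcases h1.lt_or_eq with h | h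
      · have hd := (hpr p hp hwp).2.2.2 2 h
        have h' : p ∣ 2 := by exact_mod_cast hd
        have := Nat.le_of_dvd (by norm_num) h'
        omega
      · exact_mod_cast h
    have h12' : w (t1 - t2) = (nq w ^ T)⁻¹ := by
      have h := hB.val
      rw [hps, map_div₀, h23, div_one] at h
      exact h
    obtain ⟨θ, hθ1, hθg⟩ : ∃ θ : L, w θ = 1 ∧ g θ = -θ := by
      refine ⟨(t1 - t2) / (p : L) ^ T, ?_, ?_⟩
      · rw [map_div₀, map_pow, h12', hwp', inv_pow, div_self (inv_pos.2 (pow_pos hq0 T)).ne']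
      · rw [map_div₀, map_sub, map_pow, map_natCast, hsw.1, hsw.2]
        ring
    have hθ0 := bu_ne w θ hθ1
    have hle1 : ∀ b : L, w b = 1 → w (b + 1) ≤ 1 := by
      intro b hb
      refine (w.add_le _ _).trans (max_le hb.le ?_)
      rw [map_one]
    have core : ∀ b : L, w b = 1 → g b = b⁻¹ → w (b + 1) = 1 →
        ∃ n : ℕ, n < p ^ k ∧ w ((b - 1) / (b + 1) / θ - n) ≤ (nq w ^ k)⁻¹ := by
      intro b hb hgb hb1
      have b0 := bu_ne w b hb
      have b1 := bu_ne w _ hb1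
      refine hres _ ?_ ?_
      · rw [map_div₀, map_div₀, map_sub, map_add, map_one, hgb, hθg]
        have b2 : b⁻¹ + 1 ≠ 0 := by
          have e : b⁻¹ + 1 = (b + 1) / b := by field_simp; ring
          rw [e]
          exact div_ne_zero b1 b0
        have b3 : 1 + b ≠ 0 := by rwa [add_comm]
        field_simp
        ring
      · rw [map_div₀, map_div₀, hθ1, hb1, div_one, div_one]
        have h := hle1 (-b) (by rw [map_neg_eq_map]; exact hb)
        have e : b - 1 = -(-b + 1) := by ring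
        rw [e, map_neg_eq_map]
        exact h
    refine colk_pick (2 * B + 2) (p ^ k) (by omega) hP _
      (fun a j n => w ((-1) ^ j * a) = 1 ∧ w ((-1) ^ j * a + 1) = 1 ∧
        w (((-1) ^ j * a - 1) / ((-1) ^ j * a + 1) / θ - n) ≤ (nq w ^ k)⁻¹) _ ?_ ?_
    · rintro a ⟨ha0, hτ, -⟩
      have hga := hτ g hsw
      have hwa : w a = 1 := by
        have h := hg a
        rw [hga, map_inv₀] at h
        have hpos : 0 < w a := FinitePlace.pos_iff.2 ha0
        have h2 : w a * w a = 1 := by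
          nth_rewrite 1 [← h]
          exact inv_mul_cancel₀ hpos.ne'
        nlinarith
      have hwn : w (-a) = 1 := by rw [map_neg_eq_map]; exact hwa
      by_cases h1 : w (a + 1) = 1
      · obtain ⟨n, hn, hn'⟩ := core a hwa hga h1
        refine ⟨0, n, by omega, hn, ?_⟩
        rw [pow_zero, one_mul]
        exact ⟨hwa, h1, hn'⟩
      · have h1' : w (-a + 1) = 1 := by
          have hlt := lt_of_le_of_ne (hle1 a hwa) h1
          have h := w.add_le (a + 1) (-a + 1)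
          have e : a + 1 + (-a + 1) = 2 := by ring
          rw [e, h2u] at h
          rcases le_max_iff.1 h with h | h
          · exact absurd hlt (not_lt.2 h)
          · exact le_antisymm (hle1 _ hwn) h
        obtain ⟨n, hn, hn'⟩ := core (-a) hwn (by rw [map_neg, hga, neg_inv]) h1'
        refine ⟨1, n, by omega, hn, ?_⟩
        rw [pow_one, neg_one_mul]
        exact ⟨hwn, h1', hn'⟩
    · rintro a a' j n ⟨-, h1, h2⟩ ⟨h0', h1', h2'⟩
      have h := colk_sub w h2 h2'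
      have hs : ((-1 : L)) ^ j ≠ 0 := pow_ne_zero _ (neg_ne_zero.2 one_ne_zero)
      have e0 : a / a' = ((-1) ^ j * a) / ((-1) ^ j * a') := (mul_div_mul_left a a' hs).symm
      rw [e0]
      generalize (-1 : L) ^ j * a = b at h h1 ⊢
      generalize (-1 : L) ^ j * a' = b' at h h1' h0' ⊢
      have b0 := bu_ne w _ h0'
      have b1 := bu_ne w _ h1
      have b1' := bu_ne w _ h1'
      have e : b / b' - 1 = ((b - 1) / (b + 1) / θ - (b' - 1) / (b' + 1) / θ) *
          (θ * (b + 1) * (b' + 1) / (2 * b')) := by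
        field_simp
        ring
      rw [e, map_mul, map_div₀, map_mul, map_mul, map_mul, hθ1, h1, h1', h2u, h0']
      simpa using h
-- END COLK
end

section
-- BEGIN UNITB
theorem unitb_row : UNITB_s := by
  intro L _ _ w ψ a τ hψ ha hw
  classical
  obtain ⟨-, hZ, -, hE, hC, -⟩ := fPF L
  have hX : ∀ x ∈ ({ψ, a} : Finset L), x ≠ 0 := by
    intro x hx
    rcases Finset.mem_insert.1 hx with rfl | hx
    · exact hψ
    · rw [Finset.mem_singleton.1 hx]; exact ha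
  obtain ⟨V, hV, hHV, hU⟩ := hE {ψ, a} {Sum.inr w} hX
  have hwV : (Sum.inr w : Pl L) ∈ V := hHV (by simp)
  have hz : ∑ v ∈ V, (lg v a - τ * lg v ψ) = 0 := by
    rw [Finset.sum_sub_distrib, ← Finset.mul_sum, hZ V hV a (hU _ (by simp)),
      hZ V hV ψ (hU _ (by simp))]
    ring
  rw [hC V ψ a τ (hU _ (by simp)) (hU _ (by simp))]
  have hv : lg (Sum.inr w : Pl L) a - τ * lg (Sum.inr w : Pl L) ψ = Real.log (w a) := by
    have e1 : lg (Sum.inr w : Pl L) a = Real.log (w a) := rfl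
    have e2 : lg (Sum.inr w : Pl L) ψ = Real.log (w ψ) := rfl
    rw [e1, e2, hw]
    simp
  have hp : max (lg (Sum.inr w : Pl L) a - τ * lg (Sum.inr w : Pl L) ψ) 0 ≤
      ∑ v ∈ V, max (lg v a - τ * lg v ψ) 0 :=
    Finset.single_le_sum (f := fun v => max (lg v a - τ * lg v ψ) 0)
      (fun v _ => le_max_right _ _) hwV
  have hn : max (-(lg (Sum.inr w : Pl L) a - τ * lg (Sum.inr w : Pl L) ψ)) 0 ≤
      ∑ v ∈ V, max (-(lg v a - τ * lg v ψ)) 0 :=
    Finset.single_le_sum (f := fun v => max (-(lg v a - τ * lg v ψ)) 0)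
      (fun v _ => le_max_right _ _) hwV
  rw [unit_neg V _ hz] at hn
  rw [hv] at hp hn
  have hp' := (le_max_left _ _).trans hp
  have hn' := (le_max_left _ _).trans hn
  exact abs_le.2 ⟨by linarith, hp'⟩
-- END UNITB
end

section
-- BEGIN EMB
theorem emb_two {L : Type} [Field L] [NumberField L] {x y : ℤ} {t1 t2 t3 : L}
    (h : Cub x y t1 t2 t3) (hd : dg t1 = 2) (g : L ≃ₐ[ℚ] L) : g t3 = t3 := by
  classical
  obtain ⟨-, ⟨h12, h13, h23⟩, -, -, -, -, -, -, -, -, hperm, -⟩ := fALG L x y t1 t2 t3 h.toCub0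
  have hiq : IsIntegral ℚ t1 := Algebra.IsIntegral.isIntegral t1
  obtain ⟨g0, hg0⟩ := h.conj
  have hno : ∀ a : L ≃ₐ[ℚ] L, a t1 ≠ t3 := by
    intro a ha
    unfold dg at hd
    rw [IntermediateField.adjoin.finrank hiq] at hd
    have hne : (minpoly ℚ t1).map (algebraMap ℚ L) ≠ 0 :=
      ((minpoly.monic hiq).map _).ne_zero
    have hr : ∀ b : L ≃ₐ[ℚ] L, b t1 ∈ ((minpoly ℚ t1).map (algebraMap ℚ L)).roots := by
      intro b
      rw [Polynomial.mem_roots hne, Polynomial.IsRoot.def, Polynomial.eval_map_algebraMap,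
        Polynomial.aeval_algHom_apply, minpoly.aeval, map_zero]
    have hsub : ({t1, t2, t3} : Finset L).val ⊆ ((minpoly ℚ t1).map (algebraMap ℚ L)).roots := by
      intro u hu
      have hu' : u ∈ ({t1, t2, t3} : Finset L) := hu
      simp only [mem_insert, mem_singleton] at hu'
      rcases hu' with e | e | e
      · rw [e]; exact hr 1
      · rw [e, ← hg0]; exact hr g0
      · rw [e, ← ha]; exact hr a
    have hc := Polynomial.card_le_degree_of_subset_roots hsub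
    rw [Polynomial.natDegree_map, hd, card_eq_three.2 ⟨t1, t2, t3, h12, h13, h23, rfl⟩] at hc
    omega
  rcases (hperm g).2.2 with e | e | e
  · exact absurd ((AlgEquiv.symm_apply_eq g).2 e.symm) (hno g.symm)
  · refine absurd ?_ (hno (g0.trans g.symm))
    rw [AlgEquiv.trans_apply, hg0]
    exact (AlgEquiv.symm_apply_eq g).2 e.symm
  · exact e

theorem emb_three {L : Type} [Field L] [NumberField L] {x y : ℤ} {t1 t2 t3 : L}
    (h : Cub x y t1 t2 t3) (hd : dg t1 = 3) : ∃ g : L ≃ₐ[ℚ] L, g t1 = t3 := by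
  obtain ⟨-, -, -, -, -, -, -, hroot, -⟩ := fALG L x y t1 t2 t3 h.toCub0
  have hiq : IsIntegral ℚ t1 := Algebra.IsIntegral.isIntegral t1
  have := h.gal
  unfold dg at hd
  rw [IntermediateField.adjoin.finrank hiq] at hd
  have hm : (Polynomial.X ^ 3 - Polynomial.C (3 * (x : ℚ)) * Polynomial.X +
      Polynomial.C (2 * (y : ℚ)) : Polynomial ℚ).Monic := by
    monicity!
  have hdeg : (Polynomial.X ^ 3 - Polynomial.C (3 * (x : ℚ)) * Polynomial.X +
      Polynomial.C (2 * (y : ℚ)) : Polynomial ℚ).natDegree ≤ 3 := by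
    compute_degree
  have hdvd : minpoly ℚ t1 ∣ (Polynomial.X ^ 3 - Polynomial.C (3 * (x : ℚ)) * Polynomial.X +
      Polynomial.C (2 * (y : ℚ)) : Polynomial ℚ) := by
    apply minpoly.dvd
    simp only [map_add, map_sub, map_mul, map_pow, Polynomial.aeval_X, Polynomial.aeval_C,
      map_intCast, map_ofNat]
    exact hroot
  have heq := Polynomial.eq_of_monic_of_dvd_of_natDegree_le (minpoly.monic hiq) hm hdvd
    (hd ▸ hdeg)
  refine minpoly.exists_algEquiv_of_root' hiq.isAlgebraic ?_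
  rw [← heq]
  simp only [map_add, map_sub, map_mul, map_pow, Polynomial.aeval_X, Polynomial.aeval_C,
    map_intCast, map_ofNat]
  linear_combination t3 ^ 2 * h.s1 - t3 * h.s2 + h.s3

theorem emb_row : EMB_s := by
  intro L _ _ x y t1 t2 t3 h
  refine ⟨fun hd g => emb_two h hd g, ?_⟩
  obtain ⟨⟨hi1, -, -⟩, ⟨h12, h13, h23⟩, -, -, -, -, -, h3, -⟩ := fALG L x y t1 t2 t3 h.toCub0
  obtain ⟨g, hg⟩ := h.conj
  obtain ⟨g3, hg3⟩ : ∃ g3 : L ≃ₐ[ℚ] L, dg t1 = 3 → g3 t1 = t3 := by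
    by_cases hd : dg t1 = 3
    · obtain ⟨a, ha⟩ := emb_three h hd
      exact ⟨a, fun _ => ha⟩
    · exact ⟨1, fun e => absurd e hd⟩
  let F := IntermediateField.adjoin ℚ {t1}
  let θ : F := ⟨t1, IntermediateField.mem_adjoin_simple_self ℚ t1⟩
  have hθ : IsIntegral ℤ θ :=
    (isIntegral_algebraMap_iff (R := ℤ) (algebraMap F L).injective).1 hi1
  let θO : 𝓞 F := ⟨θ, hθ⟩
  have hinj : Function.Injective ((algebraMap F L).comp (algebraMap (𝓞 F) F)) :=
    (algebraMap F L).injective.comp (RingOfIntegers.coe_injective)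
  have hθO : ((algebraMap F L).comp (algebraMap (𝓞 F) F)) θO = t1 := rfl
  have h3O : θO ^ 3 - 3 * (x : 𝓞 F) * θO + 2 * (y : 𝓞 F) = 0 := by
    apply hinj
    rw [map_add, map_sub, map_mul, map_mul, map_mul, map_pow, hθO, map_intCast, map_intCast,
      map_ofNat, map_ofNat, map_zero]
    exact h3
  have hδ : ((algebraMap F L).comp (algebraMap (𝓞 F) F)) (θO ^ 2 - (x : 𝓞 F)) = de x t1 := by
    rw [map_sub, map_pow, hθO, map_intCast]
    rfl
  let G : Fin 3 → (L ≃ₐ[ℚ] L) := ![1, g, g3]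
  let σ : Fin 3 → (F →+* L) := fun k => (G k : L →+* L).comp (algebraMap F L)
  have hσ : ∀ k (u : F), σ k u = G k (u : L) := fun _ _ => rfl
  have hG0 : G 0 t1 = t1 := rfl
  have hG1 : G 1 t1 = t2 := hg
  have hG : dg t1 = 3 → ∀ k, G k t1 = (![t1, t2, t3] : Fin 3 → L) k := by
    intro hd k
    fin_cases k
    · exact hG0
    · exact hG1
    · exact hg3 hd
  have hde : ∀ k, σ k ((θO ^ 2 - (x : 𝓞 F) : 𝓞 F) : F) = de x (G k t1) := by
    intro k
    have : G k (de x t1) = de x (G k t1) := by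
      unfold de
      rw [map_sub, map_pow, map_intCast]
    rw [← this, ← hδ]
    rfl
  refine ⟨F, inferInstance, inferInstance, θO ^ 2 - (x : 𝓞 F), σ, rfl, rfl, ?_, ?_, ?_,
    hG0 ▸ hde 0, hG1 ▸ hde 1, ?_⟩
  · have e1 : θO ^ 2 - (x : 𝓞 F) ∣ ((2 * (x ^ 3 - y ^ 2) : ℤ) : 𝓞 F) := by
      refine ⟨(x : 𝓞 F) * θO ^ 2 + (y : 𝓞 F) * θO - 2 * (x : 𝓞 F) ^ 2, ?_⟩
      push_cast
      linear_combination (-((x : 𝓞 F) * θO + (y : 𝓞 F))) * h3O
    have e2 : (2 * (x ^ 3 - y ^ 2) : ℤ) ∣ (((6 * (x ^ 3 - y ^ 2)).natAbs : ℕ) : ℤ) :=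
      Int.dvd_natAbs.2 ⟨3, by ring⟩
    have e3 := map_dvd (Int.castRingHom (𝓞 F)) e2
    rw [map_natCast] at e3
    exact e1.trans e3
  · intro e
    apply h12
    have e' : G 0 t1 = G 1 t1 := DFunLike.congr_fun e θ
    rw [← hG1, ← e', hG0]
  · intro hd k l e
    have e' : G k t1 = G l t1 := DFunLike.congr_fun e θ
    rw [hG hd, hG hd] at e'
    fin_cases k <;> fin_cases l
    · rfl
    · exact absurd e' h12
    · exact absurd e' h13
    · exact absurd e' h12.symm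
    · rfl
    · exact absurd e' h23
    · exact absurd e' h13.symm
    · exact absurd e' h23.symm
    · rfl
  · intro N i r u hu
    have hA : ∀ k, Ap (de x (G k t1)) N i (rho (Qs x y) N) r (σ k u) := fun k =>
      hde k ▸ famu_ap (σ k) hu
    refine ⟨hG0 ▸ hA 0, hG1 ▸ hA 1, fun τ hτ => ⟨?_, ?_⟩, fun hd => ⟨?_, ?_⟩⟩
    · exact famu_ext t1 τ g (hτ.1.trans hg.symm) _ u.2
    · exact famu_ext t1 (g.trans τ) AlgEquiv.refl (by simp [hg, hτ.2]) _ u.2
    · have e : G 2 t1 = t3 := hg3 hd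
      exact e ▸ hA 2
    · intro a k l e
      rw [← hG hd, ← hG hd] at e
      exact famu_ext t1 ((G k).trans a) (G l) e _ u.2
-- END EMB
end

section
-- BEGIN PD
theorem pd_dvd (F : Type) [Field F] [NumberField F] (n : ℕ) (hn : finrank ℚ F = n)
    (b : Fin n → F) (hb : ∀ i, IsIntegral ℤ (b i)) (z : ℤ) (h0 : Algebra.discr ℚ b = z) :
    NumberField.discr F ∣ z := by
  classical
  have e : Free.ChooseBasisIndex ℤ (𝓞 F) ≃ Fin n :=
    Fintype.equivFinOfCardEq (by rw [← finrank_eq_card_basis (integralBasis F), hn])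
  let P : Matrix (Fin n) (Fin n) ℤ := fun i j =>
    (RingOfIntegers.basis F).repr ⟨b j, hb j⟩ (e.symm i)
  have hP : b = Matrix.vecMul (integralBasis F ∘ e.symm)
      ((P.map (Int.castRingHom ℚ)).map (algebraMap ℚ F)) := by
    funext j
    have h1 := (integralBasis F).sum_repr (b j)
    rw [← h1, ← Equiv.sum_comp e.symm]
    simp only [Matrix.vecMul, dotProduct, Matrix.map_apply, Function.comp_apply]
    refine Finset.sum_congr rfl fun i _ => ?_
    have h2 := integralBasis_repr_apply F ⟨b j, hb j⟩ (e.symm i)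
    rw [Algebra.smul_def, mul_comm]
    exact congrArg (fun s => integralBasis F (e.symm i) * algebraMap ℚ F s) h2
  have h3 : Algebra.discr ℚ b = ((P.det : ℤ) : ℚ) ^ 2 * (NumberField.discr F : ℚ) := by
    rw [hP, Algebra.discr_of_matrix_vecMul, Algebra.discr_reindex, ← coe_discr,
      ← RingHom.mapMatrix_apply, ← RingHom.map_det]
    rfl
  refine ⟨P.det ^ 2, ?_⟩
  rw [h0, mul_comm] at h3
  exact_mod_cast h3

theorem pd_three (F : Type) [Field F] [NumberField F] (hn : finrank ℚ F = 3) (x y : ℤ) (t : F)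
    (hg : ∀ φ ψ : F →ₐ[ℚ] ℂ, φ t = ψ t → φ = ψ) (ht : t ^ 3 - 3 * x * t + 2 * y = 0)
    (a : ℕ) (ha : Sq x y a) (b : ℤ) (hb : x ^ 3 - y ^ 2 = (a : ℤ) ^ 2 * b) :
    NumberField.discr F ∣ 108 * b := by
  classical
  obtain ⟨a0, hd, a₁, a₂, rfl, c1, d1, d2⟩ := ha
  have p1 : 0 < a₁ := Nat.pos_of_mul_pos_right a0
  have p2 : 0 < a₂ := Nat.pos_of_mul_pos_left a0
  have c2 : IsCoprime (a₁ : ℤ) a₂ := c1.of_isCoprime_of_dvd_right d1
  obtain ⟨u, v, huv⟩ := (c1.pow_left (m := 2))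
  obtain ⟨s, r, hst⟩ := (c2.pow_left (m := 2))
  obtain ⟨k, k1, k2⟩ : ∃ k : ℤ, (a₁ : ℤ) ^ 2 ∣ k * x - y ∧ (a₂ : ℤ) ∣ k :=
    ⟨r * a₂ * v * y,
      ⟨-(s * y) - r * a₂ * u * y, by linear_combination (r * a₂ * y) * huv + y * hst⟩,
      ⟨r * v * y, by ring⟩⟩
  have hz1 : (a₁ : ℤ) ^ 2 ∣ x ^ 3 - y ^ 2 :=
    (pow_dvd_pow_of_dvd (by push_cast; exact dvd_mul_right _ _) 2).trans hd
  obtain ⟨i1, i2⟩ := disc3_int_w p1 p2 c2 hz1 c1 d1 d2 k1 k2 ht
  obtain ⟨e⟩ := disc3_emb F 3 hn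
  have n1 : (a₁ : ℂ) ≠ 0 := Nat.cast_ne_zero.2 p1.ne'
  have n2 : (a₂ : ℂ) ≠ 0 := Nat.cast_ne_zero.2 p2.ne'
  have rt : ∀ i, e i t ^ 3 - 3 * x * e i t + 2 * y = 0 := fun i => by
    simpa [map_ofNat] using congrArg (e i) ht
  have ne : ∀ i j, i ≠ j → e i t - e j t ≠ 0 := fun i j hij h =>
    hij (e.injective (hg _ _ (sub_eq_zero.1 h)))
  have q01 : e 0 t ^ 2 + e 0 t * e 1 t + e 1 t ^ 2 = 3 * x :=
    mul_left_cancel₀ (ne 0 1 (by decide)) (by linear_combination rt 0 - rt 1)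
  have q02 : e 0 t ^ 2 + e 0 t * e 2 t + e 2 t ^ 2 = 3 * x :=
    mul_left_cancel₀ (ne 0 2 (by decide)) (by linear_combination rt 0 - rt 2)
  have s0 : e 2 t = -e 0 t - e 1 t :=
    mul_left_cancel₀ (ne 1 2 (by decide)) (by linear_combination q01 - q02)
  have key : Algebra.discr ℚ ![1, t, (t ^ 2 + k * t - 2 * x) / ((a₁ : F) * a₂)]
      = 108 * ((x ^ 3 - y ^ 2 : ℤ) : ℚ) / ((a₁ : ℚ) * a₂) ^ 2 := by
    apply (algebraMap ℚ ℂ).injective
    rw [Algebra.discr_eq_det_embeddingsMatrixReindex_pow_two ℚ ℂ _ e, Matrix.det_fin_three]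
    simp [Algebra.embeddingsMatrixReindex, map_ofNat]
    have hx : (x : ℂ) = (e 0 t ^ 2 + e 0 t * e 1 t + e 1 t ^ 2) / 3 := by
      linear_combination -q01 / 3
    have hy : (y : ℂ) = e 0 t * e 1 t * (e 0 t + e 1 t) / 2 := by
      linear_combination rt 0 / 2 - e 0 t * q01 / 2
    rw [s0, hy, hx]
    field_simp
    ring
  have m1 : (0 : ℚ) < a₁ := by exact_mod_cast p1
  have m2 : (0 : ℚ) < a₂ := by exact_mod_cast p2
  refine pd_dvd F 3 hn ![1, t, (t ^ 2 + k * t - 2 * x) / ((a₁ : F) * a₂)]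
    (fun i => by
      fin_cases i
      · exact isIntegral_one
      · exact i1
      · exact i2) _ ?_
  rw [key, hb]
  push_cast
  field_simp

theorem pd_two (F : Type) [Field F] [NumberField F] (hn : finrank ℚ F = 2) (x y : ℤ) (t : F)
    (hg : ∀ φ ψ : F →ₐ[ℚ] ℂ, φ t = ψ t → φ = ψ) (ht : t ^ 3 - 3 * x * t + 2 * y = 0)
    (a : ℕ) (a0 : 1 ≤ a) (w : ℤ) (hw : x ^ 3 - y ^ 2 = (a : ℤ) ^ 2 * w) :
    NumberField.discr F ∣ 432 * w := by
  classical
  obtain ⟨e⟩ := disc2_emb F 2 hn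
  have n1 : (a : ℂ) ≠ 0 := Nat.cast_ne_zero.2 (by omega)
  have rt : ∀ i, e i t ^ 3 - 3 * x * e i t + 2 * y = 0 := fun i => by
    simpa [map_ofNat] using congrArg (e i) ht
  have ne : e 0 t - e 1 t ≠ 0 := fun h =>
    absurd (e.injective (hg _ _ (sub_eq_zero.1 h))) (by decide)
  have q01 : e 0 t ^ 2 + e 0 t * e 1 t + e 1 t ^ 2 = 3 * x :=
    mul_left_cancel₀ ne (by linear_combination rt 0 - rt 1)
  have hx : (x : ℂ) = (e 0 t ^ 2 + e 0 t * e 1 t + e 1 t ^ 2) / 3 := by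
    linear_combination -q01 / 3
  have hy : (y : ℂ) = e 0 t * e 1 t * (e 0 t + e 1 t) / 2 := by
    linear_combination rt 0 / 2 - e 0 t * q01 / 2
  have tr : ((Algebra.trace ℚ F t : ℚ) : ℂ) = e 0 t + e 1 t := by
    have := trace_eq_sum_embeddings ℂ (K := ℚ) (x := t)
    rw [← Equiv.sum_comp e, Fin.sum_univ_two] at this
    exact this
  have hwC : (x : ℂ) ^ 3 - y ^ 2 = a ^ 2 * w := by exact_mod_cast hw
  obtain ⟨θ, hθ⟩ : ∃ θ : F,
      θ = 3 * (t ^ 2 - x) * (2 * ((Algebra.trace ℚ F t : ℚ) : F) - t) / a := ⟨_, rfl⟩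
  have h0 : e 0 θ = (e 0 t - e 1 t) * (2 * e 0 t + e 1 t) * (e 0 t + 2 * e 1 t) / a := by
    rw [hθ]
    simp only [map_div₀, map_mul, map_sub, map_pow, map_ofNat, map_intCast, map_natCast,
      map_ratCast, tr]
    rw [hx]
    ring
  have h1 : e 1 θ = -e 0 θ := by
    rw [h0, hθ]
    simp only [map_div₀, map_mul, map_sub, map_pow, map_ofNat, map_intCast, map_natCast,
      map_ratCast, tr]
    rw [hx]
    ring
  have h2 : e 0 θ ^ 2 = 108 * w := by
    rw [h0, div_pow, div_eq_iff (pow_ne_zero 2 n1)]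
    rw [hy, hx] at hwC
    linear_combination 108 * hwC
  have h3 : θ ^ 2 = ((108 * w : ℤ) : F) := by
    apply (e 0).toRingHom.injective
    simpa [map_ofNat] using h2
  have i1 : IsIntegral ℤ θ := by
    refine IsIntegral.of_pow two_pos ?_
    rw [h3]
    simpa using (isIntegral_algebraMap (R := ℤ) (A := F) (x := 108 * w))
  have key : Algebra.discr ℚ ![1, θ] = 432 * (w : ℚ) := by
    apply (algebraMap ℚ ℂ).injective
    rw [Algebra.discr_eq_det_embeddingsMatrixReindex_pow_two ℚ ℂ _ e, Matrix.det_fin_two]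
    simp [Algebra.embeddingsMatrixReindex]
    rw [h1]
    linear_combination 4 * h2
  refine pd_dvd F 2 hn ![1, θ]
    (fun i => by
      fin_cases i
      · exact isIntegral_one
      · exact i1) _ ?_
  rw [key]
  push_cast
  rfl

theorem pd_row : PD_s := by
  intro L _ _ x y t1 t2 t3 hC a b ha hb
  have hr := disc3_root x y t1 (fALG L x y t1 t2 t3 hC.toCub0).2.2.2.2.2.2.2.1
  have h2 := hC.n2
  have h3 := hC.n3
  rcases (by omega : dg t1 = 2 ∨ dg t1 = 3) with hd | hd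
  · exact pd_two _ hd x y _ (disc3_gen t1) hr a ha.1 b hb
  · exact (pd_three _ hd x y _ (disc3_gen t1) hr a ha b hb).trans ⟨4, by ring⟩
-- END PD
end

section
-- BEGIN LINE
section

open MeasureTheory MeasureTheory.Measure
open scoped Pointwise ENNReal NNReal

theorem line_col_blich {E L κ : Type*} [MeasurableSpace E] {μ : Measure E} {F s : Set E} [AddGroup L]
    [Countable L] [AddAction L E] [MeasurableSpace L] [MeasurableVAdd L E]
    [VAddInvariantMeasure L E μ] [Fintype κ] (c : L → κ) (fund : IsAddFundamentalDomain L F μ)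
    (hS : NullMeasurableSet s μ) (h : (Fintype.card κ : ℝ≥0∞) * μ F < μ s) :
    ∃ x y : L, x ≠ y ∧ c x = c y ∧ ¬Disjoint (x +ᵥ s) (y +ᵥ s) := by
  classical
  by_contra hc
  push Not at hc
  refine absurd h (not_lt.2 ?_)
  rw [fund.measure_eq_tsum s, ← (Equiv.sigmaFiberEquiv c).tsum_eq, ENNReal.tsum_sigma',
    tsum_fintype]
  have hk : ∀ k : κ, ∑' x : {x : L // c x = k}, μ (((x : L) +ᵥ s) ∩ F) ≤ μ F := by
    intro k
    have hd : Pairwise (Function.onFun (AEDisjoint μ)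
        fun x : {x : L // c x = k} => ((x : L) +ᵥ s) ∩ F) := by
      intro i j hij
      exact ((hc i j (fun e => hij (Subtype.ext e)) (i.2.trans j.2.symm)).mono inf_le_left
        inf_le_left).aedisjoint
    rw [← measure_iUnion₀ hd fun x => (hS.vadd _).inter fund.nullMeasurableSet]
    exact measure_mono (Set.iUnion_subset fun _ => Set.inter_subset_right)
  calc ∑ k : κ, ∑' x : {x : L // c x = k}, μ (((Equiv.sigmaFiberEquiv c ⟨k, x⟩ : L) +ᵥ s) ∩ F)
      ≤ ∑ _k : κ, μ F := Finset.sum_le_sum fun k _ => hk k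
    _ = _ := by rw [Finset.sum_const, Finset.card_univ, nsmul_eq_mul]

theorem line_col_mink {E κ : Type*} [MeasurableSpace E] {μ : Measure E} {F s : Set E}
    [NormedAddCommGroup E] [NormedSpace ℝ E] [BorelSpace E] [FiniteDimensional ℝ E]
    [IsAddHaarMeasure μ] {L : AddSubgroup E} [Countable L] [Fintype κ] (c : L → κ)
    (fund : IsAddFundamentalDomain L F μ) (h_symm : ∀ x ∈ s, -x ∈ s) (h_conv : Convex ℝ s)
    (h : (Fintype.card κ : ℝ≥0∞) * (μ F * 2 ^ finrank ℝ E) < μ s) :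
    ∃ x y : L, x ≠ y ∧ c x = c y ∧ ((x - y : L) : E) ∈ s := by
  have h_vol : (Fintype.card κ : ℝ≥0∞) * μ F < μ ((2⁻¹ : ℝ) • s) := by
    rw [addHaar_smul_of_nonneg μ (by simp : 0 ≤ (2 : ℝ)⁻¹) s,
      ← ENNReal.mul_lt_mul_iff_left (pow_ne_zero (finrank ℝ E) (two_ne_zero' _)) (by finiteness),
      mul_right_comm _ (μ s), ENNReal.ofReal_pow (by simp : 0 ≤ (2 : ℝ)⁻¹),
      ENNReal.ofReal_inv_of_pos zero_lt_two]
    simpa [← mul_pow, ENNReal.inv_mul_cancel two_ne_zero ENNReal.ofNat_ne_top, mul_assoc] using h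
  obtain ⟨x, y, hxy, hc, h⟩ := line_col_blich c fund ((h_conv.smul _).nullMeasurableSet _) h_vol
  obtain ⟨_, ⟨v, hv, rfl⟩, w, hw, hvw⟩ := Set.not_disjoint_iff.mp h
  refine ⟨x, y, hxy, hc, ?_⟩
  rw [Set.mem_inv_smul_set_iff₀ (two_ne_zero' ℝ)] at hv hw
  simp_rw [AddSubgroup.vadd_def, vadd_eq_add, add_comm _ w, ← sub_eq_sub_iff_add_eq_add, ←
    AddSubgroup.coe_sub] at hvw
  rw [← hvw, ← inv_smul_smul₀ (two_ne_zero' ℝ) (_ - _), smul_sub, sub_eq_add_neg, smul_add]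
  refine h_conv hw (h_symm _ hv) ?_ ?_ ?_ <;> norm_num

open scoped Classical in
open NumberField.mixedEmbedding in
theorem line_col_ideal (K : Type*) [Field K] [NumberField K] {κ : Type*} [Fintype κ]
    (I : (FractionalIdeal (nonZeroDivisors (𝓞 K)) K)ˣ) (f : InfinitePlace K → ℝ≥0) (c : K → κ)
    (h : (Fintype.card κ : ℝ≥0∞) * minkowskiBound K I < volume (convexBodyLT K f)) :
    ∃ a ∈ (I : FractionalIdeal (nonZeroDivisors (𝓞 K)) K),
      ∃ b ∈ (I : FractionalIdeal (nonZeroDivisors (𝓞 K)) K), a ≠ b ∧ c a = c b ∧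
        ∀ w : InfinitePlace K, w (a - b) < f w := by
  have h_fund := ZSpan.isAddFundamentalDomain' (fractionalIdealLatticeBasis K I) volume
  have : Countable (Submodule.span ℤ (Set.range (fractionalIdealLatticeBasis K I))).toAddSubgroup := by
    change Countable (Submodule.span ℤ (Set.range (fractionalIdealLatticeBasis K I)))
    infer_instance
  have hex : ∀ x : (Submodule.span ℤ (Set.range (fractionalIdealLatticeBasis K I))).toAddSubgroup,
      ∃ a ∈ (I : FractionalIdeal (nonZeroDivisors (𝓞 K)) K), mixedEmbedding K a = x := by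
    intro x
    have hx := x.2
    rw [Submodule.mem_toAddSubgroup, mem_span_fractionalIdealLatticeBasis] at hx
    obtain ⟨a, ha, e⟩ := hx
    exact ⟨a, ha, e⟩
  choose g hg hge using hex
  obtain ⟨x, y, hxy, hc, hm⟩ := line_col_mink (fun x => c (g x)) h_fund (convexBodyLT_neg_mem K f)
    (convexBodyLT_convex K f) h
  refine ⟨g x, hg x, g y, hg y, fun e => hxy (Subtype.ext ?_), hc, ?_⟩
  · rw [← hge x, ← hge y, e]
  · rw [AddSubgroup.coe_sub, ← hge x, ← hge y, ← map_sub] at hm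
    exact (convexBodyLT_mem K f).mp hm

/-- At most `l` nonzero vectors of `F_l^n` are missed by some linear form. -/
theorem line_form_miss {l : ℕ} [Fact l.Prime] {ι : Type*} [Fintype ι] [DecidableEq ι]
    (S : Finset (ι → ZMod l)) (h0 : ∀ v ∈ S, v ≠ 0) (hS : S.card < l) :
    ∃ u : ι → ZMod l, ∀ v ∈ S, ∑ i, u i * v i ≠ 0 := by
  classical
  by_contra hc
  push Not at hc
  let P : MvPolynomial ι (ZMod l) := ∏ v ∈ S, ∑ i, MvPolynomial.X i * MvPolynomial.C (v i)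
  have hP : P ≠ 0 := by
    refine Finset.prod_ne_zero_iff.2 fun v hv e => h0 v hv (funext fun j => ?_)
    have := congrArg (MvPolynomial.eval (Pi.single j (1 : ZMod l))) e
    simpa [Pi.single_apply] using this
  have hz : ∀ u : ι → ZMod l, MvPolynomial.eval u P = 0 := by
    intro u
    obtain ⟨v, hv, e⟩ := hc u
    rw [map_prod]
    exact Finset.prod_eq_zero hv (by simpa using e)
  have hd : P.totalDegree ≤ S.card := by
    refine (MvPolynomial.totalDegree_finsetProd _ _).trans ?_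
    rw [Finset.card_eq_sum_ones]
    refine Finset.sum_le_sum fun v _ => MvPolynomial.totalDegree_finsetSum_le fun i _ => ?_
    refine (MvPolynomial.totalDegree_mul _ _).trans ?_
    rw [MvPolynomial.totalDegree_C, MvPolynomial.totalDegree_X]
  refine hP (MvPolynomial.eq_zero_of_eval_zero_at_prod_finset P (fun _ => Finset.univ)
    (fun i => ?_) fun x _ => hz x)
  rw [Finset.card_univ, ZMod.card]
  exact lt_of_le_of_lt ((MvPolynomial.degreeOf_le_totalDegree P i).trans hd) hS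

/-- Minkowski with colours, real form. -/
theorem line_col_real (F : Type) [Field F] [NumberField F] (b : Ideal (𝓞 F)) (hb0 : b ≠ ⊥)
    {κ : Type} [Fintype κ] (f : InfinitePlace F → ℝ≥0) (c : 𝓞 F → κ)
    (hlt : (Fintype.card κ : ℝ) * (Ideal.absNorm b * √|(NumberField.discr F : ℝ)|) <
      ∏ w : InfinitePlace F, (f w : ℝ) ^ w.mult) :
    ∃ y ∈ b, ∃ y' ∈ b, y ≠ y' ∧ c y = c y' ∧ ∀ w : InfinitePlace F, w ((y - y' : 𝓞 F) : F) < f w := by
  classical
  have hI : (b : FractionalIdeal (nonZeroDivisors (𝓞 F)) F) ≠ 0 :=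
    FractionalIdeal.coeIdeal_ne_zero.2 hb0
  have h : (Fintype.card κ : ℝ≥0∞) * mixedEmbedding.minkowskiBound F (Units.mk0 _ hI) <
      MeasureTheory.volume (mixedEmbedding.convexBodyLT F f) := by
    rw [mixedEmbedding.convexBodyLT_volume, ← ENNReal.toReal_lt_toReal
      (ENNReal.mul_ne_top (ENNReal.natCast_ne_top _) (mixedEmbedding.minkowskiBound_lt_top F _).ne)
      (ENNReal.mul_ne_top ENNReal.coe_ne_top ENNReal.coe_ne_top),
      mixedEmbedding.minkowskiBound,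
      mixedEmbedding.volume_fundamentalDomain_fractionalIdealLatticeBasis,
      mixedEmbedding.volume_fundamentalDomain_latticeBasis, mixedEmbedding.finrank]
    simp only [ENNReal.toReal_mul, ENNReal.toReal_pow, ENNReal.coe_toReal, NNReal.coe_prod,
      NNReal.coe_pow, NNReal.coe_mul, Units.val_mk0, FractionalIdeal.coeIdeal_absNorm,
      ENNReal.toReal_inv, ENNReal.toReal_ofNat, NNReal.coe_ofNat, NNReal.coe_real_pi,
      Real.coe_sqrt, coe_nnnorm, Rat.cast_natCast, ENNReal.toReal_natCast]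
    rw [ENNReal.toReal_ofReal (by positivity), Int.norm_eq_abs]
    have hrk := InfinitePlace.card_add_two_mul_card_eq_rank F
    set r1 := InfinitePlace.nrRealPlaces F
    set r2 := InfinitePlace.nrComplexPlaces F
    set s := √|(NumberField.discr F : ℝ)|
    set A := ∏ w : InfinitePlace F, (f w : ℝ) ^ w.mult
    have hA : 0 ≤ A := Finset.prod_nonneg fun w _ => by positivity
    have h2 : (2 : ℝ)⁻¹ ^ r2 * 2 ^ finrank ℚ F = 2 ^ r1 * 2 ^ r2 := by
      rw [← hrk, two_mul, pow_add, pow_add, inv_pow]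
      field_simp
    have hpi : (2 : ℝ) ^ r2 ≤ Real.pi ^ r2 := pow_le_pow_left₀ (by norm_num) Real.two_le_pi _
    calc (Fintype.card κ : ℝ) * ((Ideal.absNorm b : ℝ) * ((2 : ℝ)⁻¹ ^ r2 * s) * 2 ^ finrank ℚ F)
        = (2 ^ r1 * 2 ^ r2) * (Fintype.card κ * (Ideal.absNorm b * s)) := by rw [← h2]; ring
      _ < (2 ^ r1 * 2 ^ r2) * A := by gcongr
      _ ≤ 2 ^ r1 * Real.pi ^ r2 * A := by gcongr
  obtain ⟨a, ha, a', ha', hne, hc, haw⟩ := line_col_ideal F _ f
    (fun x : F => if hx : ∃ y : 𝓞 F, (y : F) = x then c hx.choose else c 0) h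
  rw [Units.val_mk0, FractionalIdeal.mem_coeIdeal] at ha ha'
  obtain ⟨y, hy, rfl⟩ := ha
  obtain ⟨y', hy', rfl⟩ := ha'
  have key : ∀ z : 𝓞 F, (if hx : ∃ y : 𝓞 F, (y : F) = algebraMap (𝓞 F) F z then c hx.choose
      else c 0) = c z := by
    intro z
    have hx : ∃ y : 𝓞 F, (y : F) = algebraMap (𝓞 F) F z := ⟨z, rfl⟩
    rw [dif_pos hx, RingOfIntegers.coe_injective hx.choose_spec]
  refine ⟨y, hy, y', hy', fun e => hne (by rw [e]), ?_, fun w => ?_⟩
  · rw [← key y, ← key y']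
    exact hc
  · simpa using haw w

/-- Many rational lines in a box of an ideal lattice. -/
theorem line_many (F : Type) [Field F] [NumberField F] (b : Ideal (𝓞 F)) (hb0 : b ≠ ⊥) (l : ℕ)
    (hl : l.Prime) (f : InfinitePlace F → ℝ≥0)
    (hno : ∀ y ∈ b, (∀ w : InfinitePlace F, l * w (y : F) ≤ f w) → y = 0)
    (hlt : (l : ℝ) * (Ideal.absNorm b * √|(NumberField.discr F : ℝ)|) <
      ∏ w : InfinitePlace F, (f w : ℝ) ^ w.mult) :
    ∃ S : Finset (𝓞 F), S.card = l ∧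
      (∀ y ∈ S, y ∈ b ∧ y ≠ 0 ∧ ∀ w : InfinitePlace F, w (y : F) ≤ f w) ∧
      ∀ y ∈ S, ∀ y' ∈ S, (∃ q : ℚ, (y' : F) = q * y) → y = y' := by
  classical
  have : Fact l.Prime := ⟨hl⟩
  have : NeZero l := ⟨hl.ne_zero⟩
  let B := Module.Free.chooseBasis ℤ b
  let cv : 𝓞 F → Module.Free.ChooseBasisIndex ℤ b → ZMod l := fun y i =>
    if hy : y ∈ b then ((B.repr ⟨y, hy⟩ i : ℤ) : ZMod l) else 0
  have cv_eq : ∀ y (hy : y ∈ b) i, cv y i = ((B.repr ⟨y, hy⟩ i : ℤ) : ZMod l) :=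
    fun y hy i => dif_pos hy
  have cv_sub : ∀ y ∈ b, ∀ y' ∈ b, ∀ i, cv (y - y') i = cv y i - cv y' i := by
    intro y hy y' hy' i
    rw [cv_eq _ (b.sub_mem hy hy'), cv_eq _ hy, cv_eq _ hy', ← Int.cast_sub,
      ← Finsupp.sub_apply, ← map_sub]
    rfl
  have cv_mul : ∀ y ∈ b, ∀ (n : ℤ) i, cv (n * y) i = n * cv y i := by
    intro y hy n i
    have e : (⟨(n : 𝓞 F) * y, b.mul_mem_left _ hy⟩ : b) = n • ⟨y, hy⟩ := by
      ext
      simp
    rw [cv_eq _ (b.mul_mem_left _ hy), cv_eq _ hy, ← Int.cast_mul, e, map_zsmul,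
      Finsupp.smul_apply, smul_eq_mul]
  have cv_ne : ∀ y ∈ b, y ≠ 0 → (∀ w : InfinitePlace F, w (y : F) ≤ f w) → cv y ≠ 0 := by
    intro y hy h0 hw e
    have hd : ∀ i, (l : ℤ) ∣ B.repr ⟨y, hy⟩ i := fun i => by
      rw [← ZMod.intCast_zmod_eq_zero_iff_dvd, ← cv_eq y hy, e]
      rfl
    choose k hk using hd
    let z : b := ∑ i, k i • B i
    have hz : (⟨y, hy⟩ : b) = (l : ℤ) • z := by
      rw [Finset.smul_sum, ← B.sum_repr ⟨y, hy⟩]
      exact Finset.sum_congr rfl fun i _ => by rw [hk i, mul_smul]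
    have hz' : y = (l : 𝓞 F) * (z : 𝓞 F) := by
      have := congrArg (fun t : b => (t : 𝓞 F)) hz
      simpa using this
    have := hno z z.2 fun w => by
      have h1 := hw w
      rw [hz'] at h1
      simpa using h1
    exact h0 (by rw [hz', this, mul_zero])
  have main : ∀ n ≤ l, ∃ S : Finset (𝓞 F), S.card = n ∧
      (∀ y ∈ S, y ∈ b ∧ y ≠ 0 ∧ ∀ w : InfinitePlace F, w (y : F) ≤ f w) ∧
      ∀ y ∈ S, ∀ y' ∈ S, (∃ q : ℚ, (y' : F) = q * y) → y = y' := by
    intro n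
    induction n with
    | zero => exact fun _ => ⟨∅, rfl, by simp, by simp⟩
    | succ n ih =>
      intro hn
      obtain ⟨S, hc, hS, hp⟩ := ih (by omega)
      obtain ⟨u, hu⟩ := line_form_miss (S.image cv) (fun v hv => by
        obtain ⟨y, hy, rfl⟩ := Finset.mem_image.1 hv
        exact cv_ne y (hS y hy).1 (hS y hy).2.1 (hS y hy).2.2)
        (lt_of_le_of_lt Finset.card_image_le (by omega))
      obtain ⟨a, ha, a', ha', hne, hcol, hw⟩ := line_col_real F b hb0 f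
        (fun y => ∑ i, u i * cv y i) (by rw [ZMod.card]; exact hlt)
      have hzb : a - a' ∈ b := b.sub_mem ha ha'
      have hz0 : a - a' ≠ 0 := sub_ne_zero.2 hne
      have hzf : ∑ i, u i * cv (a - a') i = 0 := by
        simp_rw [cv_sub a ha a' ha', mul_sub]
        rw [Finset.sum_sub_distrib, sub_eq_zero]
        exact hcol
      have hzc := cv_ne _ hzb hz0 fun w => (hw w).le
      have hnp : ∀ y ∈ S, ∀ q : ℚ, ((a - a' : 𝓞 F) : F) ≠ q * y := by
        intro y hy q e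
        have e1 : (q.den : ℤ) * (a - a') = (q.num : ℤ) * y := by
          apply RingOfIntegers.coe_injective
          have hq : (q.den : F) * q = q.num := by
            exact_mod_cast congrArg (fun t : ℚ => (t : F)) (Rat.den_mul_eq_num q)
          have e' : algebraMap (𝓞 F) F (a - a') = q * algebraMap (𝓞 F) F y := e
          rw [map_mul, map_mul, e', ← mul_assoc]
          simp [hq]
        have e2 : ∀ i, ((q.den : ℤ) : ZMod l) * cv (a - a') i = (q.num : ZMod l) * cv y i := by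
          intro i
          rw [← cv_mul _ hzb, ← cv_mul _ (hS y hy).1, e1]
        have e3 : (q.num : ZMod l) * ∑ i, u i * cv y i = 0 := by
          calc (q.num : ZMod l) * ∑ i, u i * cv y i
              = ((q.den : ℤ) : ZMod l) * ∑ i, u i * cv (a - a') i := by
                rw [Finset.mul_sum, Finset.mul_sum]
                exact Finset.sum_congr rfl fun i _ => by linear_combination (-u i) * e2 i
            _ = 0 := by rw [hzf, mul_zero]
        have hnum : (q.num : ZMod l) = 0 :=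
          (mul_eq_zero.1 e3).resolve_right (hu _ (Finset.mem_image_of_mem cv hy))
        have hden : ((q.den : ℤ) : ZMod l) ≠ 0 := by
          intro hd
          rw [ZMod.intCast_zmod_eq_zero_iff_dvd] at hnum hd
          have h1 : l ∣ q.num.natAbs := Int.natCast_dvd.1 hnum
          have h2 : l ∣ q.den := Int.natCast_dvd_natCast.1 hd
          exact hl.one_lt.ne' (Nat.eq_one_of_dvd_coprimes q.reduced h1 h2)
        refine hzc (funext fun i => ?_)
        have := e2 i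
        rw [hnum, zero_mul] at this
        exact (mul_eq_zero.1 this).resolve_left hden
      have hnot : a - a' ∉ S := fun h => hnp _ h 1 (by simp)
      refine ⟨insert (a - a') S, by rw [Finset.card_insert_of_notMem hnot, hc], ?_, ?_⟩
      · intro y hy
        rcases Finset.mem_insert.1 hy with rfl | hy
        · exact ⟨hzb, hz0, fun w => (hw w).le⟩
        · exact hS y hy
      · rintro y hy y' hy' ⟨q, e⟩
        rcases Finset.mem_insert.1 hy with rfl | hy <;> rcases Finset.mem_insert.1 hy' with rfl | hy'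
        · rfl
        · have hq : (q : F) ≠ 0 := fun h0 => (hS y' hy').2.1 (by
            apply RingOfIntegers.coe_injective
            have e' : algebraMap (𝓞 F) F y' = q * ((a - a' : 𝓞 F) : F) := e
            rw [e', h0, zero_mul, map_zero])
          exact absurd (by rw [e, Rat.cast_inv, ← mul_assoc, inv_mul_cancel₀ hq, one_mul])
            (hnp y' hy' q⁻¹)
        · exact absurd e (hnp y hy q)
        · exact hp y hy y' hy' ⟨q, e⟩
  exact main l le_rfl

end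

theorem line_row : LINE_s := by
  intro F _ _ δ N j ρ l b r r0 hδ hN hρ hb0 hr hl hb hlt hr0 hno
  classical
  let f : InfinitePlace F → NNReal := fun w =>
    ⟨r * (w (δ : F)) ^ ((j : ℝ) / N), by have := apply_nonneg w (δ : F); positivity⟩
  have hf : ∀ w, (f w : ℝ) = r * (w (δ : F)) ^ ((j : ℝ) / N) := fun w => rfl
  have hD : (0 : ℝ) < Ideal.absNorm (Ideal.span {δ}) := by
    have : Ideal.absNorm (Ideal.span {δ}) ≠ 0 := by
      rw [Ne, Ideal.absNorm_eq_zero_iff, Ideal.span_singleton_eq_bot]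
      exact hδ
    positivity
  have hprod : ∏ w : InfinitePlace F, (f w : ℝ) ^ w.mult =
      r ^ finrank ℚ F * (Ideal.absNorm (Ideal.span {δ}) : ℝ) ^ ((j : ℝ) / N) := by
    simp_rw [hf, mul_pow]
    rw [prod_mul_distrib, prod_pow_eq_pow_sum, InfinitePlace.sum_mult_eq, ← mink_prod F δ,
      ← Real.finsetProd_rpow _ _ (fun w _ => pow_nonneg (apply_nonneg w _) _)]
    congr 1
    refine prod_congr rfl fun w _ => ?_
    rw [← Real.rpow_natCast, ← Real.rpow_natCast, ← Real.rpow_mul (apply_nonneg w _),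
      ← Real.rpow_mul (apply_nonneg w _), mul_comm]
  have hn := mink_norm F δ N j ρ b hδ hN hρ hb
  have hl0 : (0 : ℝ) < l := by exact_mod_cast hl.pos
  obtain ⟨S, hc, hS, hp⟩ := line_many F b hb0 l hl f (fun y hy hw => by
    by_contra h0
    refine hno y hy h0 fun φ => ?_
    have h1 := hw (InfinitePlace.mk φ)
    rw [hf, InfinitePlace.apply, InfinitePlace.apply] at h1
    have h2 : 0 ≤ ‖φ (δ : F)‖ ^ ((j : ℝ) / N) := by positivity
    refine le_of_mul_le_mul_left (h1.trans ?_) hl0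
    rw [← mul_assoc]
    exact mul_le_mul_of_nonneg_right hr0 h2) (by
    rw [hprod]
    set A := (Ideal.absNorm (Ideal.span {δ}) : ℝ) ^ ((j : ℝ) / N) with hA
    have hA0 : 0 < A := by positivity
    set E := Real.exp (finrank ℚ F * (Real.log ρ / N))
    set s := √|(NumberField.discr F : ℝ)|
    have hs : 0 ≤ s := Real.sqrt_nonneg _
    calc (l : ℝ) * (Ideal.absNorm b * s) ≤ l * (E * A * s) := by gcongr
      _ = E * s * l * A := by ring
      _ < r ^ finrank ℚ F * A := by gcongr)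
  refine ⟨S, hc.ge, fun u hu => ⟨(hS u hu).1, (hS u hu).2.1, fun φ => ?_⟩,
    fun u hu u' hu' hne q e => hne (hp u' hu' u hu ⟨q, e⟩).symm⟩
  have h1 := (hS u hu).2.2 (InfinitePlace.mk φ)
  rw [hf, InfinitePlace.apply, InfinitePlace.apply] at h1
  exact h1
-- END LINE
end

section
-- BEGIN DET2
theorem det2_idx (F : Type) [Field F] [NumberField F] (n : ℕ) (hn : finrank ℚ F = n)
    (b : Ideal (𝓞 F)) (hb : b ≠ ⊥) (u : Fin n → 𝓞 F) (hu : ∀ i, u i ∈ b) :
    ∃ I : ℤ, Algebra.discr ℚ (fun i => (u i : F)) =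
      (I : ℚ) ^ 2 * (NumberField.discr F : ℚ) * (Ideal.absNorm b : ℚ) ^ 2 := by
  classical
  have e : Free.ChooseBasisIndex ℤ (𝓞 F) ≃ Fin n :=
    Fintype.equivFinOfCardEq (by rw [← finrank_eq_card_basis (integralBasis F), hn])
  let B : Basis (Fin n) ℤ (𝓞 F) := (RingOfIntegers.basis F).reindex e
  let P : Matrix (Fin n) (Fin n) ℤ := B.toMatrix u
  have hP : (fun i => (u i : F)) = Matrix.vecMul (integralBasis F ∘ e.symm)
      ((P.map (Int.castRingHom ℚ)).map (algebraMap ℚ F)) := by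
    funext j
    have h1 := (integralBasis F).sum_repr (u j : F)
    rw [← h1, ← Equiv.sum_comp e.symm]
    simp only [Matrix.vecMul, dotProduct, Matrix.map_apply, Function.comp_apply]
    refine Finset.sum_congr rfl fun i _ => ?_
    have h2 := integralBasis_repr_apply F (u j) (e.symm i)
    have h3 : P i j = (RingOfIntegers.basis F).repr (u j) (e.symm i) :=
      Basis.repr_reindex_apply _ _ _ _
    rw [Algebra.smul_def, mul_comm, h3]
    exact congrArg (fun s => integralBasis F (e.symm i) * algebraMap ℚ F s) h2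
  have h3 : Algebra.discr ℚ (fun i => (u i : F)) =
      ((P.det : ℤ) : ℚ) ^ 2 * (NumberField.discr F : ℚ) := by
    rw [hP, Algebra.discr_of_matrix_vecMul, Algebra.discr_reindex, ← coe_discr,
      ← RingHom.mapMatrix_apply, ← RingHom.map_det]
    rfl
  let C : Basis (Fin n) ℤ b := Ideal.selfBasis B b hb
  have h4 := Ideal.natAbs_det_basis_change B b C
  have h5 := congrArg (fun f => f (fun i => (⟨u i, hu i⟩ : b)))
    (AlternatingMap.eq_smul_basis_det C
      (B.det.compLinearMap ((Submodule.subtype b).restrictScalars ℤ)))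
  have h6 : P.det = B.det ((↑) ∘ C) * C.det (fun i => (⟨u i, hu i⟩ : b)) := h5
  refine ⟨C.det (fun i => (⟨u i, hu i⟩ : b)), ?_⟩
  have h7 : ((B.det ((↑) ∘ C) : ℤ) : ℚ) ^ 2 = (Ideal.absNorm b : ℚ) ^ 2 := by
    rw [← h4, Nat.cast_natAbs, Int.cast_abs, sq_abs]
  rw [h3, h6, ← h7]
  push_cast
  ring

theorem det2_emb (F L : Type) [Field F] [NumberField F] [Field L] [NumberField L] (n : ℕ)
    (hn : finrank ℚ F = n) (σ : Fin n → (F →+* L)) (hσ : Function.Injective σ) (v : Fin n → F) :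
    ((Algebra.discr ℚ v : ℚ) : L) = (Matrix.of fun i j => σ j (v i)).det ^ 2 := by
  classical
  let ι : L →+* AlgebraicClosure L := algebraMap L (AlgebraicClosure L)
  let f : Fin n → (F →ₐ[ℚ] AlgebraicClosure L) := fun i => (ι.comp (σ i)).toRatAlgHom
  have hf : Function.Bijective f := by
    refine (Fintype.bijective_iff_injective_and_card f).2 ⟨fun i j h => hσ ?_, ?_⟩
    · ext z
      exact ι.injective (DFunLike.congr_fun h z)
    · rw [AlgHom.card, hn, Fintype.card_fin]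
  apply ι.injective
  have h := Algebra.discr_eq_det_embeddingsMatrixReindex_pow_two ℚ (AlgebraicClosure L) v
    (Equiv.ofBijective f hf)
  rw [map_ratCast, map_pow, RingHom.map_det]
  exact h

theorem det2_row : DET2_s := by
  intro F L _ _ _ _ hn b u u' σ0 σ1 hσ hb hu hu' h0 hq
  obtain ⟨I, hI⟩ := det2_idx F 2 hn b hb ![u, u'] (fun i => by fin_cases i <;> assumption)
  have hl : LinearIndependent ℚ (fun i => ((![u, u'] i : 𝓞 F) : F)) :=
    linearIndependent_fin2.2 ⟨fun h => h0 (by simpa using h), fun a h => hq a (by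
      simpa [Rat.smul_def] using h.symm)⟩
  have hd := Algebra.discr_not_zero_of_basis ℚ
    (basisOfLinearIndependentOfCardEqFinrank hl (by simp [hn]))
  rw [coe_basisOfLinearIndependentOfCardEqFinrank] at hd
  refine ⟨I, fun h => hd (by rw [hI, h]; simp), ?_⟩
  have he := det2_emb F L 2 hn ![σ0, σ1] (fun i j h => by
    fin_cases i <;> fin_cases j <;> simp_all [eq_comm]) (fun i => ((![u, u'] i : 𝓞 F) : F))
  rw [hI, Matrix.det_fin_two] at he
  simpa using he
-- END DET2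
end

section
-- BEGIN DET3
theorem det3_tr (F L : Type) [Field F] [NumberField F] [Field L] [NumberField L] (n : ℕ)
    (hn : finrank ℚ F = n) (σ : Fin n → (F →+* L)) (hσ : Function.Injective σ) (x : F) :
    ((Algebra.trace ℚ F x : ℚ) : L) = ∑ k, σ k x := by
  classical
  let f : Fin n → (F →ₐ[ℚ] AlgebraicClosure L) := fun k =>
    ((algebraMap L (AlgebraicClosure L)).comp (σ k)).toRatAlgHom
  have hf : Function.Injective f := fun k k' h => hσ (RingHom.ext fun z =>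
    (algebraMap L (AlgebraicClosure L)).injective (DFunLike.congr_fun h z))
  have hb : Function.Bijective f :=
    (Fintype.bijective_iff_injective_and_card f).2 ⟨hf, by rw [AlgHom.card, hn, Fintype.card_fin]⟩
  apply (algebraMap L (AlgebraicClosure L)).injective
  rw [map_ratCast, map_sum, ← eq_ratCast (algebraMap ℚ (AlgebraicClosure L)),
    trace_eq_sum_embeddings (AlgebraicClosure L), ← hb.sum_comp]
  rfl

theorem det3_gen (F L : Type) [Field F] [NumberField F] [Field L] [NumberField L] (n : ℕ)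
    (hn : finrank ℚ F = n) (σ : Fin n → (F →+* L)) (hσ : Function.Injective σ)
    (c : Ideal (𝓞 F)) (hc : c ≠ ⊥) (v : Fin n → 𝓞 F) (hv : ∀ i, v i ∈ c) :
    ∃ I : ℤ, (I : L) ^ 2 * (NumberField.discr F : L) * (Ideal.absNorm c : L) ^ 2 =
      (Matrix.of fun i k => σ k (v i : F)).det ^ 2 := by
  classical
  have e : Free.ChooseBasisIndex ℤ (𝓞 F) ≃ Fin n :=
    Fintype.equivFinOfCardEq (by rw [← finrank_eq_card_basis (integralBasis F), hn])
  let β : Basis (Fin n) ℤ (𝓞 F) := (RingOfIntegers.basis F).reindex e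
  let γ : Basis (Fin n) ℤ c := Ideal.selfBasis β c hc
  let v' : Fin n → c := fun i => ⟨v i, hv i⟩
  have h1 : (β.det ((↑) ∘ γ)).natAbs = Ideal.absNorm c := Ideal.natAbs_det_basis_change β c γ
  have h2 : β.det v = β.det ((↑) ∘ γ) * γ.det v' := by
    have h := AlternatingMap.eq_smul_basis_det γ
      (β.det.compLinearMap ((c.restrictScalars ℤ).subtype))
    exact DFunLike.congr_fun h v'
  have h3 : Algebra.discr ℤ v = β.det v ^ 2 * NumberField.discr F := by
    rw [← NumberField.discr_eq_discr F β, Basis.det_apply, ← Algebra.discr_of_matrix_vecMul,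
      Basis.toMatrix_map_vecMul]
  have h4 : ((Algebra.discr ℤ v : ℤ) : L) = (Matrix.of fun i k => σ k (v i : F)).det ^ 2 := by
    have h0 : ∀ A : Matrix (Fin n) (Fin n) L, A.det ^ 2 = (A * A.transpose).det := fun A => by
      rw [Matrix.det_mul, Matrix.det_transpose, sq]
    rw [Algebra.discr_def, h0, ← eq_intCast (Int.castRingHom L), RingHom.map_det]
    refine congrArg Matrix.det (Matrix.ext fun i j => ?_)
    simp only [RingHom.mapMatrix_apply, Matrix.map_apply, Algebra.traceMatrix_apply,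
      Algebra.traceForm_apply, Matrix.mul_apply, Matrix.transpose_apply, Matrix.of_apply,
      eq_intCast]
    rw [← Rat.cast_intCast, Algebra.coe_trace_int, det3_tr F L n hn σ hσ]
    refine Finset.sum_congr rfl fun k _ => ?_
    rw [← map_mul]
    rfl
  refine ⟨γ.det v', ?_⟩
  have h5 : ((Ideal.absNorm c : ℕ) : L) ^ 2 = ((β.det ((↑) ∘ γ) : ℤ) : L) ^ 2 := by
    rw [← h1, ← Int.cast_natCast, ← Int.cast_pow, ← Int.cast_pow, Int.natAbs_sq]
  rw [← h4, h3, h2, h5]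
  push_cast
  ring

theorem det3_ne (F L : Type) [Field F] [NumberField F] [Field L] [NumberField L]
    (hn : finrank ℚ F = 3) (u u' : F) (s t : F →+* L) (hst : s ≠ t) (h0 : u' ≠ 0)
    (hq : ∀ q : ℚ, u ≠ q * u') : s u * t u' - t u * s u' ≠ 0 := by
  intro h
  have hs : s u' ≠ 0 := (map_ne_zero s).2 h0
  have ht : t u' ≠ 0 := (map_ne_zero t).2 h0
  have h1 : s (u / u') = t (u / u') := by
    rw [map_div₀, map_div₀, div_eq_div_iff hs ht]
    exact sub_eq_zero.1 h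
  have hp : (finrank ℚ F).Prime := by rw [hn]; norm_num
  let K : IntermediateField ℚ F := (RingHom.eqLocusField s t).toIntermediateField fun q => by
    show s _ = t _
    rw [eq_ratCast, map_ratCast, map_ratCast]
  have := IntermediateField.isSimpleOrder_of_finrank_prime ℚ F hp
  rcases eq_bot_or_eq_top K with hb | hb
  · have h2 : u / u' ∈ K := h1
    rw [hb] at h2
    obtain ⟨q, hq'⟩ := IntermediateField.mem_bot.1 h2
    exact hq q (by rw [← div_eq_iff h0, ← hq', eq_ratCast])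
  · refine hst (RingHom.ext fun z => ?_)
    have h2 : z ∈ K := by rw [hb]; trivial
    exact h2

theorem det3_row : DET3_s := by
  intro F L _ _ _ _ hn b u u' σ hσ hb hu hu' h0 hq
  obtain ⟨I, hI⟩ := det3_gen F L 3 hn σ hσ (b * b) (mul_ne_zero hb hb) ![u * u, u * u', u' * u']
    (by intro i; fin_cases i <;> exact Ideal.mul_mem_mul (by assumption) (by assumption))
  have h0' : (u' : F) ≠ 0 := fun h => h0 (RingOfIntegers.ext h)
  have key : (I : L) ^ 2 * (NumberField.discr F : L) * (Ideal.absNorm b : L) ^ 4 =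
      ((σ 0 u * σ 1 u' - σ 1 u * σ 0 u') * (σ 1 u * σ 2 u' - σ 2 u * σ 1 u') *
        (σ 2 u * σ 0 u' - σ 0 u * σ 2 u')) ^ 2 := by
    rw [map_mul, Nat.cast_mul, Matrix.det_fin_three] at hI
    simp only [Matrix.of_apply, Matrix.cons_val, RingOfIntegers.coe_eq_algebraMap, map_mul] at hI ⊢
    linear_combination hI
  refine ⟨I, ?_, key⟩
  rintro rfl
  have a1 := det3_ne F L hn u u' (σ 0) (σ 1) (hσ.ne (by decide)) h0' hq
  have a2 := det3_ne F L hn u u' (σ 1) (σ 2) (hσ.ne (by decide)) h0' hq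
  have a3 := det3_ne F L hn u u' (σ 2) (σ 0) (hσ.ne (by decide)) h0' hq
  exact pow_ne_zero 2 (mul_ne_zero (mul_ne_zero a1 a2) a3) (by rw [← key]; simp)
-- END DET3
end

section
-- BEGIN DIS2
/-- A local generator of an ideal at a prime. -/
theorem dis2_gen (F : Type) [Field F] [NumberField F] (b : Ideal (𝓞 F)) (hb : b ≠ ⊥) (p : ℕ)
    (hp : p.Prime) : ∃ (x : 𝓞 F) (n : ℕ), ¬p ∣ n ∧
      (Algebra.norm ℤ x).natAbs = Ideal.absNorm b * n ∧ ∀ y ∈ b, x ∣ (n : 𝓞 F) * y := by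
  have hp0 : (p : 𝓞 F) ≠ 0 := by exact_mod_cast hp.ne_zero
  have hI : b * Ideal.span {(p : 𝓞 F)} ≠ 0 :=
    mul_ne_zero hb fun h => hp0 (Ideal.span_singleton_eq_bot.1 h)
  obtain ⟨x, hx⟩ := IsDedekindDomain.exists_sup_span_eq (J := b) Ideal.mul_le_left hI
  have hxb : Ideal.span {x} ≤ b := by rw [← hx]; exact le_sup_right
  obtain ⟨c, hc⟩ := Ideal.dvd_iff_le.2 hxb
  have h1 : Ideal.span {(p : 𝓞 F)} ⊔ c = ⊤ := by
    apply mul_left_cancel₀ hb
    rw [Ideal.mul_sup, ← hc, hx, Ideal.mul_top]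
  refine ⟨x, Ideal.absNorm c, fun hd => ?_, ?_, fun y hy => ?_⟩
  · obtain ⟨P, hP, hu, hPc⟩ := Ideal.exists_isMaximal_dvd_of_dvd_absNorm' hp c hd
    have hpP : (p : 𝓞 F) ∈ P := by
      have : (p : ℤ) ∈ P.under ℤ := by rw [hu]; exact Ideal.mem_span_singleton_self _
      simpa using Ideal.mem_comap.1 this
    exact hP.ne_top (top_le_iff.1 (h1 ▸ sup_le ((Ideal.span_singleton_le_iff_mem _).2 hpP)
      (Ideal.le_of_dvd hPc)))
  · rw [← Ideal.absNorm_span_singleton, hc, map_mul]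
  · rw [← Ideal.mem_span_singleton, hc, mul_comm (_ : 𝓞 F) y]
    exact Ideal.mul_mem_mul hy (Ideal.absNorm_mem c)

theorem dis2_norm (F L : Type) [Field F] [NumberField F] [Field L] [NumberField L] (n : ℕ)
    (hn : finrank ℚ F = n) (σ : Fin n → (F →+* L)) (hσ : Function.Injective σ) (x : 𝓞 F) :
    ∏ i, σ i x = ((Algebra.norm ℤ x : ℤ) : L) := by
  classical
  obtain ⟨φ⟩ : Nonempty (L →+* ℂ) := inferInstance
  let τ : Fin n → (F →ₐ[ℚ] ℂ) := fun i => (φ.comp (σ i)).toRatAlgHom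
  have hτ : Function.Injective τ := by
    intro i j h
    refine hσ (RingHom.ext fun x => φ.injective ?_)
    exact congrArg (fun t : F →ₐ[ℚ] ℂ => t x) h
  have hb : Function.Bijective τ := (Fintype.bijective_iff_injective_and_card τ).2
    ⟨hτ, by rw [AlgHom.card, hn, Fintype.card_fin]⟩
  have h1 := Algebra.norm_eq_prod_embeddings ℚ ℂ (x : F)
  rw [← Algebra.coe_norm_int, ← hb.prod_comp] at h1
  apply φ.injective
  rw [map_prod, map_intCast]
  simpa [τ] using h1.symm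

/-- Local sizes of the conjugates of an ideal. -/
theorem dis2_loc (F L : Type) [Field F] [NumberField F] [Field L] [NumberField L] (n : ℕ)
    (hn : finrank ℚ F = n) (σ : Fin n → (F →+* L)) (hσ : Function.Injective σ)
    (b : Ideal (𝓞 F)) (hb : b ≠ ⊥) (p : ℕ) (hp : p.Prime) (w : FinitePlace L)
    (hint : ∀ x : L, IsIntegral ℤ x → w x ≤ 1) (hun : ∀ k : ℤ, ¬(p : ℤ) ∣ k → w (k : L) = 1) :
    ∃ β : Fin n → ℝ, (∀ i, 0 ≤ β i) ∧ ∏ i, β i = w (Ideal.absNorm b : L) ∧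
      ∀ y ∈ b, ∀ i, w (σ i y) ≤ β i := by
  obtain ⟨x, k, hk, hx, hy⟩ := dis2_gen F b hb p hp
  have hk1 : w (k : L) = 1 := by
    simpa using hun k fun h => hk (Int.natCast_dvd_natCast.1 h)
  refine ⟨fun i => w (σ i x), fun i => apply_nonneg w _, ?_, fun y hyb i => ?_⟩
  · rw [← map_prod, dis2_norm F L n hn σ hσ x]
    have h2 : w ((Algebra.norm ℤ x : ℤ) : L) = w (((Algebra.norm ℤ x).natAbs : ℕ) : L) := by
      rcases Int.natAbs_eq (Algebra.norm ℤ x) with h | h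
      · conv_lhs => rw [h]
        simp
      · conv_lhs => rw [h]
        simp
    rw [h2, hx, Nat.cast_mul, map_mul, hk1, mul_one]
  · obtain ⟨z, hz⟩ := hy y hyb
    have h3 : (k : L) * σ i y = σ i x * σ i z := by
      have := congrArg (fun t : 𝓞 F => σ i (t : F)) hz
      simpa using this
    have h4 := congrArg w h3
    rw [map_mul, map_mul, hk1, one_mul] at h4
    rw [h4]
    exact mul_le_of_le_one_right (apply_nonneg w _)
      (hint _ (map_isIntegral_int (σ i) z.isIntegral_coe))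

theorem dis2_unit {L : Type} [Field L] [NumberField L] (w : FinitePlace L) (p : ℕ) (hp : p.Prime)
    (hw : w (p : L) = (nq w)⁻¹) (k : ℤ) (hk : ¬(p : ℤ) ∣ k) : w (k : L) = 1 := by
  obtain ⟨h2, -, hint, -, h5⟩ := fVAL L w
  have hlt : w (p : L) < 1 := by rw [hw]; exact inv_lt_one_of_one_lt₀ (by linarith)
  refine le_antisymm (hint _ ?_) (not_lt.1 fun h => hk ((h5 p hp hlt).2.2.2 k h))
  simpa using (isIntegral_algebraMap : IsIntegral ℤ (algebraMap ℤ L k))

theorem dis2_pow {L : Type} [Field L] [NumberField L] (w : FinitePlace L) (p k : ℕ) (hp : p.Prime)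
    (hw : w (p : L) = (nq w)⁻¹) (I : ℤ) (hI : I ≠ 0) (h : w (I : L) ≤ (nq w ^ k)⁻¹) :
    (p : ℝ) ^ k ≤ |(I : ℝ)| := by
  obtain ⟨a, n, hn, e⟩ := Nat.exists_eq_pow_mul_and_not_dvd (Int.natAbs_ne_zero.2 hI) p hp.ne_one
  have h2 := (fVAL L w).1
  have h3 : w (I : L) = w ((I.natAbs : ℕ) : L) := by
    rcases Int.natAbs_eq I with h | h
    · conv_lhs => rw [h]
      simp
    · conv_lhs => rw [h]
      simp
  have h4 : w (n : L) = 1 := by
    simpa using dis2_unit w p hp hw n fun h => hn (Int.natCast_dvd_natCast.1 h)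
  rw [h3, e, Nat.cast_mul, Nat.cast_pow, map_mul, map_pow, h4, mul_one, hw, inv_pow,
    inv_le_inv₀ (by positivity) (by positivity)] at h
  have hka : k ≤ a := (pow_le_pow_iff_right₀ (by linarith)).1 h
  have n1 : 1 ≤ n := Nat.pos_of_ne_zero fun h0 => hn (by rw [h0]; exact dvd_zero p)
  have h5 : p ^ k ≤ I.natAbs := by
    rw [e]
    exact (Nat.pow_le_pow_right hp.pos hka).trans (Nat.le_mul_of_pos_right _ n1)
  rw [← Int.cast_abs, ← Nat.cast_natAbs]
  exact_mod_cast h5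

theorem dis2_low (F : Type) [Field F] [NumberField F] (δ : 𝓞 F) (N j ρ : ℕ)
    (b : Ideal (𝓞 F)) (hb0 : b ≠ ⊥) (hN : 1 ≤ N) (hρ : 1 ≤ ρ)
    (hb : Ideal.span {δ} ^ j ∣ Ideal.span {(ρ : 𝓞 F)} * b ^ N) :
    ((Algebra.norm ℤ δ).natAbs : ℝ) ^ ((j : ℝ) / N) ≤
      Real.exp (finrank ℚ F * (Real.log ρ / N)) * Ideal.absNorm b := by
  have h1 := map_dvd Ideal.absNorm hb
  rw [map_pow, map_mul, map_pow, Ideal.absNorm_span_natCast, RingOfIntegers.rank,
    Ideal.absNorm_span_singleton] at h1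
  have hD : Ideal.absNorm b ≠ 0 := fun h => hb0 (Ideal.absNorm_eq_zero_iff.1 h)
  set D := (Algebra.norm ℤ δ).natAbs
  have h2 := Nat.le_of_dvd (by positivity) h1
  have h3 : (D : ℝ) ^ j ≤ (ρ : ℝ) ^ finrank ℚ F * (Ideal.absNorm b : ℝ) ^ N := by
    exact_mod_cast h2
  have hN0 : (N : ℝ) ≠ 0 := by positivity
  have hρ0 : (0 : ℝ) < ρ := by exact_mod_cast hρ
  refine le_of_pow_le_pow_left₀ (n := N) (by omega) (by positivity) ?_
  rw [mul_pow, ← Real.exp_nat_mul, ← Real.rpow_natCast ((D : ℝ) ^ ((j : ℝ) / N)),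
    ← Real.rpow_mul (by positivity), div_mul_cancel₀ _ hN0, Real.rpow_natCast,
    show (N : ℝ) * (finrank ℚ F * (Real.log ρ / N)) = (finrank ℚ F : ℕ) * Real.log ρ by
      field_simp, Real.exp_nat_mul, Real.exp_log hρ0]
  exact h3

/-- Product of the box sides through one embedding of `L`. -/
theorem dis2_side (F L : Type) [Field F] [NumberField F] [Field L] [NumberField L] (n : ℕ)
    (hn : finrank ℚ F = n) (σ : Fin n → (F →+* L)) (hσ : Function.Injective σ) (φ : L →+* ℂ)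
    (δ : 𝓞 F) (N j ρ : ℕ) (b : Ideal (𝓞 F)) (hb0 : b ≠ ⊥) (hN : 1 ≤ N) (hρ : 1 ≤ ρ)
    (hb : Ideal.span {δ} ^ j ∣ Ideal.span {(ρ : 𝓞 F)} * b ^ N) :
    ∏ i, ‖φ (σ i δ)‖ ^ ((j : ℝ) / N) ≤ Real.exp (n * (Real.log ρ / N)) * Ideal.absNorm b := by
  have h := dis2_low F δ N j ρ b hb0 hN hρ hb
  rw [hn] at h
  rw [Real.finsetProd_rpow _ _ (fun i _ => norm_nonneg _), ← norm_prod, ← map_prod,
    dis2_norm F L n hn σ hσ δ, map_intCast, Complex.norm_intCast, ← Int.cast_abs,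
    ← Nat.cast_natAbs]
  exact h

theorem dis2_row (hDET2 : DET2_s) : DIS2_s := by
  intro F L _ _ _ _ hn w p k N j Q δ u u' b σ r hp hw hD h01 _ hQ hN hδ hr hT hu hu' u0 u0' hB hB'
    hq hC
  obtain ⟨I, hI0, hI⟩ := hDET2 F L hn b u u' (σ 0) (σ 1) h01 hT.1 hu hu' u0' hq
  have hσ : Function.Injective ![σ 0, σ 1] := by
    intro i i' h
    fin_cases i <;> fin_cases i' <;> simp_all [eq_comm]
  obtain ⟨β, h0, hβ, hle⟩ := dis2_loc F L 2 hn _ hσ b hT.1 p hp w (fVAL L w).2.2.1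
    (dis2_unit w p hp hw)
  rw [Fin.prod_univ_two] at hβ
  have hNb : Ideal.absNorm b ≠ 0 := fun h => hT.1 (Ideal.absNorm_eq_zero_iff.1 h)
  have hN' : 0 < w (Ideal.absNorm b : L) := FinitePlace.pos_iff.2 (by exact_mod_cast hNb)
  have v0 : (u : F) ≠ 0 := fun h => u0 (RingOfIntegers.coe_injective (by simpa using h))
  have v0' : (u' : F) ≠ 0 := fun h => u0' (RingOfIntegers.coe_injective (by simpa using h))
  have z1 : σ 1 (u : F) ≠ 0 := (map_ne_zero _).2 v0
  have z0' : σ 0 (u' : F) ≠ 0 := (map_ne_zero _).2 v0'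
  have z1' : σ 1 (u' : F) ≠ 0 := (map_ne_zero _).2 v0'
  have hm : σ 0 u * σ 1 u' - σ 1 u * σ 0 u' =
      (σ 0 u / σ 1 u / (σ 0 u' / σ 1 u') - 1) * (σ 1 u * σ 0 u') := by
    field_simp
  have a1 : w (σ 1 u) ≤ β 1 := hle u hu 1
  have a2 : w (σ 0 u') ≤ β 0 := hle u' hu' 0
  have hC' : w (σ 0 u / σ 1 u / (σ 0 u' / σ 1 u') - 1) ≤ (nq w ^ k)⁻¹ := hC
  have hnq : 0 ≤ (nq w ^ k)⁻¹ := (apply_nonneg w _).trans hC'
  have e := congrArg w hI
  rw [map_mul, map_mul, map_pow, map_pow, map_pow, dis2_unit w p hp hw _ hD, mul_one,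
    ← mul_pow] at e
  have e2 := (pow_left_inj₀ (mul_nonneg (apply_nonneg w _) (apply_nonneg w _))
    (apply_nonneg w _) two_ne_zero).1 e
  have hwI : w (I : L) ≤ (nq w ^ k)⁻¹ := by
    refine le_of_mul_le_mul_right ?_ hN'
    rw [e2, ← hβ, hm, map_mul, map_mul, mul_comm (β 0)]
    exact mul_le_mul hC' (mul_le_mul a1 a2 (apply_nonneg w _) (h0 1))
      (mul_nonneg (apply_nonneg w _) (apply_nonneg w _)) hnq
  have hpI := dis2_pow w p k hp hw I hI0 hwI
  obtain ⟨φ⟩ : Nonempty (L →+* ℂ) := inferInstance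
  obtain ⟨r1, r2, -⟩ := fRHO Q N hQ hN
  have hs := dis2_side F L 2 hn _ hσ φ δ N j _ b hT.1 hN r1 hT.2.1
  rw [Fin.prod_univ_two] at hs
  set A0 := ‖φ (σ 0 δ)‖ ^ ((j : ℝ) / N) with hA0
  set A1 := ‖φ (σ 1 δ)‖ ^ ((j : ℝ) / N) with hA1
  have hs' : A0 * A1 ≤ Real.exp Q.card * Ideal.absNorm b := by
    refine le_trans hs (mul_le_mul_of_nonneg_right (Real.exp_le_exp.2 ?_) (Nat.cast_nonneg _))
    have : (0 : ℝ) ≤ Q.card := Nat.cast_nonneg _
    push_cast
    linarith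
  have b0 : ‖φ (σ 0 u)‖ ≤ r * A0 := hB (φ.comp (σ 0))
  have b1 : ‖φ (σ 1 u)‖ ≤ r * A1 := hB (φ.comp (σ 1))
  have c0 : ‖φ (σ 0 u')‖ ≤ r * A0 := hB' (φ.comp (σ 0))
  have c1 : ‖φ (σ 1 u')‖ ≤ r * A1 := hB' (φ.comp (σ 1))
  have p0 : 0 ≤ A0 := by positivity
  have p1 : 0 ≤ A1 := by positivity
  have hup : ‖φ (σ 0 u * σ 1 u' - σ 1 u * σ 0 u')‖ ≤ 2 * r ^ 2 * (A0 * A1) := by
    rw [map_sub, map_mul, map_mul]
    refine (norm_sub_le _ _).trans ?_
    rw [norm_mul, norm_mul]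
    have d1 := mul_le_mul b0 c1 (norm_nonneg _) (by positivity)
    have d2 := mul_le_mul b1 c0 (norm_nonneg _) (by positivity)
    linarith
  have f := congrArg (fun t => ‖φ t‖) hI
  simp only [map_mul, map_pow, map_intCast, map_natCast, norm_mul, norm_pow, Complex.norm_intCast,
    Complex.norm_natCast] at f
  set s := √|(NumberField.discr F : ℝ)| with hsd
  have s0 : 0 ≤ s := Real.sqrt_nonneg _
  have s2 : |(NumberField.discr F : ℝ)| = s ^ 2 := (Real.sq_sqrt (abs_nonneg _)).symm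
  have nb : (0 : ℝ) < Ideal.absNorm b := by positivity
  rw [s2, ← mul_pow, ← mul_pow] at f
  have f2 := (pow_left_inj₀ (by positivity) (norm_nonneg _) two_ne_zero).1 f
  refine le_of_mul_le_mul_right ?_ nb
  have E0 := Real.exp_pos (Q.card : ℝ)
  calc (p : ℝ) ^ k * s * Ideal.absNorm b ≤ |(I : ℝ)| * s * Ideal.absNorm b := by gcongr
    _ ≤ 2 * r ^ 2 * (A0 * A1) := by rw [f2]; exact hup
    _ ≤ 2 * r ^ 2 * (Real.exp Q.card * Ideal.absNorm b) := by gcongr
    _ ≤ 8 * r ^ 2 * (Real.exp Q.card * Ideal.absNorm b) := by gcongr; norm_num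
    _ = _ := by norm_num; ring
-- END DIS2
end

section
-- BEGIN DIS3
theorem dis3_nat {L : Type} [Field L] [NumberField L] (w : FinitePlace L) (n : ℕ) :
    w (n : L) ≤ 1 := (fVAL L w).2.2.1 _ (by exact_mod_cast isIntegral_algebraMap (x := (n : ℤ)))

theorem dis3_dvd {L : Type} [Field L] [NumberField L] (w : FinitePlace L) {a b : ℕ} (h : a ∣ b) :
    w (b : L) ≤ w (a : L) := by
  obtain ⟨c, rfl⟩ := h
  rw [Nat.cast_mul, map_mul]
  exact mul_le_of_le_one_right (apply_nonneg _ _) (dis3_nat w c)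

theorem dis3_abs {L : Type} [Field L] [NumberField L] (w : FinitePlace L) (n : ℤ) :
    w ((n.natAbs : ℕ) : L) = w (n : L) := by
  rcases Int.natAbs_eq n with h | h
  · rw [← Int.cast_natCast, ← h]
  · conv_rhs => rw [h, Int.cast_neg, map_neg_eq_map, Int.cast_natCast]

theorem dis3_unit {L : Type} [Field L] [NumberField L] (w : FinitePlace L) {p : ℕ} (hp : p.Prime)
    (hw : w (p : L) = (nq w)⁻¹) {n : ℕ} (hn : ¬p ∣ n) : w (n : L) = 1 := by
  obtain ⟨h2, -, -, -, h5⟩ := fVAL L w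
  have h1 : w (p : L) < 1 := by rw [hw]; exact inv_lt_one_of_one_lt₀ (by linarith)
  refine le_antisymm (dis3_nat w n) (not_lt.1 fun h => hn ?_)
  exact_mod_cast (h5 p hp h1).2.2.2 n (by exact_mod_cast h)

theorem dis3_norm {F L : Type} [Field F] [NumberField F] [Field L] [NumberField L]
    (hF : finrank ℚ F = 3) (σ : Fin 3 → (F →+* L)) (hσ : Function.Injective σ) (φ : L →+* ℂ)
    (δ : 𝓞 F) : ((Algebra.norm ℤ δ : ℤ) : L) = σ 0 δ * σ 1 δ * σ 2 δ := by
  classical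
  let e : Fin 3 → (F →ₐ[ℚ] ℂ) := fun a => (φ.comp (σ a)).toRatAlgHom
  have he : Function.Bijective e := by
    refine (Fintype.bijective_iff_injective_and_card e).2 ⟨fun a a' h => hσ ?_, ?_⟩
    · ext x
      exact φ.injective (DFunLike.congr_fun h x)
    · rw [AlgHom.card, hF, Fintype.card_fin]
  have h1 := Algebra.norm_eq_prod_embeddings ℚ ℂ (δ : F)
  rw [← he.prod_comp fun s : F →ₐ[ℚ] ℂ => s (δ : F), Fin.prod_univ_three,
    ← Algebra.coe_norm_int] at h1
  apply φ.injective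
  rw [map_intCast, map_mul, map_mul]
  rw [map_intCast] at h1
  exact h1

theorem dis3_pt {F L : Type} [Field F] [NumberField F] [Field L] [NumberField L]
    (w : FinitePlace L) (s : F →+* L) {δ z : 𝓞 F} {N j ρ : ℕ} {b : Ideal (𝓞 F)}
    (h : Ideal.span {δ} ^ j ∣ Ideal.span {(ρ : 𝓞 F)} * b ^ N) (hz : z ∈ b) :
    w (ρ : L) * w (s z) ^ N ≤ w (s δ) ^ j := by
  have m : (ρ : 𝓞 F) * z ^ N ∈ Ideal.span {δ} ^ j :=
    Ideal.le_of_dvd h (Ideal.mul_mem_mul (Ideal.mem_span_singleton_self _)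
      (Ideal.pow_mem_pow hz N))
  rw [Ideal.span_singleton_pow, Ideal.mem_span_singleton] at m
  obtain ⟨c, hc⟩ := m
  have e : (ρ : L) * s z ^ N = s δ ^ j * s c := by
    have := congrArg (fun z : 𝓞 F => s (z : F)) hc
    simpa using this
  have hi : w (s c) ≤ 1 := (fVAL L w).2.2.1 _ (c.isIntegral_coe.map s.toIntAlgHom)
  rw [← map_pow, ← map_mul, e, map_mul, map_pow]
  exact mul_le_of_le_one_right (by positivity) hi

theorem dis3_minor {L : Type} [Field L] [NumberField L] (w : FinitePlace L) {x y x' y' : L}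
    {R A B : ℝ} {N : ℕ} (hR : 0 ≤ R) (h1 : R * w x ^ N ≤ A) (h2 : R * w y ^ N ≤ B)
    (h3 : R * w x' ^ N ≤ A) (h4 : R * w y' ^ N ≤ B) : R ^ 2 * w (x * y' - y * x') ^ N ≤ A * B := by
  have a0 : 0 ≤ A := le_trans (by positivity) h1
  have k : ∀ s t : L, R * w s ^ N ≤ A → R * w t ^ N ≤ B → R ^ 2 * w (s * t) ^ N ≤ A * B :=
    fun s t hs ht => by
      rw [map_mul, mul_pow, show R ^ 2 * (w s ^ N * w t ^ N) = R * w s ^ N * (R * w t ^ N) by ring]
      exact mul_le_mul hs ht (by positivity) a0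
  have h := w.add_le (x * y') (-(y * x'))
  rw [map_neg_eq_map, ← sub_eq_add_neg, mul_comm y] at h
  rw [mul_comm y]
  rcases le_max_iff.1 h with h | h
  · exact le_trans (by gcongr) (k _ _ h1 h4)
  · exact le_trans (by gcongr) (k _ _ h3 h2)

theorem dis3_row (hDET3 : DET3_s) : DIS3_s := by
  intro F L _ _ _ _ hF w p k N j Q δ u u' b σ r hp hw hD _ hσ hQ hN δ0 hr h2 hu hu' u0 u0' B B' hq hC
  obtain ⟨b0, t1, t2⟩ := h2
  have hσ := hσ rfl
  obtain ⟨I, I0, hI⟩ := hDET3 F L hF b u u' σ hσ b0 hu hu' u0' hq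
  obtain ⟨r1, r2, r3⟩ := fRHO Q N hQ hN
  obtain ⟨k', n', e1, e2, e3⟩ := r3 p hp
  set ρ := rho Q N with hρ
  obtain ⟨φ⟩ : Nonempty (L →+* ℂ) := inferInstance
  have hn := dis3_norm hF σ hσ φ δ
  set A : ℕ := Ideal.absNorm (Ideal.span {δ}) with hA
  have hA' : A = (Algebra.norm ℤ δ).natAbs := Ideal.absNorm_span_singleton δ
  set Nb : ℕ := Ideal.absNorm b with hNb
  have Nb0 : 0 < Nb := Nat.pos_of_ne_zero fun h => b0 (Ideal.absNorm_eq_zero_iff.1 h)
  have d1 : A ^ j ∣ ρ ^ 3 * Nb ^ N := by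
    have := map_dvd Ideal.absNorm t1
    rwa [map_pow, map_mul, map_pow, Ideal.absNorm_span_natCast, RingOfIntegers.rank, hF] at this
  have d2 : Nb ^ N ∣ ρ ^ 3 * A ^ j := by
    have := map_dvd Ideal.absNorm t2
    rwa [map_pow, map_mul, map_pow, Ideal.absNorm_span_natCast, RingOfIntegers.rank, hF] at this
  have ne : ∀ (a : Fin 3) (z : 𝓞 F), z ≠ 0 → σ a z ≠ 0 := fun a z hz =>
    (map_ne_zero _).2 (by exact_mod_cast hz)
  have W2 : 2 ≤ nq w := (fVAL L w).1
  have W0 : 0 < nq w := by linarith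
  have pw : ∀ s n : ℕ, ¬p ∣ n → w ((p ^ s * n : ℕ) : L) = (nq w ^ s)⁻¹ := fun s n hn => by
    rw [Nat.cast_mul, Nat.cast_pow, map_mul, map_pow, dis3_unit w hp hw hn, hw, mul_one, inv_pow]
  have hk : p ^ k ≤ I.natAbs := by
    obtain ⟨s, n, f1, f2⟩ := Nat.exists_eq_pow_mul_and_not_dvd (Int.natAbs_ne_zero.2 I0) p
      hp.ne_one
    have wI : w (I : L) = (nq w ^ s)⁻¹ := by rw [← dis3_abs, f2, pw s n f1]
    have wR : w (ρ : L) = (nq w ^ k')⁻¹ := by rw [e1, pw k' n' e2]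
    have wD : w (NumberField.discr F : L) = 1 := by
      rw [← dis3_abs]
      exact dis3_unit w hp hw fun h => hD (Int.natCast_dvd.2 h)
    have g := congrArg w hI
    simp only [map_mul, map_pow, wD, mul_one] at g
    set m0 := w (σ 0 u * σ 1 u' - σ 1 u * σ 0 u') with hm0
    set m1 := w (σ 1 u * σ 2 u' - σ 2 u * σ 1 u') with hm1
    set m2 := w (σ 2 u * σ 0 u' - σ 0 u * σ 2 u') with hm2
    have g1 : w (I : L) * w (Nb : L) ^ 2 = m0 * m1 * m2 := by
      refine (pow_left_inj₀ (by positivity) (by positivity) two_ne_zero).1 ?_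
      rw [← g]
      ring
    have R0 : 0 ≤ w (ρ : L) := apply_nonneg _ _
    have pt := fun (a : Fin 3) (z : 𝓞 F) (hz : z ∈ b) => dis3_pt w (σ a) t1 hz
    have a1 := dis3_minor w R0 (pt 1 u hu) (pt 2 u hu) (pt 1 u' hu') (pt 2 u' hu')
    have a2 := dis3_minor w R0 (pt 2 u hu) (pt 0 u hu) (pt 2 u' hu') (pt 0 u' hu')
    have a0 : w (ρ : L) ^ 2 * m0 ^ N ≤
        (nq w ^ k)⁻¹ ^ N * (w (σ 0 δ) ^ j * w (σ 1 δ) ^ j) := by
      have c1 : m0 ≤ (nq w ^ k)⁻¹ * (w (σ 0 u') * w (σ 1 u)) := by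
        have c2 : σ 0 u * σ 1 u' - σ 1 u * σ 0 u' =
            (σ 0 u / σ 1 u / (σ 0 u' / σ 1 u') - 1) * (σ 0 u' * σ 1 u) := by
          have := ne 1 u u0
          have := ne 0 u' u0'
          have := ne 1 u' u0'
          field_simp
        rw [hm0, c2, map_mul, map_mul]
        exact mul_le_mul_of_nonneg_right hC (by positivity)
      calc _ ≤ w (ρ : L) ^ 2 * ((nq w ^ k)⁻¹ * (w (σ 0 u') * w (σ 1 u))) ^ N := by gcongr
        _ = (nq w ^ k)⁻¹ ^ N * (w (ρ : L) * w (σ 0 u') ^ N * (w (ρ : L) * w (σ 1 u) ^ N)) := by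
          ring
        _ ≤ _ := by
          refine mul_le_mul_of_nonneg_left ?_ (by positivity)
          exact mul_le_mul (pt 0 u' hu') (pt 1 u hu) (by positivity) (by positivity)
    have a3 := dis3_dvd w d2
    rw [Nat.cast_mul, Nat.cast_pow, Nat.cast_pow, Nat.cast_pow, map_mul, map_pow, map_pow, map_pow,
      hA', dis3_abs, hn, map_mul, map_mul, mul_pow, mul_pow] at a3
    have p0 : ∀ a : Fin 3, 0 < w (σ a δ) ^ j := fun a =>
      pow_pos (FinitePlace.pos_iff.2 (ne a δ δ0)) j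
    set B0 := w (σ 0 δ) ^ j
    set B1 := w (σ 1 δ) ^ j
    set B2 := w (σ 2 δ) ^ j
    have q0 : 0 < B0 := p0 0
    have q1 : 0 < B1 := p0 1
    have q2 : 0 < B2 := p0 2
    have a4 : w (ρ : L) ^ 12 * w (I : L) ^ N * (B0 * B1 * B2) ^ 2 ≤
        (nq w ^ k)⁻¹ ^ N * (B0 * B1 * B2) ^ 2 := by
      calc _ = w (ρ : L) ^ 6 * w (I : L) ^ N * (w (ρ : L) ^ 3 * (B0 * B1 * B2)) ^ 2 := by ring
        _ ≤ w (ρ : L) ^ 6 * w (I : L) ^ N * (w (Nb : L) ^ N) ^ 2 := by gcongr
        _ = w (ρ : L) ^ 6 * (w (I : L) * w (Nb : L) ^ 2) ^ N := by ring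
        _ = w (ρ : L) ^ 2 * m0 ^ N * (w (ρ : L) ^ 2 * m1 ^ N) * (w (ρ : L) ^ 2 * m2 ^ N) := by
          rw [g1]; ring
        _ ≤ (nq w ^ k)⁻¹ ^ N * (B0 * B1) * (B1 * B2) * (B2 * B0) := by gcongr
        _ = _ := by ring
    have a5 := le_of_mul_le_mul_right a4 (by positivity)
    rw [wI, wR, inv_pow, inv_pow, inv_pow, ← mul_inv, inv_le_inv₀ (by positivity) (by positivity),
      ← pow_mul, ← pow_mul, ← pow_mul, ← pow_add,
      pow_le_pow_iff_right₀ (by linarith : 1 < nq w)] at a5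
    have a6 : k ≤ s := by
      by_contra hlt
      have : (s + 1) * N ≤ k * N := Nat.mul_le_mul_right _ (by omega)
      rw [add_mul] at this
      omega
    refine Nat.le_of_dvd (Int.natAbs_pos.2 I0) ?_
    rw [f2]
    exact (pow_dvd_pow p a6).mul_right _
  have g := congrArg (fun z => ‖φ z‖) hI
  simp only [map_mul, map_pow, map_intCast, map_natCast, norm_mul, norm_pow, Complex.norm_intCast,
    Complex.norm_natCast] at g
  have bx : ∀ (a : Fin 3), ‖φ (σ a u)‖ ≤ r * ‖φ (σ a δ)‖ ^ ((j : ℝ) / N) ∧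
      ‖φ (σ a u')‖ ≤ r * ‖φ (σ a δ)‖ ^ ((j : ℝ) / N) := fun a =>
    ⟨B (φ.comp (σ a)), B' (φ.comp (σ a))⟩
  set X : Fin 3 → ℝ := fun a => ‖φ (σ a δ)‖ ^ ((j : ℝ) / N) with hX
  have X0 : ∀ a, 0 ≤ X a := fun a => by positivity
  have mn : ∀ a c : Fin 3, ‖φ (σ a u * σ c u' - σ c u * σ a u')‖ ≤ 2 * r ^ 2 * (X a * X c) :=
    fun a c => by
      rw [map_sub, map_mul, map_mul]
      refine (norm_sub_le _ _).trans ?_
      rw [norm_mul, norm_mul]
      have h1 := mul_le_mul (bx a).1 (bx c).2 (norm_nonneg _) (mul_nonneg hr.le (X0 a))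
      have h2 := mul_le_mul (bx c).1 (bx a).2 (norm_nonneg _) (mul_nonneg hr.le (X0 c))
      simp only [hX]
      nlinarith
  have hP : X 0 * X 1 * X 2 ≤ Real.exp (3 * (Real.log ρ / N)) * Nb := by
    have c1 : X 0 * X 1 * X 2 = (A : ℝ) ^ ((j : ℝ) / N) := by
      simp only [hX]
      rw [← Real.mul_rpow (norm_nonneg _) (norm_nonneg _),
        ← Real.mul_rpow (by positivity) (norm_nonneg _), ← norm_mul, ← norm_mul, ← map_mul,
        ← map_mul, ← hn, map_intCast, Complex.norm_intCast, hA', Nat.cast_natAbs, Int.cast_abs]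
    have c2 : (A : ℝ) ^ j ≤ (ρ : ℝ) ^ 3 * (Nb : ℝ) ^ N := by
      exact_mod_cast Nat.le_of_dvd (by positivity) d1
    have hN0 : (N : ℝ) ≠ 0 := by positivity
    have hρ0 : (0 : ℝ) < ρ := by exact_mod_cast r1
    rw [c1]
    refine le_of_pow_le_pow_left₀ (n := N) (by omega) (by positivity) ?_
    rw [← Real.rpow_natCast, ← Real.rpow_mul (by positivity), div_mul_cancel₀ _ hN0,
      Real.rpow_natCast, mul_pow, ← Real.exp_nat_mul,
      show (N : ℝ) * (3 * (Real.log ρ / N)) = (3 : ℕ) * Real.log ρ by push_cast; field_simp,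
      Real.exp_nat_mul, Real.exp_log hρ0]
    exact c2
  have hE : Real.exp (3 * (Real.log ρ / N)) ^ 2 ≤ Real.exp Q.card := by
    rw [← Real.exp_nat_mul]
    refine Real.exp_le_exp.2 ?_
    have : (0 : ℝ) ≤ Q.card := Nat.cast_nonneg _
    push_cast
    linarith
  have g1 : |(I : ℝ)| * √|(NumberField.discr F : ℝ)| * (Nb : ℝ) ^ 2 =
      ‖φ (σ 0 u * σ 1 u' - σ 1 u * σ 0 u')‖ * ‖φ (σ 1 u * σ 2 u' - σ 2 u * σ 1 u')‖ *
        ‖φ (σ 2 u * σ 0 u' - σ 0 u * σ 2 u')‖ := by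
    refine (pow_left_inj₀ (by positivity) (by positivity) two_ne_zero).1 ?_
    rw [← g, mul_pow, mul_pow, Real.sq_sqrt (abs_nonneg _)]
    ring
  have hk' : (p : ℝ) ^ k ≤ |(I : ℝ)| := by
    rw [← Int.cast_abs, ← Nat.cast_natAbs]
    exact_mod_cast hk
  have Nb1 : (0 : ℝ) < (Nb : ℝ) ^ 2 := by positivity
  refine le_of_mul_le_mul_right ?_ Nb1
  have := X0 0
  have := X0 1
  have := X0 2
  calc _ ≤ |(I : ℝ)| * √|(NumberField.discr F : ℝ)| * (Nb : ℝ) ^ 2 := by gcongr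
    _ ≤ 2 * r ^ 2 * (X 0 * X 1) * (2 * r ^ 2 * (X 1 * X 2)) * (2 * r ^ 2 * (X 2 * X 0)) := by
      rw [g1]
      gcongr
      · exact mn 0 1
      · exact mn 1 2
      · exact mn 2 0
    _ = 8 * r ^ 6 * (X 0 * X 1 * X 2) ^ 2 := by ring
    _ ≤ 8 * r ^ 6 * (Real.exp (3 * (Real.log ρ / N)) * Nb) ^ 2 := by gcongr
    _ = 8 * Real.exp (3 * (Real.log ρ / N)) ^ 2 * r ^ 6 * (Nb : ℝ) ^ 2 := by ring
    _ ≤ _ := by gcongr
-- END DIS3
end

section
-- BEGIN DICH
theorem dich_one {F : Type} [Field F] [NumberField F] {δ : 𝓞 F} {N j ρ : ℕ}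
    {b : Ideal (𝓞 F)} {R X : ℝ} (hδ : δ ≠ 0) (hN : 1 ≤ N) (hρ : 1 ≤ ρ) (hb : b ≠ ⊥)
    (h1 : Ideal.span {δ} ^ j ∣ Ideal.span {(ρ : 𝓞 F)} * b ^ N)
    {y : 𝓞 F} (y1 : y ∈ b) (y0 : y ≠ 0)
    (hy : ∀ φ : F →+* ℂ, ‖φ (y : F)‖ ≤ Real.exp R * ‖φ (δ : F)‖ ^ ((j : ℝ) / N)) (X0 : 0 < X)
    (h4 : finrank ℚ F * R + finrank ℚ F * (Real.log ρ / N) ≤ Real.log X) :
    ∃ c : Ideal (𝓞 F), Ideal.span {y} = b * c ∧ c ≠ ⊥ ∧
      (Ideal.absNorm c : ℝ) ≤ X ∧ ∀ φ : F →+* ℂ,
        0 ≤ R - (Real.log ‖φ (y : F)‖ - (j : ℝ) / N * Real.log ‖φ (δ : F)‖) ∧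
        R - (Real.log ‖φ (y : F)‖ - (j : ℝ) / N * Real.log ‖φ (δ : F)‖) ≤ Real.log X := by
  obtain ⟨c, hc⟩ := Ideal.dvd_span_singleton.mpr y1
  have c0 : c ≠ ⊥ := by
    rintro rfl
    rw [Ideal.mul_bot, Ideal.span_singleton_eq_bot] at hc
    exact y0 hc
  have pos : ∀ I : Ideal (𝓞 F), I ≠ ⊥ → (1 : ℝ) ≤ Ideal.absNorm I := fun I hI => by
    exact_mod_cast Nat.one_le_iff_ne_zero.mpr fun h => hI (Ideal.absNorm_eq_zero_iff.mp h)
  have ρ0 : (0 : ℝ) < ρ := by exact_mod_cast hρ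
  have N0 : (0 : ℝ) < N := by exact_mod_cast hN
  have pb := pos b hb
  have pc := pos c c0
  have pd := pos (Ideal.span {δ}) (by rwa [Ne, Ideal.span_singleton_eq_bot])
  have m0 : ∀ φ : F →+* ℂ,
      0 ≤ R - (Real.log ‖φ (y : F)‖ - (j : ℝ) / N * Real.log ‖φ (δ : F)‖) := by
    intro φ
    have := Real.log_le_log (mat_ne y0 φ) (hy φ)
    rw [Real.log_mul (Real.exp_pos R).ne' (Real.rpow_pos_of_pos (mat_ne hδ φ) _).ne',
      Real.log_exp, Real.log_rpow (mat_ne hδ φ)] at this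
    linarith
  have nρ : (Ideal.absNorm (Ideal.span {(ρ : 𝓞 F)}) : ℝ) = (ρ : ℝ) ^ finrank ℚ F := by
    rw [← mat_prod]
    simp [NumberField.Embeddings.card]
  have e1 : (Ideal.absNorm (Ideal.span {δ}) : ℝ) ^ j ≤
      (ρ : ℝ) ^ finrank ℚ F * (Ideal.absNorm b : ℝ) ^ N := by
    have d1 := map_dvd Ideal.absNorm h1
    rw [map_pow, map_mul, map_pow] at d1
    have d2 : (0 : ℝ) < ((Ideal.absNorm (Ideal.span {(ρ : 𝓞 F)}) * Ideal.absNorm b ^ N : ℕ) : ℝ) := by
      push_cast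
      rw [nρ]
      positivity
    rw [← nρ]
    exact_mod_cast Nat.le_of_dvd (by exact_mod_cast d2) d1
  have e2 := Real.log_le_log (by positivity) e1
  rw [Real.log_mul (by positivity) (by positivity), Real.log_pow, Real.log_pow,
    Real.log_pow] at e2
  have e3 : (j : ℝ) / N * Real.log (Ideal.absNorm (Ideal.span {δ}) : ℝ) ≤
      finrank ℚ F * (Real.log ρ / N) + Real.log (Ideal.absNorm b : ℝ) := by
    rw [div_mul_eq_mul_div, div_le_iff₀ N0, add_mul, mul_assoc, div_mul_cancel₀ _ N0.ne']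
    linarith
  have e4 : ∑ φ : F →+* ℂ, (R - (Real.log ‖φ (y : F)‖ - (j : ℝ) / N * Real.log ‖φ (δ : F)‖)) =
      finrank ℚ F * R - (Real.log (Ideal.absNorm b : ℝ) + Real.log (Ideal.absNorm c : ℝ) -
        (j : ℝ) / N * Real.log (Ideal.absNorm (Ideal.span {δ}) : ℝ)) := by
    rw [Finset.sum_sub_distrib, Finset.sum_sub_distrib, ← Finset.mul_sum, mat_log y0, mat_log hδ,
      hc, map_mul, Nat.cast_mul, Real.log_mul (by positivity) (by positivity), Finset.sum_const,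
      Finset.card_univ, NumberField.Embeddings.card, nsmul_eq_mul]
  have e5 := Finset.sum_nonneg fun φ (_ : φ ∈ Finset.univ) => m0 φ
  have e6 := Real.log_nonneg pc
  refine ⟨c, hc, c0, ?_, fun φ => ⟨m0 φ, ?_⟩⟩
  · rw [← Real.log_le_log_iff (by positivity) X0]
    linarith
  · have := Finset.single_le_sum (fun φ (_ : φ ∈ Finset.univ) => m0 φ) (Finset.mem_univ φ)
    linarith

theorem dich_row (hLINE : LINE_s) : DICH_s := by
  classical
  intro ε hε
  obtain ⟨C, C1, hC⟩ := fICNT (ε / 2) (by positivity)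
  have c1 : 1 ≤ (6 / ε + 1) ^ 3 := one_le_pow₀ (le_add_of_nonneg_left (by positivity))
  have c2 := one_le_mul_of_one_le_of_one_le C1 c1
  refine ⟨2 * (C * (6 / ε + 1) ^ 3), by linarith, ?_⟩
  intro F _ _ hn δ n0 N l Q J r r0 n00 hd hQ hp hN Qne Jne r1 r01 hl hr hr0
  have hδ : δ ≠ 0 := by
    rintro rfl
    exact n00 (by exact_mod_cast zero_dvd_iff.mp hd)
  obtain ⟨J0, s0, k0, A, A0, hA⟩ := fIDL F hn δ n0 N Q J n00 hd hQ hp hN
  obtain ⟨ρ1, ρ2, -⟩ := fRHO Q N hp hN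
  have K0 : 0 ≤ Kc Q := Finset.prod_nonneg fun q _ => by positivity
  have J0ne : J0.Nonempty := by
    rcases J0.eq_empty_or_nonempty with rfl | h
    · have : (0 : ℝ) < J.card := by exact_mod_cast Jne.card_pos
      simp only [Finset.card_empty, Nat.cast_zero, mul_zero] at k0
      linarith
    · exact h
  have q1 : (1 : ℝ) ≤ Q.card := by exact_mod_cast Qne.card_pos
  have D1 : (1 : ℝ) ≤ √|(NumberField.discr F : ℝ)| := by
    rw [Real.one_le_sqrt]
    exact_mod_cast Int.one_le_abs (NumberField.discr_ne_zero F)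
  have n0' : (0 : ℝ) < finrank ℚ F := by exact_mod_cast Module.finrank_pos
  have n3 : (finrank ℚ F : ℝ) ≤ 3 := by exact_mod_cast hn
  have l0 : 0 ≤ Real.log (rho Q N) / N :=
    div_nonneg (Real.log_nonneg (by exact_mod_cast ρ1)) (Nat.cast_nonneg _)
  have l1 : finrank ℚ F * (Real.log (rho Q N) / N) < Q.card := by nlinarith
  have lp : (0 : ℝ) < l := by exact_mod_cast hl.pos
  have h3 : Real.exp (finrank ℚ F * (Real.log (rho Q N) / N)) * √|(NumberField.discr F : ℝ)| * l <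
      r ^ finrank ℚ F :=
    (mul_lt_mul_of_pos_right (mul_lt_mul_of_pos_right (Real.exp_lt_exp.mpr l1) (by positivity))
      lp).trans_le hr
  obtain ⟨i0, i00, i0le⟩ := Finset.exists_min_image J0 id J0ne
  have exb : ∀ i : ℕ, ∃ b : Ideal (𝓞 F), i ∈ J0 → A i = A i0 * b ∧ Two δ N (i - i0) (rho Q N) b := by
    intro i
    by_cases hi : i ∈ J0
    · obtain ⟨b, b1, b2, b3⟩ := hA i hi i0 i00 (i0le i hi)
      refine ⟨b, fun _ => ⟨b1, ?_, b2, b3⟩⟩
      rintro rfl
      exact A0 i (by rw [b1, Ideal.mul_bot])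
    · exact ⟨⊥, fun h => absurd h hi⟩
  choose b hb using exb
  have split := Finset.card_filter_add_card_filter_not (s := J0)
    fun i => ∃ u ∈ b i, u ≠ 0 ∧ Box (δ : F) N (i - i0) r0 (u : F)
  obtain ⟨J1, hJ1⟩ : ∃ J1, J1 = J0.filter
    fun i => ∃ u ∈ b i, u ≠ 0 ∧ Box (δ : F) N (i - i0) r0 (u : F) := ⟨_, rfl⟩
  obtain ⟨J9, hJ9⟩ : ∃ J9, J9 = J0.filter
    fun i => ¬∃ u ∈ b i, u ≠ 0 ∧ Box (δ : F) N (i - i0) r0 (u : F) := ⟨_, rfl⟩
  rw [← hJ1, ← hJ9] at split
  rcases le_total J1.card J9.card with hc | hc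
  · refine Or.inr ⟨J9, fun i hi => s0 (Finset.mem_filter.mp (hJ9 ▸ hi)).1, i0, s0 i00, ?_,
      fun i hi => ?_⟩
    · have : (J0.card : ℝ) ≤ 2 * J9.card := by exact_mod_cast (by omega : J0.card ≤ 2 * J9.card)
      refine k0.trans ((mul_le_mul_of_nonneg_left this K0).trans (le_of_eq ?_))
      ring
    · obtain ⟨m, hm⟩ := Finset.mem_filter.mp (hJ9 ▸ hi)
      exact ⟨i0le i m, b i, (hb i m).2, hLINE F δ N (i - i0) (rho Q N) l (b i) r r0 hδ hN ρ1
        (hb i m).2.1 r1 hl (hb i m).2.2.2 h3 hr0 fun u hu u0 hx => hm ⟨u, hu, u0, hx⟩⟩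
  have s1 : J1 ⊆ J0 := fun i hi => (Finset.mem_filter.mp (hJ1 ▸ hi)).1
  have k1 : (J0.card : ℝ) ≤ 2 * J1.card := by exact_mod_cast (by omega : J0.card ≤ 2 * J1.card)
  have J1ne : J1.Nonempty := by
    have := J0ne.card_pos
    exact Finset.card_pos.mp (by omega)
  obtain ⟨X, hX⟩ : ∃ X, X = r0 ^ finrank ℚ F * Real.exp Q.card := ⟨_, rfl⟩
  obtain ⟨R, hR⟩ : ∃ R, R = Real.log r0 := ⟨_, rfl⟩
  have X0 : 0 < X := by
    rw [hX]
    positivity
  have lX : Real.log X = finrank ℚ F * R + Q.card := by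
    rw [hX, hR, Real.log_mul (by positivity) (by positivity), Real.log_pow, Real.log_exp]
  have eR : Real.exp R = r0 := by rw [hR, Real.exp_log r01]
  rw [← hX]
  have ex : ∀ i : ℕ, ∃ (y : 𝓞 F) (c : Ideal (𝓞 F)), i ∈ J1 → y ≠ 0 ∧
      Ideal.span {y} = b i * c ∧ c ≠ ⊥ ∧ (Ideal.absNorm c : ℝ) ≤ X ∧ ∀ φ : F →+* ℂ,
        0 ≤ R - (Real.log ‖φ (y : F)‖ - ((i - i0 : ℕ) : ℝ) / N * Real.log ‖φ (δ : F)‖) ∧
        R - (Real.log ‖φ (y : F)‖ - ((i - i0 : ℕ) : ℝ) / N * Real.log ‖φ (δ : F)‖) ≤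
          Real.log X := by
    intro i
    by_cases hi : i ∈ J1
    · obtain ⟨m, y, y1, y0, hy⟩ := Finset.mem_filter.mp (hJ1 ▸ hi)
      obtain ⟨c, hc'⟩ := dich_one (R := R) hδ hN ρ1 (hb i m).2.1 (hb i m).2.2.1 y1 y0
        (fun φ => eR ▸ hy φ) X0 (by linarith)
      exact ⟨y, c, fun _ => ⟨y0, hc'⟩⟩
    · exact ⟨0, ⊥, fun h => absurd h hi⟩
  choose y c hy using ex
  have X1 : 1 ≤ X := by
    obtain ⟨i, hi⟩ := J1ne
    refine le_trans ?_ (hy i hi).2.2.2.1
    exact_mod_cast Nat.one_le_iff_ne_zero.mpr fun h =>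
      (hy i hi).2.2.1 (Ideal.absNorm_eq_zero_iff.mp h)
  refine Or.inl ⟨X1, ?_⟩
  obtain ⟨J2, s2, k2, p2⟩ := mat_pig J1 c
  obtain ⟨J3, s3, k3, p3⟩ := mat_pig J2 fun i (φ : F →+* ℂ) =>
    ⌊R - (Real.log ‖φ (y i : F)‖ - ((i - i0 : ℕ) : ℝ) / N * Real.log ‖φ (δ : F)‖)⌋₊
  have k4 : ((J1.image c).card : ℝ) ≤ C * X ^ (1 + ε / 2) := by
    refine hC F hn X _ X1 fun I hI => ?_
    obtain ⟨i, hi, rfl⟩ := Finset.mem_image.mp hI
    exact ⟨(hy i hi).2.2.1, (hy i hi).2.2.2.1⟩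
  have k5 : (J2.image fun i (φ : F →+* ℂ) =>
      ⌊R - (Real.log ‖φ (y i : F)‖ - ((i - i0 : ℕ) : ℝ) / N * Real.log ‖φ (δ : F)‖)⌋₊).card ≤
      (⌊Real.log X⌋₊ + 1) ^ finrank ℚ F := by
    refine (Finset.card_le_card (t := Fintype.piFinset fun _ : F →+* ℂ =>
      Finset.range (⌊Real.log X⌋₊ + 1)) fun f hf => ?_).trans (le_of_eq ?_)
    · obtain ⟨i, hi, rfl⟩ := Finset.mem_image.mp hf
      exact Fintype.mem_piFinset.mpr fun φ => Finset.mem_range.mpr
        (Nat.lt_succ_of_le (Nat.floor_le_floor ((hy i (s2 hi)).2.2.2.2 φ).2))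
    · rw [Fintype.card_piFinset, Finset.prod_const, Finset.card_range, Finset.card_univ,
        NumberField.Embeddings.card]
  refine ⟨J3, ((s3.trans s2).trans s1).trans s0, ?_, fun i hi i' hi' hle => ?_⟩
  · have k6 : (J2.card : ℝ) ≤ (6 / ε + 1) ^ 3 * X ^ (ε / 2) * J3.card := by
      refine le_trans ?_ (mul_le_mul_of_nonneg_right (mat_num hε X1 hn) (Nat.cast_nonneg _))
      exact_mod_cast k3.trans (Nat.mul_le_mul_right _ k5)
    have k7 : (J1.card : ℝ) ≤ C * X ^ (1 + ε / 2) * J2.card := by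
      refine le_trans ?_ (mul_le_mul_of_nonneg_right k4 (Nat.cast_nonneg _))
      exact_mod_cast k2
    have k8 : X ^ (1 + ε) = X ^ (1 + ε / 2) * X ^ (ε / 2) := by
      rw [← Real.rpow_add (by linarith)]
      ring_nf
    have k9 : 0 ≤ C * X ^ (1 + ε / 2) := by positivity
    refine k0.trans ((mul_le_mul_of_nonneg_left (k1.trans (mul_le_mul_of_nonneg_left
      (k7.trans (mul_le_mul_of_nonneg_left k6 k9)) zero_le_two)) K0).trans (le_of_eq ?_))
    rw [k8]
    ring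
  · have m := s2 (s3 hi)
    have m' := s2 (s3 hi')
    obtain ⟨a2, a3, -, -, a6⟩ := hy i m
    obtain ⟨a2', a3', -, -, a6'⟩ := hy i' m'
    have a1 := (hb i (s1 m)).1
    have a1' := (hb i' (s1 m')).1
    obtain ⟨e, e1, e2, e3⟩ := hA i (s1 m) i' (s1 m') hle
    have f1 : b i = b i' * e :=
      mul_left_cancel₀ (A0 i0) (by rw [← a1, ← mul_assoc, ← a1', e1])
    have f2 : Ideal.span {y i} = Ideal.span {y i'} * e := by
      rw [a3, a3', f1, p2 i (s3 hi) i' (s3 hi'), mul_right_comm]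
    obtain ⟨z, hz⟩ := Ideal.mem_span_singleton.mp (Ideal.dvd_span_singleton.mp ⟨e, f2⟩)
    have z0 : z ≠ 0 := by
      rintro rfl
      exact a2 (by rw [hz, mul_zero])
    have f3 : e = Ideal.span {z} := by
      refine mul_left_cancel₀ (a := Ideal.span {y i'})
        (fun h => a2' (Ideal.span_singleton_eq_bot.mp h)) ?_
      rw [← f2, Ideal.span_singleton_mul_span_singleton, ← hz]
    rw [f3, Ideal.span_singleton_pow, Ideal.span_singleton_pow,
      Ideal.span_singleton_mul_span_singleton, Ideal.dvd_span_singleton,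
      Ideal.mem_span_singleton] at e2 e3
    refine ⟨z, (mat_ap hδ z0 e2 e3 fun φ => ?_).1⟩
    have g1 := congrFun (p3 i hi i' hi') φ
    have g2 := Nat.floor_le (a6 φ).1
    have g3 := Nat.floor_le (a6' φ).1
    have g4 := Nat.lt_floor_add_one
      (R - (Real.log ‖φ (y i : F)‖ - ((i - i0 : ℕ) : ℝ) / N * Real.log ‖φ (δ : F)‖))
    have g5 := Nat.lt_floor_add_one
      (R - (Real.log ‖φ (y i' : F)‖ - ((i' - i0 : ℕ) : ℝ) / N * Real.log ‖φ (δ : F)‖))
    rw [g1] at g2 g4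
    have g6 : Real.log ‖φ (y i : F)‖ = Real.log ‖φ (y i' : F)‖ + Real.log ‖φ (z : F)‖ := by
      rw [← Real.log_mul (mat_ne a2' φ).ne' (mat_ne z0 φ).ne', ← norm_mul, ← map_mul, hz]
      rfl
    have g7 : ((i - i0 : ℕ) : ℝ) = ((i' - i0 : ℕ) : ℝ) + ((i - i' : ℕ) : ℝ) := by
      have : i0 ≤ i' := i0le i' (s1 m')
      exact_mod_cast (by omega : i - i0 = i' - i0 + (i - i'))
    rw [g6, g7, add_div, add_mul] at g2 g4
    rw [abs_le]
    constructor <;> linarith
-- END DICH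
end

section
-- BEGIN FAMV
theorem famv_row (hEMB : EMB_s) : FAMV_s := by
  intro L _ _ x y t1 t2 t3 h N c I r hN hc hr hb
  obtain ⟨-, F, _, _, δ, σ, hf, hd, hdvd, -, -, -, -, hA⟩ := hEMB L x y t1 t2 t3 h
  obtain ⟨-, -, -, -, -, -, -, -, -, -, -, -, -, h2, hp, -⟩ := fALG L x y t1 t2 t3 h.toCub0
  have hn0 : (6 * (x ^ 3 - y ^ 2)).natAbs ≠ 0 :=
    Int.natAbs_ne_zero.2 (mul_ne_zero (by norm_num) h.ne)
  refine famu_sel c I hc _ _ fun J => ?_
  obtain ⟨J', hs, hcard, hP⟩ := fUNM F (hf ▸ h.n3) δ _ N (Qs x y) J r hn0 hdvd subset_rfl hp hN hr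
    (by
      rw [hf, hd]
      exact hb)
    ⟨2, h2⟩
  refine ⟨J', hs, hcard, fun i hi i' hi' hle => ?_⟩
  obtain ⟨u, hu⟩ := hP i hi i' hi' hle
  exact ⟨_, hA N _ r u hu⟩
-- END FAMV
end

section
-- BEGIN FAMW
theorem famw_sel (c I : ℕ) (hc : 1 ≤ c) (K : ℝ) (P : ℕ → Prop) (J' : Finset ℕ) (i0 : ℕ)
    (hsub : J' ⊆ (range I).image fun i => c * i) (h0 : i0 ∈ (range I).image fun i => c * i)
    (hcard : (((range I).image fun i => c * i).card : ℝ) ≤ K * J'.card)
    (hP : ∀ i ∈ J', i0 ≤ i ∧ P (i - i0)) :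
    ∃ J : Finset ℕ, (I : ℝ) ≤ K * J.card ∧ ∀ i ∈ J, c ∣ i ∧ i < c * I ∧ P i := by
  rw [card_image_of_injective _ (mul_right_injective₀ (by omega)), card_range] at hcard
  have hm : ∀ i ∈ (range I).image fun i => c * i, c ∣ i ∧ i < c * I := by
    intro i hi
    obtain ⟨j, hj, rfl⟩ := mem_image.1 hi
    exact ⟨dvd_mul_right _ _, Nat.mul_lt_mul_of_pos_left (mem_range.1 hj) (by omega)⟩
  refine ⟨J'.image fun i => i - i0, ?_, ?_⟩
  · rw [card_image_of_injOn]
    · exact hcard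
    · intro i hi j hj hij
      have h1 := (hP i hi).1
      have h2 := (hP j hj).1
      simp only at hij
      omega
  · intro i hi
    obtain ⟨j, hj, rfl⟩ := mem_image.1 hi
    refine ⟨Nat.dvd_sub (hm j (hsub hj)).1 (hm _ h0).1, ?_, (hP j hj).2⟩
    have := (hm j (hsub hj)).2
    omega

theorem famw_ap {F : Type} [Field F] [NumberField F] {δ u : 𝓞 F} {N j ρ : ℕ} {b : Ideal (𝓞 F)}
    {r : ℝ} (δ0 : δ ≠ 0) (hT : Two δ N j ρ b) (hu : u ∈ b) (u0 : u ≠ 0)
    (hB : Box (δ : F) N j r (u : F)) : Ap (δ : F) N j ρ r (u : F) := by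
  refine ⟨by exact_mod_cast u0, ?_, hB⟩
  have m : (ρ : 𝓞 F) * u ^ N ∈ Ideal.span {δ} ^ j :=
    Ideal.le_of_dvd hT.2.1 (Ideal.mul_mem_mul (Ideal.mem_span_singleton_self _)
      (Ideal.pow_mem_pow hu N))
  rw [Ideal.span_singleton_pow, Ideal.mem_span_singleton] at m
  obtain ⟨c, hc⟩ := m
  have e : ((ρ : ℕ) : F) * (u : F) ^ N / (δ : F) ^ j = (c : F) := by
    have δ1 : (δ : F) ≠ 0 := by exact_mod_cast δ0
    rw [div_eq_iff (pow_ne_zero _ δ1), mul_comm (c : F)]
    exact_mod_cast congrArg (fun z : 𝓞 F => (z : F)) hc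
  rw [e]
  exact c.isIntegral_coe

theorem famw_row (hEMB : EMB_s) (hPD : PD_s) (hDICH : DICH_s) (hDIS2 : DIS2_s) (hDIS3 : DIS3_s) : FAMW_s := by
  classical
  intro ε hε
  obtain ⟨C, C1, hC⟩ := hDICH ε hε
  refine ⟨C, C1, ?_⟩
  intro L _ _ x y t1 t2 t3 h δ' p w T hB N c I k l r r0 hN hc hI hr hr0 hl hb hrl hbig
  obtain ⟨-, F, _, _, δ, σ, hf, hd, hdvd, h01, hinj, -, -, hA⟩ := hEMB L x y t1 t2 t3 h
  obtain ⟨-, -, -, -, -, -, -, -, -, -, -, -, -, h2, hp, -⟩ := fALG L x y t1 t2 t3 h.toCub0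
  have hn0 : (6 * (x ^ 3 - y ^ 2)).natAbs ≠ 0 :=
    Int.natAbs_ne_zero.2 (mul_ne_zero (by norm_num) h.ne)
  have δ0 : δ ≠ 0 := by
    rintro rfl
    exact hn0 (by exact_mod_cast zero_dvd_iff.1 hdvd)
  have hJ : ((range I).image fun i => c * i).Nonempty :=
    (nonempty_range_iff.2 (by omega)).image _
  have hDF : |(NumberField.discr F : ℝ)| = DF t1 := by
    rw [hd]
    rfl
  rcases hC F (hf ▸ h.n3) δ _ N l (Qs x y) _ r r0 hn0 hdvd subset_rfl hp hN ⟨2, h2⟩ hJ hr hr0 hl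
    (by rw [hf, hDF]; exact hb) hrl with ⟨h1, J', hs, hcard, hP⟩ | ⟨J', hs, i0, hi0, hcard, hP⟩
  · rw [hf] at h1 hcard
    refine Or.inl ⟨h1, ?_⟩
    rcases J'.eq_empty_or_nonempty with rfl | hne
    · obtain ⟨i0, hi0⟩ := hJ
      exact famw_sel c I hc _ _ ∅ i0 hs hi0 hcard (by simp)
    · refine famw_sel c I hc _ _ J' (J'.min' hne) hs (hs (J'.min'_mem hne)) hcard fun i hi =>
        ⟨J'.min'_le i hi, ?_⟩
      obtain ⟨u, hu⟩ := hP i hi _ (J'.min'_mem hne) (J'.min'_le i hi)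
      exact ⟨_, hA N _ _ u hu⟩
  · have hw : w (p : L) = (nq w)⁻¹ := fINER L h.gal w p hB.pr hB.ab hB.tri
    have hpd : ¬(p : ℤ) ∣ NumberField.discr F := by
      obtain ⟨n, hn1, hn2⟩ :=
        fBE L x y t1 t2 t3 h p w T hB.pr hB.five hB.ab hB.cop hB.one hB.val hB.tri
      obtain ⟨a, hSq, -, -, h3⟩ := fSQF x y h.prim h.ne
      obtain ⟨-, b, hb1, hb2⟩ := h3 p T n hB.pr hB.one hB.cop hn1 hn2
      intro hh
      rw [hd] at hh
      have hpp : Prime (p : ℤ) := Nat.prime_iff_prime_int.1 hB.pr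
      rcases hpp.dvd_or_dvd (hh.trans (hPD L x y t1 t2 t3 h a b hSq hb1)) with e | e
      · have e1 : p ∣ 2 ^ 4 * 3 ^ 3 := by exact_mod_cast e
        have h5 := hB.five
        rcases (Nat.Prime.dvd_mul hB.pr).1 e1 with e2 | e2
        · have := Nat.le_of_dvd (by norm_num) (hB.pr.dvd_of_dvd_pow e2)
          omega
        · have := Nat.le_of_dvd (by norm_num) (hB.pr.dvd_of_dvd_pow e2)
          omega
      · exact hb2 e
    have hD : DisAt (dg t1) := by
      have a2 := h.n2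
      have a3 := h.n3
      rcases (by omega : dg t1 = 2 ∨ dg t1 = 3) with e | e
      · rw [e]; exact hDIS2
      · rw [e]; exact hDIS3
    refine Or.inr (famw_sel c I hc _ _ J' i0 hs hi0 hcard fun i hi => ⟨(hP i hi).1, ?_⟩)
    obtain ⟨b, hT, S, hS1, hS2, hS3⟩ := (hP i hi).2
    refine ⟨S.image fun u : 𝓞 F => fun a => σ a (u : F), ?_, ?_, ?_⟩
    · rw [card_image_of_injective]
      · exact hS1
      · intro u u' e
        exact RingOfIntegers.coe_injective ((σ 0).injective (congrFun e 0))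
    · intro Y hY
      obtain ⟨u, hu, rfl⟩ := mem_image.1 hY
      obtain ⟨u1, u2, u3⟩ := hS2 u hu
      exact hA N _ r u (famw_ap δ0 hT u1 u2 u3)
    · intro Y hY Y' hY' hcw
      obtain ⟨u, hu, rfl⟩ := mem_image.1 hY
      obtain ⟨u', hu', rfl⟩ := mem_image.1 hY'
      by_cases e : u = u'
      · rw [e]
      · obtain ⟨u1, u2, u3⟩ := hS2 u hu
        obtain ⟨v1, v2, v3⟩ := hS2 u' hu'
        have hle := hD F L hf w p k N (i - i0) (Qs x y) δ u u' b σ r hB.pr hw hpd h01 hinj hp hN δ0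
          hr hT u1 v1 u2 v2 u3 v3 (hS3 u hu u' hu' e) hcw
        rw [hDF] at hle
        exact absurd hbig (not_lt.2 hle)
-- END FAMW
end

end Pool.Agent.MP_2a5a28_nt.H63Y
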