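import Pool.Agent.MP_2a5a28_nt.H63Y.Defs

set_option autoImplicit false

namespace Pool.Agent.MP_2a5a28_nt.H63Y

open Finset NumberField Module
open H63 (Sx nm wt Lo tr ow)
open H15Z

section
-- BEGIN ARI2
theorem ari2_row : ARI2_s := by
  intro ε lam hε hlam
  obtain ⟨k, hk⟩ : ∃ k : ℕ, 2 * (2 + lam) ≤ k := ⟨_, Nat.le_ceil _⟩
  have hk0 : (0 : ℝ) < k := by linarith
  have hk1 : 1 ≤ k := Nat.cast_pos.1 hk0
  obtain ⟨σ, hσ0, hσ1, hσ2⟩ : ∃ σ : ℝ, 0 < σ ∧ σ ≤ 1 / 100 ∧ 18 * σ * k ≤ ε := by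
    refine ⟨min (1 / 100) (ε / (18 * k)), lt_min (by norm_num) (by positivity), min_le_left _ _, ?_⟩
    have h := (le_div_iff₀ (by positivity : (0 : ℝ) < 18 * k)).1
      (min_le_right (1 / 100) (ε / (18 * k)))
    linarith
  refine ⟨σ, 12, Real.exp (7 * ε + 8), k, hσ0, hσ1, by norm_num, Real.one_le_exp (by linarith), hk1,
    fun p D q M hp hD hq hM hDp hml hc => ?_⟩
  have hp0 : (0 : ℝ) < p := by exact_mod_cast (by omega : 0 < p)
  have hD0 : 0 < D := by linarith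
  have hM0 : 0 < M := by linarith
  have h432 : Real.log 432 ≤ 7 := by
    rw [Real.log_le_iff_le_exp (by norm_num)]
    have h := Real.exp_one_gt_d9
    calc (432 : ℝ) ≤ 2.7 ^ 7 := by norm_num
      _ ≤ Real.exp 1 ^ 7 := by gcongr; linarith
      _ = Real.exp 7 := by rw [← Real.exp_nat_mul]; norm_num
  have hlog : Real.log D + Real.log p ≤ 7 + Real.log M := by
    have h := Real.log_le_log (by positivity) hDp
    rw [Real.log_mul hD0.ne' hp0.ne', Real.log_mul (by norm_num) hM0.ne'] at h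
    linarith
  have hd0 : 0 ≤ Real.log D := Real.log_nonneg hD
  have eD : √D = Real.exp (Real.log D / 2) := by
    rw [Real.exp_half, Real.exp_log hD0]
  have eP : (p : ℝ) ^ k = Real.exp (k * Real.log p) := by
    rw [Real.exp_nat_mul, Real.exp_log hp0]
  have eM : M ^ (1 / 2 + ε) = Real.exp (Real.log M * (1 / 2 + ε)) := Real.rpow_def_of_pos hM0 _
  rw [eD, eM]
  generalize Real.log D = d at *
  generalize Real.log M = m at *
  generalize Real.log p = a at *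
  have ha : 0 < a := by linarith
  have hP : (2 + lam) * a ≤ (1 - 18 * σ) * (k * a) := by
    have h1 : 2 * (2 + lam) * a ≤ k * a := by gcongr
    have h2 : 1 / 2 * (k * a) ≤ (1 - 18 * σ) * (k * a) := by gcongr; linarith
    linarith
  have hs : 18 * σ * (k * a) ≤ ε * (m + 7) := by
    calc 18 * σ * (k * a) = 18 * σ * k * a := by ring
      _ ≤ ε * (m + 7) := by gcongr; linarith
  have hs0 : 0 ≤ 18 * σ * (k * a) := by positivity
  have h1 : ((2 : ℕ) : ℝ) + q ≤ (1 - 18 * σ) * a := by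
    have : 1 / 2 * a ≤ (1 - 18 * σ) * a := by gcongr; linarith
    push_cast
    linarith
  refine ⟨h1, k, ?_⟩
  obtain ⟨u, hu⟩ : ∃ u, u = (1 - 18 * σ) * (k * a) := ⟨_, rfl⟩
  have huP : u = k * a - 18 * σ * (k * a) := by rw [hu]; ring
  rw [eP]
  rw [← hu] at hP ⊢
  have hu3 : d + 3 * a - 7 ≤ u := by linarith
  obtain ⟨y, hy⟩ : ∃ y, y = Real.exp (u - 2 * q - 3 - d / 2) := ⟨_, rfl⟩
  have hy2 : 2 ≤ y := by
    have := Real.add_one_le_exp (u - 2 * q - 3 - d / 2)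
    linarith
  obtain ⟨l, hl, hl1, hl2⟩ := Nat.exists_prime_lt_and_le_two_mul ⌊y / 2⌋₊
    (Nat.floor_pos.2 (by linarith)).ne'
  have hly : (l : ℝ) ≤ y := by
    have h : (l : ℝ) ≤ 2 * (⌊y / 2⌋₊ : ℝ) := by exact_mod_cast hl2
    have := Nat.floor_le (by linarith : 0 ≤ y / 2)
    linarith
  have hyl : Real.exp (u - 2 * q - 4 - d / 2) ≤ l := by
    have h : (⌊y / 2⌋₊ : ℝ) + 1 ≤ l := by exact_mod_cast hl1
    have h' := Nat.lt_floor_add_one (y / 2)
    have e : y = Real.exp (u - 2 * q - 4 - d / 2) * Real.exp 1 := by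
      rw [hy, ← Real.exp_add]; congr 1; ring
    have h2 : (2 : ℝ) ≤ Real.exp 1 := by linarith [Real.add_one_le_exp 1]
    have h3 := mul_le_mul_of_nonneg_left h2 (Real.exp_pos (u - 2 * q - 4 - d / 2)).le
    linarith
  have hl0 : (0 : ℝ) < l := by exact_mod_cast hl.pos
  have er : Real.exp ((u - q - 3) / 2) ^ 2 = Real.exp (u - q - 3) := by
    rw [← Real.exp_nat_mul]; congr 1; push_cast; ring
  refine ⟨Real.exp ((u - q - 3) / 2), hk1, le_rfl, Real.one_le_exp (by linarith), ?_,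
    Or.inr ⟨l, Real.exp ((u - q - 3) / 2) / l, hl, by positivity, ?_, ?_, ?_, ?_, fun h => ?_⟩⟩
  · rw [Real.log_exp]; push_cast; linarith
  · rw [er]
    calc Real.exp q * Real.exp (d / 2) * l ≤ Real.exp q * Real.exp (d / 2) * y := by gcongr
      _ = _ := by rw [hy, ← Real.exp_add, ← Real.exp_add]; congr 1; ring
  · rw [mul_div_cancel₀ _ hl0.ne']
  · have h8 : (8 : ℝ) < Real.exp 3 := by
      have h := Real.exp_one_gt_d9
      calc (8 : ℝ) < 2.7 ^ 3 := by norm_num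
        _ ≤ Real.exp 1 ^ 3 := by gcongr; linarith
        _ = Real.exp 3 := by rw [← Real.exp_nat_mul]; norm_num
    rw [show 2 * (2 - 1) = 2 from rfl, er]
    calc 8 * Real.exp q * Real.exp (u - q - 3)
        < Real.exp 3 * Real.exp q * Real.exp (u - q - 3) := by gcongr
      _ ≤ _ := by
        rw [← Real.exp_add, ← Real.exp_add, ← Real.exp_add]
        exact Real.exp_le_exp.2 (by linarith)
  · calc Real.exp (k * a) ≤ Real.exp (u - 2 * q - 4 - d / 2) *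
          (Real.exp (7 * ε + 8) * Real.exp (m * (1 / 2 + ε))) := by
          rw [← Real.exp_add, ← Real.exp_add]
          exact Real.exp_le_exp.2 (by linarith)
      _ ≤ _ := by gcongr
  · exfalso
    rw [div_pow, er, div_mul_eq_mul_div, one_le_div (by positivity)] at h
    have h' : Real.exp (u - 2 * q - 4 - d / 2) ^ 2 ≤ (l : ℝ) ^ 2 := by gcongr
    have h'' := h'.trans h
    rw [← Real.exp_nat_mul, ← Real.exp_add, Real.exp_le_exp] at h''
    push_cast at h''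
    linarith
-- END ARI2
end

section
-- BEGIN ARI3
theorem ari3_prime {y : ℝ} (hy : 1 ≤ y) :
    ∃ l : ℕ, l.Prime ∧ y - 1 ≤ Real.log l ∧ Real.log l ≤ y := by
  have h2 : (2 : ℝ) ≤ Real.exp y := by linarith only [Real.add_one_le_exp y, hy]
  have h1 : 1 ≤ ⌊Real.exp y / 2⌋₊ := Nat.le_floor (by push_cast; linarith only [h2])
  obtain ⟨l, hl, a, b⟩ := Nat.exists_prime_lt_and_le_two_mul ⌊Real.exp y / 2⌋₊ (by omega)
  have l0 : (0 : ℝ) < l := by exact_mod_cast hl.pos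
  have a1 : ((⌊Real.exp y / 2⌋₊ : ℕ) : ℝ) + 1 ≤ l := by exact_mod_cast a
  have b1 : (l : ℝ) ≤ 2 * ((⌊Real.exp y / 2⌋₊ : ℕ) : ℝ) := by exact_mod_cast b
  have a2 := Nat.lt_floor_add_one (Real.exp y / 2)
  have b2 := Nat.floor_le (show 0 ≤ Real.exp y / 2 by positivity)
  refine ⟨l, hl, (Real.le_log_iff_exp_le l0).2 ?_, (Real.log_le_iff_le_exp l0).2 (by linarith)⟩
  have e2 : (2 : ℝ) ≤ Real.exp 1 := by linarith only [Real.add_one_le_exp (1 : ℝ)]
  rw [Real.exp_sub, div_le_iff₀ (Real.exp_pos 1)]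
  nlinarith only [e2, a1, a2, l0]

theorem ari3_row : ARI3_s := by
  intro ε lam hε hlam
  obtain ⟨e, he0, he1, heε⟩ : ∃ e : ℝ, 0 < e ∧ e ≤ 1 ∧ e ≤ ε :=
    ⟨min ε 1, lt_min hε one_pos, min_le_right _ _, min_le_left _ _⟩
  obtain ⟨k0, hk1, hk2⟩ : ∃ k0 : ℕ, 1 ≤ k0 ∧ 2 * (lam + 1) ≤ k0 :=
    ⟨⌈2 * (lam + 1)⌉₊, Nat.ceil_pos.2 (by positivity), Nat.le_ceil _⟩
  have hk1' : (1 : ℝ) ≤ k0 := by exact_mod_cast hk1
  obtain ⟨σ, hσ0, hσ⟩ : ∃ σ : ℝ, 0 < σ ∧ 18 * σ * k0 = e / 16 :=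
    ⟨e / (288 * k0), by positivity, by field_simp; norm_num⟩
  have hσ1 : 18 * σ ≤ 1 / 16 := by nlinarith only [hσ, hσ0, hk1', he1]
  refine ⟨σ, 100 / e, Real.exp (30 + 30 * ε), k0, hσ0, by linarith only [hσ1], by positivity,
    Real.one_le_exp (by positivity), hk1, fun p D q M hp hD hq hM hDp hlm hc => ?_⟩
  have p0 : (0 : ℝ) < p := by exact_mod_cast (by omega : 0 < p)
  have D0 : 0 < D := by linarith only [hD]
  have M0 : 0 < M := by linarith only [hM]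
  have hd : 0 ≤ Real.log D := Real.log_nonneg hD
  have hm : 0 ≤ Real.log M := Real.log_nonneg (by linarith only [hM])
  have hL : 0 < Real.log p := Real.log_pos (by exact_mod_cast (by omega : 1 < p))
  have hs : Real.log D + Real.log p ≤ 7 + Real.log M := by
    have a := Real.log_le_log (mul_pos D0 p0) (hDp.trans (by linarith only [M0] : 432 * M ≤ 2 ^ 9 * M))
    rw [Real.log_mul D0.ne' p0.ne', Real.log_mul (by positivity) M0.ne', Real.log_pow] at a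
    push_cast at a
    linarith only [a, Real.log_two_lt_d9]
  have eD : √D = Real.exp (Real.log D / 2) := by
    rw [Real.sqrt_eq_rpow, Real.rpow_def_of_pos D0]; congr 1; ring
  have eP : ∀ k : ℕ, (p : ℝ) ^ k = Real.exp (k * Real.log p) := fun k => by
    rw [Real.exp_nat_mul, Real.exp_log p0]
  have eM : ∀ a : ℝ, Real.exp (30 + 30 * ε) * M ^ a =
      Real.exp (30 + 30 * ε + Real.log M * a) := fun a => by
    rw [Real.rpow_def_of_pos M0, ← Real.exp_add]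
  have eR : ∀ (x : ℝ) (j : ℕ), Real.exp (x / 3) ^ j = Real.exp (j * (x / 3)) := fun x j =>
    (Real.exp_nat_mul _ _).symm
  have ep : (p : ℝ) = Real.exp (Real.log p) := (Real.exp_log p0).symm
  generalize Real.log p = L at *
  generalize Real.log D = d at *
  generalize Real.log M = m at *
  have hE : 100 + 100 * q ≤ e * L := by
    have a := mul_le_mul_of_nonneg_left hc he0.le
    have b : e * (100 / e + 100 / e * q) = 100 + 100 * q := by field_simp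
    linarith only [a, b]
  have hE1 : e * L ≤ L := mul_le_of_le_one_left hL.le he1
  have hE2 : e * L ≤ ε * m + 7 := by nlinarith only [hs, hd, hm, he0, he1, heε]
  have hεm : 0 ≤ ε * m := mul_nonneg hε.le hm
  have hsL : 18 * σ * L ≤ L / 16 := by nlinarith only [hσ1, hL]
  have hsL0 : 0 ≤ 18 * σ * L := by positivity
  have hden : 0 < (1 - 18 * σ) * L := mul_pos (by linarith only [hσ1]) hL
  obtain ⟨k, k1, k2, k3, k4⟩ : ∃ k : ℕ, 1 ≤ k ∧ k ≤ k0 ∧
      d / 2 + 2 * q + 3 ≤ (1 - 18 * σ) * (k * L) ∧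
      (1 - 18 * σ) * (k * L) ≤ d / 2 + 2 * q + 3 + (1 - 18 * σ) * L := by
    have n0 : 0 < (d / 2 + 2 * q + 3) / ((1 - 18 * σ) * L) := by positivity
    refine ⟨⌈(d / 2 + 2 * q + 3) / ((1 - 18 * σ) * L)⌉₊, Nat.ceil_pos.2 n0,
      Nat.ceil_le.2 (le_trans ?_ hk2), ?_, ?_⟩
    · rw [div_le_iff₀ hden]
      have a : 0 ≤ lam * L := by positivity
      have b : lam * (18 * σ * L) ≤ lam * (L / 16) := mul_le_mul_of_nonneg_left hsL hlam.le
      nlinarith only [a, b, hsL, hs, hlm, hE, hE1, hL, hq]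
    · have a := (div_le_iff₀ hden).1 (Nat.le_ceil ((d / 2 + 2 * q + 3) / ((1 - 18 * σ) * L)))
      linarith only [a]
    · have a := (Nat.ceil_lt_add_one n0.le).le
      rw [← sub_le_iff_le_add, le_div_iff₀ hden] at a
      linarith only [a]
  have hS : 18 * σ * (k * L) ≤ e * L / 16 := by
    have a : (k : ℝ) ≤ k0 := by exact_mod_cast k2
    have b := mul_le_mul_of_nonneg_left a hsL0
    have c : 18 * σ * L * k0 = e * L / 16 := by linear_combination L * hσ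
    linarith only [b, c]
  have hS0 : 0 ≤ 18 * σ * (k * L) := by positivity
  refine ⟨by push_cast; linarith only [hE, hE1, hsL, hq], k, ?_⟩
  rcases le_total (k * L) (30 + 30 * ε + m * (1 / 2 + ε)) with g | g
  · refine ⟨Real.exp ((d / 2 + q) / 3), k1, k2, Real.one_le_exp (by positivity), ?_,
      Or.inl ⟨?_, ?_⟩⟩
    · rw [Real.log_exp]; push_cast; linarith only [k3]
    · rw [eD, eR, ← Real.exp_add, Real.exp_le_exp]; push_cast; linarith only []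
    · rw [eP, eM, Real.exp_le_exp]; exact g
  · obtain ⟨x, hx⟩ : ∃ x : ℝ, x = k * L / 2 + d / 4 - 18 * σ * (k * L) / 2 - q - 2 := ⟨_, rfl⟩
    have hy : 1 ≤ x - q - d / 2 := by linarith only [hx, g, hs, hS, hE, hE1, hεm, hε, hq]
    obtain ⟨l, hl, l1, l2⟩ := ari3_prime hy
    have l0 : (0 : ℝ) < l := by exact_mod_cast hl.pos
    have el : (l : ℝ) = Real.exp (Real.log l) := (Real.exp_log l0).symm
    generalize Real.log l = v at l1 l2 el
    have e8 : (8 : ℝ) ≤ Real.exp 3 := by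
      have a : (2 : ℝ) ≤ Real.exp 1 := by linarith only [Real.add_one_le_exp (1 : ℝ)]
      have b := pow_le_pow_left₀ (by norm_num) a 3
      rw [← Real.exp_nat_mul] at b
      norm_num at b
      exact b
    refine ⟨Real.exp (x / 3), k1, k2, Real.one_le_exp (by linarith only [hy, hq, hd]), ?_,
      Or.inr ⟨l, Real.exp ((x - 3 * v) / 3), hl, Real.exp_pos _, ?_, ?_, ?_, ?_, fun _ => ?_⟩⟩
    · rw [Real.log_exp]; push_cast; linarith only [hx, k3, hq]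
    · rw [eD, eR, el, ← Real.exp_add, ← Real.exp_add, Real.exp_le_exp]
      push_cast; linarith only [l2]
    · rw [el, ← Real.exp_add, Real.exp_le_exp]; linarith only []
    · refine lt_of_le_of_lt (mul_le_mul_of_nonneg_right
        (mul_le_mul_of_nonneg_right e8 (Real.exp_pos q).le) (by positivity)) ?_
      rw [eD, eR, eP, ← Real.exp_add, ← Real.exp_add, ← Real.exp_add, Real.exp_lt_exp]
      push_cast; linarith only [hx, hS0, hq]
    · rw [eP, eM, el, ← Real.exp_add, Real.exp_le_exp]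
      linarith only [hx, l1, k4, hs, hS, hE, hE2, hsL0, hε, hq, hεm]
    · rw [eM, eR, ep, ← Real.exp_add, ← Real.exp_mul, ← Real.exp_add, Real.exp_le_exp]
      have a : 3 * ((x - 3 * v) / 3) + q + L ≤ m / 2 + 30 := by
        linarith only [hx, l1, g, hs, hS, hE, hE2, hε, hq, hεm]
      have b : ε * (3 * ((x - 3 * v) / 3) + q) ≤ ε * (m / 2 + 30) :=
        mul_le_mul_of_nonneg_left (by linarith only [a, hL]) hε.le
      push_cast
      linarith only [a, b, hεm]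
-- END ARI3
end

section
-- BEGIN CPU
theorem cpu_cnt {α : Type} (J : Finset ℕ) (l : ℕ) (R : ℕ → α → Prop) (E : α → α → Prop) (B : ℝ)
    (h : ∀ i ∈ J, ∃ S : Finset α, l ≤ S.card ∧ (∀ Y ∈ S, R i Y) ∧
      ∀ Y ∈ S, ∀ Y' ∈ S, E Y Y' → Y = Y')
    (hP : ∀ P : Finset (ℕ × α), (∀ q ∈ P, R q.1 q.2) →
      (∀ q ∈ P, ∀ q' ∈ P, q.1 = q'.1 → E q.2 q'.2 → q = q') → (P.card : ℝ) ≤ B) :
    (l : ℝ) * J.card ≤ B := by
  choose! S h1 h2 h3 using h
  refine le_trans ?_ (hP ((J.sigma S).map (Equiv.sigmaEquivProd ℕ α).toEmbedding) ?_ ?_)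
  · rw [card_map, card_sigma]
    have := card_nsmul_le_sum J (fun i => (S i).card) l h1
    rw [smul_eq_mul, mul_comm] at this
    exact_mod_cast this
  · intro q hq
    obtain ⟨⟨i, Y⟩, ha, rfl⟩ := mem_map.1 hq
    rw [mem_sigma] at ha
    exact h2 i ha.1 Y ha.2
  · intro q hq q' hq' e1 e2
    obtain ⟨⟨i, Y⟩, ha, rfl⟩ := mem_map.1 hq
    obtain ⟨⟨j, Y'⟩, hb, rfl⟩ := mem_map.1 hq'
    rw [mem_sigma] at ha hb
    obtain rfl : i = j := e1
    obtain rfl : Y = Y' := h3 i ha.1 Y ha.2 Y' hb.2 e2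
    rfl

theorem cpu_one {α : Type} (J : Finset ℕ) (R : ℕ → α → Prop) (E : α → α → Prop) (B : ℝ)
    (h : ∀ i ∈ J, ∃ Y, R i Y)
    (hP : ∀ P : Finset (ℕ × α), (∀ q ∈ P, R q.1 q.2) →
      (∀ q ∈ P, ∀ q' ∈ P, q.1 = q'.1 → E q.2 q'.2 → q = q') → (P.card : ℝ) ≤ B) :
    (J.card : ℝ) ≤ B := by
  have := cpu_cnt J 1 R E B (fun i hi => by
    obtain ⟨Y, hY⟩ := h i hi
    exact ⟨{Y}, by simp, by simpa using hY, by simp⟩) hP
  simpa using this

theorem cpu_nn {x y : ℤ} (h : x ^ 3 - y ^ 2 ≠ 0) : NN x y ≤ Rad x y ^ 2 := by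
  have h1 : ∀ q ∈ Qs x y, (1 : ℝ) ≤ q := fun q hq => by
    exact_mod_cast (Nat.prime_of_mem_primeFactors hq).one_lt.le
  rw [NN, sq]
  refine mul_le_mul_of_nonneg_left ?_ (prod_nonneg fun q _ => Nat.cast_nonneg q)
  refine prod_le_prod_of_subset_of_one_le (fun q hq => ?_) (fun q _ => Nat.cast_nonneg q)
    fun q hq _ => h1 q hq
  obtain ⟨a, b, -⟩ := Nat.mem_primeFactors.1 hq
  have c : (q : ℤ) ∣ (Int.gcd x y : ℤ) := Int.natCast_dvd_natCast.2 b
  refine Nat.mem_primeFactors.2 ⟨a, Int.natCast_dvd.1 (Dvd.dvd.mul_left (dvd_sub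
    (dvd_pow (c.trans (Int.gcd_dvd_left x y)) (by norm_num))
    (dvd_pow (c.trans (Int.gcd_dvd_right x y)) (by norm_num))) _), ?_⟩
  exact Int.natAbs_ne_zero.2 (mul_ne_zero (by norm_num) h)

theorem cpu_at (hKC : KC_s) (hFAMV : FAMV_s) (hFAMW : FAMW_s) (n : ℕ) (hA : AriAt n)
    (hD : DiscAt n) (δ ε η : ℝ) (hδ : 0 < δ) (hε : 0 < ε) (hη : 0 < η) :
    ∃ c0 C : ℝ, 0 ≤ c0 ∧ 0 ≤ C ∧
    ∀ (L : Type) [Field L] [NumberField L] (x y : ℤ) (t1 t2 t3 : L), Cub x y t1 t2 t3 →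
    dg t1 = n → ∀ (p : ℕ) (w : FinitePlace L) (T : ℕ), Big δ x y t1 t2 p w T →
      c0 + c0 * (Qs x y).card ≤ Real.log p → η * Real.log (Rad x y) ≤ Real.log p →
      (T : ℝ) ≤ C * NN x y ^ (1 / 2 + 3 * ε) := by
  obtain ⟨σ, c0, CA, k0, s0, s1, hc0, hCA, hk0, hA⟩ := hA ε (2 / η) hε (by positivity)
  obtain ⟨CK, hCK, hK⟩ := hKC σ δ k0 s0 s1 hδ hk0
  obtain ⟨CW, hCW, hW⟩ := hFAMW ε hε
  obtain ⟨CF, hCF, hF⟩ := fFEW ε 0 hε le_rfl
  refine ⟨c0 + CK, CK + CK * (CF * (2 * CW * (CK * CA))), by linarith, by positivity, ?_⟩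
  intro L _ _ x y t1 t2 t3 hC hn p w T hB h1 h2
  obtain ⟨-, hQ, hR, hM⟩ := (fALG L x y t1 t2 t3 hC.toCub0).2.2.2.2.2.2.2.2.2.2.2.2.2
  have hq : (0 : ℝ) ≤ (Qs x y).card := Nat.cast_nonneg _
  have M1 : 1 ≤ NN x y := by linarith
  have z1 : 1 ≤ NN x y ^ (1 / 2 + 3 * ε) := Real.one_le_rpow M1 (by linarith)
  have z2 : 0 ≤ CK * (CF * (2 * CW * (CK * CA))) := by positivity
  rcases lt_or_ge (T : ℝ) CK with hT | hT
  · nlinarith
  obtain ⟨N, c, I, hN, hc, hI, -, hTI, hP⟩ := hK L x y t1 t2 t3 hC p w T hB (by nlinarith) hT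
  obtain ⟨a, ha, -, -, hp⟩ := fSQF x y hC.prim hC.ne
  obtain ⟨m, e1, e2⟩ := fBE L x y t1 t2 t3 hC p w T hB.pr hB.five hB.ab hB.cop hB.one hB.val hB.tri
  have d1 : 1 ≤ DF t1 := by
    rw [DF]
    exact_mod_cast Int.one_le_abs (NumberField.discr_ne_zero _)
  have d2 : DF t1 * p ≤ 432 * NN x y := (mul_le_mul_of_nonneg_right
    (hD L x y t1 t2 t3 hC hn a ha) (Nat.cast_nonneg p)).trans (hp p T m hB.pr hB.one hB.cop e1 e2).1
  have d3 : Real.log (NN x y) ≤ 2 / η * Real.log p := by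
    refine (Real.log_le_log (by linarith) (cpu_nn hC.ne)).trans ?_
    rw [Real.log_pow, div_mul_eq_mul_div, le_div_iff₀ hη]
    push_cast
    linarith
  obtain ⟨a1, k, r, k1, k2, r1, a2, a3⟩ := hA p (DF t1) (Qs x y).card (NN x y) hB.pr.two_le d1 hq
    (by linarith) d2 d3 (by nlinarith)
  rw [← hn] at a1 a2 a3
  obtain ⟨f1, f2⟩ := hF _ hQ
  rw [zero_mul, Real.exp_zero, one_mul] at f1
  have f3 : Kc (Qs x y) ≤ CF * NN x y ^ ε := f1.trans (mul_le_mul_of_nonneg_left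
    (Real.rpow_le_rpow (by change 0 ≤ Rad x y; linarith) hM hε.le) (by linarith))
  have z3 : NN x y ^ (1 / 2 + ε) ≤ NN x y ^ (1 / 2 + 2 * ε) :=
    Real.rpow_le_rpow_of_exponent_le M1 (by linarith)
  have z4 : NN x y ^ ε * NN x y ^ (1 / 2 + 2 * ε) = NN x y ^ (1 / 2 + 3 * ε) := by
    rw [← Real.rpow_add (by linarith)]; ring_nf
  have z5 : 0 ≤ NN x y ^ (1 / 2 + ε) := by positivity
  generalize NN x y ^ (1 / 2 + ε) = Z1 at *
  generalize NN x y ^ (1 / 2 + 2 * ε) = Z2 at *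
  have z6 : CK * (CA * Z1) ≤ CW * (CK * (CA * Z2)) := by
    have b1 : CK * (CA * Z1) ≤ CK * (CA * Z2) := by gcongr
    have b2 : 0 ≤ CK * (CA * Z1) := by positivity
    nlinarith
  have z7 : 0 ≤ CK * (CA * Z1) := by positivity
  have key : (I : ℝ) ≤ Kc (Qs x y) * (2 * (CW * (CK * (CA * Z2)))) := by
    rcases a3 with ⟨u1, u2⟩ | ⟨l, r0, l1, l2, l3, l4, l5, l6, l7⟩
    · obtain ⟨J, j1, j2⟩ := hFAMV L x y t1 t2 t3 hC N c I r hN hc (by linarith) u1
      have b1 := cpu_one J (fun i Y => c ∣ i ∧ i < c * I ∧ Apx x y t1 t2 t3 N i r Y) (Cw w k) _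
        (fun i hi => (j2 i hi).2.2.imp fun Y hY => ⟨(j2 i hi).1, (j2 i hi).2.1, hY⟩)
        (hP k r k1 k2 r1 a2)
      have b2 : CK * (p : ℝ) ^ k ≤ CK * (CA * Z1) := by gcongr
      exact j1.trans (mul_le_mul_of_nonneg_left (by linarith) (by linarith))
    rcases hW L x y t1 t2 t3 hC δ p w T hB N c I k l r r0 hN hc hI (by linarith) l2 l1 l3 l4 l5 with
      ⟨u1, J, j1, j2⟩ | ⟨J, j1, j2⟩
    · have b1 := cpu_one J (fun i Y => c ∣ i ∧ i < c * I ∧ Apx x y t1 t2 t3 N i (Real.exp 1) Y)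
        (Cw w 1) _ (fun i hi => (j2 i hi).2.2.imp fun Y hY => ⟨(j2 i hi).1, (j2 i hi).2.1, hY⟩)
        (hP 1 (Real.exp 1) le_rfl hk0 (Real.one_le_exp zero_le_one) (by simpa using a1))
      have b2 := l7 u1
      have b3 : 0 ≤ (r0 ^ dg t1 * Real.exp (Qs x y).card) ^ (1 + ε) := by positivity
      generalize (r0 ^ dg t1 * Real.exp (Qs x y).card) ^ (1 + ε) = X at *
      have b4 : X * J.card ≤ CK * (CA * Z2) := calc
        X * J.card ≤ X * (CK * (p : ℝ) ^ 1) := by gcongr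
        _ = CK * (X * p) := by ring
        _ ≤ _ := by gcongr
      have b5 : CW * (X * J.card) ≤ CW * (CK * (CA * Z2)) := by gcongr
      refine j1.trans ?_
      rw [show CW * X * Kc (Qs x y) * J.card = Kc (Qs x y) * (CW * (X * J.card)) by ring]
      exact mul_le_mul_of_nonneg_left (by linarith) (by linarith)
    · have b1 := cpu_cnt J l (fun i Y => c ∣ i ∧ i < c * I ∧ Apx x y t1 t2 t3 N i r Y) (Cw w k) _
        (fun i hi => (j2 i hi).2.2.imp fun S hS =>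
          ⟨hS.1, fun Y hY => ⟨(j2 i hi).1, (j2 i hi).2.1, hS.2.1 Y hY⟩, hS.2.2⟩)
        (hP k r k1 k2 r1 a2)
      have b2 : (0 : ℝ) < l := by exact_mod_cast l1.pos
      have b3 : (J.card : ℝ) ≤ CK * (CA * Z1) := le_of_mul_le_mul_left (b1.trans (calc
        CK * (p : ℝ) ^ k ≤ CK * (l * (CA * Z1)) := by gcongr
        _ = _ := by ring)) b2
      refine j1.trans ?_
      rw [show 2 * Kc (Qs x y) * J.card = Kc (Qs x y) * (2 * J.card) by ring]
      exact mul_le_mul_of_nonneg_left (by linarith) (by linarith)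
  have b1 : (I : ℝ) ≤ CF * NN x y ^ ε * (2 * (CW * (CK * (CA * Z2)))) :=
    key.trans (mul_le_mul_of_nonneg_right f3 (by linarith))
  have b2 : (T : ℝ) ≤ CK * (CF * (2 * CW * (CK * CA))) * (NN x y ^ ε * Z2) := calc
    (T : ℝ) ≤ CK * I := hTI
    _ ≤ CK * (CF * NN x y ^ ε * (2 * (CW * (CK * (CA * Z2))))) := by gcongr
    _ = _ := by ring
  rw [z4] at b2
  nlinarith

theorem cpu_row (hKC : KC_s) (hFAMV : FAMV_s) (hFAMW : FAMW_s) (hARI2 : ARI2_s) (hARI3 : ARI3_s) : CPU_s := by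
  intro δ ε η hδ hε hη
  obtain ⟨c2, C2, a2, b2, h2⟩ := cpu_at hKC hFAMV hFAMW 2 hARI2 fDISC2 δ (ε / 3) η hδ (by linarith) hη
  obtain ⟨c3, C3, a3, b3, h3⟩ := cpu_at hKC hFAMV hFAMW 3 hARI3 fDISC3 δ (ε / 3) η hδ (by linarith) hη
  refine ⟨c2 + c3, C2 + C3, by linarith, by linarith, ?_⟩
  intro L _ _ x y t1 t2 t3 hC p w T hB h1 h4
  obtain ⟨-, -, hR, hM⟩ := (fALG L x y t1 t2 t3 hC.toCub0).2.2.2.2.2.2.2.2.2.2.2.2.2
  have hq : (0 : ℝ) ≤ (Qs x y).card := Nat.cast_nonneg _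
  have z : 0 ≤ NN x y ^ (1 / 2 + ε) := Real.rpow_nonneg (by linarith) _
  rw [show 3 * (ε / 3) = ε by ring] at h2 h3
  have n2 := hC.n2
  have n3 := hC.n3
  rcases (show dg t1 = 2 ∨ dg t1 = 3 by omega) with hn | hn
  · have := h2 L x y t1 t2 t3 hC hn p w T hB (by nlinarith) h4
    nlinarith
  · have := h3 L x y t1 t2 t3 hC hn p w T hB (by nlinarith) h4
    nlinarith
-- END CPU
end

section
-- BEGIN CA2
theorem ca2_row : CA2_s := by
  intro δ ε hδ hε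
  obtain ⟨η, hη, hη1, hη2⟩ : ∃ η : ℝ, 0 < η ∧ η ≤ 1 / 12 ∧ 3 * η ≤ ε :=
    ⟨min (1 / 12) (ε / 3), by positivity, min_le_left _ _, by
      have := min_le_right (1 / 12 : ℝ) (ε / 3); linarith⟩
  obtain ⟨C1, c1, h1⟩ := fGM (δ / 2) η (by linarith) hη
  obtain ⟨C3, c3, h3⟩ := fFEW η 3 hη (by norm_num)
  refine ⟨864 * C1 * C3 * Real.exp (3 * C1 + 23) / δ, by positivity, ?_⟩
  intro L _ _ x y t1 t2 t3 hC φ hW
  obtain ⟨-, -, -, -, -, -, ⟨p0, p1⟩, -, -, -, -, -, -, -, hQ, hR, hN⟩ :=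
    fALG L x y t1 t2 t3 hC.toCub0
  obtain ⟨a, ha, d1, d2, -⟩ := fSQF x y hC.prim hC.ne
  have hQ0 : (0 : ℝ) ≤ (Qs x y).card := Nat.cast_nonneg _
  obtain ⟨G, hG⟩ : ∃ G : ℝ, G = C1 + (Qs x y).card + 1 := ⟨_, rfl⟩
  have g1 : 1 ≤ G := by linarith
  obtain ⟨W, hW'⟩ : ∃ W : ℝ, W = -lg (Sum.inl φ) (ps x t1 t2 - 1) := ⟨_, rfl⟩
  rw [← hW'] at hW
  obtain ⟨T, hT⟩ : ∃ T : ℕ, T = ⌊W / G⌋₊ := ⟨_, rfl⟩
  have t1' : W < (T + 1) * G := by
    rw [← div_lt_iff₀ (by linarith), hT]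
    exact Nat.lt_floor_add_one _
  have k1 : 1 ≤ Real.exp (2 * G + 20) := Real.one_le_exp (by linarith)
  have e1 : 1 ≤ DD x y a ^ (1 / 2 + η) := Real.one_le_rpow (by linarith) (by linarith)
  have e2 : 1 ≤ Rad x y ^ η := Real.one_le_rpow (by linarith) hη.le
  have key : (T : ℝ) + 1 ≤ 2 * (C1 * Real.exp (2 * G + 20) * DD x y a ^ (1 / 2 + η) *
      Rad x y ^ η) := by
    have e3 := one_le_mul_of_one_le_of_one_le
      (one_le_mul_of_one_le_of_one_le (one_le_mul_of_one_le_of_one_le c1 k1) e1) e2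
    rcases Nat.eq_zero_or_pos T with T0 | T0
    · rw [T0, Nat.cast_zero]
      linarith
    have T1 : (1 : ℝ) ≤ T := by exact_mod_cast T0
    have t2' : T * G ≤ W := by
      rw [← le_div_iff₀ (by linarith), hT]
      exact Nat.floor_le (zero_le_one.trans (Nat.floor_pos.1 (hT ▸ T0)))
    have nr : av (Sum.inl φ) (ps x t1 t2 - 1) ≤ Real.exp (-(T * G)) := by
      have b1 : 0 < av (Sum.inl φ : Pl L) (ps x t1 t2 - 1) := AbsoluteValue.pos _ (sub_ne_zero.2 p1)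
      rw [← Real.log_le_iff_le_exp b1]
      unfold lg at hW'
      linarith
    have nr' : ‖φ (ps x t1 t2 - 1)‖ ≤ 1 / 2 := by
      refine le_trans nr ((Real.exp_le_exp.2 (show -(T * G) ≤ -1 by nlinarith)).trans ?_)
      rw [Real.exp_neg, ← one_div]
      exact one_div_le_one_div_of_le (by norm_num) (by linarith [Real.add_one_le_exp 1])
    obtain ⟨col, b1, b2⟩ := fCOLA G (by linarith)
    have := h1 L x y t1 t2 t3 hC a ha {Sum.inl φ} (fun _ => G) T _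
      ⟨fun v hv => by rw [mem_singleton.1 hv]; exact ⟨by linarith, g1⟩,
        fun v hv => by rw [mem_singleton.1 hv]; exact nr, by rw [sum_singleton]; nlinarith⟩
      (by rw [sum_singleton]; linarith) k1
      ⟨fun u => col (φ u), fun u hu => b1 _ ((fADM L x y t1 t2 t3 u hC hu).2.2.1 φ nr').2,
        fun u u' hu hu' e v hv => by
          have b3 := (fADM L x y t1 t2 t3 u hC hu).2.2.1 φ nr'
          have b4 := (fADM L x y t1 t2 t3 u' hC hu').2.2.1 φ nr'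
          have b5 := b2 _ _ b3.2 b4.2 b4.1 e
          rw [← map_div₀, ← map_one φ, ← map_sub] at b5
          rw [mem_singleton.1 hv]
          exact b5⟩
    linarith
  obtain ⟨n, hn⟩ : ∃ n : ℝ, n = NN x y ^ η := ⟨_, rfl⟩
  have N0 : 0 ≤ NN x y := by linarith
  have n1 : Rad x y ^ η ≤ n := hn ▸ Real.rpow_le_rpow (by linarith) hN hη.le
  have n0 : 0 ≤ n := by linarith
  obtain ⟨s, hs⟩ : ∃ s : ℝ, s = NN x y ^ (1 / 2 : ℝ) := ⟨_, rfl⟩
  have s0 : 0 ≤ s := hs ▸ Real.rpow_nonneg N0 _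
  have n2 : DD x y a ^ (1 / 2 + η) ≤ 432 * (s * n) := by
    refine (Real.rpow_le_rpow (by linarith) d2 (by linarith)).trans ?_
    rw [Real.mul_rpow (by norm_num) N0, hn, hs, ← Real.rpow_add (by linarith)]
    exact mul_le_mul_of_nonneg_right (Real.rpow_le_self_of_one_le (by norm_num) (by linarith))
      (Real.rpow_nonneg N0 _)
  have n3 : s * n ^ 3 ≤ NN x y ^ (1 / 2 + ε) := by
    rw [hn, hs, ← Real.rpow_mul_natCast N0, ← Real.rpow_add (by linarith)]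
    exact Real.rpow_le_rpow_of_exponent_le (by linarith) (by push_cast; linarith)
  obtain ⟨f1, f2⟩ := h3 (Qs x y) hQ
  have f3 : Real.exp (3 * (Qs x y).card) ≤ C3 * n :=
    ((le_mul_of_one_le_right (Real.exp_pos _).le f2).trans f1).trans
      (mul_le_mul_of_nonneg_left n1 (by linarith))
  have f4 : Real.exp (2 * G + 20) * G ≤ Real.exp (3 * C1 + 23) * (C3 * n) := by
    refine (mul_le_mul_of_nonneg_left (by linarith [Real.add_one_le_exp G] : G ≤ Real.exp G)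
      (Real.exp_pos _).le).trans (le_trans (le_of_eq ?_)
        (mul_le_mul_of_nonneg_left f3 (Real.exp_pos _).le))
    rw [← Real.exp_add, ← Real.exp_add, hG]
    congr 1
    ring
  have f5 : DD x y a ^ (1 / 2 + η) * Rad x y ^ η ≤ 432 * (s * n) * n :=
    mul_le_mul n2 n1 (by linarith) (by positivity)
  have f6 := mul_le_mul f4 f5 (mul_nonneg (by linarith) (by linarith))
    (mul_nonneg (Real.exp_pos _).le (mul_nonneg (by linarith) n0))
  have f7 : δ * ht (ps x t1 t2) ≤ 864 * C1 * C3 * Real.exp (3 * C1 + 23) * (s * n ^ 3) := by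
    have b1 := mul_le_mul_of_nonneg_right key (by linarith : 0 ≤ G)
    have b2 := mul_le_mul_of_nonneg_left f6 (by linarith : 0 ≤ 2 * C1)
    calc δ * ht (ps x t1 t2) ≤ _ := (hW.trans t1'.le).trans b1
      _ = _ := by ring
      _ ≤ _ := b2
      _ = _ := by ring
  unfold Bd2
  rw [div_mul_eq_mul_div, le_div_iff₀ hδ, mul_comm]
  exact f7.trans (mul_le_mul_of_nonneg_left n3 (by positivity))
-- END CA2
end

section
-- BEGIN CS2
theorem cs2_num (δ ε η Cm Cf c0 q R N D K T h : ℝ) (hδ : 0 < δ) (hη : 0 < η) (hη1 : η ≤ 1 / 100)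
    (hη2 : 11 * η ≤ ε) (hCm : 1 ≤ Cm)
    (hCf : 1 ≤ Cf) (hc0 : 0 ≤ c0) (hq : 0 ≤ q) (hR : 2 ≤ R) (hN : R ≤ N) (hD0 : 0 ≤ D)
    (hD : D ≤ 432 * N) (hF : Real.exp ((1 + 6 * c0) * q) ≤ Cf * R ^ η)
    (hK : K ≤ Real.exp (Cm + q + η * Real.log R + 6 * (c0 + c0 * q + η * Real.log R)))
    (hT : T ≤ Cm * K * D ^ (1 / 2 + η) * R ^ η)
    (hh : δ * h ≤ (T + 1) * (Cm + q + η * Real.log R + 6 * Real.log R)) :
    h ≤ (Cm * Real.exp (Cm + 6 * c0) * Cf * 432 + 1) * (Cm + Cf + 7 / η) / δ * N ^ (1 / 2 + ε) := by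
  have hR0 : 0 < R := by linarith
  have hN1 : 1 ≤ N := by linarith
  have hN0 : 0 < N := by linarith
  obtain ⟨u, hu⟩ : ∃ u, u = N ^ η := ⟨_, rfl⟩
  obtain ⟨s, hs⟩ : ∃ s, s = N ^ (1 / 2 : ℝ) := ⟨_, rfl⟩
  have hu1 : 1 ≤ u := hu ▸ Real.one_le_rpow hN1 hη.le
  have hs1 : 1 ≤ s := hs ▸ Real.one_le_rpow hN1 (by norm_num)
  have hRu : R ^ η ≤ u := hu ▸ Real.rpow_le_rpow hR0.le hN hη.le
  have hup : ∀ k : ℕ, u ^ k = N ^ (η * k) := fun k => by
    rw [hu, ← Real.rpow_natCast, ← Real.rpow_mul hN0.le]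
  have hlR : Real.log R ≤ u / η :=
    (Real.log_le_rpow_div hR0.le hη).trans (div_le_div_of_nonneg_right hRu hη.le)
  have hlR0 : 0 ≤ Real.log R := Real.log_nonneg (by linarith)
  have hF' : Real.exp ((1 + 6 * c0) * q) ≤ Cf * u :=
    hF.trans (mul_le_mul_of_nonneg_left hRu (by linarith))
  have hq1 : q ≤ Cf * u := by
    have h1 := Real.add_one_le_exp ((1 + 6 * c0) * q)
    nlinarith [mul_nonneg hc0 hq]
  have h7 : Real.exp (η * (7 : ℕ) * Real.log R) ≤ u ^ 7 := by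
    rw [hup, mul_comm, ← Real.rpow_def_of_pos hR0]
    exact Real.rpow_le_rpow hR0.le hN (by positivity)
  have hK' : K ≤ Real.exp (Cm + 6 * c0) * (Cf * u) * u ^ 7 := by
    refine hK.trans ?_
    have : Cm + q + η * Real.log R + 6 * (c0 + c0 * q + η * Real.log R) =
      (Cm + 6 * c0) + (1 + 6 * c0) * q + η * (7 : ℕ) * Real.log R := by push_cast; ring
    rw [this, Real.exp_add, Real.exp_add]
    gcongr
  have hD' : D ^ (1 / 2 + η) ≤ 432 * (s * u) := by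
    refine (Real.rpow_le_rpow hD0 hD (by linarith)).trans ?_
    rw [Real.mul_rpow (by norm_num) hN0.le, hs, hu, ← Real.rpow_add hN0]
    exact mul_le_mul_of_nonneg_right (Real.rpow_le_self_of_one_le (by norm_num) (by linarith))
      (by positivity)
  have hT' : T ≤ Cm * Real.exp (Cm + 6 * c0) * Cf * 432 * (s * u ^ 10) := by
    refine hT.trans ?_
    calc Cm * K * D ^ (1 / 2 + η) * R ^ η
        ≤ Cm * (Real.exp (Cm + 6 * c0) * (Cf * u) * u ^ 7) * (432 * (s * u)) * u := by gcongr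
      _ = _ := by ring
  have h60 : 1 ≤ s * u ^ 10 := one_le_mul_of_one_le_of_one_le hs1 (one_le_pow₀ hu1)
  have hT1 : T + 1 ≤ (Cm * Real.exp (Cm + 6 * c0) * Cf * 432 + 1) * (s * u ^ 10) := by linarith
  have hE : Cm + q + η * Real.log R + 6 * Real.log R ≤ (Cm + Cf + 7 / η) * u := by
    have e : (Cm + Cf + 7 / η) * u = Cm * u + Cf * u + 7 * (u / η) := by ring
    rw [e]
    nlinarith
  have h61 : s * u ^ 10 * u ≤ N ^ (1 / 2 + ε) := by
    rw [mul_assoc, ← pow_succ, hup, hs, ← Real.rpow_add hN0]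
    exact Real.rpow_le_rpow_of_exponent_le hN1 (by push_cast; linarith)
  have h8 : δ * h ≤ (Cm * Real.exp (Cm + 6 * c0) * Cf * 432 + 1) * (Cm + Cf + 7 / η) *
      N ^ (1 / 2 + ε) := by
    refine hh.trans ?_
    calc (T + 1) * (Cm + q + η * Real.log R + 6 * Real.log R)
        ≤ ((Cm * Real.exp (Cm + 6 * c0) * Cf * 432 + 1) * (s * u ^ 10)) * ((Cm + Cf + 7 / η) * u) :=
          mul_le_mul hT1 hE (by positivity) (by positivity)
      _ = (Cm * Real.exp (Cm + 6 * c0) * Cf * 432 + 1) * (Cm + Cf + 7 / η) * (s * u ^ 10 * u) := by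
          ring
      _ ≤ _ := mul_le_mul_of_nonneg_left h61 (by positivity)
  rw [div_mul_eq_mul_div, le_div_iff₀ hδ]
  linarith

theorem cs2_row : CS2_s := by
  classical
  intro δ ε hδ hε
  obtain ⟨η, hη, hη1, hη2⟩ : ∃ η : ℝ, 0 < η ∧ η ≤ 1 / 100 ∧ 11 * η ≤ ε :=
    ⟨min (1 / 100) (ε / 11), by positivity, min_le_left _ _, by
      have := min_le_right (1 / 100 : ℝ) (ε / 11); linarith⟩
  refine ⟨η, hη, fun c0 hc0 => ?_⟩
  obtain ⟨Cm, hCm, hM⟩ := fGM (δ * η / 14) η (by positivity) hη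
  obtain ⟨Cf, hCf, hF⟩ := fFEW η (1 + 6 * c0) hη (by positivity)
  refine ⟨(Cm * Real.exp (Cm + 6 * c0) * Cf * 432 + 1) * (Cm + Cf + 7 / η) / δ, by positivity, ?_⟩
  intro L _ _ x y t1 t2 t3 hc S hS hht
  obtain ⟨-, -, -, -, -, -, ⟨hp0, hp1⟩, -, -, -, -, -, hq, -, hQp, hR2, hRN⟩ :=
    fALG L x y t1 t2 t3 hc.toCub0
  obtain ⟨a, hSq, hD1, hD2, -⟩ := fSQF x y hc.prim hc.ne
  have hQ0 : (0 : ℝ) ≤ (Qs x y).card := Nat.cast_nonneg _
  have hlR : 0 ≤ Real.log (Rad x y) := Real.log_nonneg (by linarith)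
  have hln : ∀ w : FinitePlace L, 0 < Real.log (nq w) := fun w =>
    Real.log_pos (by linarith [(fVAL L w).1])
  have hd : (finrank ℚ L : ℝ) ≤ 6 := by exact_mod_cast hc.d6
  have hF1 : Real.exp ((1 + 6 * c0) * (Qs x y).card) ≤ Cf * Rad x y ^ η := by
    obtain ⟨h1, h2⟩ := hF (Qs x y) hQp
    exact (le_mul_of_one_le_right (Real.exp_pos _).le h2).trans h1
  choose! v hv using fun w (hw : w ∈ S) => cs_val fVAL w _ (sub_ne_zero.mpr hp1) (hS w hw).1
  have hW : ∑ w ∈ S, -lg (Sum.inr w) (ps x t1 t2 - 1) = ∑ w ∈ S, v w * Real.log (nq w) := by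
    refine Finset.sum_congr rfl fun w hw => ?_
    change -Real.log (w (ps x t1 t2 - 1)) = _
    rw [hv w hw, Real.log_exp, neg_neg]
  rw [hW] at hht
  have hsum : ∑ w ∈ S, Real.log (nq w) ≤ 6 * Real.log (Rad x y) :=
    cs_sum fVAL2 hc.d6 (fun w => (hln w).le) _ hQp S fun w hw => by
      obtain ⟨q, h1, h2, -⟩ := (hS w hw).2
      exact ⟨q, h1, h2⟩
  obtain ⟨G, hG⟩ : ∃ G, G = Cm + (Qs x y).card + η * Real.log (Rad x y) := ⟨_, rfl⟩
  obtain ⟨W, hWd⟩ : ∃ W, W = ∑ w ∈ S, v w * Real.log (nq w) := ⟨_, rfl⟩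
  have hW0 : 0 ≤ W := hWd ▸ Finset.sum_nonneg fun w _ => mul_nonneg (Nat.cast_nonneg _) (hln w).le
  have hηl : 0 ≤ η * Real.log (Rad x y) := mul_nonneg hη.le hlR
  have hG1 : 1 ≤ G := by linarith
  have hE0 : 0 < G + 6 * Real.log (Rad x y) := by linarith
  obtain ⟨T, hT⟩ : ∃ T : ℕ, T = ⌊W / (G + 6 * Real.log (Rad x y))⌋₊ := ⟨_, rfl⟩
  have hT1 : T * (G + 6 * Real.log (Rad x y)) ≤ W := by
    rw [← le_div_iff₀ hE0, hT]
    exact Nat.floor_le (by positivity)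
  have hT2 : W ≤ (T + 1) * (G + 6 * Real.log (Rad x y)) := by
    rw [← div_le_iff₀ hE0, hT]
    exact (Nat.lt_floor_add_one _).le
  rw [← hWd] at hht
  have fin : ∀ K : ℝ, K ≤ Real.exp (G + 6 * (c0 + c0 * (Qs x y).card +
      η * Real.log (Rad x y))) →
      (T : ℝ) ≤ Cm * K * DD x y a ^ (1 / 2 + η) * Rad x y ^ η →
      Bd2 ε ((Cm * Real.exp (Cm + 6 * c0) * Cf * 432 + 1) * (Cm + Cf + 7 / η) / δ) x y t1 t2 :=
    fun K h1 h2 => cs2_num δ ε η Cm Cf c0 _ _ _ _ K T _ hδ hη hη1 hη2 hCm hCf hc0 hQ0 hR2 hRN (by linarith)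
      hD2 hF1 (hG ▸ h1) h2 (hG ▸ hht.trans hT2)
  rcases Nat.eq_zero_or_pos T with hT0 | hT0
  · exact fin 0 (Real.exp_pos _).le (by rw [hT0]; simp)
  have hTr : (1 : ℝ) ≤ T := by exact_mod_cast hT0
  obtain ⟨j, hj1, hj2, hj3⟩ := fSEL _ S (fun w => Real.log (nq w)) v T G
    (6 * (c0 + c0 * (Qs x y).card + η * Real.log (Rad x y))) hT0 (by linarith)
    (fun w hw => by
      obtain ⟨q, h1, h2, h3⟩ := (hS w hw).2
      have h4 := ((fVAL L w).2.2.2.2 q (hQp q h1) h2).2.1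
      have h5 := Real.log_le_log (by linarith [(fVAL L w).1]) h4
      rw [Real.log_pow] at h5
      have h6 := mul_le_mul_of_nonneg_right hd (Real.log_natCast_nonneg q)
      exact ⟨hln w, by linarith⟩)
    (by
      rw [← hWd]
      refine le_trans (mul_le_mul_of_nonneg_left ?_ (by linarith)) hT1
      linarith)
  obtain ⟨S', hS'⟩ : ∃ S', S' = S.filter fun w => j w ≠ 0 := ⟨_, rfl⟩
  have hm : ∀ w ∈ S', w ∈ S ∧ j w ≠ 0 := fun w hw => Finset.mem_filter.mp (hS' ▸ hw)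
  have hs' : ∑ w ∈ S', j w * Real.log (nq w) = ∑ w ∈ S, j w * Real.log (nq w) := by
    rw [hS']
    refine Finset.sum_filter_of_ne fun w _ h => ?_
    intro h0
    exact h (by rw [h0]; simp)
  obtain ⟨g, hg⟩ : ∃ g : Pl L → ℝ, ∀ w, g (Sum.inr w) = j w * Real.log (nq w) :=
    ⟨Sum.elim (fun _ => 0) fun w => j w * Real.log (nq w), fun _ => rfl⟩
  have hsg : ∑ u ∈ S'.map Function.Embedding.inr, g u = ∑ w ∈ S, j w * Real.log (nq w) := by
    rw [Finset.sum_map, ← hs']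
    exact Finset.sum_congr rfl fun w _ => hg w
  have hmem : ∀ u ∈ S'.map (Function.Embedding.inr : _ ↪ Pl L), ∃ w ∈ S', u = Sum.inr w :=
    fun u hu => by
      obtain ⟨w, h1, h2⟩ := Finset.mem_map.mp hu
      exact ⟨w, h1, h2.symm⟩
  have hHv : Hv (δ * η / 14) (ps x t1 t2) (S'.map Function.Embedding.inr) g T := by
    refine ⟨fun u hu => ?_, fun u hu => ?_, ?_⟩
    · obtain ⟨w, h1, rfl⟩ := hmem u hu
      have h2 : (0 : ℝ) < j w := by exact_mod_cast Nat.pos_of_ne_zero (hm w h1).2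
      have h3 : 0 < g (Sum.inr w) := hg w ▸ mul_pos h2 (hln w)
      exact ⟨h3, h3.le⟩
    · obtain ⟨w, h1, rfl⟩ := hmem u hu
      change w (ps x t1 t2 - 1) ≤ _
      rw [hv w (hm w h1).1, hg]
      have h2 : (T : ℝ) * j w ≤ v w := by exact_mod_cast hj1 w (hm w h1).1
      have h3 := mul_le_mul_of_nonneg_right h2 (hln w).le
      exact Real.exp_le_exp.mpr (by linarith)
    · rw [hsg]
      have h1 : η * (G + 6 * Real.log (Rad x y)) ≤ 7 * G := by nlinarith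
      have h2 : ((T : ℝ) + 1) * (η * (G + 6 * Real.log (Rad x y))) ≤ (2 * T) * (7 * G) :=
        mul_le_mul (by linarith) h1 (mul_pos hη hE0).le (by linarith)
      have h3 := mul_le_mul_of_nonneg_left hj2 (show (0 : ℝ) ≤ T by linarith)
      have h4 := mul_le_mul_of_nonneg_left (hht.trans hT2) hη.le
      nlinarith
  have hK : ∏ w ∈ S', nq w ^ j w = Real.exp (∑ w ∈ S, j w * Real.log (nq w)) := by
    rw [← hs', Real.exp_sum]
    refine Finset.prod_congr rfl fun w _ => ?_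
    rw [← Real.log_pow, Real.exp_log (pow_pos (by linarith [(fVAL L w).1]) _)]
  obtain ⟨col, hc1, hc2⟩ := fCOLN L S' j
  have hu1 : ∀ b, Adm x y t1 t2 b → ∀ w ∈ S', w b = 1 := fun b hb w hw =>
    (fADM L x y t1 t2 t3 b hc hb).2.1 w (hq w (hS w (hm w hw).1).1).1
  have hCol : Col (∏ w ∈ S', nq w ^ j w) (Adm x y t1 t2) (S'.map Function.Embedding.inr) g := by
    refine ⟨col, fun b _ => hc1 b, fun b b' hb hb' hbb u hu => ?_⟩
    obtain ⟨w, h1, rfl⟩ := hmem u hu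
    rw [hg, Real.exp_neg, ← Real.log_pow, Real.exp_log (pow_pos (by linarith [(fVAL L w).1]) _)]
    exact hc2 b b' (hu1 b hb) (hu1 b' hb') hbb w h1
  refine fin _ ?_ (hM L x y t1 t2 t3 hc a hSq _ g T _ hHv (by rw [hsg]; linarith) ?_ hCol)
  · rw [hK]
    exact Real.exp_le_exp.mpr hj3
  · rw [hK]
    exact Real.one_le_exp (by linarith)
-- END CS2
end

section
-- BEGIN CP2
theorem cp2_fin (δ σ ε C0 h X p N : ℝ) (hδ : 0 < δ) (hσ : 0 < σ) (h8 : 8 * σ ≤ ε)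
    (h6 : σ ≤ 1 / 4) (hN : 1 ≤ N) (hp1 : 1 ≤ p) (hpN : p ≤ N) (hC : 0 ≤ C0)
    (hh : δ * h ≤ X * Real.log p) (hX : X ≤ C0 * ((432 * N) ^ (1 / 2 + σ) * N ^ σ)) :
    h ≤ C0 * 432 / (σ * δ) * N ^ (1 / 2 + ε) := by
  have hN0 : 0 < N := by linarith
  have l0 : 0 ≤ Real.log p := Real.log_nonneg hp1
  have l1 : Real.log p ≤ N ^ σ / σ :=
    (Real.log_le_log (by linarith) hpN).trans (Real.log_le_rpow_div hN0.le hσ)
  have l2 : (432 * N) ^ (1 / 2 + σ) ≤ 432 * N ^ (1 / 2 + σ) := by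
    rw [Real.mul_rpow (by norm_num) hN0.le]
    refine mul_le_mul_of_nonneg_right ?_ (by positivity)
    calc (432 : ℝ) ^ (1 / 2 + σ) ≤ 432 ^ (1 : ℝ) :=
          Real.rpow_le_rpow_of_exponent_le (by norm_num) (by linarith)
      _ = 432 := Real.rpow_one _
  have l3 : N ^ (1 / 2 + σ) * N ^ σ * N ^ σ ≤ N ^ (1 / 2 + ε) := by
    rw [← Real.rpow_add hN0, ← Real.rpow_add hN0]
    exact Real.rpow_le_rpow_of_exponent_le hN (by linarith)
  have l4 : X ≤ C0 * (432 * N ^ (1 / 2 + σ) * N ^ σ) :=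
    hX.trans (mul_le_mul_of_nonneg_left (mul_le_mul_of_nonneg_right l2 (by positivity)) hC)
  have l5 : X * Real.log p ≤ C0 * (432 * N ^ (1 / 2 + σ) * N ^ σ) * (N ^ σ / σ) :=
    (mul_le_mul_of_nonneg_right l4 l0).trans (mul_le_mul_of_nonneg_left l1 (by positivity))
  have l6 : C0 * (432 * N ^ (1 / 2 + σ) * N ^ σ) * (N ^ σ / σ) =
      C0 * 432 / σ * (N ^ (1 / 2 + σ) * N ^ σ * N ^ σ) := by
    field_simp
  have l7 : δ * h ≤ C0 * 432 / σ * N ^ (1 / 2 + ε) := by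
    refine hh.trans (l5.trans ?_)
    rw [l6]
    exact mul_le_mul_of_nonneg_left l3 (by positivity)
  have l8 : C0 * 432 / (σ * δ) * N ^ (1 / 2 + ε) = C0 * 432 / σ * N ^ (1 / 2 + ε) / δ := by
    field_simp
  rw [l8, le_div_iff₀ hδ]
  linarith

theorem cp2_row (hCPU : CPU_s) : CP2_s := by
  classical
  intro δ ε η hδ hε hη
  obtain ⟨σ, hσ, hσ1, hσ2⟩ : ∃ σ : ℝ, 0 < σ ∧ σ ≤ 1 / 4 ∧ 8 * σ ≤ ε :=
    ⟨min (1 / 4) (ε / 8), by positivity, min_le_left _ _, by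
      have := min_le_right (1 / 4 : ℝ) (ε / 8); linarith⟩
  obtain ⟨Cm, hCm, hM⟩ := fGM δ σ hδ hσ
  obtain ⟨cu, Cu, hcu, hCu, hU⟩ := hCPU δ σ η hδ hσ hη
  refine ⟨4 + Cm + cu, by positivity, (12 + 12 * Cm + 6 * Cu) * 432 / (σ * δ),
    by positivity, ?_⟩
  intro L _ _ x y t1 t2 t3 hc p w hpQ hwp hlp hηp hw1 hht
  obtain ⟨-, -, -, -, -, -, ⟨hp0, hp1⟩, -, -, -, -, -, hq, -, hQp, hR2, hRN⟩ :=
    fALG L x y t1 t2 t3 hc.toCub0
  have hpp : p.Prime := hQp p hpQ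
  have hpR : (p : ℝ) ≤ Rad x y := cp_le_rad x y hQp p hpQ
  have hp1' : (1 : ℝ) ≤ p := by exact_mod_cast hpp.one_le
  have hp0' : (0 : ℝ) < p := by linarith
  have hN1 : 1 ≤ NN x y := by linarith
  have hQ0 : (0 : ℝ) ≤ (Qs x y).card := Nat.cast_nonneg _
  have hq1 : 0 ≤ Cm * (Qs x y).card := by positivity
  have hq2 : 0 ≤ cu * (Qs x y).card := by positivity
  have hlp' : 4 + Cm + cu + (4 * (Qs x y).card + Cm * (Qs x y).card + cu * (Qs x y).card) ≤
      Real.log p := by linarith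
  have hl4 : 4 ≤ Real.log p := by linarith
  have hp5 : 5 ≤ p := by
    have h1 := Real.log_le_sub_one_of_pos hp0'
    have h2 : (5 : ℝ) ≤ p := by linarith
    exact_mod_cast h2
  have hlm : Cm + (Qs x y).card ≤ Real.log p := by linarith
  have hlu : cu + cu * (Qs x y).card ≤ Real.log p := by linarith
  have hY1 : 1 ≤ (432 * NN x y) ^ (1 / 2 + σ) := Real.one_le_rpow (by linarith) (by linarith)
  have hZ1 : 1 ≤ NN x y ^ σ := Real.one_le_rpow hN1 hσ.le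
  have hRZ : Rad x y ^ σ ≤ NN x y ^ σ := Real.rpow_le_rpow (by linarith) hRN hσ.le
  have hR0 : 0 ≤ Rad x y ^ σ := Real.rpow_nonneg (by linarith) _
  obtain ⟨Z, hZ⟩ : ∃ Z, Z = (432 * NN x y) ^ (1 / 2 + σ) * NN x y ^ σ := ⟨_, rfl⟩
  have fin : ∀ X : ℝ, δ * ht (ps x t1 t2) ≤ X * Real.log p →
      X ≤ (12 + 12 * Cm + 6 * Cu) * Z →
      Bd2 ε ((12 + 12 * Cm + 6 * Cu) * 432 / (σ * δ)) x y t1 t2 := fun X h1 h2 =>
    cp2_fin δ σ ε _ _ X p _ hδ hσ hσ2 hσ1 hN1 hp1' (by linarith) (by positivity) h1 (hZ ▸ h2)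
  have hYZ : 1 ≤ Z := hZ ▸ one_le_mul_of_one_le_of_one_le hY1 hZ1
  have hz1 : 0 ≤ Cm * Z := by positivity
  have hz2 : 0 ≤ Cu * Z := by positivity
  by_cases hg : (p : ℤ) ∣ x ∧ (p : ℤ) ∣ y
  · refine fin 12 (hht.trans (fEXC L x y t1 t2 t3 hc p w hpp hp5 hwp hg.1 hg.2)) ?_
    linarith
  obtain ⟨hn2, hpow, -, -, hpr⟩ := fVAL L w
  obtain ⟨hpn, hnp, -, -⟩ := hpr p hpp hwp
  have hn0 : 0 < nq w := by linarith
  have hln : 0 < Real.log (nq w) := Real.log_pos (by linarith)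
  obtain ⟨k, hk⟩ := hpow (ps x t1 t2 - 1) (sub_ne_zero.mpr hp1)
  have hk0 : k < 0 := by
    by_contra hcon
    have := one_le_zpow₀ (show 1 ≤ nq w by linarith) (not_lt.mp hcon)
    linarith
  obtain ⟨T, hT⟩ : ∃ T : ℕ, k = -(T : ℤ) := ⟨k.natAbs, by omega⟩
  have hT1 : 1 ≤ T := by omega
  have hwT : w (ps x t1 t2 - 1) = (nq w ^ T)⁻¹ := by rw [hk, hT, zpow_neg, zpow_natCast]
  have hwE : w (ps x t1 t2 - 1) = Real.exp (-(T * Real.log (nq w))) := by
    rw [hwT, Real.exp_neg, ← Real.log_pow, Real.exp_log (by positivity)]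
  have hW : -lg (Sum.inr w) (ps x t1 t2 - 1) = T * Real.log (nq w) := by
    change -Real.log (w (ps x t1 t2 - 1)) = _
    rw [hwE, Real.log_exp, neg_neg]
  rw [hW] at hht
  have hlpn : Real.log p ≤ Real.log (nq w) := Real.log_le_log hp0' hpn
  have hl6 : Real.log (nq w) ≤ 6 * Real.log p := by
    have h1 := Real.log_le_log hn0 hnp
    rw [Real.log_pow] at h1
    have h2 : (finrank ℚ L : ℝ) ≤ 6 := by exact_mod_cast hc.d6
    exact h1.trans (mul_le_mul_of_nonneg_right h2 (by linarith))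
  have hT0 : (0 : ℝ) ≤ T := Nat.cast_nonneg _
  have hmain : δ * ht (ps x t1 t2) ≤ 6 * T * Real.log p := by
    have h1 := mul_le_mul_of_nonneg_left hl6 hT0
    linarith
  by_cases htri : Tri w
  · have h3 := hU L x y t1 t2 t3 hc p w T ⟨hpp, hp5, hwp, hg, htri, hT1, hwT, hht⟩ hlu hηp
    have h4 : NN x y ^ (1 / 2 + σ) ≤ Z := by
      rw [hZ]
      refine le_trans ?_ (le_mul_of_one_le_right (by linarith) hZ1)
      exact Real.rpow_le_rpow (by linarith) (by linarith) (by linarith)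
    have h5 := mul_le_mul_of_nonneg_left h4 hCu
    exact fin (6 * T) hmain (by linarith)
  have hwψ : w (ps x t1 t2) = 1 := (hq w hw1).1
  have hAdw : ∀ a, Adm x y t1 t2 a → Adw t1 t2 w a := fun a ha =>
    ⟨(fADM L x y t1 t2 t3 a hc ha).2.1 w hwψ, (fADM L x y t1 t2 t3 a hc ha).2.2.2⟩
  obtain ⟨a, hSq, hD1, hD2, -⟩ := fSQF x y hc.prim hc.ne
  have hD0 : 0 < DD x y a := by linarith
  have hcol := cp_col hAdw (fBR L x y t1 t2 t3 hc p w hpp hp5 hwp hg hw1 htri)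
  have h1 : Hv δ (ps x t1 t2) {Sum.inr w} (fun _ => Real.log (nq w)) T := by
    refine ⟨fun v hv => ⟨hln, ?_⟩, fun v hv => ?_, ?_⟩
    · rw [Finset.mem_singleton.mp hv]
      exact hln.le
    · rw [Finset.mem_singleton.mp hv]
      exact hwE.le
    · rw [Finset.sum_singleton]
      exact hht
  have h3 := hM L x y t1 t2 t3 hc a hSq _ _ T 2 h1
    (by rw [Finset.sum_singleton]; exact hlm.trans hlpn) (by norm_num) hcol
  have h4 : DD x y a ^ (1 / 2 + σ) * Rad x y ^ σ ≤ Z := by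
    rw [hZ]
    exact mul_le_mul (Real.rpow_le_rpow hD0.le hD2 (by linarith)) hRZ hR0 (by linarith)
  have h5 := mul_le_mul_of_nonneg_left h4 (show 0 ≤ Cm * 2 by positivity)
  rw [mul_assoc] at h3
  exact fin (6 * T) hmain (by linarith)
-- END CP2
end

section
-- BEGIN MAIN2
theorem main2_bd {L : Type} [Field L] [NumberField L] {ε C C' : ℝ} {x y : ℤ} {t1 t2 : L}
    (hN : 0 ≤ NN x y) (h : C ≤ C') (hb : Bd2 ε C x y t1 t2) : Bd2 ε C' x y t1 t2 := by
  unfold Bd2 at *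
  exact hb.trans (mul_le_mul_of_nonneg_right h (Real.rpow_nonneg hN _))

theorem main2_row (hCA2 : CA2_s) (hCS2 : CS2_s) (hCP2 : CP2_s) : MAIN2_s := by
  classical
  intro ε hε
  obtain ⟨Ca, hCa, hA⟩ := hCA2 (1 / 36) ε (by norm_num) hε
  obtain ⟨η, hη, hS0⟩ := hCS2 (1 / 6) ε (by norm_num) hε
  obtain ⟨c0, hc0, Cp, hCp, hP⟩ := hCP2 (η / 36) ε η (by positivity) hε hη
  obtain ⟨Cs, hCs, hS⟩ := hS0 c0 hc0
  refine ⟨12 + Ca + Cs + Cp, by positivity, ?_⟩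
  intro L _ _ x y t1 t2 t3 hc
  obtain ⟨-, -, -, -, -, -, ⟨hp0, hp1⟩, -, -, -, -, -, hq, -, hQp, hR2, hRN⟩ :=
    fALG L x y t1 t2 t3 hc.toCub0
  have hN1 : 1 ≤ NN x y := by linarith
  have hN0 : 0 ≤ NN x y := by linarith
  have hd : (finrank ℚ L : ℝ) ≤ 6 := by exact_mod_cast hc.d6
  by_cases h12 : ht (ps x t1 t2) ≤ 12
  · have h1 : 1 ≤ NN x y ^ (1 / 2 + ε) := Real.one_le_rpow hN1 (by positivity)
    unfold Bd2
    nlinarith
  push Not at h12
  obtain ⟨-, H, hH1, hH2⟩ := fHT1 L _ hp0 hp1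
  rw [Finset.sum_sum_eq_sum_toLeft_add_sum_toRight] at hH2
  by_cases ha : ∃ φ : L →+* ℂ, 1 / 36 * ht (ps x t1 t2) ≤ -lg (Sum.inl φ) (ps x t1 t2 - 1)
  · obtain ⟨φ, hφ⟩ := ha
    exact main2_bd hN0 (by linarith) (hA L x y t1 t2 t3 hc φ hφ)
  push Not at ha
  have hL : ∑ φ ∈ H.toLeft, -lg (Sum.inl φ) (ps x t1 t2 - 1) ≤ ht (ps x t1 t2) / 6 := by
    have h1 := Finset.sum_le_card_nsmul H.toLeft (fun φ => -lg (Sum.inl φ) (ps x t1 t2 - 1))
      (1 / 36 * ht (ps x t1 t2)) (fun φ _ => (ha φ).le)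
    have h2 : (H.toLeft.card : ℝ) ≤ 6 := by
      have h3 : H.toLeft.card ≤ Fintype.card (L →+* ℂ) := Finset.card_le_univ _
      rw [NumberField.Embeddings.card L ℂ] at h3
      have : (H.toLeft.card : ℝ) ≤ finrank ℚ L := by exact_mod_cast h3
      linarith
    rw [nsmul_eq_mul] at h1
    nlinarith
  set sm : FinitePlace L → Prop := fun w => ∃ q ∈ Qs x y, w (q : L) < 1 ∧
      Real.log q ≤ c0 + c0 * (Qs x y).card + η * Real.log (Rad x y) with hsm
  have hw1 : ∀ w ∈ H.toRight, w (ps x t1 t2 - 1) < 1 := fun w hw =>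
    hH1 _ (Finset.mem_toRight.mp hw)
  rw [← Finset.sum_filter_add_sum_filter_not H.toRight sm] at hH2
  by_cases hs : 1 / 6 * ht (ps x t1 t2) ≤
      ∑ w ∈ H.toRight.filter sm, -lg (Sum.inr w) (ps x t1 t2 - 1)
  · refine main2_bd hN0 (by linarith) (hS L x y t1 t2 t3 hc _ ?_ hs)
    intro w hw
    exact ⟨hw1 w (Finset.mem_filter.mp hw).1, (Finset.mem_filter.mp hw).2⟩
  push Not at hs
  set Bg := H.toRight.filter (fun w => ¬sm w) with hBg
  have hbig : 1 / 6 * ht (ps x t1 t2) ≤ ∑ w ∈ Bg, -lg (Sum.inr w) (ps x t1 t2 - 1) := by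
    linarith
  set B := (Qs x y).filter (fun q : ℕ =>
    c0 + c0 * (Qs x y).card + η * Real.log (Rad x y) ≤ Real.log q) with hB
  have hcov : ∀ w ∈ Bg, ∃ q ∈ B, w (q : L) < 1 := by
    intro w hw
    obtain ⟨hw2, hw3⟩ := Finset.mem_filter.mp hw
    obtain ⟨-, -, q, hq1, hq2⟩ := hq w (hw1 w hw2)
    refine ⟨q, Finset.mem_filter.mpr ⟨hq1, ?_⟩, hq2⟩
    by_contra hcon
    exact hw3 ⟨q, hq1, hq2, (not_le.mp hcon).le⟩
  have hc00 : 0 ≤ c0 * (Qs x y).card := by positivity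
  have hBc : η * B.card ≤ 1 := by
    refine main_few η hη (Qs x y) B hQp (Finset.filter_subset _ _) hR2 ?_
    intro q hq'
    have := (Finset.mem_filter.mp hq').2
    change η * Real.log (Rad x y) ≤ _
    linarith
  have hGc : Bg.card ≤ B.card * 6 := by
    have h1 : Bg ⊆ B.biUnion (fun q => Bg.filter (fun w => w (q : L) < 1)) := by
      intro w hw
      obtain ⟨q, hq1, hq2⟩ := hcov w hw
      exact Finset.mem_biUnion.mpr ⟨q, hq1, Finset.mem_filter.mpr ⟨hw, hq2⟩⟩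
    refine (Finset.card_le_card h1).trans (Finset.card_biUnion_le_card_mul _ _ _ ?_)
    intro q hq'
    exact (fVAL2 L q (hQp q (Finset.mem_filter.mp hq').1) _
      (fun w hw => (Finset.mem_filter.mp hw).2)).2.trans hc.d6
  have hex : ∃ w ∈ Bg, η / 36 * ht (ps x t1 t2) ≤ -lg (Sum.inr w) (ps x t1 t2 - 1) := by
    by_contra hcon
    push Not at hcon
    have hne : Bg.Nonempty := by
      by_contra he
      rw [Finset.not_nonempty_iff_eq_empty] at he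
      rw [he, Finset.sum_empty] at hbig
      linarith
    have h1 := Finset.sum_lt_sum_of_nonempty hne hcon
    rw [Finset.sum_const, nsmul_eq_mul] at h1
    have h2 : (Bg.card : ℝ) ≤ B.card * 6 := by exact_mod_cast hGc
    have h3 : η * Bg.card ≤ 6 := by nlinarith
    nlinarith
  obtain ⟨w, hw, hw2⟩ := hex
  obtain ⟨q, hq1, hq2⟩ := hcov w hw
  obtain ⟨hq3, hq4⟩ := Finset.mem_filter.mp hq1
  have hlr : 0 ≤ η * Real.log (Rad x y) := mul_nonneg hη.le (Real.log_nonneg (by linarith))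
  exact main2_bd hN0 (by linarith)
    (hP L x y t1 t2 t3 hc q w hq3 hq2 (by linarith) (by linarith) (hw1 w (Finset.mem_filter.mp hw).1) hw2)
-- END MAIN2
end

section
-- BEGIN TOP2
theorem top2_row (hMAIN2 : MAIN2_s) : TOP2_s := by
  intro ε hε
  have hε' : (0 : ℝ) < 1 / 2 + ε := by linarith
  obtain ⟨C1, hC1, h1⟩ := hMAIN2 ε hε
  obtain ⟨C2, hC2, h2⟩ := fRAT (1 / 2 + ε) hε'
  refine ⟨(6 * C1 + 60 + C2) * (6 : ℝ) ^ (1 / 2 + ε), fun x y hne hp => ?_⟩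
  have hz : x ^ 3 - y ^ 2 ≠ 0 := sub_ne_zero.2 hne
  have hp' : Prim x y := hp
  have hR1 : (1 : ℝ) ≤ Rad x y := top_one _ fun q hq => Nat.prime_of_mem_primeFactors hq
  have hG1 : (1 : ℝ) ≤ ∏ q ∈ (Int.gcd x y).primeFactors, (q : ℝ) :=
    top_one _ fun q hq => Nat.prime_of_mem_primeFactors hq
  have hZ1 : (1 : ℝ) ≤ ∏ q ∈ (x ^ 3 - y ^ 2).natAbs.primeFactors, (q : ℝ) :=
    top_one _ fun q hq => Nat.prime_of_mem_primeFactors hq
  have hRN : Rad x y ≤ NN x y := le_mul_of_one_le_right (by linarith) hG1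
  have hN1 : (1 : ℝ) ≤ NN x y := hR1.trans hRN
  have hN6 : NN x y ≤ 6 * ((∏ p ∈ (x ^ 3 - y ^ 2).natAbs.primeFactors, (p : ℝ)) *
      ∏ p ∈ (Int.gcd x y).primeFactors, (p : ℝ)) := by
    rw [← mul_assoc]
    exact mul_le_mul_of_nonneg_right (top_rad x y hz) (by linarith)
  have hpow : NN x y ^ (1 / 2 + ε) ≤ (6 : ℝ) ^ (1 / 2 + ε) *
      ((∏ p ∈ (x ^ 3 - y ^ 2).natAbs.primeFactors, (p : ℝ)) *
      ∏ p ∈ (Int.gcd x y).primeFactors, (p : ℝ)) ^ (1 / 2 + ε) := by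
    rw [← Real.mul_rpow (by norm_num) (by positivity)]
    exact Real.rpow_le_rpow (by linarith) hN6 hε'.le
  have hP1 : (1 : ℝ) ≤ NN x y ^ (1 / 2 + ε) := Real.one_le_rpow hN1 hε'.le
  have key : Real.log (max (|(x : ℝ)| ^ 3) ((y : ℝ) ^ 2)) ≤
      (6 * C1 + 60 + C2) * NN x y ^ (1 / 2 + ε) := by
    rcases fSTR x y hp' hz with ⟨t1, t2, t3, s1, s2, s3⟩ | ⟨L, _, _, t1, t2, t3, hc⟩
    · have h := h2 x y t1 t2 t3 hp' hz s1 s2 s3
      have h3 : Rad x y ^ (1 / 2 + ε) ≤ NN x y ^ (1 / 2 + ε) :=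
        Real.rpow_le_rpow (by linarith) hRN hε'.le
      have h4 := mul_le_mul_of_nonneg_left h3 hC2
      nlinarith
    · have hc' := fDEG L x y t1 t2 t3 hc
      have h := fHTL L x y t1 t2 t3 hc'
      have h3 : ht (ps x t1 t2) ≤ C1 * NN x y ^ (1 / 2 + ε) := h1 L x y t1 t2 t3 hc'
      have h4 := (fGCD x y hp' hz).1.2
      have h5 : Real.log (Rad x y) ≤ Rad x y ^ (1 / 2 : ℝ) / (1 / 2) :=
        Real.log_le_rpow_div (by linarith) (by norm_num)
      have h6 : Rad x y ^ (1 / 2 : ℝ) ≤ NN x y ^ (1 / 2 + ε) :=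
        (Real.rpow_le_rpow (by linarith) hRN (by norm_num)).trans
          (Real.rpow_le_rpow_of_exponent_le hN1 (by linarith))
      have h7 : 0 ≤ C2 * NN x y ^ (1 / 2 + ε) := by positivity
      nlinarith
  refine key.trans ?_
  rw [mul_assoc]
  exact mul_le_mul_of_nonneg_left hpow (by positivity)
-- END TOP2
end

section
-- BEGIN RED2
theorem red2_row (hTOP2 : TOP2_s) : RED2_s := by
  intro ε hε
  obtain ⟨C, hC⟩ := hTOP2 ε hε
  refine ⟨max C 0, fun x y => ?_⟩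
  induction hn : x.natAbs + y.natAbs using Nat.strong_induction_on generalizing x y with
  | _ n ih =>
    intro hxy
    have hne : ¬(x = 0 ∧ y = 0) := fun h => hxy (by rw [h.1, h.2]; norm_num)
    by_cases hp : ∀ q : ℕ, q.Prime → ¬((q : ℤ) ^ 2 ∣ x ∧ (q : ℤ) ^ 3 ∣ y)
    · refine (hC x y hxy hp).trans (le_add_of_nonneg_of_le (Real.log_natCast_nonneg _) ?_)
      exact mul_le_mul_of_nonneg_right (le_max_left _ _) (by positivity)
    · push Not at hp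
      obtain ⟨q, hq, ⟨x', rfl⟩, ⟨y', rfl⟩⟩ := hp
      have hq0 : (0 : ℝ) < q := by exact_mod_cast hq.pos
      have hq0' : (q : ℤ) ≠ 0 := by exact_mod_cast hq.ne_zero
      have hz : ((q : ℤ) ^ 2 * x') ^ 3 - ((q : ℤ) ^ 3 * y') ^ 2 = q ^ 6 * (x' ^ 3 - y' ^ 2) := by
        ring
      have hxy' : x' ^ 3 ≠ y' ^ 2 := fun e => hxy (by rw [← sub_eq_zero, hz, e, sub_self, mul_zero])
      have hne' : ¬(x' = 0 ∧ y' = 0) := fun h => hxy' (by rw [h.1, h.2]; norm_num)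
      have hlt : x'.natAbs + y'.natAbs < n := by
        rw [← hn, Int.natAbs_mul, Int.natAbs_mul, Int.natAbs_pow, Int.natAbs_pow, Int.natAbs_natCast]
        have h2 : 2 ≤ q ^ 2 := hq.two_le.trans (Nat.le_self_pow (by norm_num) q)
        have h3 : 2 ≤ q ^ 3 := hq.two_le.trans (Nat.le_self_pow (by norm_num) q)
        have h4 := Nat.mul_le_mul_right x'.natAbs h2
        have h5 := Nat.mul_le_mul_right y'.natAbs h3
        omega
      have h1 := ih _ hlt x' y' rfl hxy'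
      have hm : max (|(((q : ℤ) ^ 2 * x' : ℤ) : ℝ)| ^ 3) ((((q : ℤ) ^ 3 * y' : ℤ) : ℝ) ^ 2) =
          (q : ℝ) ^ 6 * max (|(x' : ℝ)| ^ 3) ((y' : ℝ) ^ 2) := by
        rw [mul_max_of_nonneg _ _ (by positivity)]
        push_cast
        rw [abs_mul, abs_of_nonneg (by positivity : (0 : ℝ) ≤ (q : ℝ) ^ 2)]
        ring_nf
      have hg : Int.gcd (((q : ℤ) ^ 2 * x') ^ 3) (((q : ℤ) ^ 3 * y') ^ 2) =
          q ^ 6 * Int.gcd (x' ^ 3) (y' ^ 2) := by
        rw [show ((q : ℤ) ^ 2 * x') ^ 3 = q ^ 6 * x' ^ 3 by ring,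
          show ((q : ℤ) ^ 3 * y') ^ 2 = q ^ 6 * y' ^ 2 by ring, Int.gcd_mul_left, Int.natAbs_pow,
          Int.natAbs_natCast]
      have hm0 : 0 < max (|(x' : ℝ)| ^ 3) ((y' : ℝ) ^ 2) := by
        rcases not_and_or.1 hne' with h | h
        · have : (x' : ℝ) ≠ 0 := by exact_mod_cast h
          exact lt_max_of_lt_left (by positivity)
        · have : (y' : ℝ) ≠ 0 := by exact_mod_cast h
          exact lt_max_of_lt_right (by positivity)
      have hg0 : (Int.gcd (x' ^ 3) (y' ^ 2) : ℝ) ≠ 0 := by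
        have : Int.gcd (x' ^ 3) (y' ^ 2) ≠ 0 := fun e => hne' (by
          have := Int.gcd_eq_zero_iff.1 e
          exact ⟨pow_eq_zero_iff (by norm_num) |>.1 this.1, pow_eq_zero_iff (by norm_num) |>.1 this.2⟩)
        exact_mod_cast this
      have r1 := red_rad (a := (x' ^ 3 - y' ^ 2).natAbs)
        (b := (((q : ℤ) ^ 2 * x') ^ 3 - ((q : ℤ) ^ 3 * y') ^ 2).natAbs)
        (Int.natAbs_dvd_natAbs.2 (hz ▸ dvd_mul_left _ _)) (Int.natAbs_ne_zero.2 (sub_ne_zero.2 hxy))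
      have r2 := red_rad (a := Int.gcd x' y') (b := Int.gcd ((q : ℤ) ^ 2 * x') ((q : ℤ) ^ 3 * y'))
        (Int.dvd_gcd ((Int.gcd_dvd_left _ _).mul_left _) ((Int.gcd_dvd_right _ _).mul_left _))
        (fun e => hne (Int.gcd_eq_zero_iff.1 e))
      rw [hm, hg, Nat.cast_mul, Nat.cast_pow, Real.log_mul (by positivity) hm0.ne',
        Real.log_mul (by positivity) hg0, add_assoc]
      refine add_le_add le_rfl (h1.trans (add_le_add le_rfl ?_))
      refine mul_le_mul_of_nonneg_left (Real.rpow_le_rpow (by positivity) ?_ (by positivity))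
        (le_max_right _ _)
      exact mul_le_mul r1 r2 (by positivity) (by positivity)
-- END RED2
end

end Pool.Agent.MP_2a5a28_nt.H63Y
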