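import Pool.Agent.MP_2a5a28_nt.H15Z.Top

/-! Definitions and row statements for the exponent `1/2 + ε`. -/

set_option autoImplicit false

namespace Pool.Agent.MP_2a5a28_nt.H63Y

open Finset NumberField Module
open H63 (Sx nm wt Lo tr ow)
open H15Z

/-! ### The rows of `H15Z`, proved -/

theorem fPF : PF_s := pf_row
theorem fVAL : VAL_s := val_row
theorem fVAL2 : VAL2_s := val2_row
theorem fSUM : SUM_s := sum_row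
theorem fLOCN : LOCN_s := locn_row
theorem fHT : HT_s := ht_row fPF fVAL
theorem fHT1 : HT1_s := ht1_row fPF
theorem fCORE : CORE_s := core_row cnt_row sieg_row zedn_row fHT fHT1
  (liou_row fPF fSUM loca_row fLOCN) fPF
theorem fCOST : COST_s := cost_row fPF fVAL
theorem fRHO : RHO_s := rho_row
theorem fALG : ALG_s := alg_row fVAL
theorem fIDL : IDL_s := idl_row fRHO
theorem fMINK : MINK_s := mink_row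
theorem fICNT : ICNT_s := icnt_row
theorem fUNM : UNM_s := unm_row fRHO fIDL fMINK
theorem fDISC2 : DISC2_s := disc2_row fALG
theorem fDISC3 : DISC3_s := disc3_row fALG
theorem fFEW : FEW_s := few_row
theorem fGM : GM_s := gm_row (kill_row fCORE) fCOST fRHO
  (famm_row fALG (mat_row fRHO fIDL fMINK fICNT) fDISC2 fDISC3) fFEW fALG
theorem fCOLA : COLA_s := cola_row
theorem fADM : ADM_s := adm_row fVAL fRHO fALG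
theorem fGCD : GCD_s := gcd_row
theorem fSQF : SQF_s := sqf_row fGCD
theorem fGAL : GAL_s := gal_row fVAL
theorem fCOLN : COLN_s := coln_row fVAL fGAL
theorem fSEL : SEL_s := sel_row
theorem fROOT : ROOT_s := root_row fVAL fGAL
theorem fBR : BR_s := br_row fVAL fALG fROOT
theorem fINER : INER_s := iner_row fVAL fGAL
theorem fBE : BE_s := be_row fVAL fALG fINER
theorem fFROB : FROB_s := frob_row fVAL fGAL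
theorem fEXC : EXC_s := exc_row fVAL fALG fGCD
theorem fSTR : STR_s := str_row
theorem fDEG : DEG_s := deg_row fALG
theorem fRAT : RAT_s := rat_row fGCD
theorem fHTL : HTL_s := htl_row fPF fVAL fALG

/-! ### Definitions -/

/-- Products of `e` triangles. -/
def Tr3 (e m : ℕ) : Finset (Fin 3 → Fin e → ℕ) :=
  (Fintype.piFinset fun _ : Fin 3 => Fintype.piFinset fun _ : Fin e => range (m + 1)).filter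
    fun t => ∀ j, ∑ k, t k j = m

/-- The moment conditions of the three types. -/
def Mom {e : ℕ} (D : ℕ) (E : Finset (Fin 3 → Fin e → ℕ)) (M : (Fin 3 → Fin e → ℕ) → ℤ)
    (s : (Fin 3 → Fin e → ℕ) → Fin 3 → ℕ) : Prop :=
  ∀ (c : Fin 3) (n i : Fin e → ℕ), ∑ j, i j ≤ D →
    ∑ t ∈ E.filter (fun t => t c = n),
      M t * (-1) ^ s t (c + 1) * ∏ j, ((t (c + 1) j).choose (i j) : ℤ) = 0

/-- Shape of the support of the auxiliary polynomial. -/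
structure Shp {e : ℕ} (m : ℕ) (τ : Fin e → ℝ) (len : ℝ) (E : Finset (Fin 3 → Fin e → ℕ))
    (s : (Fin 3 → Fin e → ℕ) → Fin 3 → ℕ) (T' : Fin 3 → ℕ) (lo : Fin 3 → ℝ) (S0 : ℕ) : Prop where
  sub : E ⊆ Tr3 e m
  win : ∀ t ∈ E, ∀ k, ∑ j, t k j ≤ T' k
  tot : ∑ k, T' k = e * m + 2 * m
  sum : ∀ t ∈ E, ∑ k, s t k = S0
  sle : ∀ t ∈ E, ∀ k, s t k ≤ e * m + 1
  low : ∀ t ∈ E, ∀ k, lo k ≤ s t k - ∑ j, t k j * τ j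
  len : ∑ k, lo k + len = S0 - m * ∑ j, τ j

/-- Binomial weights. -/
def wgt {e : ℕ} (t i : Fin 3 → Fin e → ℕ) : ℤ := ∏ k, ∏ j, ((t k j).choose (i k j) : ℤ)

/-- Monomials. -/
def mon {K : Type} [Field K] {e : ℕ} (A : Fin 3 → K) (η : Fin 3 → Fin e → K) (s : Fin 3 → ℕ)
    (t : Fin 3 → Fin e → ℕ) : K := ∏ k, (A k ^ s k * ∏ j, η k j ^ t k j)

/-- The substitution `z ↦ z - 1` in the last variable. -/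
noncomputable def sh (k : ℕ) : MvPolynomial (Fin (k + 1)) ℤ →+* MvPolynomial (Fin (k + 1)) ℤ :=
  tr (Pi.single (Fin.last k) (-1 : ℤ))

/-- The state of the elimination with two weights. -/
structure St3 (k : ℕ) {K : Type} [Field K] (pt : Fin (k + 1) → K) (ω1 ω2 : Fin (k + 1) → ℝ)
    (m lam μ : ℕ) (γ wd : ℝ) (P : MvPolynomial (Fin (k + 1)) ℤ) : Prop where
  ne : P ≠ 0
  deg : ∀ d ∈ P.support, ∀ j, j ≠ Fin.last k → d j ≤ lam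
  slab : ∃ lo1 lo2 : ℝ, Lo ω1 lo1 P ∧ Lo ω2 lo2 (sh k P) ∧
    ∀ d ∈ P.support, wt ω1 d + wt ω2 d - d (Fin.last k) ≤ lo1 + lo2 + wd * lam
  nrm : nm P ≤ Real.exp (γ * lam)
  ord : Lo (ow k m) μ (tr pt P)

/-- No short integer vector has two small weights. -/
def Dis3 (k : ℕ) (ω1 ω2 : Fin (k + 1) → ℝ) (A wd : ℝ) : Prop :=
  ∀ t t' : Fin (k + 1) → ℤ, (∀ j, j ≠ Fin.last k → t' j = t j) →
    (∃ j, j ≠ Fin.last k ∧ t j ≠ 0) → (∀ j, j ≠ Fin.last k → |(t j : ℝ)| ≤ A) →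
    A * wd < |∑ j, (t j : ℝ) * ω1 j| ∨ A * wd < |∑ j, (t' j : ℝ) * ω2 j|

section

variable {L : Type} [Field L] [NumberField L]

noncomputable def cost3 (A Y : Fin 3 → L) (τ : ℝ) : ℝ := ∑ᶠ v : Pl L,
  max (lg v (Y 0) + τ * lg v (A 0)) (max (lg v (Y 1) + τ * lg v (A 1)) (lg v (Y 2) + τ * lg v (A 2)))

noncomputable def ht3 (A : Fin 3 → L) : ℝ :=
  ∑ᶠ v : Pl L, max (lg v (A 0)) (max (lg v (A 1)) (lg v (A 2)))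

/-- At a place of type `c` the coordinate `A c` is small. -/
structure Hv3 (δ : ℝ) (A : Fin 3 → L) (H : Finset (FinitePlace L)) (c : FinitePlace L → Fin 3)
    (g : FinitePlace L → ℝ) (T : ℕ) : Prop where
  ne : ∀ k, A k ≠ 0
  sum : ∑ k, A k = 0
  pos : ∀ w ∈ H, 0 < g w
  near : ∀ w ∈ H, w (A (c w + 1) / A (c w + 2) + 1) ≤ Real.exp (-(T * g w))
  big : δ * ht3 A ≤ T * ∑ w ∈ H, g w

/-- Two points are congruent on `H`. -/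
def Cg (H : Finset (FinitePlace L)) (c : FinitePlace L → Fin 3) (g : FinitePlace L → ℝ)
    (Y Y' : Fin 3 → L) : Prop := ∀ w ∈ H,
  w (Y (c w + 1) / Y (c w + 2) / (Y' (c w + 1) / Y' (c w + 2)) - 1) ≤ Real.exp (-g w)

/-- Equivariant triples. -/
def Eq3 (t Y : Fin 3 → L) : Prop :=
  ∀ (g : L ≃ₐ[ℚ] L) (k l : Fin 3), g (t k) = t l → g (Y k) = Y l

/-- The conjugates of an approximant in `ℚ(t1)`. -/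
def Apx (x y : ℤ) (t1 t2 t3 : L) (N i : ℕ) (r : ℝ) (Y : Fin 3 → L) : Prop :=
  Ap (de x t1) N i (rho (Qs x y) N) r (Y 0) ∧ Ap (de x t2) N i (rho (Qs x y) N) r (Y 1) ∧
    Eqv t1 t2 (Y 0) (Y 1) ∧
    (dg t1 = 3 → Ap (de x t3) N i (rho (Qs x y) N) r (Y 2) ∧ Eq3 ![t1, t2, t3] Y)

/-- Congruence modulo `w ^ k`. -/
def Cw (w : FinitePlace L) (k : ℕ) (Y Y' : Fin 3 → L) : Prop :=
  w (Y 0 / Y 1 / (Y' 0 / Y' 1) - 1) ≤ (nq w ^ k)⁻¹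

/-- A large unramified prime. -/
structure Big (δ : ℝ) (x y : ℤ) (t1 t2 : L) (p : ℕ) (w : FinitePlace L) (T : ℕ) : Prop where
  pr : p.Prime
  five : 5 ≤ p
  ab : w (p : L) < 1
  cop : ¬((p : ℤ) ∣ x ∧ (p : ℤ) ∣ y)
  tri : Tri w
  one : 1 ≤ T
  val : w (ps x t1 t2 - 1) = (nq w ^ T)⁻¹
  big : δ * ht (ps x t1 t2) ≤ T * Real.log (nq w)

/-- Absolute value of the discriminant of `ℚ(t)`. -/
noncomputable def DF (t : L) : ℝ :=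
  |(NumberField.discr (IntermediateField.adjoin ℚ {t}) : ℝ)|

/-- `y` lies in the box of radius `r`. -/
def Box (δ : L) (N j : ℕ) (r : ℝ) (y : L) : Prop :=
  ∀ φ : L →+* ℂ, ‖φ y‖ ≤ r * ‖φ δ‖ ^ ((j : ℝ) / N)

/-- `b ^ N` is `δ ^ j` up to `ρ`. -/
def Two (δ : 𝓞 L) (N j ρ : ℕ) (b : Ideal (𝓞 L)) : Prop :=
  b ≠ ⊥ ∧ Ideal.span {δ} ^ j ∣ Ideal.span {(ρ : 𝓞 L)} * b ^ N ∧
    b ^ N ∣ Ideal.span {(ρ : 𝓞 L)} * Ideal.span {δ} ^ j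

/-- At least `l` pairwise non-proportional points of `b` in the box. -/
def Lines (δ : 𝓞 L) (N j : ℕ) (r : ℝ) (b : Ideal (𝓞 L)) (l : ℕ) : Prop :=
  ∃ S : Finset (𝓞 L), l ≤ S.card ∧ (∀ u ∈ S, u ∈ b ∧ u ≠ 0 ∧ Box (δ : L) N j r (u : L)) ∧
    ∀ u ∈ S, ∀ u' ∈ S, u ≠ u' → ∀ q : ℚ, (u : L) ≠ q * (u' : L)

/-- The final bound for the height of `ψ`. -/
def Bd2 (ε C : ℝ) (x y : ℤ) (t1 t2 : L) : Prop :=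
  ht (ps x t1 t2) ≤ C * NN x y ^ (1 / 2 + ε)

end

/-! ### The core on the projective plane -/

def CNT3_s : Prop := ∀ σ : ℝ, 0 < σ → σ ≤ 1 → ∀ Lc e1 : ℕ, ∃ e : ℕ, e1 ≤ e ∧ ∀ m D : ℕ, 1 ≤ m →
  (D : ℝ) ≤ (1 / 3 - σ) * (e * m) →
  6 * (e + 1) ^ 2 * Lc ^ 2 * ((Tr3 e m).filter fun t => ∑ j, t 0 j ≤ D).card ≤ (Tr3 e m).card

def SIEG3_s : Prop := ∀ e m D Lc : ℕ, 1 ≤ e → 1 ≤ m → 1 ≤ Lc →
  6 * (e + 1) ^ 2 * Lc ^ 2 * ((Tr3 e m).filter fun t => ∑ j, t 0 j ≤ D).card ≤ (Tr3 e m).card →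
  ∀ τ : Fin e → ℝ, (∀ j, 0 ≤ τ j ∧ τ j ≤ 1) →
  ∃ (E : Finset (Fin 3 → Fin e → ℕ)) (M : (Fin 3 → Fin e → ℕ) → ℤ)
    (s : (Fin 3 → Fin e → ℕ) → Fin 3 → ℕ) (T' : Fin 3 → ℕ) (lo : Fin 3 → ℝ) (S0 : ℕ),
    Shp m τ (2 / Lc) E s T' lo S0 ∧ (∃ t ∈ E, M t ≠ 0) ∧
    ∑ t ∈ E, |(M t : ℝ)| ≤ Real.exp (4 * (e * m : ℕ)) ∧ Mom D E M s

def POLY_s : Prop := ∀ (e D : ℕ) (ι : Type) (E : Finset ι) (M : ι → ℤ) (t : ι → Fin e → ℕ)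
  (c i' : Fin e → ℕ), (∀ a ∈ E, ∀ j, t a j ≤ c j) →
  (∀ i : Fin e → ℕ, ∑ j, i j ≤ D → ∑ a ∈ E, M a * ∏ j, ((t a j).choose (i j) : ℤ) = 0) →
  ∀ i : Fin e → ℕ, ∑ j, i j + ∑ j, i' j ≤ D →
    ∑ a ∈ E, (M a * ∏ j, ((c j - t a j).choose (i' j) : ℤ)) * ∏ j, ((t a j).choose (i j) : ℤ) = 0

/-- The local estimate at a finite place of type `c`. -/
def LOC3_s : Prop := ∀ (L : Type) [Field L] [NumberField L] (w : FinitePlace L) (e m D r S0 : ℕ)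
  (τ : Fin e → ℝ) (len : ℝ) (E : Finset (Fin 3 → Fin e → ℕ)) (M : (Fin 3 → Fin e → ℕ) → ℤ)
  (s : (Fin 3 → Fin e → ℕ) → Fin 3 → ℕ) (T' : Fin 3 → ℕ) (lo : Fin 3 → ℝ) (A : Fin 3 → L)
  (η : Fin 3 → Fin e → L) (c : Fin 3) (g X : ℝ) (i : Fin 3 → Fin e → ℕ), 1 ≤ e → 1 ≤ m → len < 1 →
  Shp m τ len E s T' lo S0 → ∑ t ∈ E, |(M t : ℝ)| ≤ Real.exp (4 * (e * m : ℕ)) → Mom D E M s →
  (∀ k, A k ≠ 0) → (∀ k j, η k j ≠ 0) → r + ∑ k, ∑ j, i k j ≤ D + 1 → r ≤ e * m → 0 < g → 0 ≤ X →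
  w (A (c + 1) / A (c + 2) + 1) ≤ Real.exp (-((e * m : ℕ) * g)) →
  (∀ j, w (η (c + 1) j / η (c + 2) j - 1) ≤ Real.exp (-g)) →
  (∀ t ∈ E, w (mon A η (s t) t) ≤ X) →
  w (∑ t ∈ E, ((M t * wgt t i : ℤ) : L) * mon A η (s t) t) ≤ Real.exp (-(r * g)) * X

/-- Liouville step. -/
def LIOU3_s : Prop := ∀ (L : Type) [Field L] [NumberField L], finrank ℚ L ≤ 6 →
  ∀ (e m D r S0 : ℕ) (τ : Fin e → ℝ) (len τ0 κ : ℝ) (E : Finset (Fin 3 → Fin e → ℕ))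
  (M : (Fin 3 → Fin e → ℕ) → ℤ) (s : (Fin 3 → Fin e → ℕ) → Fin 3 → ℕ) (T' : Fin 3 → ℕ)
  (lo : Fin 3 → ℝ) (A Y0 : Fin 3 → L) (Y : Fin e → Fin 3 → L) (H : Finset (FinitePlace L))
  (c : FinitePlace L → Fin 3) (g : FinitePlace L → ℝ) (i : Fin 3 → Fin e → ℕ),
  1 ≤ e → 1 ≤ m → 0 ≤ len → len < 1 →
  Shp m τ len E s T' lo S0 → ∑ t ∈ E, |(M t : ℝ)| ≤ Real.exp (4 * (e * m : ℕ)) → Mom D E M s →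
  (∀ k, A k ≠ 0) → (∀ k, Y0 k ≠ 0) → (∀ j k, Y j k ≠ 0) →
  r + ∑ k, ∑ j, i k j ≤ D + 1 → r ≤ e * m →
  cost3 A Y0 τ0 ≤ κ → (∀ j, cost3 A (Y j) (τ0 + τ j) ≤ κ) →
  (∀ w ∈ H, 0 < g w ∧ w (A (c w + 1) / A (c w + 2) + 1) ≤ Real.exp (-((e * m : ℕ) * g w))) →
  (∀ j, Cg H c g (Y j) Y0) →
  len * ht3 A + (e + 2) * m * κ + 30 * (e * m) < r * ∑ w ∈ H, g w →
  ∑ t ∈ E, ((M t * wgt t i : ℤ) : L) * mon A (fun k j => Y j k / Y0 k) (s t) t = 0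

/-- The auxiliary polynomial in `2 e + 1` variables. -/
def AUX3_s : Prop := ∀ (K : Type) [Field K] (e m μ S0 : ℕ) (τ : Fin e → ℝ) (len : ℝ)
  (E : Finset (Fin 3 → Fin e → ℕ)) (M : (Fin 3 → Fin e → ℕ) → ℤ)
  (s : (Fin 3 → Fin e → ℕ) → Fin 3 → ℕ) (T' : Fin 3 → ℕ) (lo : Fin 3 → ℝ) (A : Fin 3 → K)
  (η : Fin 3 → Fin e → K), 1 ≤ e → 1 ≤ m → len ≤ 1 → Shp m τ len E s T' lo S0 →
  (∃ t ∈ E, M t ≠ 0) → ∑ t ∈ E, |(M t : ℝ)| ≤ Real.exp (4 * (e * m : ℕ)) →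
  (∀ k, A k ≠ 0) → ∑ k, A k = 0 → (∀ k j, η k j ≠ 0) →
  (∀ i : Fin 3 → Fin e → ℕ, ∑ k, ∑ j, i k j < μ →
    ∑ t ∈ E, ((M t * wgt t i : ℤ) : K) * mon A η (s t) t = 0) →
  ∃ P, St3 (e + e)
    (Fin.snoc (Fin.append (fun j => η 0 j / η 2 j) (fun j => η 1 j / η 2 j)) (A 0 / A 2) :
      Fin (e + e + 1) → K)
    (Fin.snoc (Fin.append (fun j => -τ j) (fun _ => 0)) 1 : Fin (e + e + 1) → ℝ)
    (Fin.snoc (Fin.append (fun _ => 0) (fun j => -τ j)) 1 : Fin (e + e + 1) → ℝ)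
    μ (e * m) μ 6 (1 / (e * m : ℕ)) P

/-- Order at `0` plus order at `-1` is at most the degree, for each coefficient. -/
def KEY_s : Prop := ∀ (k : ℕ) (P : MvPolynomial (Fin (k + 1)) ℤ), ∀ d ∈ P.support,
  ∃ d1 ∈ P.support, ∃ d2 ∈ (sh k P).support, ∃ d3 ∈ P.support,
    (∀ j, j ≠ Fin.last k → d1 j = d j ∧ d2 j = d j ∧ d3 j = d j) ∧
    d1 (Fin.last k) + d2 (Fin.last k) ≤ d3 (Fin.last k)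

def ZED3_s : Prop := ∀ (k : ℕ) (ε γ : ℝ), 0 < ε → 0 ≤ γ → ∃ A : ℕ, ∃ C : ℝ, 1 ≤ A ∧ 0 ≤ C ∧
  ∀ (K : Type) [Field K] [CharZero K] (pt : Fin (k + 1) → K) (ω1 ω2 : Fin (k + 1) → ℝ)
    (m lam μ : ℕ) (wd : ℝ) (P : MvPolynomial (Fin (k + 1)) ℤ), St3 k pt ω1 ω2 m lam μ γ wd P →
    ω1 (Fin.last k) = 1 → ω2 (Fin.last k) = 1 →
    (∀ j, j ≠ Fin.last k → pt j ≠ 0) → 0 ≤ wd → Dis3 k ω1 ω2 A wd → 1 ≤ m → 6 ≤ μ → μ ≤ lam →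
    ε * lam ≤ μ → OutN (pt (Fin.last k)) (C * m)

def HT3_s : Prop := ∀ (L : Type) [Field L] [NumberField L] (A : Fin 3 → L), (∀ k, A k ≠ 0) →
  ∑ k, A k = 0 →
  (∀ (H : Finset (FinitePlace L)) (c : FinitePlace L → Fin 3),
    ∑ w ∈ H, -Real.log (w (A (c w + 1) / A (c w + 2) + 1)) ≤ 3 * ht3 A) ∧
  ∀ a b : Fin 3, a ≠ b → ht3 A ≤ ht (A a / A b) + finrank ℚ L ∧
    ht3 A ≤ ht (-(A a / A b)) + finrank ℚ L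

def CORE3_s : Prop := ∀ σ δ : ℝ, 0 < σ → σ ≤ 1 / 100 → 0 < δ → ∃ e A0 : ℕ, ∃ C : ℝ,
  1 ≤ e ∧ 1 ≤ A0 ∧ 1 ≤ C ∧ ∀ (L : Type) [Field L] [NumberField L], finrank ℚ L ≤ 6 →
  ∀ (A Y0 : Fin 3 → L) (Y : Fin e → Fin 3 → L) (τ0 κ : ℝ) (τ : Fin e → ℝ) (m : ℕ)
    (H : Finset (FinitePlace L)) (c : FinitePlace L → Fin 3) (g : FinitePlace L → ℝ),
    (∀ k, Y0 k ≠ 0) → (∀ j k, Y j k ≠ 0) → (∀ j, 0 ≤ τ j ∧ τ j ≤ 1) → C ≤ m →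
    (∀ (s : ℤ) (t : Fin e → ℤ), t ≠ 0 → (∀ j, |t j| ≤ A0) →
      (A0 : ℝ) / (e * m : ℕ) < |s - ∑ j, t j * τ j|) →
    cost3 A Y0 τ0 ≤ κ → (∀ j, cost3 A (Y j) (τ0 + τ j) ≤ κ) → Hv3 δ A H c g (e * m) →
    (∀ j, Cg H c g (Y j) Y0) → C ≤ ∑ w ∈ H, g w → κ ≤ (1 / 3 - 6 * σ) * ∑ w ∈ H, g w → False

def KILL3_s : Prop := ∀ σ δ : ℝ, 0 < σ → σ ≤ 1 / 100 → 0 < δ → ∃ C : ℝ, 1 ≤ C ∧ ∀ T : ℕ, C ≤ T →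
  ∃ N c0 I : ℕ, 1 ≤ N ∧ 1 ≤ c0 ∧ 1 ≤ I ∧ c0 * I ≤ N ∧ T ≤ C * I ∧
  ∀ (L : Type) [Field L] [NumberField L], finrank ℚ L ≤ 6 →
  ∀ (A : Fin 3 → L) (H : Finset (FinitePlace L)) (c : FinitePlace L → Fin 3)
    (g : FinitePlace L → ℝ), Hv3 δ A H c g T → C ≤ ∑ w ∈ H, g w →
    ∀ P : Finset (ℕ × (Fin 3 → L)), (∀ q ∈ P, c0 ∣ q.1 ∧ q.1 < c0 * I ∧ (∀ k, q.2 k ≠ 0) ∧
        cost3 A q.2 ((q.1 : ℝ) / N) ≤ (1 / 3 - 6 * σ) * ∑ w ∈ H, g w) →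
      (∀ q ∈ P, ∀ q' ∈ P, q.1 = q'.1 → q = q') → (∀ q ∈ P, ∀ q' ∈ P, Cg H c g q.2 q'.2) →
      (P.card : ℝ) ≤ C

/-- `KILL_s` with `N, c, I` depending on `T` only. -/
def KILL2_s : Prop := ∀ σ δ : ℝ, 0 < σ → σ ≤ 1 / 16 → 0 < δ → ∃ C : ℝ, 1 ≤ C ∧ ∀ T : ℕ, C ≤ T →
  ∃ N c0 I : ℕ, 1 ≤ N ∧ 1 ≤ c0 ∧ 1 ≤ I ∧ c0 * I ≤ N ∧ T ≤ C * I ∧
  ∀ (L : Type) [Field L] [NumberField L], finrank ℚ L ≤ 6 →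
  ∀ (ψ : L) (H : Finset (Pl L)) (g : Pl L → ℝ), ψ ≠ 0 → ψ ≠ 1 → Hv δ ψ H g T →
    C ≤ ∑ v ∈ H, g v →
    ∀ P : Finset (ℕ × L), (∀ q ∈ P, c0 ∣ q.1 ∧ q.1 < c0 * I ∧ q.2 ≠ 0 ∧
        cost ψ q.2 ((q.1 : ℝ) / N) ≤ (1 / 2 - 6 * σ) * ∑ v ∈ H, g v) →
      (∀ q ∈ P, ∀ q' ∈ P, q.1 = q'.1 → q = q') →
      (∀ q ∈ P, ∀ q' ∈ P, ∀ v ∈ H, av v (q.2 / q'.2 - 1) ≤ Real.exp (-g v)) → (P.card : ℝ) ≤ C

def COST3_s : Prop := ∀ (L : Type) [Field L] [NumberField L] (A Y δ : Fin 3 → L) (W : L)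
  (N i ρ : ℕ) (r : ℝ), W ≠ 0 → (∀ k, δ k * A k = W) → 1 ≤ N → 1 ≤ ρ → 1 ≤ r →
  (∀ k, Ap (δ k) N i ρ r (Y k)) →
  cost3 A Y ((i : ℝ) / N) ≤ finrank ℚ L * (Real.log r + Real.log ρ / N)

/-! ### Places above `p` and colours -/

def ORB_s : Prop := ∀ (L : Type) [Field L] [NumberField L], IsGalois ℚ L →
  ∀ (w : FinitePlace L) (p : ℕ), p.Prime → w (p : L) = (nq w)⁻¹ →
  ∃ H : Finset (FinitePlace L), ∑ w' ∈ H, Real.log (nq w') = finrank ℚ L * Real.log p ∧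
    ∀ w' ∈ H, nq w' = nq w ∧ ∃ g : L ≃ₐ[ℚ] L, ∀ u : L, w' (g u) = w u

def RESK_s : Prop := ∀ (L : Type) [Field L] [NumberField L] (w : FinitePlace L) (p : ℕ)
  (g : L ≃ₐ[ℚ] L), p.Prime → w (p : L) = (nq w)⁻¹ → (∀ u : L, w u ≤ 1 → w (g u - u ^ p) < 1) →
  ∀ (k : ℕ) (u : L), g u = u → w u ≤ 1 → ∃ n : ℕ, n < p ^ k ∧ w (u - n) ≤ (nq w ^ k)⁻¹

def COLK_s : Prop := ∀ (L : Type) [Field L] [NumberField L] (x y : ℤ) (t1 t2 t3 : L),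
  Cub x y t1 t2 t3 → ∀ (δ : ℝ) (p : ℕ) (w : FinitePlace L) (T k B : ℕ),
  Big δ x y t1 t2 p w T → 1 ≤ k → ∃ col : L → ℕ,
    (∀ a : L, col a < (2 * B + 2) * p ^ k) ∧ ∀ a a' : L,
      (a ≠ 0 ∧ (∀ τ, Sw t1 t2 τ → τ a = a⁻¹) ∧ |Real.log (w a)| ≤ B * Real.log p) →
      (a' ≠ 0 ∧ (∀ τ, Sw t1 t2 τ → τ a' = a'⁻¹) ∧ |Real.log (w a')| ≤ B * Real.log p) →
      col a = col a' → w (a / a' - 1) ≤ (nq w ^ k)⁻¹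

def UNITB_s : Prop := ∀ (L : Type) [Field L] [NumberField L] (w : FinitePlace L) (ψ a : L)
  (τ : ℝ), ψ ≠ 0 → a ≠ 0 → w ψ = 1 → |Real.log (w a)| ≤ cost ψ a τ

/-- The field `ℚ(t1)` and its embeddings. -/
def EMB_s : Prop := ∀ (L : Type) [Field L] [NumberField L] (x y : ℤ) (t1 t2 t3 : L),
  Cub x y t1 t2 t3 → (dg t1 = 2 → ∀ g : L ≃ₐ[ℚ] L, g t3 = t3) ∧
  ∃ (F : Type) (_ : Field F) (_ : NumberField F) (δ : 𝓞 F) (σ : Fin 3 → (F →+* L)),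
    finrank ℚ F = dg t1 ∧
    NumberField.discr F = NumberField.discr (IntermediateField.adjoin ℚ {t1}) ∧
    δ ∣ (((6 * (x ^ 3 - y ^ 2)).natAbs : ℕ) : 𝓞 F) ∧ σ 0 ≠ σ 1 ∧
    (dg t1 = 3 → Function.Injective σ) ∧ σ 0 δ = de x t1 ∧ σ 1 δ = de x t2 ∧
    ∀ (N i : ℕ) (r : ℝ) (u : F), Ap (δ : F) N i (rho (Qs x y) N) r u →
      Apx x y t1 t2 t3 N i r (fun k => σ k u)

def PD_s : Prop := ∀ (L : Type) [Field L] [NumberField L] (x y : ℤ) (t1 t2 t3 : L),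
  Cub x y t1 t2 t3 → ∀ (a : ℕ) (b : ℤ), Sq x y a → x ^ 3 - y ^ 2 = (a : ℤ) ^ 2 * b →
  NumberField.discr (IntermediateField.adjoin ℚ {t1}) ∣ 432 * b

/-- Few congruent approximants, in degree `n`. -/
def KFAt (n : ℕ) : Prop := ∀ (σ δ : ℝ) (k0 : ℕ), 0 < σ → σ ≤ 1 / 100 → 0 < δ → 1 ≤ k0 →
  ∃ C : ℝ, 1 ≤ C ∧ ∀ T : ℕ, C ≤ T →
  ∃ N c I : ℕ, 1 ≤ N ∧ 1 ≤ c ∧ 1 ≤ I ∧ c * I ≤ N ∧ T ≤ C * I ∧
  ∀ (L : Type) [Field L] [NumberField L] (x y : ℤ) (t1 t2 t3 : L), Cub x y t1 t2 t3 →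
  dg t1 = n → ∀ (p : ℕ) (w : FinitePlace L), Big δ x y t1 t2 p w T → C ≤ Real.log p →
  ∀ (k : ℕ) (r : ℝ), 1 ≤ k → k ≤ k0 → 1 ≤ r →
    n * Real.log r + (Qs x y).card ≤ (1 - 18 * σ) * (k * Real.log p) →
    ∀ P : Finset (ℕ × (Fin 3 → L)),
      (∀ q ∈ P, c ∣ q.1 ∧ q.1 < c * I ∧ Apx x y t1 t2 t3 N q.1 r q.2) →
      (∀ q ∈ P, ∀ q' ∈ P, q.1 = q'.1 → q = q') → (∀ q ∈ P, ∀ q' ∈ P, Cw w k q.2 q'.2) →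
      (P.card : ℝ) ≤ C

def KF2_s : Prop := KFAt 2

def KF3_s : Prop := KFAt 3

/-- Counting form: a set of approximants with at most one member for each index and class. -/
def KC_s : Prop := ∀ (σ δ : ℝ) (k0 : ℕ), 0 < σ → σ ≤ 1 / 100 → 0 < δ → 1 ≤ k0 →
  ∃ C : ℝ, 1 ≤ C ∧ ∀ (L : Type) [Field L] [NumberField L] (x y : ℤ) (t1 t2 t3 : L),
  Cub x y t1 t2 t3 → ∀ (p : ℕ) (w : FinitePlace L) (T : ℕ), Big δ x y t1 t2 p w T →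
  C ≤ Real.log p → C ≤ T →
  ∃ N c I : ℕ, 1 ≤ N ∧ 1 ≤ c ∧ 1 ≤ I ∧ c * I ≤ N ∧ T ≤ C * I ∧
  ∀ (k : ℕ) (r : ℝ), 1 ≤ k → k ≤ k0 → 1 ≤ r →
    dg t1 * Real.log r + (Qs x y).card ≤ (1 - 18 * σ) * (k * Real.log p) →
    ∀ P : Finset (ℕ × (Fin 3 → L)),
      (∀ q ∈ P, c ∣ q.1 ∧ q.1 < c * I ∧ Apx x y t1 t2 t3 N q.1 r q.2) →
      (∀ q ∈ P, ∀ q' ∈ P, q.1 = q'.1 → Cw w k q.2 q'.2 → q = q') →
      (P.card : ℝ) ≤ C * (p : ℝ) ^ k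

/-! ### Lattices -/

def LINE_s : Prop := ∀ (F : Type) [Field F] [NumberField F] (δ : 𝓞 F) (N j ρ l : ℕ)
  (b : Ideal (𝓞 F)) (r r0 : ℝ), δ ≠ 0 → 1 ≤ N → 1 ≤ ρ → b ≠ ⊥ → 0 < r → l.Prime →
  b ^ N ∣ Ideal.span {(ρ : 𝓞 F)} * Ideal.span {δ} ^ j →
  Real.exp (finrank ℚ F * (Real.log ρ / N)) * √|(NumberField.discr F : ℝ)| * l < r ^ finrank ℚ F →
  r ≤ l * r0 → (∀ u ∈ b, u ≠ 0 → ¬Box (δ : F) N j r0 (u : F)) → Lines δ N j r b l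

def DET2_s : Prop := ∀ (F L : Type) [Field F] [NumberField F] [Field L] [NumberField L],
  finrank ℚ F = 2 → ∀ (b : Ideal (𝓞 F)) (u u' : 𝓞 F) (σ0 σ1 : F →+* L), σ0 ≠ σ1 → b ≠ ⊥ →
  u ∈ b → u' ∈ b → u' ≠ 0 → (∀ q : ℚ, (u : F) ≠ q * (u' : F)) → ∃ I : ℤ, I ≠ 0 ∧
    (I : L) ^ 2 * (NumberField.discr F : L) * (Ideal.absNorm b : L) ^ 2 =
      (σ0 u * σ1 u' - σ1 u * σ0 u') ^ 2

def DET3_s : Prop := ∀ (F L : Type) [Field F] [NumberField F] [Field L] [NumberField L],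
  finrank ℚ F = 3 → ∀ (b : Ideal (𝓞 F)) (u u' : 𝓞 F) (σ : Fin 3 → (F →+* L)),
  Function.Injective σ → b ≠ ⊥ →
  u ∈ b → u' ∈ b → u' ≠ 0 → (∀ q : ℚ, (u : F) ≠ q * (u' : F)) → ∃ I : ℤ, I ≠ 0 ∧
    (I : L) ^ 2 * (NumberField.discr F : L) * (Ideal.absNorm b : L) ^ 4 =
      ((σ 0 u * σ 1 u' - σ 1 u * σ 0 u') * (σ 1 u * σ 2 u' - σ 2 u * σ 1 u') *
        (σ 2 u * σ 0 u' - σ 0 u * σ 2 u')) ^ 2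

/-- Congruent non-proportional points force a large box. -/
def DisAt (n : ℕ) : Prop := ∀ (F L : Type) [Field F] [NumberField F] [Field L] [NumberField L],
  finrank ℚ F = n → ∀ (w : FinitePlace L) (p k N j : ℕ) (Q : Finset ℕ) (δ u u' : 𝓞 F)
  (b : Ideal (𝓞 F)) (σ : Fin 3 → (F →+* L)) (r : ℝ), p.Prime → w (p : L) = (nq w)⁻¹ →
  ¬(p : ℤ) ∣ NumberField.discr F → σ 0 ≠ σ 1 → (n = 3 → Function.Injective σ) →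
  (∀ q ∈ Q, q.Prime) → 1 ≤ N → δ ≠ 0 → 0 < r → Two δ N j (rho Q N) b →
  u ∈ b → u' ∈ b → u ≠ 0 → u' ≠ 0 → Box (δ : F) N j r (u : F) → Box (δ : F) N j r (u' : F) →
  (∀ q : ℚ, (u : F) ≠ q * (u' : F)) → Cw w k (fun a => σ a u) (fun a => σ a u') →
  (p : ℝ) ^ k * √|(NumberField.discr F : ℝ)| ≤ 8 * Real.exp Q.card * r ^ (n * (n - 1))

def DIS2_s : Prop := DisAt 2

def DIS3_s : Prop := DisAt 3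

def DICH_s : Prop := ∀ ε : ℝ, 0 < ε → ∃ C : ℝ, 1 ≤ C ∧ ∀ (F : Type) [Field F] [NumberField F],
  finrank ℚ F ≤ 3 → ∀ (δ : 𝓞 F) (n0 N l : ℕ) (Q J : Finset ℕ) (r r0 : ℝ), n0 ≠ 0 →
  δ ∣ (n0 : 𝓞 F) → n0.primeFactors ⊆ Q → (∀ q ∈ Q, q.Prime) → 1 ≤ N → Q.Nonempty → J.Nonempty →
  0 < r → 0 < r0 → l.Prime →
  Real.exp Q.card * √|(NumberField.discr F : ℝ)| * l ≤ r ^ finrank ℚ F → r ≤ l * r0 →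
  (1 ≤ r0 ^ finrank ℚ F * Real.exp Q.card ∧ ∃ J' ⊆ J,
    (J.card : ℝ) ≤ C * (r0 ^ finrank ℚ F * Real.exp Q.card) ^ (1 + ε) * Kc Q * J'.card ∧
    ∀ i ∈ J', ∀ i' ∈ J', i' ≤ i → ∃ u : F, Ap (δ : F) N (i - i') (rho Q N) (Real.exp 1) u) ∨
  ∃ J' ⊆ J, ∃ i0 ∈ J, (J.card : ℝ) ≤ 2 * Kc Q * J'.card ∧ ∀ i ∈ J', i0 ≤ i ∧
    ∃ b : Ideal (𝓞 F), Two δ N (i - i0) (rho Q N) b ∧ Lines δ N (i - i0) r b l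

def FAMV_s : Prop := ∀ (L : Type) [Field L] [NumberField L] (x y : ℤ) (t1 t2 t3 : L),
  Cub x y t1 t2 t3 → ∀ (N c I : ℕ) (r : ℝ), 1 ≤ N → 1 ≤ c → 0 < r →
  Real.exp (Qs x y).card * √(DF t1) ≤ r ^ dg t1 →
  ∃ J : Finset ℕ, (I : ℝ) ≤ Kc (Qs x y) * J.card ∧ ∀ i ∈ J, c ∣ i ∧ i < c * I ∧
    ∃ Y, Apx x y t1 t2 t3 N i r Y

def FAMW_s : Prop := ∀ ε : ℝ, 0 < ε → ∃ C : ℝ, 1 ≤ C ∧
  ∀ (L : Type) [Field L] [NumberField L] (x y : ℤ) (t1 t2 t3 : L), Cub x y t1 t2 t3 →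
  ∀ (δ : ℝ) (p : ℕ) (w : FinitePlace L) (T : ℕ), Big δ x y t1 t2 p w T →
  ∀ (N c I k l : ℕ) (r r0 : ℝ), 1 ≤ N → 1 ≤ c → 1 ≤ I → 0 < r → 0 < r0 → l.Prime →
  Real.exp (Qs x y).card * √(DF t1) * l ≤ r ^ dg t1 → r ≤ l * r0 →
  8 * Real.exp (Qs x y).card * r ^ (dg t1 * (dg t1 - 1)) < (p : ℝ) ^ k * √(DF t1) →
  (1 ≤ r0 ^ dg t1 * Real.exp (Qs x y).card ∧ ∃ J : Finset ℕ,
    (I : ℝ) ≤ C * (r0 ^ dg t1 * Real.exp (Qs x y).card) ^ (1 + ε) * Kc (Qs x y) * J.card ∧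
    ∀ i ∈ J, c ∣ i ∧ i < c * I ∧ ∃ Y, Apx x y t1 t2 t3 N i (Real.exp 1) Y) ∨
  ∃ J : Finset ℕ, (I : ℝ) ≤ 2 * Kc (Qs x y) * J.card ∧ ∀ i ∈ J, c ∣ i ∧ i < c * I ∧
    ∃ S : Finset (Fin 3 → L), l ≤ S.card ∧ (∀ Y ∈ S, Apx x y t1 t2 t3 N i r Y) ∧
      ∀ Y ∈ S, ∀ Y' ∈ S, Cw w k Y Y' → Y = Y'

/-! ### Choice of the parameters and the final bound -/

def AriAt (n : ℕ) : Prop := ∀ ε lam : ℝ, 0 < ε → 0 < lam → ∃ (σ c0 C : ℝ) (k0 : ℕ),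
  0 < σ ∧ σ ≤ 1 / 100 ∧ 0 ≤ c0 ∧ 1 ≤ C ∧ 1 ≤ k0 ∧ ∀ (p : ℕ) (D q M : ℝ), 2 ≤ p → 1 ≤ D → 0 ≤ q →
  2 ≤ M → D * p ≤ 432 * M → Real.log M ≤ lam * Real.log p → c0 + c0 * q ≤ Real.log p →
  n + q ≤ (1 - 18 * σ) * Real.log p ∧ ∃ (k : ℕ) (r : ℝ), 1 ≤ k ∧ k ≤ k0 ∧ 1 ≤ r ∧
    n * Real.log r + q ≤ (1 - 18 * σ) * (k * Real.log p) ∧
    ((Real.exp q * √D ≤ r ^ n ∧ (p : ℝ) ^ k ≤ C * M ^ (1 / 2 + ε)) ∨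
      ∃ (l : ℕ) (r0 : ℝ), l.Prime ∧ 0 < r0 ∧ Real.exp q * √D * l ≤ r ^ n ∧ r ≤ l * r0 ∧
        8 * Real.exp q * r ^ (n * (n - 1)) < (p : ℝ) ^ k * √D ∧
        (p : ℝ) ^ k ≤ l * (C * M ^ (1 / 2 + ε)) ∧
        (1 ≤ r0 ^ n * Real.exp q → (r0 ^ n * Real.exp q) ^ (1 + ε) * p ≤ C * M ^ (1 / 2 + 2 * ε)))

def ARI2_s : Prop := AriAt 2

def ARI3_s : Prop := AriAt 3

/-- The large unramified prime. -/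
def CPU_s : Prop := ∀ δ ε η : ℝ, 0 < δ → 0 < ε → 0 < η → ∃ c0 C : ℝ, 0 ≤ c0 ∧ 0 ≤ C ∧
  ∀ (L : Type) [Field L] [NumberField L] (x y : ℤ) (t1 t2 t3 : L), Cub x y t1 t2 t3 →
  ∀ (p : ℕ) (w : FinitePlace L) (T : ℕ), Big δ x y t1 t2 p w T →
    c0 + c0 * (Qs x y).card ≤ Real.log p → η * Real.log (Rad x y) ≤ Real.log p →
    (T : ℝ) ≤ C * NN x y ^ (1 / 2 + ε)

def CA2_s : Prop := ∀ δ ε : ℝ, 0 < δ → 0 < ε → ∃ C : ℝ, 0 ≤ C ∧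
  ∀ (L : Type) [Field L] [NumberField L] (x y : ℤ) (t1 t2 t3 : L), Cub x y t1 t2 t3 →
  ∀ φ : L →+* ℂ, δ * ht (ps x t1 t2) ≤ -lg (Sum.inl φ) (ps x t1 t2 - 1) → Bd2 ε C x y t1 t2

def CS2_s : Prop := ∀ δ ε : ℝ, 0 < δ → 0 < ε → ∃ η : ℝ, 0 < η ∧ ∀ c0 : ℝ, 0 ≤ c0 → ∃ C : ℝ, 0 ≤ C ∧
  ∀ (L : Type) [Field L] [NumberField L] (x y : ℤ) (t1 t2 t3 : L), Cub x y t1 t2 t3 →
  ∀ S : Finset (FinitePlace L), (∀ w ∈ S, w (ps x t1 t2 - 1) < 1 ∧ ∃ q ∈ Qs x y, w (q : L) < 1 ∧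
      Real.log q ≤ c0 + c0 * (Qs x y).card + η * Real.log (Rad x y)) →
    δ * ht (ps x t1 t2) ≤ ∑ w ∈ S, -lg (Sum.inr w) (ps x t1 t2 - 1) → Bd2 ε C x y t1 t2

def CP2_s : Prop := ∀ δ ε η : ℝ, 0 < δ → 0 < ε → 0 < η → ∃ c0 : ℝ, 0 ≤ c0 ∧ ∃ C : ℝ, 0 ≤ C ∧
  ∀ (L : Type) [Field L] [NumberField L] (x y : ℤ) (t1 t2 t3 : L), Cub x y t1 t2 t3 →
  ∀ (p : ℕ) (w : FinitePlace L), p ∈ Qs x y → w (p : L) < 1 →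
    c0 + c0 * (Qs x y).card ≤ Real.log p → η * Real.log (Rad x y) ≤ Real.log p →
    w (ps x t1 t2 - 1) < 1 →
    δ * ht (ps x t1 t2) ≤ -lg (Sum.inr w) (ps x t1 t2 - 1) → Bd2 ε C x y t1 t2

def MAIN2_s : Prop := ∀ ε : ℝ, 0 < ε → ∃ C : ℝ, 0 ≤ C ∧
  ∀ (L : Type) [Field L] [NumberField L] (x y : ℤ) (t1 t2 t3 : L), Cub x y t1 t2 t3 →
    Bd2 ε C x y t1 t2

def TOP2_s : Prop := ∀ ε : ℝ, 0 < ε → ∃ C : ℝ, ∀ x y : ℤ, x ^ 3 ≠ y ^ 2 →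
  (∀ q : ℕ, q.Prime → ¬((q : ℤ) ^ 2 ∣ x ∧ (q : ℤ) ^ 3 ∣ y)) →
  Real.log (max (|(x : ℝ)| ^ 3) ((y : ℝ) ^ 2)) ≤
    C * ((∏ p ∈ (x ^ 3 - y ^ 2).natAbs.primeFactors, (p : ℝ)) *
      ∏ p ∈ (Int.gcd x y).primeFactors, (p : ℝ)) ^ (1 / 2 + ε)

def RED2_s : Prop := ∀ ε : ℝ, 0 < ε → ∃ C : ℝ, ∀ x y : ℤ, x ^ 3 ≠ y ^ 2 →
  Real.log (max (|(x : ℝ)| ^ 3) ((y : ℝ) ^ 2)) ≤ Real.log (Int.gcd (x ^ 3) (y ^ 2)) +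
    C * ((∏ p ∈ (x ^ 3 - y ^ 2).natAbs.primeFactors, (p : ℝ)) *
      ∏ p ∈ (Int.gcd x y).primeFactors, (p : ℝ)) ^ (1 / 2 + ε)

end Pool.Agent.MP_2a5a28_nt.H63Y
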