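import Pool.Agent.MP_2a5a28_nt.H63Y.A
import Pool.Agent.MP_2a5a28_nt.H63Y.B
import Pool.Agent.MP_2a5a28_nt.H63Y.C
import Pool.Agent.MP_2a5a28_nt.H63Y.D

set_option autoImplicit false

namespace Pool.Agent.MP_2a5a28_nt.H63Y

theorem top : RED2_s := by
  have hCNT3 : CNT3_s := cnt3_row 
  have hSIEG3 : SIEG3_s := sieg3_row 
  have hPOLY : POLY_s := poly_row 
  have hLOC3 : LOC3_s := loc3_row hPOLY
  have hLIOU3 : LIOU3_s := liou3_row hLOC3
  have hAUX3 : AUX3_s := aux3_row 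
  have hKEY : KEY_s := key_row 
  have hZED3 : ZED3_s := zed3_row hKEY
  have hHT3 : HT3_s := ht3_row 
  have hCORE3 : CORE3_s := core3_row hCNT3 hSIEG3 hLIOU3 hAUX3 hZED3 hHT3
  have hKILL3 : KILL3_s := kill3_row hCORE3
  have hKILL2 : KILL2_s := kill2_row 
  have hCOST3 : COST3_s := cost3_row 
  have hORB : ORB_s := orb_row 
  have hRESK : RESK_s := resk_row 
  have hCOLK : COLK_s := colk_row hRESK
  have hUNITB : UNITB_s := unitb_row 
  have hEMB : EMB_s := emb_row 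
  have hPD : PD_s := pd_row 
  have hKF2 : KF2_s := kf2_row hKILL2 hORB hEMB
  have hKF3 : KF3_s := kf3_row hKILL3 hCOST3 hORB hHT3
  have hKC : KC_s := kc_row hKF2 hKF3 hCOLK hUNITB
  have hLINE : LINE_s := line_row 
  have hDET2 : DET2_s := det2_row 
  have hDET3 : DET3_s := det3_row 
  have hDIS2 : DIS2_s := dis2_row hDET2
  have hDIS3 : DIS3_s := dis3_row hDET3
  have hDICH : DICH_s := dich_row hLINE
  have hFAMV : FAMV_s := famv_row hEMB
  have hFAMW : FAMW_s := famw_row hEMB hPD hDICH hDIS2 hDIS3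
  have hARI2 : ARI2_s := ari2_row 
  have hARI3 : ARI3_s := ari3_row 
  have hCPU : CPU_s := cpu_row hKC hFAMV hFAMW hARI2 hARI3
  have hCA2 : CA2_s := ca2_row 
  have hCS2 : CS2_s := cs2_row 
  have hCP2 : CP2_s := cp2_row hCPU
  have hMAIN2 : MAIN2_s := main2_row hCA2 hCS2 hCP2
  have hTOP2 : TOP2_s := top2_row hMAIN2
  have hRED2 : RED2_s := red2_row hTOP2
  exact hRED2

end Pool.Agent.MP_2a5a28_nt.H63Y
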